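import Pool.Agent.Helper3.Chord.Flow

set_option autoImplicit false

/-!
# Large sets of directions (MP_150b3d_gt): definitions

`K` is a smooth strictly convex planar body, `u0` a unit vector (think of it as horizontal),
`wd u0 ε = u0 + ε • rot u0` are the directions near `u0`, `cross u0 x` is the height of `x`.
-/

namespace ChordMaps

open Classical in
/-- the counterclockwise unit tangent vector of `K` at the boundary point `x`
(`K` lies to the left of it) -/
noncomputable def tang (K : Set Plane) (x : Plane) : Plane :=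
  if h : ∃ T : Plane, ‖T‖ = 1 ∧ ∀ z ∈ K, 0 ≤ cross T (z - x) then h.choose else 0

/-- standing assumptions on the body -/
structure SBody (K : Set Plane) : Prop where
  cpt : IsCompact K
  str : StrictConvex ℝ K
  int : (interior K).Nonempty
  smo : Smooth K

/-- the directions near `u0` -/
noncomputable def wd (u0 : Plane) (ε : ℝ) : Plane := u0 + ε • rot u0

/-- invariance under the chord map in direction `v` -/
def Inv (K M : Set Plane) (v : Plane) : Prop := ∀ x ∈ M, chord K v x ∈ M

/-- boundary points whose height is at least `κ` above the minimum and at least `κ` below the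
maximum of the height `cross u0` on `K` -/
def Reg (K : Set Plane) (u0 : Plane) (κ : ℝ) : Set Plane :=
  {x | x ∈ frontier K ∧ (∃ z ∈ K, cross u0 z + κ ≤ cross u0 x) ∧
    ∃ z ∈ K, cross u0 x + κ ≤ cross u0 z}

/-- the part of `Reg` on the right side -/
def Rp (K : Set Plane) (u0 : Plane) (κ : ℝ) : Set Plane :=
  {x | x ∈ Reg K u0 κ ∧ 0 < cross u0 (tang K x)}

/-- the density of the invariant measure of the limit flow: `g = |sin| / (chord length)` -/
noncomputable def gw (K : Set Plane) (u0 x : Plane) : ℝ :=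
  |cross u0 (tang K x)| / dist x (chord K u0 x)

/-- the composition of two chord maps in directions near `u0` -/
noncomputable def rmap (K : Set Plane) (u0 : Plane) (ε1 ε2 : ℝ) (x : Plane) : Plane :=
  chord K (wd u0 ε1) (chord K (wd u0 ε2) x)

/-- `M` is a set of boundary points, invariant under the chord maps in the two different
directions `wd u0 ε1`, `wd u0 ε2`, which are `δ`-close to `u0`; all gaps (edges of the convex
hull) of `M` are shorter than `δ`, and no point of `M` is `η0`-isolated from the rest in the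
sense that `M ⊆ ball a η0` -/
structure Adm (K : Set Plane) (u0 : Plane) (η0 δ ε1 ε2 : ℝ) (M : Set Plane) : Prop where
  sub : M ⊆ frontier K
  h1 : |ε1| < δ
  h2 : |ε2| < δ
  ne : ε1 ≠ ε2
  inv1 : Inv K M (wd u0 ε1)
  inv2 : Inv K M (wd u0 ε2)
  small : ∀ a b, Edge M a b → dist a b < δ
  fat : ∀ a ∈ M, ∃ c ∈ M, η0 ≤ dist a c

lemma Adm.mono {K : Set Plane} {u0 : Plane} {η0 δ δ' ε1 ε2 : ℝ} {M : Set Plane}
    (h : Adm K u0 η0 δ ε1 ε2 M) (hδ : δ ≤ δ') : Adm K u0 η0 δ' ε1 ε2 M :=
  ⟨h.sub, h.h1.trans_le hδ, h.h2.trans_le hδ, h.ne, h.inv1, h.inv2,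
    fun a b hab => (h.small a b hab).trans_le hδ, h.fat⟩

lemma Adm.symm {K : Set Plane} {u0 : Plane} {η0 δ ε1 ε2 : ℝ} {M : Set Plane}
    (h : Adm K u0 η0 δ ε1 ε2 M) : Adm K u0 η0 δ ε2 ε1 M :=
  ⟨h.sub, h.h2, h.h1, h.ne.symm, h.inv2, h.inv1, h.small, h.fat⟩

lemma SBody.cvx {K : Set Plane} (hK : SBody K) : Convex ℝ K := hK.str.convex

lemma SBody.clo {K : Set Plane} (hK : SBody K) : IsClosed K := hK.cpt.isClosed

lemma cross_rot (u : Plane) : cross u (rot u) = ‖u‖ ^ 2 := by
  rw [EuclideanSpace.norm_sq_eq, Fin.sum_univ_two]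
  simp [rot, cross]
  ring

lemma cross_wd {u0 : Plane} (hu : ‖u0‖ = 1) (ε1 ε2 : ℝ) :
    cross (wd u0 ε1) (wd u0 ε2) = ε2 - ε1 := by
  have h1 : cross u0 (rot u0) = 1 := by rw [cross_rot, hu]; norm_num
  have h2 : cross (rot u0) u0 = -1 := by rw [cross_comm, h1]
  unfold wd
  rw [cross_add_left, cross_add_right, cross_add_right, cross_smul_left, cross_smul_right,
    cross_smul_left, cross_smul_right, cross_self, cross_self, h1, h2]
  ring

lemma wd_ne_zero {u0 : Plane} (hu : ‖u0‖ = 1) (ε : ℝ) : wd u0 ε ≠ 0 := by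
  intro h
  have h1 : cross (wd u0 ε) (wd u0 (ε + 1)) = 1 := by rw [cross_wd hu]; ring
  rw [h] at h1
  simp [cross] at h1

lemma wd_zero (u0 : Plane) : wd u0 0 = u0 := by unfold wd; simp

lemma wd_neg (u0 : Plane) (ε : ℝ) : wd (-u0) ε = - wd u0 ε := by
  unfold wd
  have : rot (-u0) = - rot u0 := by
    ext i; fin_cases i <;> simp [rot]
  rw [this, smul_neg, neg_add]

lemma norm_rot (u : Plane) : ‖rot u‖ = ‖u‖ := by
  have h : ‖rot u‖ ^ 2 = ‖u‖ ^ 2 := by
    rw [EuclideanSpace.norm_sq_eq, EuclideanSpace.norm_sq_eq, Fin.sum_univ_two, Fin.sum_univ_two]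
    simp [rot]
    ring
  exact (sq_eq_sq₀ (norm_nonneg (rot u)) (norm_nonneg u)).1 h

lemma dist_wd {u0 : Plane} (hu : ‖u0‖ = 1) (ε : ℝ) : dist (wd u0 ε) u0 = |ε| := by
  unfold wd
  rw [dist_eq_norm, add_sub_cancel_left, norm_smul, norm_rot, hu, mul_one, Real.norm_eq_abs]

/-- `|cross u v| ≤ ‖u‖ ‖v‖` -/
lemma abs_cross_le (u v : Plane) : |cross u v| ≤ ‖u‖ * ‖v‖ := by
  rw [← inner_rot, ← norm_rot u]
  exact abs_real_inner_le_norm _ _

lemma continuous_cross_left (v : Plane) : Continuous (fun u : Plane => cross u v) := by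
  unfold cross; fun_prop

lemma continuous_cross_right (u : Plane) : Continuous (fun v : Plane => cross u v) := by
  unfold cross; fun_prop

/-- `u0, rot u0` is an orthonormal basis -/
lemma decomp {u0 : Plane} (hu : ‖u0‖ = 1) (x : Plane) :
    x = (- cross (rot u0) x) • u0 + cross u0 x • rot u0 := by
  have h : u0 0 * u0 0 + u0 1 * u0 1 = 1 := by
    have h1 : ‖u0‖ ^ 2 = 1 := by rw [hu]; norm_num
    rw [EuclideanSpace.norm_sq_eq, Fin.sum_univ_two] at h1
    simp only [Real.norm_eq_abs, sq_abs] at h1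
    nlinarith
  ext i
  fin_cases i
  · simp [rot, cross]
    linear_combination (-(x 0)) * h
  · simp [rot, cross]
    linear_combination (-(x 1)) * h

end ChordMaps
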