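import Pool.Agent.Helper3.LS.Defs

set_option autoImplicit false

/-! # Definitions for the case of a common invariant measure -/

namespace ChordMaps

/-- `P` is a primitive of `1 / (length of the chord of height t)` -/
def MassFun (K : Set Plane) (u0 : Plane) (P : ℝ → ℝ) : Prop :=
  ∀ x ∈ frontier K, cross u0 (tang K x) ≠ 0 →
    HasDerivAt P (dist x (chord K u0 x))⁻¹ (cross u0 x)

/-- the boundary arc from `a` to `b` (counterclockwise) stays on one side: both on the right and
`b` higher, or both on the left and `b` lower -/
def NE (K : Set Plane) (u0 a b : Plane) : Prop :=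
  (0 < cross u0 (tang K a) ∧ 0 < cross u0 (tang K b) ∧ cross u0 a < cross u0 b) ∨
  (cross u0 (tang K a) < 0 ∧ cross u0 (tang K b) < 0 ∧ cross u0 b < cross u0 a)

/-- the chord map in direction `v` preserves the density `gw` -/
def QZero (K : Set Plane) (u0 v : Plane) : Prop :=
  ∀ x ∈ frontier K, cross u0 (tang K x) ≠ 0 → cross u0 (tang K (chord K v x)) ≠ 0 →
    gw K u0 x * |cross v (tang K (chord K v x))| = gw K u0 (chord K v x) * |cross v (tang K x)|

/-- `K` is an ellipse (a nondegenerate affine image of the closed unit disc) -/
def IsEllipse (K : Set Plane) : Prop :=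
  ∃ (A : Plane ≃L[ℝ] Plane) (c : Plane), K = (fun x => A x + c) '' Metric.closedBall 0 1

end ChordMaps
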