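import Pool.Agent.Helper3.LS.Defs

set_option autoImplicit false

/-! # LS-01: the tangent vector

Proof sketches.
* `tang_spec`: `exists_strict_support` (Flow.lean) gives `ν` with `inner ν z < inner ν x` for all
  `z ∈ K`, `z ≠ x`; `ν ≠ 0` since `K` has another point.  With `inner_rot : inner (rot T) z = cross T z`
  choose `T` with `rot T = -ν` (i.e. `T = rot ν`, `rot (rot ν) = -ν`) and normalise.
* `tang_unique`: apply `Smooth` to the outer normals `- rot T` and `- rot (tang K x)`; then compare norms.
* `tang_pos`: if `cross (tang K x) (z - x) = 0`, `z ≠ x`, the midpoint of `x, z` is in `interior K` by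
  strict convexity, but then moving a little in the direction with negative cross contradicts `tang_spec`
  (or use the strict support vector of `exists_strict_support` and uniqueness).
* `chord_tang`: `chord K u x = x - s • u` from `chord_line`. If `cross u (tang K x) = 0` the chord point
  lies on the tangent line, so it is `x` by `tang_pos`.  If `≠ 0` then `chord K u x ≠ x`: otherwise
  `support_of_chord_eq` gives `0 ≤ cross (± u) (z - x)`, and `tang_unique` gives `u ∥ tang K x`.
  Then `cross (tang K x) (chord - x) = s * cross u (tang K x) > 0`.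
* `chord_cross_neg`: apply `chord_tang` and `tang_pos` at `y = chord K u x` (`x - y = s • u`).
* `tang_continuousOn`: sequences: `x n → x` in the compact `frontier K`; a subsequence of `tang K (x n)`
  (unit vectors) converges to some `T`, `‖T‖ = 1`, `0 ≤ cross T (z - x)`; so `T = tang K x`.
-/

namespace ChordMaps

open Topology Filter

variable {K : Set Plane} {x z u T : Plane}

private lemma l01_exists_ne (hK : SBody K) (hx : x ∈ frontier K) : ∃ z ∈ K, z ≠ x := by
  obtain ⟨z, hz⟩ := hK.int
  refine ⟨z, interior_subset hz, ?_⟩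
  rintro rfl
  exact frontier_notMem_interior hx hz

private lemma l01_rot_rot (v : Plane) : rot (rot v) = -v := by
  ext i
  fin_cases i <;> simp [rot]

private lemma l01_ex (hK : SBody K) (hx : x ∈ frontier K) :
    ∃ T : Plane, ‖T‖ = 1 ∧ ∀ z ∈ K, z ≠ x → 0 < cross T (z - x) := by
  obtain ⟨ν, hν⟩ := exists_strict_support hK.clo hK.str hx
  obtain ⟨z0, hz0, hne⟩ := l01_exists_ne hK hx
  have hcr : ∀ z, cross (rot ν) (z - x) = inner ℝ ν x - inner ℝ ν z := by
    intro z
    rw [← inner_rot, l01_rot_rot, inner_neg_left, inner_sub_right]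
    ring
  have hν0 : rot ν ≠ 0 := by
    intro h
    have h1 := hcr z0
    rw [h] at h1
    have h2 := hν z0 hz0 hne
    simp [cross] at h1
    linarith
  have hn : 0 < ‖rot ν‖ := norm_pos_iff.2 hν0
  refine ⟨‖rot ν‖⁻¹ • rot ν, ?_, fun z hz hzx => ?_⟩
  · rw [norm_smul, norm_inv, norm_norm, inv_mul_cancel₀ hn.ne']
  · rw [cross_smul_left, hcr]
    exact mul_pos (inv_pos.2 hn) (sub_pos.2 (hν z hz hzx))

theorem tang_spec (hK : SBody K) (hx : x ∈ frontier K) :
    ‖tang K x‖ = 1 ∧ ∀ z ∈ K, 0 ≤ cross (tang K x) (z - x) := by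
  obtain ⟨T, hT1, hT2⟩ := l01_ex hK hx
  have hex : ∃ T : Plane, ‖T‖ = 1 ∧ ∀ z ∈ K, 0 ≤ cross T (z - x) := by
    refine ⟨T, hT1, fun z hz => ?_⟩
    by_cases h : z = x
    · rw [h, sub_self]
      simp [cross]
    · exact (hT2 z hz h).le
  unfold tang
  rw [dif_pos hex]
  exact hex.choose_spec

theorem tang_unique (hK : SBody K) (hx : x ∈ frontier K) (hT : T ≠ 0)
    (h : ∀ z ∈ K, 0 ≤ cross T (z - x)) : T = ‖T‖ • tang K x := by
  obtain ⟨hS1, hS2⟩ := tang_spec hK hx
  have hS0 : tang K x ≠ 0 := by
    intro h0
    rw [h0, norm_zero] at hS1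
    exact zero_ne_one hS1
  have key : ∀ V : Plane, (∀ z ∈ K, 0 ≤ cross V (z - x)) →
      ∀ z ∈ K, inner ℝ (- rot V) z ≤ inner ℝ (- rot V) x := by
    intro V hV z hz
    rw [inner_neg_left, inner_neg_left, inner_rot, inner_rot]
    have := hV z hz
    rw [cross_sub_right] at this
    linarith
  obtain ⟨c, hc, hcc⟩ := hK.smo x hx (- rot (tang K x)) (- rot T)
    (neg_ne_zero.2 (rot_ne_zero hS0)) (neg_ne_zero.2 (rot_ne_zero hT)) (key _ hS2) (key _ h)
  have h1 : T = c • tang K x := by
    have h2 : rot T = c • rot (tang K x) := by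
      rw [smul_neg, neg_inj] at hcc
      exact hcc
    have e0 := congrFun (congrArg (fun v : Plane => (v : Fin 2 → ℝ)) h2) 0
    have e1 := congrFun (congrArg (fun v : Plane => (v : Fin 2 → ℝ)) h2) 1
    ext i
    fin_cases i
    · simpa [rot] using e1
    · simpa [rot] using e0
  have h3 : ‖T‖ = c := by
    rw [h1, norm_smul, hS1, mul_one, Real.norm_eq_abs, abs_of_pos hc]
  rw [h3]
  exact h1

theorem tang_pos (hK : SBody K) (hx : x ∈ frontier K) (hz : z ∈ K) (hne : z ≠ x) :
    0 < cross (tang K x) (z - x) := by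
  obtain ⟨T, hT1, hT2⟩ := l01_ex hK hx
  have hT0 : T ≠ 0 := by
    intro h0
    rw [h0, norm_zero] at hT1
    exact zero_ne_one hT1
  have h1 := tang_unique hK hx hT0 (fun w hw => by
    by_cases h : w = x
    · rw [h, sub_self]
      simp [cross]
    · exact (hT2 w hw h).le)
  rw [hT1, one_smul] at h1
  rw [← h1]
  exact hT2 z hz hne

theorem chord_tang (hK : SBody K) (hx : x ∈ frontier K) (hu : u ≠ 0) :
    ∃ s : ℝ, chord K u x = x - s • u ∧ (cross u (tang K x) = 0 → s = 0) ∧
      (cross u (tang K x) ≠ 0 → 0 < s * cross u (tang K x)) := by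
  obtain ⟨t, ht⟩ := chord_line K u x
  have hmem : chord K u x ∈ K := hK.clo.frontier_subset (chord_mem hx)
  have hcr : cross (tang K x) (chord K u x - x) = (-t) * cross u (tang K x) := by
    rw [ht, add_sub_cancel_left, cross_smul_right, cross_comm]
    ring
  refine ⟨-t, by rw [neg_smul, sub_neg_eq_add]; exact ht, fun h0 => ?_, fun h0 => ?_⟩
  · by_contra ht0
    have ht1 : t ≠ 0 := fun h => ht0 (by rw [h, neg_zero])
    have hne : chord K u x ≠ x := by
      rw [ht]
      intro h
      have h1 : t • u = 0 := by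
        have := congrArg (fun w => w - x) h
        simpa using this
      rcases smul_eq_zero.1 h1 with h2 | h2
      · exact ht1 h2
      · exact hu h2
    have h1 := tang_pos hK hx hmem hne
    rw [hcr, h0, mul_zero] at h1
    exact lt_irrefl _ h1
  · have hne : chord K u x ≠ x := by
      intro h
      apply h0
      rcases support_of_chord_eq hK.cpt hK.str hu hx h with h1 | h1
      · have h2 := tang_unique hK hx (neg_ne_zero.2 hu) (fun z hz => by
          rw [cross_neg_left, cross_sub_right]
          have := h1 z hz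
          linarith)
        have h3 : cross (-u) (tang K x) = 0 := by
          rw [h2, cross_smul_left, cross_self, mul_zero]
        rw [cross_neg_left] at h3
        linarith
      · have h2 := tang_unique hK hx hu (fun z hz => by
          rw [cross_sub_right]
          have := h1 z hz
          linarith)
        rw [h2, cross_smul_left, cross_self, mul_zero]
    rw [← hcr]
    exact tang_pos hK hx hmem hne

/-- a point is fixed by the chord map iff the direction is tangential -/
theorem chord_eq_iff (hK : SBody K) (hx : x ∈ frontier K) (hu : u ≠ 0) :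
    chord K u x = x ↔ cross u (tang K x) = 0 := by
  obtain ⟨s, hs1, hs2, hs3⟩ := chord_tang hK hx hu
  constructor
  · intro h
    by_contra h0
    have h1 := hs3 h0
    have h2 : s • u = 0 := by
      rw [hs1] at h
      have := congrArg (fun w => x - w) h
      simpa using this
    rcases smul_eq_zero.1 h2 with h3 | h3
    · rw [h3, zero_mul] at h1
      exact lt_irrefl _ h1
    · exact hu h3
  · intro h
    rw [hs1, hs2 h, zero_smul, sub_zero]

theorem chord_cross_neg (hK : SBody K) (hx : x ∈ frontier K) (hu : u ≠ 0)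
    (h : cross u (tang K x) ≠ 0) :
    cross u (tang K x) * cross u (tang K (chord K u x)) < 0 := by
  obtain ⟨s, hs1, _, hs3⟩ := chord_tang hK hx hu
  have h1 := hs3 h
  have hne : x ≠ chord K u x := fun h2 => h ((chord_eq_iff hK hx hu).1 h2.symm)
  have h2 := tang_pos hK (chord_mem (u := u) hx) (hK.clo.frontier_subset hx) hne
  have h3 : x - chord K u x = s • u := by
    rw [hs1]
    abel
  rw [h3, cross_smul_right, cross_comm] at h2
  have hs0 : s ≠ 0 := by
    rintro rfl
    rw [zero_mul] at h1
    exact lt_irrefl _ h1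
  have hs2 : 0 < s ^ 2 := by positivity
  have h4 : s * cross u (tang K (chord K u x)) < 0 := by linarith
  have h5 := mul_neg_of_pos_of_neg h1 h4
  by_contra h6
  push Not at h6
  have h7 := mul_nonneg hs2.le h6
  nlinarith [h5, h7]

private lemma l01_norm_le (K : Set Plane) (y : Plane) : ‖tang K y‖ ≤ 1 := by
  unfold tang
  split_ifs with h
  · exact h.choose_spec.1.le
  · rw [norm_zero]
    exact zero_le_one

theorem tang_continuousOn (hK : SBody K) : ContinuousOn (tang K) (frontier K) := by
  intro x hx
  rw [ContinuousWithinAt, tendsto_iff_seq_tendsto]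
  intro y hy
  have hy1 : Tendsto y atTop (𝓝 x) := tendsto_nhds_of_tendsto_nhdsWithin hy
  have hy2 : ∀ᶠ n in atTop, y n ∈ frontier K := hy.eventually self_mem_nhdsWithin
  refine tendsto_of_subseq_tendsto fun ns hns => ?_
  obtain ⟨T, _, φ, hφ, hT⟩ := (isCompact_closedBall (0 : Plane) 1).tendsto_subseq
    (x := fun n => tang K (y (ns n))) (fun n => by
      rw [mem_closedBall_zero_iff]
      exact l01_norm_le K _)
  refine ⟨φ, ?_⟩
  have hns2 : Tendsto (fun n => ns (φ n)) atTop atTop := hns.comp hφ.tendsto_atTop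
  have hmem : ∀ᶠ n in atTop, y (ns (φ n)) ∈ frontier K := hns2.eventually hy2
  have hyl : Tendsto (fun n => y (ns (φ n))) atTop (𝓝 x) := hy1.comp hns2
  have hn : ‖T‖ = 1 := by
    have h1 : Tendsto (fun n => ‖tang K (y (ns (φ n)))‖) atTop (𝓝 ‖T‖) := hT.norm
    have h2 : Tendsto (fun n => ‖tang K (y (ns (φ n)))‖) atTop (𝓝 1) := by
      refine tendsto_const_nhds.congr' ?_
      filter_upwards [hmem] with n hn
      exact (tang_spec hK hn).1.symm
    exact tendsto_nhds_unique h1 h2
  have hc : ∀ z ∈ K, 0 ≤ cross T (z - x) := by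
    intro z hz
    have h1 : Tendsto (fun n => cross (tang K (y (ns (φ n)))) (z - y (ns (φ n)))) atTop
        (𝓝 (cross T (z - x))) := by
      have h2 : Tendsto (fun n => (tang K (y (ns (φ n))), z - y (ns (φ n)))) atTop
          (𝓝 (T, z - x)) := hT.prodMk_nhds (tendsto_const_nhds.sub hyl)
      exact (continuous_cross.tendsto _).comp h2
    refine ge_of_tendsto h1 ?_
    filter_upwards [hmem] with n hn
    exact (tang_spec hK hn).2 z hz
  have hT0 : T ≠ 0 := by
    intro h0
    rw [h0, norm_zero] at hn
    exact zero_ne_one hn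
  have h3 := tang_unique hK hx hT0 hc
  rw [hn, one_smul] at h3
  rw [← h3]
  exact hT

end ChordMaps
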