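import Pool.Agent.Helper3.LS.Defs

set_option autoImplicit false

/-! # LS-02: joint continuity of the chord maps

Proof sketch of `chord_tendsto`.  It suffices that every subsequence has a further subsequence along which
`p n = chord K (u n) (x n)` converges to `chord K v y` (compactness of `frontier K`,
`tendsto_of_subseq_tendsto` or an `IsCompact` argument).  Let `p n → p` along a subsequence.
`cross (u n) (p n - x n) = 0` (`cross_chord`), so `cross v p = cross v y`, and `p ∈ frontier K`; by
`eq_of_cross_eq` (Flow.lean) `p = y` or `p = chord K v y`.  Suppose `p = y ≠ chord K v y = y + s • v`, `s ≠ 0`.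
The midpoint `y + (s/2) • v` is in `interior K` (strict convexity), hence so is `x n + (s/2) • u n` for
large `n`, and by `mem_segment_chord` it lies on the segment from `x n` to `p n`, so
`|s/2| ‖u n‖ ≤ dist (x n) (p n) → 0`, contradiction (compare `closure_invariant` in Chord/Main.lean).
`chord_unif`: by contradiction with sequences `u n → v`, `x n, y n` with `dist < 1/(n+1)`; pass to a
subsequence `x n → z`, `y n → z`; both chords converge to `chord K v z`.
-/

namespace ChordMaps

open Topology Filter

variable {K : Set Plane} {v : Plane}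

private lemma l02_core (hK : SBody K) (hv : v ≠ 0) {u x : ℕ → Plane} {y p : Plane}
    (hu : Tendsto u atTop (𝓝 v)) (hx : ∀ n, x n ∈ frontier K) (hxy : Tendsto x atTop (𝓝 y))
    (hp : Tendsto (fun n => chord K (u n) (x n)) atTop (𝓝 p)) : p = chord K v y := by
  have hyf : y ∈ frontier K := isClosed_frontier.mem_of_tendsto hxy (Eventually.of_forall hx)
  have hpf : p ∈ frontier K :=
    isClosed_frontier.mem_of_tendsto hp (Eventually.of_forall fun n => chord_mem (hx n))
  have hc1 : Tendsto (fun n => cross (u n) (chord K (u n) (x n))) atTop (𝓝 (cross v p)) :=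
    (continuous_cross.tendsto (v, p)).comp (hu.prodMk_nhds hp)
  have hc2 : Tendsto (fun n => cross (u n) (x n)) atTop (𝓝 (cross v y)) :=
    (continuous_cross.tendsto (v, y)).comp (hu.prodMk_nhds hxy)
  have hc : cross v p = cross v y := by
    refine tendsto_nhds_unique hc1 (hc2.congr fun n => ?_)
    exact (cross_chord K (u n) (x n)).symm
  rcases eq_of_cross_eq hK.clo hK.str hv hyf hpf hc with h | h
  · by_contra hcon
    rw [h] at hcon hp
    obtain ⟨s, hs⟩ := chord_line K v y
    have hs0 : s ≠ 0 := by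
      rintro rfl
      apply hcon
      rw [hs, zero_smul, add_zero]
    have hyK : y ∈ K := hK.clo.frontier_subset hyf
    have hcK : chord K v y ∈ K := hK.clo.frontier_subset (chord_mem hyf)
    have hmid : y + (s / 2) • v ∈ interior K := by
      have h1 : (1 / 2 : ℝ) • y + (1 / 2 : ℝ) • chord K v y ∈ interior K :=
        hK.str hyK hcK hcon (by norm_num) (by norm_num) (by norm_num)
      have h2 : (1 / 2 : ℝ) • y + (1 / 2 : ℝ) • chord K v y = y + (s / 2) • v := by
        rw [hs, smul_add, smul_smul, ← add_assoc, ← add_smul]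
        norm_num
        congr 1
        ring
      rwa [h2] at h1
    have hz : Tendsto (fun n => x n + (s / 2) • u n) atTop (𝓝 (y + (s / 2) • v)) :=
      hxy.add (hu.const_smul (s / 2))
    have hev1 : ∀ᶠ n in atTop, x n + (s / 2) • u n ∈ interior K :=
      hz.eventually (isOpen_interior.mem_nhds hmid)
    have hev2 : ∀ᶠ n in atTop, u n ≠ 0 := hu.eventually_ne hv
    have hle : ∀ᶠ n in atTop, |s / 2| * ‖u n‖ ≤ dist (x n) (chord K (u n) (x n)) := by
      filter_upwards [hev1, hev2] with n h1 h2
      have h3 : cross (u n) (x n + (s / 2) • u n) = cross (u n) (x n) := by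
        rw [cross_add_right, cross_smul_right, cross_self]
        ring
      have h4 := mem_segment_chord hK.cpt hK.str h2 (hx n) (interior_subset h1) h3
      have h5 := dist_add_dist_of_mem_segment h4
      have h6 : dist (x n) (x n + (s / 2) • u n) = |s / 2| * ‖u n‖ := by
        rw [dist_comm, dist_eq_norm, add_sub_cancel_left, norm_smul, Real.norm_eq_abs]
      have h7 : 0 ≤ dist (x n + (s / 2) • u n) (chord K (u n) (x n)) := dist_nonneg
      linarith
    have hl1 : Tendsto (fun n => |s / 2| * ‖u n‖) atTop (𝓝 (|s / 2| * ‖v‖)) :=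
      (hu.norm).const_mul _
    have hl2 : Tendsto (fun n => dist (x n) (chord K (u n) (x n))) atTop (𝓝 (dist y y)) :=
      hxy.dist hp
    have hl := le_of_tendsto_of_tendsto hl1 hl2 hle
    rw [dist_self] at hl
    have hpos : 0 < |s / 2| * ‖v‖ :=
      mul_pos (abs_pos.2 (by intro h0; apply hs0; linarith)) (norm_pos_iff.2 hv)
    linarith
  · exact h

private lemma l02_cpt (hK : SBody K) : IsCompact (frontier K) :=
  hK.cpt.of_isClosed_subset isClosed_frontier hK.clo.frontier_subset

theorem chord_tendsto (hK : SBody K) (hv : v ≠ 0) {u x : ℕ → Plane} {y : Plane}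
    (hu : Tendsto u atTop (𝓝 v)) (hx : ∀ n, x n ∈ frontier K) (hxy : Tendsto x atTop (𝓝 y)) :
    Tendsto (fun n => chord K (u n) (x n)) atTop (𝓝 (chord K v y)) := by
  refine tendsto_of_subseq_tendsto fun ns hns => ?_
  obtain ⟨p, -, φ, hφ, hp⟩ := (l02_cpt hK).tendsto_subseq
    (x := fun n => chord K (u (ns n)) (x (ns n))) (fun n => chord_mem (hx (ns n)))
  refine ⟨φ, ?_⟩
  have hsub : Tendsto (fun n => ns (φ n)) atTop atTop := hns.comp hφ.tendsto_atTop
  have := l02_core hK hv (u := fun n => u (ns (φ n))) (x := fun n => x (ns (φ n)))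
    (hu.comp hsub) (fun n => hx _) (hxy.comp hsub) hp
  rw [← this]
  exact hp

theorem chord_unif (hK : SBody K) (hv : v ≠ 0) {ε : ℝ} (hε : 0 < ε) :
    ∃ δ > 0, ∀ u, dist u v < δ → ∀ x ∈ frontier K, ∀ y ∈ frontier K, dist x y < δ →
      dist (chord K u x) (chord K v y) < ε := by
  by_contra hcon
  push Not at hcon
  have h1 : ∀ n : ℕ, ∃ u x y, dist u v < 1 / ((n : ℝ) + 1) ∧ x ∈ frontier K ∧ y ∈ frontier K ∧
      dist x y < 1 / ((n : ℝ) + 1) ∧ ε ≤ dist (chord K u x) (chord K v y) := by
    intro n
    obtain ⟨u, hu, x, hx, y, hy, hxy, h⟩ := hcon (1 / ((n : ℝ) + 1)) (by positivity)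
    exact ⟨u, x, y, hu, hx, hy, hxy, h⟩
  choose u x y hu hx hy hxy h using h1
  have h0 : Tendsto (fun n : ℕ => 1 / ((n : ℝ) + 1)) atTop (𝓝 0) :=
    tendsto_one_div_add_atTop_nhds_zero_nat
  have hut : Tendsto u atTop (𝓝 v) := by
    rw [tendsto_iff_dist_tendsto_zero]
    exact squeeze_zero (fun n => dist_nonneg) (fun n => (hu n).le) h0
  obtain ⟨z, -, φ, hφ, hz⟩ := (l02_cpt hK).tendsto_subseq hx
  have hz' : Tendsto (fun n => y (φ n)) atTop (𝓝 z) := by
    have h2 : Tendsto (fun n => dist (x n) (y n)) atTop (𝓝 0) :=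
      squeeze_zero (fun n => dist_nonneg) (fun n => (hxy n).le) h0
    have h3 : Tendsto (fun n => dist (x (φ n)) (y (φ n))) atTop (𝓝 0) :=
      h2.comp hφ.tendsto_atTop
    exact (tendsto_iff_of_dist h3).1 hz
  have c1 := chord_tendsto hK hv (u := fun n => u (φ n)) (x := fun n => x (φ n))
    (hut.comp hφ.tendsto_atTop) (fun n => hx _) hz
  have c2 := chord_tendsto hK hv (u := fun _ => v) (x := fun n => y (φ n))
    tendsto_const_nhds (fun n => hy _) hz'
  have c3 := c1.dist c2
  rw [dist_self] at c3
  have c4 := ge_of_tendsto' c3 (fun n => h (φ n))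
  linarith

theorem chord_continuousOn (hK : SBody K) (hv : v ≠ 0) :
    ContinuousOn (chord K v) (frontier K) := by
  rw [Metric.continuousOn_iff]
  intro b hb ε hε
  obtain ⟨δ, hδ, h⟩ := chord_unif hK hv hε
  exact ⟨δ, hδ, fun a ha hab => h v (by rw [dist_self]; exact hδ) a ha b hb hab⟩

end ChordMaps
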