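import Pool.Agent.Helper3.LS.L01

set_option autoImplicit false

/-! # LS-03: secants converge to tangents

* `secant_limit`: put `e n = (dist (x n) (y n))⁻¹ • (y n - x n) → e`, `‖e‖ = 1`. If `cross (tang K p) e = 0`
  then `e = ± tang K p` (both unit).  Otherwise the line `p + ℝ e` is not a supporting line: by
  `chord_tang` (u = e) `chord K e p = p - s • e` with `s ≠ 0`, so `q = p - (s/2) • e ∈ interior K` by strict
  convexity.  If `-s > 0` (i.e. `q = p + r • e`, `r > 0`): `x n + r • e n ∈ interior K` for large `n` and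
  `y n = x n + dist (x n) (y n) • e n` with `0 < dist < r`, so `y n` is in the open segment from
  `x n ∈ K` to an interior point, hence in `interior K` (`Convex.openSegment_self_interior_subset_interior`
  or similar), contradiction with `y n ∈ frontier K`.  If `q = p - r • e`, `r > 0`, argue with `x n` between
  `y n` and `y n - r • e n`.
* `secant_unif`: by contradiction; sequences `a n, b n, c n`, with `dist (a n) (b n) → 0`; subsequences
  converge to `a, a, c`, the unit secants to `e = ± tang K a`; `0 ≤ cross e (c - a)` and `c ≠ a` and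
  `tang_pos` exclude the minus sign; so the normalised secants tend to `tang K a` and
  `tang K (a n) → tang K a` by `tang_continuousOn`, contradiction.
* `edge_secant`: from `secant_unif` and the definition of `Edge`.
-/

namespace ChordMaps

open Topology Filter

variable {K : Set Plane}

private lemma l3_norm {a b : Plane} (h : a ≠ b) : ‖(dist a b)⁻¹ • (b - a)‖ = 1 := by
  have h1 : dist a b ≠ 0 := (dist_pos.2 h).ne'
  rw [norm_smul, norm_inv, Real.norm_eq_abs, abs_of_nonneg dist_nonneg, ← dist_eq_norm,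
    dist_comm b a, inv_mul_cancel₀ h1]

private lemma l3_frontier_compact (hK : SBody K) : IsCompact (frontier K) :=
  hK.cpt.of_isClosed_subset isClosed_frontier hK.clo.frontier_subset

private lemma l3_tang (hK : SBody K) {x : ℕ → Plane} {p : Plane}
    (hx : ∀ n, x n ∈ frontier K) (hp : p ∈ frontier K) (hxp : Tendsto x atTop (𝓝 p)) :
    Tendsto (fun n => tang K (x n)) atTop (𝓝 (tang K p)) := by
  have h1 := (tang_continuousOn hK) p hp
  refine h1.tendsto.comp ?_
  exact tendsto_nhdsWithin_iff.2 ⟨hxp, Filter.Eventually.of_forall hx⟩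

private lemma l3_cross {f g : ℕ → Plane} {a b : Plane} (hf : Tendsto f atTop (𝓝 a))
    (hg : Tendsto g atTop (𝓝 b)) : Tendsto (fun n => cross (f n) (g n)) atTop (𝓝 (cross a b)) :=
  (continuous_cross.tendsto (a, b)).comp (hf.prodMk_nhds hg)

theorem secant_limit (hK : SBody K) {x y : ℕ → Plane} {p e : Plane}
    (hx : ∀ n, x n ∈ frontier K) (hy : ∀ n, y n ∈ frontier K) (hne : ∀ n, x n ≠ y n)
    (hxp : Tendsto x atTop (𝓝 p)) (hyp : Tendsto y atTop (𝓝 p))
    (he : Tendsto (fun n => (dist (x n) (y n))⁻¹ • (y n - x n)) atTop (𝓝 e)) :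
    e = tang K p ∨ e = - tang K p := by
  have hp : p ∈ frontier K := isClosed_frontier.mem_of_tendsto hxp
    (Filter.Eventually.of_forall hx)
  have hTn := (tang_spec hK hp).1
  have hT0 : tang K p ≠ 0 := by
    intro h
    rw [h, norm_zero] at hTn
    exact zero_ne_one hTn
  have h1 : 0 ≤ cross (tang K p) e := by
    refine ge_of_tendsto (l3_cross (l3_tang hK hx hp hxp) he)
      (Filter.Eventually.of_forall fun n => ?_)
    show 0 ≤ cross (tang K (x n)) ((dist (x n) (y n))⁻¹ • (y n - x n))
    rw [cross_smul_right]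
    exact mul_nonneg (inv_nonneg.2 dist_nonneg)
      ((tang_spec hK (hx n)).2 _ (hK.clo.frontier_subset (hy n)))
  have h2 : cross (tang K p) e ≤ 0 := by
    refine le_of_tendsto (l3_cross (l3_tang hK hy hp hyp) he)
      (Filter.Eventually.of_forall fun n => ?_)
    show cross (tang K (y n)) ((dist (x n) (y n))⁻¹ • (y n - x n)) ≤ 0
    rw [cross_smul_right]
    have h3 := (tang_spec hK (hy n)).2 _ (hK.clo.frontier_subset (hx n))
    rw [← neg_sub (y n) (x n), cross_neg_right] at h3
    exact mul_nonpos_of_nonneg_of_nonpos (inv_nonneg.2 dist_nonneg) (by linarith)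
  obtain ⟨t, ht⟩ := exists_smul_of_cross_eq_zero hT0 (le_antisymm h2 h1)
  have hen : ‖e‖ = 1 := by
    refine tendsto_nhds_unique he.norm ?_
    have : (fun n => ‖(dist (x n) (y n))⁻¹ • (y n - x n)‖) = fun _ => (1 : ℝ) := by
      funext n
      exact l3_norm (hne n)
    rw [this]
    exact tendsto_const_nhds
  rw [ht, norm_smul, hTn, mul_one, Real.norm_eq_abs] at hen
  rcases (abs_eq zero_le_one).1 hen with h | h
  · left
    rw [ht, h, one_smul]
  · right
    rw [ht, h, neg_smul, one_smul]

theorem secant_unif (hK : SBody K) {η0 θ : ℝ} (hη0 : 0 < η0) (hθ : 0 < θ) :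
    ∃ η > 0, ∀ a ∈ frontier K, ∀ b ∈ frontier K, ∀ c ∈ frontier K, a ≠ b → dist a b < η →
      η0 ≤ dist a c → 0 ≤ cross (b - a) (c - a) →
      ‖(b - a) - dist a b • tang K a‖ ≤ θ * dist a b := by
  by_contra hcon
  push Not at hcon
  have hpos : ∀ n : ℕ, (0 : ℝ) < 1 / ((n : ℝ) + 1) := fun n => by positivity
  choose a ha b hb c hc hab hd hac hcr hbad using fun n : ℕ => hcon (1 / ((n : ℝ) + 1)) (hpos n)
  have hcpt : IsCompact (frontier K ×ˢ (frontier K ×ˢ Metric.sphere (0 : Plane) 1)) :=
    (l3_frontier_compact hK).prod ((l3_frontier_compact hK).prod (isCompact_sphere _ _))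
  obtain ⟨⟨a', c', e'⟩, hmem, φ, hφ, hlim⟩ := hcpt.tendsto_subseq
    (x := fun n => (a n, c n, (dist (a n) (b n))⁻¹ • (b n - a n)))
    (fun n => ⟨ha n, hc n, by
      rw [mem_sphere_zero_iff_norm]
      exact l3_norm (hab n)⟩)
  have hla : Tendsto (fun n => a (φ n)) atTop (𝓝 a') :=
    (continuous_fst.tendsto _).comp hlim
  have hlc : Tendsto (fun n => c (φ n)) atTop (𝓝 c') :=
    ((continuous_fst.comp continuous_snd).tendsto _).comp hlim
  have hle : Tendsto (fun n => (dist (a (φ n)) (b (φ n)))⁻¹ • (b (φ n) - a (φ n))) atTop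
      (𝓝 e') := ((continuous_snd.comp continuous_snd).tendsto _).comp hlim
  have hdist : Tendsto (fun n => dist (a (φ n)) (b (φ n))) atTop (𝓝 0) := by
    refine squeeze_zero (fun n => dist_nonneg) (fun n => (hd (φ n)).le) ?_
    exact (tendsto_one_div_add_atTop_nhds_zero_nat (𝕜 := ℝ)).comp hφ.tendsto_atTop
  have hlb : Tendsto (fun n => b (φ n)) atTop (𝓝 a') := by
    rw [tendsto_iff_dist_tendsto_zero] at hla ⊢
    have h1 : Tendsto (fun n => dist (a (φ n)) (b (φ n)) + dist (a (φ n)) a') atTop (𝓝 0) := by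
      have := hdist.add hla
      rwa [add_zero] at this
    refine squeeze_zero (fun n => dist_nonneg) (fun n => ?_) h1
    rw [dist_comm (a (φ n)) (b (φ n))]
    exact dist_triangle _ _ _
  have ha' : a' ∈ frontier K := hmem.1
  have hc' : c' ∈ frontier K := hmem.2.1
  have hlim2 := secant_limit hK (fun n => ha (φ n)) (fun n => hb (φ n)) (fun n => hab (φ n))
    hla hlb hle
  have hne : c' ≠ a' := by
    intro h
    have h1 : η0 ≤ dist a' c' := by
      refine ge_of_tendsto (hla.dist hlc) (Filter.Eventually.of_forall fun n => hac (φ n))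
    rw [h, dist_self] at h1
    linarith
  have hpos' := tang_pos hK ha' (hK.clo.frontier_subset hc') hne
  have hcr' : 0 ≤ cross e' (c' - a') := by
    refine ge_of_tendsto (l3_cross hle (hlc.sub hla)) (Filter.Eventually.of_forall fun n => ?_)
    show 0 ≤ cross ((dist (a (φ n)) (b (φ n)))⁻¹ • (b (φ n) - a (φ n))) (c (φ n) - a (φ n))
    rw [cross_smul_left]
    exact mul_nonneg (inv_nonneg.2 dist_nonneg) (hcr (φ n))
  have he' : e' = tang K a' := by
    rcases hlim2 with h | h
    · exact h
    · rw [h, cross_neg_left] at hcr'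
      linarith
  have hfin : Tendsto (fun n => ‖(dist (a (φ n)) (b (φ n)))⁻¹ • (b (φ n) - a (φ n)) -
      tang K (a (φ n))‖) atTop (𝓝 0) := by
    have h1 := (hle.sub (l3_tang hK (fun n => ha (φ n)) ha' hla)).norm
    rwa [he', sub_self, norm_zero] at h1
  have hge : θ ≤ 0 := by
    refine ge_of_tendsto hfin (Filter.Eventually.of_forall fun n => ?_)
    have hdp : 0 < dist (a (φ n)) (b (φ n)) := dist_pos.2 (hab (φ n))
    have h1 := hbad (φ n)
    have h2 : b (φ n) - a (φ n) - dist (a (φ n)) (b (φ n)) • tang K (a (φ n)) =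
        dist (a (φ n)) (b (φ n)) • ((dist (a (φ n)) (b (φ n)))⁻¹ • (b (φ n) - a (φ n)) -
          tang K (a (φ n))) := by
      rw [smul_sub, smul_smul, mul_inv_cancel₀ hdp.ne', one_smul]
    rw [h2, norm_smul, Real.norm_eq_abs, abs_of_pos hdp, mul_comm θ] at h1
    exact (lt_of_mul_lt_mul_left h1 hdp.le).le
  linarith

theorem edge_secant (hK : SBody K) {η0 θ : ℝ} (hη0 : 0 < η0) (hθ : 0 < θ) :
    ∃ δ > 0, ∀ M ⊆ frontier K, (∀ a ∈ M, ∃ c ∈ M, η0 ≤ dist a c) →
      ∀ a b, Edge M a b → dist a b < δ → ‖(b - a) - dist a b • tang K a‖ ≤ θ * dist a b := by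
  obtain ⟨η, hη, h⟩ := secant_unif hK hη0 hθ
  refine ⟨η, hη, fun M hM hfat a b hab hd => ?_⟩
  obtain ⟨c, hcM, hc⟩ := hfat a hab.1
  exact h a (hM hab.1) b (hM hab.2.1) c (hM hcM) hab.2.2.1 hd hc (hab.2.2.2 c hcM)

end ChordMaps
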