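import Pool.Agent.Helper3.LS.L02
import Pool.Agent.Helper3.LS.L03

set_option autoImplicit false

/-! # LS-04: all gaps are small

By contradiction: there are `η > 0` and, for every `n`, `ε1 n ≠ ε2 n` in `(-1/(n+1), 1/(n+1))`, `M n`, and
an edge `(a n, b n)` of `M n` with `η ≤ dist (a n) (b n)`.  Put `r = chord K (wd u0 ε1) ∘ chord K (wd u0 ε2)`
(`rmap`). By `edge_chord` (Flow.lean) twice, `(a' n, b' n) = (r (a n), r (b n))` is an edge of `M n`.
`a' n ≠ a n`: otherwise `chord K (wd u0 ε2) a = chord K (wd u0 ε1) a` (`chord_chord`), contradicting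
`chord_ne_chord` and `cross_wd`.
Pass to a subsequence: `a n → a`, `b n → b`, `a ≠ b`, and by `chord_tendsto` (with `dist_wd`) and
`chord_chord`, `a' n → a`, `b' n → b`; and the unit vectors `(dist (a n) (a' n))⁻¹ • (a' n - a n) → e`.
By `secant_limit`, `e = ± tang K a`. From `Edge` (`a' n ∈ M n` is left of `a n → b n`):
`0 ≤ cross (b n - a n) (a' n - a n)`, so `0 ≤ cross (b - a) e`; from the edge `(a' n, b' n)` and
`a n ∈ M n`: `0 ≤ cross (b' n - a' n) (a n - a' n)`, so `0 ≤ cross (b - a) (-e)`. Hence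
`cross (b - a) (tang K a) = 0`, contradicting `tang_pos`.
-/

namespace ChordMaps

open Topology Filter

variable {K : Set Plane} {u0 : Plane}

private lemma l04_wd (hu : ‖u0‖ = 1) {e : ℕ → ℝ} (h : ∀ n : ℕ, |e n| < 1 / ((n : ℝ) + 1)) :
    Tendsto (fun n => wd u0 (e n)) atTop (𝓝 u0) := by
  rw [tendsto_iff_dist_tendsto_zero]
  refine squeeze_zero (fun n => dist_nonneg) (fun n => ?_) tendsto_one_div_add_atTop_nhds_zero_nat
  rw [dist_wd hu]
  exact (h n).le

private lemma l04_cross {x y : ℕ → Plane} {p q : Plane} (hx : Tendsto x atTop (𝓝 p))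
    (hy : Tendsto y atTop (𝓝 q)) : Tendsto (fun n => cross (x n) (y n)) atTop (𝓝 (cross p q)) :=
  (continuous_cross.tendsto (p, q)).comp (hx.prodMk_nhds hy)

theorem small_gaps (hK : SBody K) (hu : ‖u0‖ = 1) {η : ℝ} (hη : 0 < η) :
    ∃ δ > 0, ∀ ε1 ε2 : ℝ, |ε1| < δ → |ε2| < δ → ε1 ≠ ε2 → ∀ M ⊆ frontier K,
      Inv K M (wd u0 ε1) → Inv K M (wd u0 ε2) → ∀ a b, Edge M a b → dist a b < η := by
  have hu0 : u0 ≠ 0 := by
    intro h
    rw [h, norm_zero] at hu
    exact zero_ne_one hu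
  by_contra hcon
  have H : ∀ n : ℕ, ∃ (ε1 ε2 : ℝ) (M : Set Plane) (a b : Plane), |ε1| < 1 / ((n : ℝ) + 1) ∧
      |ε2| < 1 / ((n : ℝ) + 1) ∧ ε1 ≠ ε2 ∧ M ⊆ frontier K ∧ Inv K M (wd u0 ε1) ∧
      Inv K M (wd u0 ε2) ∧ Edge M a b ∧ η ≤ dist a b := by
    intro n
    by_contra h
    refine hcon ⟨1 / ((n : ℝ) + 1), by positivity, ?_⟩
    intro ε1 ε2 h1 h2 hne M hM hi1 hi2 a b hE
    by_contra hd
    exact h ⟨ε1, ε2, M, a, b, h1, h2, hne, hM, hi1, hi2, hE, not_lt.1 hd⟩
  choose e1 e2 M a b h1 h2 hne hM hi1 hi2 hE hd using H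
  -- the images
  set a' : ℕ → Plane := fun n => chord K (wd u0 (e1 n)) (chord K (wd u0 (e2 n)) (a n)) with ha'
  set b' : ℕ → Plane := fun n => chord K (wd u0 (e1 n)) (chord K (wd u0 (e2 n)) (b n)) with hb'
  have haf : ∀ n, a n ∈ frontier K := fun n => hM n (hE n).1
  have hbf : ∀ n, b n ∈ frontier K := fun n => hM n (hE n).2.1
  have ha'f : ∀ n, a' n ∈ frontier K := fun n => chord_mem (chord_mem (haf n))
  have ha'M : ∀ n, a' n ∈ M n := fun n => hi1 n _ (hi2 n _ (hE n).1)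
  have hE' : ∀ n, Edge (M n) (a' n) (b' n) := fun n =>
    edge_chord hK.cpt hK.cvx hK.str (hM n) (wd_ne_zero hu _) (hi1 n)
      (edge_chord hK.cpt hK.cvx hK.str (hM n) (wd_ne_zero hu _) (hi2 n) (hE n))
  have hne' : ∀ n, a n ≠ a' n := by
    intro n h
    have h3 : cross (wd u0 (e1 n)) (wd u0 (e2 n)) ≠ 0 := by
      rw [cross_wd hu]
      exact sub_ne_zero.2 (hne n).symm
    apply chord_ne_chord hK.cpt hK.str hK.smo h3 (haf n)
    have h4 : chord K (wd u0 (e1 n)) (a n) =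
        chord K (wd u0 (e1 n)) (chord K (wd u0 (e1 n)) (chord K (wd u0 (e2 n)) (a n))) :=
      congrArg (chord K (wd u0 (e1 n))) h
    rw [h4, chord_chord hK.clo hK.str (chord_mem (haf n))]
  set v : ℕ → Plane := fun n => (dist (a n) (a' n))⁻¹ • (a' n - a n) with hv
  have hdp : ∀ n, 0 < dist (a n) (a' n) := fun n => dist_pos.2 (hne' n)
  have hv1 : ∀ n, v n ∈ Metric.sphere (0 : Plane) 1 := by
    intro n
    rw [mem_sphere_zero_iff_norm, hv]
    simp only
    rw [norm_smul, norm_inv, Real.norm_eq_abs, abs_of_pos (hdp n), ← dist_eq_norm,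
      dist_comm (a' n), inv_mul_cancel₀ (hdp n).ne']
  have hfc : IsCompact (frontier K) :=
    hK.cpt.of_isClosed_subset isClosed_frontier hK.clo.frontier_subset
  obtain ⟨⟨A, B, e⟩, hABe, φ, hφ, hlim⟩ := (hfc.prod (hfc.prod
    (isCompact_sphere (0 : Plane) 1))).tendsto_subseq (x := fun n => (a n, b n, v n))
    (fun n => ⟨haf n, hbf n, hv1 n⟩)
  have hlimA : Tendsto (fun n => a (φ n)) atTop (𝓝 A) :=
    (continuous_fst.tendsto _).comp hlim
  have hlimB : Tendsto (fun n => b (φ n)) atTop (𝓝 B) :=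
    ((continuous_fst.comp continuous_snd).tendsto _).comp hlim
  have hlime : Tendsto (fun n => v (φ n)) atTop (𝓝 e) :=
    ((continuous_snd.comp continuous_snd).tendsto _).comp hlim
  have hAf : A ∈ frontier K := hABe.1
  have hBf : B ∈ frontier K := hABe.2.1
  have hAB : A ≠ B := by
    intro h
    have h3 : Tendsto (fun n => dist (a (φ n)) (b (φ n))) atTop (𝓝 (dist A B)) :=
      hlimA.dist hlimB
    have h4 : η ≤ dist A B := ge_of_tendsto h3 (Eventually.of_forall fun n => hd _)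
    rw [h, dist_self] at h4
    linarith
  have hw1 : Tendsto (fun n => wd u0 (e1 (φ n))) atTop (𝓝 u0) :=
    (l04_wd hu h1).comp hφ.tendsto_atTop
  have hw2 : Tendsto (fun n => wd u0 (e2 (φ n))) atTop (𝓝 u0) :=
    (l04_wd hu h2).comp hφ.tendsto_atTop
  have hr : ∀ (x : ℕ → Plane) (X : Plane), (∀ n, x n ∈ frontier K) → X ∈ frontier K →
      Tendsto (fun n => x (φ n)) atTop (𝓝 X) →
      Tendsto (fun n => chord K (wd u0 (e1 (φ n))) (chord K (wd u0 (e2 (φ n))) (x (φ n))))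
        atTop (𝓝 X) := by
    intro x X hx hX hxl
    have h3 := chord_tendsto hK hu0 hw2 (fun n => hx (φ n)) hxl
    have h4 := chord_tendsto hK hu0 hw1 (fun n => chord_mem (hx (φ n))) h3
    rwa [chord_chord hK.clo hK.str hX] at h4
  have hlimA' : Tendsto (fun n => a' (φ n)) atTop (𝓝 A) := hr a A haf hAf hlimA
  have hlimB' : Tendsto (fun n => b' (φ n)) atTop (𝓝 B) := hr b B hbf hBf hlimB
  have hsec := secant_limit hK (fun n => haf (φ n)) (fun n => ha'f (φ n))
    (fun n => hne' (φ n)) hlimA hlimA' hlime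
  have hpos : ∀ n, 0 ≤ cross (b n - a n) (v n) := by
    intro n
    rw [hv]
    simp only
    rw [cross_smul_right]
    exact mul_nonneg (inv_nonneg.2 dist_nonneg) ((hE n).2.2.2 _ (ha'M n))
  have hneg : ∀ n, cross (b' n - a' n) (v n) ≤ 0 := by
    intro n
    have h3 := (hE' n).2.2.2 _ (hE n).1
    have h4 : a' n - a n = -(a n - a' n) := by abel
    rw [hv]
    simp only
    rw [cross_smul_right, h4, cross_neg_right]
    have h5 : 0 ≤ (dist (a n) (a' n))⁻¹ := inv_nonneg.2 dist_nonneg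
    have h6 := mul_nonneg h5 h3
    linarith
  have hc1 : 0 ≤ cross (B - A) e :=
    ge_of_tendsto (l04_cross (hlimB.sub hlimA) hlime) (Eventually.of_forall fun n => hpos _)
  have hc2 : cross (B - A) e ≤ 0 :=
    le_of_tendsto (l04_cross (hlimB'.sub hlimA') hlime) (Eventually.of_forall fun n => hneg _)
  have hc : cross (B - A) e = 0 := le_antisymm hc2 hc1
  have ht := tang_pos hK hAf (hK.clo.frontier_subset hBf) hAB.symm
  rcases hsec with rfl | rfl
  · rw [cross_comm] at hc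
    linarith
  · rw [cross_neg_right, cross_comm] at hc
    linarith

end ChordMaps
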