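import Pool.Agent.Helper3.LS.Defs

set_option autoImplicit false

/-! # LS-05: only finitely many long gaps; the weighted gap length attains its maximum

For `x ∈ M` let `e x = outP M x - x` (`= b - x` if `(x, b)` is an edge, `0` otherwise; `outP_edge`,
`outP_of_not`). By `summable_out` (Flow.lean, `D = M`) the functions `cross u (e x)` and `cross u' (e x)`
are summable over the subtype `M`, hence (absolutely, they are real) `‖e x‖` is summable: every vector `e`
satisfies `‖e‖ ≤ C (|cross u e| + |cross u' e|)` since `cross u u' ≠ 0`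
(`cross u u' • e = cross u e • u' - cross u' e • u`).
A summable nonnegative family has only finitely many terms `≥ ε` (`Summable.tendsto_cofinite_zero`),
and, multiplied by the bounded weight `g`, attains its maximum on `M` as soon as it is positive somewhere.
-/

namespace ChordMaps

open Topology Filter

variable {K M : Set Plane} {u u' : Plane}

private lemma l05_id (u u' e : Plane) :
    cross u u' • e = cross u e • u' - cross u' e • u := by
  ext i
  fin_cases i
  · simp [cross]; ring
  · simp [cross]; ring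

private lemma l05_bound (u u' e : Plane) :
    |cross u u'| * ‖e‖ ≤ |cross u e| * ‖u'‖ + |cross u' e| * ‖u‖ := by
  have h := congrArg norm (l05_id u u' e)
  rw [norm_smul, Real.norm_eq_abs] at h
  rw [h]
  refine (norm_sub_le _ _).trans ?_
  rw [norm_smul, norm_smul, Real.norm_eq_abs, Real.norm_eq_abs]

/-- the lengths of the gaps are summable -/
private lemma l05_summable (hK : SBody K) (hM : M ⊆ frontier K) (huu : cross u u' ≠ 0)
    (h1 : Inv K M u) (h2 : Inv K M u') :
    Summable (fun x : M => ‖outP M x - x‖) := by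
  have hu : u ≠ 0 := by
    rintro rfl
    exact huu (by simp [cross])
  have hu' : u' ≠ 0 := by
    rintro rfl
    exact huu (by simp [cross])
  have s1 := (summable_out hK.cpt hK.cvx hK.str hM hu h1 M).abs
  have s2 := (summable_out hK.cpt hK.cvx hK.str hM hu' h2 M).abs
  have s3 := ((s1.mul_right ‖u'‖).add (s2.mul_right ‖u‖)).mul_left (|cross u u'|)⁻¹
  refine Summable.of_nonneg_of_le (fun x => norm_nonneg _) (fun x => ?_) s3
  have hb := l05_bound u u' (outP M x - x)
  rw [cross_sub_right, cross_sub_right] at hb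
  have hp : 0 < |cross u u'| := abs_pos.2 huu
  rw [inv_mul_eq_div, le_div_iff₀ hp, mul_comm]
  exact hb

private lemma l05_finite {ι : Type*} {f : ι → ℝ} (hf : Summable f) {ε : ℝ} (hε : 0 < ε) :
    {x | ε ≤ f x}.Finite := by
  have h1 := hf.tendsto_cofinite_zero
  have h2 : ∀ᶠ x in cofinite, f x < ε := h1.eventually (gt_mem_nhds hε)
  rw [eventually_cofinite] at h2
  refine h2.subset fun x hx => ?_
  exact not_lt.2 hx

theorem finite_long_gaps (hK : SBody K) (hM : M ⊆ frontier K) (huu : cross u u' ≠ 0)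
    (h1 : Inv K M u) (h2 : Inv K M u') {ε : ℝ} (hε : 0 < ε) :
    {a | ∃ b, Edge M a b ∧ ε ≤ dist a b}.Finite := by
  have hf := (l05_finite (l05_summable hK hM huu h1 h2) hε).image (fun x : M => (x : Plane))
  refine hf.subset ?_
  rintro a ⟨b, hab, hd⟩
  refine ⟨⟨a, hab.1⟩, ?_, rfl⟩
  show ε ≤ ‖outP M a - a‖
  rw [outP_edge hK.clo hK.str hM hab, ← dist_eq_norm, dist_comm]
  exact hd

theorem max_gap (hK : SBody K) (hM : M ⊆ frontier K) (huu : cross u u' ≠ 0)
    (h1 : Inv K M u) (h2 : Inv K M u') (g : Plane → ℝ) (G : ℝ) (hg0 : ∀ x ∈ M, 0 < g x)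
    (hg : ∀ x ∈ M, g x ≤ G) (hex : ∃ a b, Edge M a b) :
    ∃ a b, Edge M a b ∧ ∀ c d, Edge M c d → dist c d * g c ≤ dist a b * g a := by
  obtain ⟨a₀, b₀, h0⟩ := hex
  have hs : Summable (fun x : M => ‖outP M x - x‖ * g x) := by
    refine Summable.of_nonneg_of_le (fun x => mul_nonneg (norm_nonneg _) (hg0 x x.2).le)
      (fun x => mul_le_mul_of_nonneg_left (hg x x.2) (norm_nonneg _))
      ((l05_summable hK hM huu h1 h2).mul_right G)
  have hval : ∀ c d, Edge M c d → ‖outP M c - c‖ * g c = dist c d * g c := by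
    intro c d hcd
    rw [outP_edge hK.clo hK.str hM hcd, ← dist_eq_norm, dist_comm]
  have hpos : 0 < ‖outP M a₀ - a₀‖ * g a₀ := by
    rw [hval a₀ b₀ h0]
    exact mul_pos (dist_pos.2 h0.2.2.1) (hg0 a₀ h0.1)
  obtain ⟨x, hx, hmax⟩ := Set.exists_max_image
    {x : M | ‖outP M a₀ - a₀‖ * g a₀ ≤ ‖outP M x - x‖ * g x}
    (fun x : M => ‖outP M x - x‖ * g x) (l05_finite hs hpos)
    ⟨⟨a₀, h0.1⟩, le_refl (‖outP M a₀ - a₀‖ * g a₀)⟩
  have hx' : ‖outP M a₀ - a₀‖ * g a₀ ≤ ‖outP M x - x‖ * g x := hx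
  have hne : outP M x ≠ x := by
    intro h
    rw [h, sub_self, norm_zero, zero_mul] at hx'
    exact absurd hpos (not_lt.2 hx')
  have hE := edge_of_outP_ne hne
  refine ⟨x, outP M x, hE, fun c d hcd => ?_⟩
  rw [← hval c d hcd, ← hval _ _ hE]
  by_cases hc : ‖outP M a₀ - a₀‖ * g a₀ ≤ ‖outP M c - c‖ * g c
  · exact hmax ⟨c, hcd.1⟩ hc
  · exact (not_le.1 hc).le.trans hx'

end ChordMaps
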