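import Pool.Agent.Helper3.LS.L01
import Pool.Agent.Helper3.LS.L02

set_option autoImplicit false

/-! # LS-06: the regions `Reg`, `Rp` and the density `gw`

* `reg_isCompact`: `Reg` is a closed subset of the compact `frontier K` (the two existential conditions are
  closed because `K` is compact; e.g. via sequences, or `∃ z ∈ K, cross u0 z + κ ≤ cross u0 x` is equivalent
  to `cross u0 z0 + κ ≤ cross u0 x` with `z0` a minimiser of `cross u0` on `K`).
* `reg_cross_ne`: if `cross u0 (tang K x) = 0` then `tang K x = ± ‖u0‖⁻¹ • u0` and `tang_spec` says that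
  `cross u0` restricted to `K` is minimal or maximal at `x`.
* `exists_reg`: if `cross u0` were minimal (maximal) at `x` then `tang_unique` for `u0` (`-u0`) would give
  `cross u0 (tang K x) = 0`.  Take for `κ` the smaller of two height differences.
* `reg_bounds`: continuity (`tang_continuousOn`, `chord_continuousOn`), compactness, `reg_cross_ne`,
  `chord_eq_iff`.
* `gw_continuousOn`, `gw_bounds`: from the above.
* `rp_isCompact`: on `Reg` one has `cross u0 (tang K x) ≠ 0`, so `Rp = Reg ∩ {0 ≤ cross u0 (tang K x)}`.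
* `chord_reg`: `cross_chord`.
* `reg_near`: the height is Lipschitz, `abs_cross_le`.
* `rp_near`: `0 < c ≤ cross u0 (tang K x)` on `Rp` and uniform continuity of `tang K` on `frontier K`
  (`IsCompact.uniformContinuousOn_of_continuous`).
-/

namespace ChordMaps

open Topology Filter

variable {K : Set Plane} {u0 x : Plane} {κ κ' : ℝ}

theorem reg_mono (h : κ' ≤ κ) : Reg K u0 κ ⊆ Reg K u0 κ' := by
  rintro x ⟨hx, ⟨z, hz, h1⟩, w, hw, h2⟩
  exact ⟨hx, ⟨z, hz, by linarith⟩, w, hw, by linarith⟩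

theorem rp_mono (h : κ' ≤ κ) : Rp K u0 κ ⊆ Rp K u0 κ' :=
  fun _ hx => ⟨reg_mono h hx.1, hx.2⟩

private lemma l06_frontier_cpt (hK : SBody K) : IsCompact (frontier K) :=
  hK.cpt.of_isClosed_subset isClosed_frontier hK.clo.frontier_subset

private lemma l06_reg_eq (hK : SBody K) (u0 : Plane) : ∃ a b : ℝ, ∀ κ : ℝ,
    Reg K u0 κ = frontier K ∩ ({x | a + κ ≤ cross u0 x} ∩ {x | cross u0 x + κ ≤ b}) := by
  have hne : K.Nonempty := hK.int.mono interior_subset
  obtain ⟨z0, hz0, h0⟩ := hK.cpt.exists_isMinOn hne (continuous_cross_right u0).continuousOn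
  obtain ⟨z1, hz1, h1⟩ := hK.cpt.exists_isMaxOn hne (continuous_cross_right u0).continuousOn
  refine ⟨cross u0 z0, cross u0 z1, fun κ => Set.ext fun x => ?_⟩
  constructor
  · rintro ⟨hx, ⟨z, hz, h2⟩, w, hw, h3⟩
    have h4 : cross u0 z0 ≤ cross u0 z := h0 hz
    have h5 : cross u0 w ≤ cross u0 z1 := h1 hw
    exact ⟨hx, by show cross u0 z0 + κ ≤ cross u0 x; linarith,
      by show cross u0 x + κ ≤ cross u0 z1; linarith⟩
  · rintro ⟨hx, h2, h3⟩
    exact ⟨hx, ⟨z0, hz0, h2⟩, z1, hz1, h3⟩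

private lemma l06_tang_cont (hK : SBody K) (u0 : Plane) :
    ContinuousOn (fun x => cross u0 (tang K x)) (frontier K) :=
  (continuous_cross_right u0).comp_continuousOn (tang_continuousOn hK)

theorem reg_isCompact (hK : SBody K) (u0 : Plane) (κ : ℝ) : IsCompact (Reg K u0 κ) := by
  obtain ⟨a, b, h⟩ := l06_reg_eq hK u0
  rw [h κ]
  refine (l06_frontier_cpt hK).inter_right (IsClosed.inter ?_ ?_)
  · exact isClosed_le continuous_const (continuous_cross_right u0)
  · exact isClosed_le ((continuous_cross_right u0).add continuous_const) continuous_const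

theorem reg_cross_ne (hK : SBody K) (hu : u0 ≠ 0) (hκ : 0 < κ) (hx : x ∈ Reg K u0 κ) :
    cross u0 (tang K x) ≠ 0 := by
  intro h
  obtain ⟨hx, ⟨z, hz, h1⟩, w, hw, h2⟩ := hx
  obtain ⟨t, ht⟩ := exists_smul_of_cross_eq_zero hu h
  obtain ⟨hn, hs⟩ := tang_spec hK hx
  have hz' := hs z hz
  have hw' := hs w hw
  rw [ht, cross_smul_left, cross_sub_right] at hz' hw'
  have ht0 : t ≠ 0 := by
    rintro rfl
    rw [ht, zero_smul, norm_zero] at hn
    exact zero_ne_one hn
  rcases lt_or_gt_of_ne ht0 with h3 | h3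
  · nlinarith
  · nlinarith

theorem exists_reg (hK : SBody K) (hu : u0 ≠ 0) (hx : x ∈ frontier K)
    (h : cross u0 (tang K x) ≠ 0) : ∃ κ > 0, x ∈ Reg K u0 κ := by
  have h1 : ∃ z ∈ K, cross u0 z < cross u0 x := by
    by_contra hcon
    push Not at hcon
    apply h
    have h2 := tang_unique hK hx hu (fun z hz => by
      rw [cross_sub_right]
      linarith [hcon z hz])
    rw [h2, cross_smul_left, cross_self, mul_zero]
  have h2 : ∃ z ∈ K, cross u0 x < cross u0 z := by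
    by_contra hcon
    push Not at hcon
    apply h
    have h2 := tang_unique hK hx (neg_ne_zero.2 hu) (fun z hz => by
      rw [cross_neg_left, cross_sub_right]
      linarith [hcon z hz])
    have h3 : cross (-u0) (tang K x) = 0 := by
      rw [h2, cross_smul_left, cross_self, mul_zero]
    rw [cross_neg_left] at h3
    linarith
  obtain ⟨z, hz, h3⟩ := h1
  obtain ⟨w, hw, h4⟩ := h2
  refine ⟨min (cross u0 x - cross u0 z) (cross u0 w - cross u0 x),
    lt_min (by linarith) (by linarith), hx, ⟨z, hz, ?_⟩, w, hw, ?_⟩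
  · linarith [min_le_left (cross u0 x - cross u0 z) (cross u0 w - cross u0 x)]
  · linarith [min_le_right (cross u0 x - cross u0 z) (cross u0 w - cross u0 x)]

private lemma l06_sub (κ : ℝ) : Reg K u0 κ ⊆ frontier K := fun _ hx => hx.1

private lemma l06_dist_cont (hK : SBody K) (hu : u0 ≠ 0) (κ : ℝ) :
    ContinuousOn (fun x => dist x (chord K u0 x)) (Reg K u0 κ) :=
  continuous_dist.comp_continuousOn
    (continuousOn_id.prodMk ((chord_continuousOn hK hu).mono (l06_sub κ)))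

theorem reg_bounds (hK : SBody K) (hu : u0 ≠ 0) (hκ : 0 < κ) :
    ∃ c > 0, ∀ x ∈ Reg K u0 κ, c ≤ |cross u0 (tang K x)| ∧ c ≤ dist x (chord K u0 x) := by
  have hcpt := reg_isCompact hK u0 κ
  obtain ⟨c1, hc1, h1⟩ := hcpt.exists_forall_le' (f := fun x => |cross u0 (tang K x)|)
    (((l06_tang_cont hK u0).mono (l06_sub κ)).abs) (a := 0)
    (fun x hx => abs_pos.2 (reg_cross_ne hK hu hκ hx))
  obtain ⟨c2, hc2, h2⟩ := hcpt.exists_forall_le' (f := fun x => dist x (chord K u0 x))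
    (l06_dist_cont hK hu κ) (a := 0)
    (fun x hx => dist_pos.2 fun h3 =>
      reg_cross_ne hK hu hκ hx ((chord_eq_iff hK hx.1 hu).1 h3.symm))
  exact ⟨min c1 c2, lt_min hc1 hc2, fun x hx => ⟨(min_le_left _ _).trans (h1 x hx),
    (min_le_right _ _).trans (h2 x hx)⟩⟩

theorem gw_continuousOn (hK : SBody K) (hu : u0 ≠ 0) (hκ : 0 < κ) :
    ContinuousOn (gw K u0) (Reg K u0 κ) := by
  obtain ⟨c, hc, h⟩ := reg_bounds hK hu hκ
  have h1 : ContinuousOn (fun x => |cross u0 (tang K x)| / dist x (chord K u0 x))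
      (Reg K u0 κ) := by
    apply ContinuousOn.div
    · exact ((l06_tang_cont hK u0).mono (l06_sub κ)).abs
    · exact l06_dist_cont hK hu κ
    · exact fun x hx => (lt_of_lt_of_le hc (h x hx).2).ne'
  exact h1

theorem gw_bounds (hK : SBody K) (hu : u0 ≠ 0) (hκ : 0 < κ) :
    ∃ g1 > 0, ∃ g2, ∀ x ∈ Reg K u0 κ, g1 ≤ gw K u0 x ∧ gw K u0 x ≤ g2 := by
  obtain ⟨c, hc, h⟩ := reg_bounds hK hu hκ
  have hcpt := reg_isCompact hK u0 κ
  have hcont := gw_continuousOn hK hu hκ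
  obtain ⟨g1, hg1, h1⟩ := hcpt.exists_forall_le' (f := gw K u0) hcont (a := 0)
    (fun x hx => div_pos (lt_of_lt_of_le hc (h x hx).1) (lt_of_lt_of_le hc (h x hx).2))
  obtain ⟨g2, h2⟩ := hcpt.exists_bound_of_continuousOn hcont
  exact ⟨g1, hg1, g2, fun x hx => ⟨h1 x hx, (le_abs_self _).trans (h2 x hx)⟩⟩

theorem rp_isCompact (hK : SBody K) (hu : u0 ≠ 0) (hκ : 0 < κ) : IsCompact (Rp K u0 κ) := by
  have hcpt := reg_isCompact hK u0 κ
  have e : Rp K u0 κ = Reg K u0 κ ∩ (fun x => cross u0 (tang K x)) ⁻¹' (Set.Ici 0) := by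
    ext x
    constructor
    · rintro ⟨h1, h2⟩
      exact ⟨h1, h2.le⟩
    · rintro ⟨h1, h2⟩
      exact ⟨h1, lt_of_le_of_ne h2 (reg_cross_ne hK hu hκ h1).symm⟩
  rw [e]
  refine hcpt.of_isClosed_subset ?_ Set.inter_subset_left
  exact ((l06_tang_cont hK u0).mono (l06_sub κ)).preimage_isClosed_of_isClosed hcpt.isClosed
    isClosed_Ici

theorem chord_reg (hK : SBody K) (hx : x ∈ Reg K u0 κ) : chord K u0 x ∈ Reg K u0 κ := by
  have _ := hK
  obtain ⟨hx, ⟨z, hz, h1⟩, w, hw, h2⟩ := hx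
  refine ⟨chord_mem hx, ⟨z, hz, ?_⟩, w, hw, ?_⟩
  · rwa [cross_chord]
  · rwa [cross_chord]

private lemma l06_lip (u0 x y : Plane) : |cross u0 y - cross u0 x| ≤ ‖u0‖ * dist x y := by
  rw [← cross_sub_right, dist_comm, dist_eq_norm]
  exact abs_cross_le _ _

theorem reg_near (hK : SBody K) (hu : u0 ≠ 0) (h : κ' < κ) :
    ∃ η > 0, ∀ x ∈ Reg K u0 κ, ∀ y ∈ frontier K, dist x y < η → y ∈ Reg K u0 κ' := by
  have _ := hK
  have hn : 0 < ‖u0‖ := norm_pos_iff.2 hu
  refine ⟨(κ - κ') / ‖u0‖, div_pos (by linarith) hn, ?_⟩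
  rintro x ⟨hx, ⟨z, hz, h1⟩, w, hw, h2⟩ y hy hd
  rw [lt_div_iff₀ hn] at hd
  have h4 : ‖u0‖ * dist x y ≤ κ - κ' := by
    rw [mul_comm]
    exact hd.le
  have h3 := abs_le.1 ((l06_lip u0 x y).trans h4)
  exact ⟨hy, ⟨z, hz, by linarith [h3.1]⟩, w, hw, by linarith [h3.2]⟩

theorem rp_near (hK : SBody K) (hu : u0 ≠ 0) (hκ : 0 < κ) (κ' : ℝ) :
    ∃ η > 0, ∀ x ∈ Rp K u0 κ, ∀ y ∈ Reg K u0 κ', dist x y < η → y ∈ Rp K u0 κ' := by
  obtain ⟨c, hc, h⟩ := reg_bounds hK hu hκ
  have huc := (l06_frontier_cpt hK).uniformContinuousOn_of_continuous (l06_tang_cont hK u0)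
  rw [Metric.uniformContinuousOn_iff] at huc
  obtain ⟨η, hη, h1⟩ := huc c hc
  refine ⟨η, hη, fun x hx y hy hd => ⟨hy, ?_⟩⟩
  have h2 := h1 x hx.1.1 y hy.1 hd
  have h3 := (h x hx.1).1
  rw [abs_of_pos hx.2] at h3
  rw [Real.dist_eq] at h2
  linarith [(abs_lt.1 h2).2]

end ChordMaps
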