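import Pool.Agent.Helper3.LS.L06

set_option autoImplicit false

/-! # LS-07: on the right side a point is determined by its height

* `rp_inj`: by `eq_of_cross_eq` (Flow.lean) `y = x` or `y = chord K u0 x`. In the second case
  `chord_cross_neg` (LS-01) gives opposite signs of `cross u0 (tang K ·)`, contradiction.
* `rp_unif`: compactness of `Rp` (LS-06), continuity of the height and `rp_inj` (sequences: a pair of
  sequences with height difference `→ 0` and distance `≥ ε` has limits with equal height, distance `≥ ε`).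
-/

namespace ChordMaps

open Topology Filter

variable {K : Set Plane} {u0 x y : Plane} {κ : ℝ}

theorem rp_inj (hK : SBody K) (hu : u0 ≠ 0) (hx : x ∈ frontier K) (hy : y ∈ frontier K)
    (h1 : 0 < cross u0 (tang K x)) (h2 : 0 < cross u0 (tang K y))
    (h : cross u0 x = cross u0 y) : x = y := by
  rcases eq_of_cross_eq hK.clo hK.str hu hx hy h.symm with h3 | h3
  · exact h3.symm
  · exfalso
    have h4 := chord_cross_neg hK hx hu h1.ne'
    rw [← h3] at h4
    exact absurd (mul_pos h1 h2) (not_lt.2 h4.le)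

theorem rp_unif (hK : SBody K) (hu : u0 ≠ 0) (hκ : 0 < κ) {ε : ℝ} (hε : 0 < ε) :
    ∃ η > 0, ∀ x ∈ Rp K u0 κ, ∀ y ∈ Rp K u0 κ, |cross u0 x - cross u0 y| < η →
      dist x y < ε := by
  have hc := rp_isCompact hK hu hκ
  have hC : IsCompact ((Rp K u0 κ ×ˢ Rp K u0 κ) ∩ {p : Plane × Plane | ε ≤ dist p.1 p.2}) :=
    (hc.prod hc).inter_right (isClosed_le continuous_const continuous_dist)
  have hf : Continuous (fun p : Plane × Plane => |cross u0 p.1 - cross u0 p.2|) := by
    unfold cross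
    fun_prop
  rcases Set.eq_empty_or_nonempty
    ((Rp K u0 κ ×ˢ Rp K u0 κ) ∩ {p : Plane × Plane | ε ≤ dist p.1 p.2}) with h0 | hne
  · refine ⟨1, one_pos, fun x hx y hy _ => ?_⟩
    by_contra hcon
    have h1 : (x, y) ∈ (Rp K u0 κ ×ˢ Rp K u0 κ) ∩ {p : Plane × Plane | ε ≤ dist p.1 p.2} :=
      ⟨⟨hx, hy⟩, not_lt.1 hcon⟩
    rw [h0] at h1
    exact h1
  · obtain ⟨q, hq, hmin⟩ := hC.exists_isMinOn hne hf.continuousOn
    refine ⟨|cross u0 q.1 - cross u0 q.2|, ?_, fun x hx y hy hxy => ?_⟩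
    · rw [gt_iff_lt, abs_pos]
      intro h0
      have h1 : q.1 = q.2 := rp_inj hK hu hq.1.1.1.1 hq.1.2.1.1 hq.1.1.2 hq.1.2.2 (by linarith)
      have h2 : ε ≤ dist q.1 q.2 := hq.2
      rw [h1, dist_self] at h2
      linarith
    · by_contra hcon
      have h1 : (x, y) ∈ (Rp K u0 κ ×ˢ Rp K u0 κ) ∩ {p : Plane × Plane | ε ≤ dist p.1 p.2} :=
        ⟨⟨hx, hy⟩, not_lt.1 hcon⟩
      have h2 := isMinOn_iff.1 hmin _ h1
      exact absurd hxy (not_lt.2 h2)

end ChordMaps
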