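import Pool.Agent.Helper3.LS.L06

set_option autoImplicit false

/-! # LS-08: one step of `rmap` in the region

`z = chord K (wd u0 ε2) x` is close to `chord K u0 x` and `chord K (wd u0 ε1) z` is close to
`chord K u0 (chord K u0 x) = x` (`chord_unif` twice, `dist_wd`, `chord_chord`).
By `chord_tang` `z = x - s • wd u0 ε2` with `0 < s * cross (wd u0 ε2) (tang K x)`; on `Rp`,
`cross u0 (tang K x) ≥ c > 0` (`reg_bounds`), so `cross (wd u0 ε2) (tang K x) > 0` for `|ε2| < c`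
(`|cross (rot u0) (tang K x)| ≤ 1`), hence `s > 0`; and `s * ‖wd u0 ε2‖ = dist x z ≥ c/2`, `‖wd‖ ≤ 2`.
-/

namespace ChordMaps

open Topology Filter

variable {K : Set Plane} {u0 : Plane} {κ : ℝ}

private theorem l08_norm_wd (hu : ‖u0‖ = 1) {ε : ℝ} (h : |ε| < 1) : ‖wd u0 ε‖ ≤ 2 := by
  unfold wd
  calc ‖u0 + ε • rot u0‖ ≤ ‖u0‖ + ‖ε • rot u0‖ := norm_add_le _ _
    _ = 1 + |ε| := by rw [norm_smul, norm_rot, hu, mul_one, Real.norm_eq_abs]
    _ ≤ 2 := by linarith

theorem rmap_step (hK : SBody K) (hu : ‖u0‖ = 1) (hκ : 0 < κ) {η : ℝ} (hη : 0 < η) :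
    ∃ δ > (0 : ℝ), ∃ s0 > (0 : ℝ), ∀ ε1 ε2 : ℝ, |ε1| < δ → |ε2| < δ → ∀ x ∈ Rp K u0 κ,
      dist (rmap K u0 ε1 ε2 x) x < η ∧
      dist (chord K (wd u0 ε2) x) (chord K u0 x) < η ∧
      ∃ s : ℝ, s0 ≤ s ∧ chord K (wd u0 ε2) x = x - s • wd u0 ε2 := by
  have hu0 : u0 ≠ 0 := by
    intro h
    rw [h, norm_zero] at hu
    exact zero_ne_one hu
  obtain ⟨c, hc, hreg⟩ := reg_bounds hK hu0 hκ
  obtain ⟨δ1, hδ1, h1⟩ := chord_unif hK hu0 hη
  obtain ⟨δ2, hδ2, h2⟩ := chord_unif hK hu0 (ε := min (min η δ1) (c / 2))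
    (lt_min (lt_min hη hδ1) (by linarith))
  refine ⟨min (min δ1 δ2) (min c 1), lt_min (lt_min hδ1 hδ2) (lt_min hc one_pos), c / 4,
    by linarith, ?_⟩
  intro ε1 ε2 he1 he2 x hx
  have hxf : x ∈ frontier K := hx.1.1
  have he1' : |ε1| < δ1 := he1.trans_le ((min_le_left _ _).trans (min_le_left _ _))
  have he2' : |ε2| < δ2 := he2.trans_le ((min_le_left _ _).trans (min_le_right _ _))
  have he2c : |ε2| < c := he2.trans_le ((min_le_right _ _).trans (min_le_left _ _))
  have he21 : |ε2| < 1 := he2.trans_le ((min_le_right _ _).trans (min_le_right _ _))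
  have hz : chord K (wd u0 ε2) x ∈ frontier K := chord_mem hxf
  have h3 : dist (chord K (wd u0 ε2) x) (chord K u0 x) < min (min η δ1) (c / 2) := by
    refine h2 (wd u0 ε2) ?_ x hxf x hxf ?_
    · rw [dist_wd hu]
      exact he2'
    · rw [dist_self]
      exact hδ2
  have h4 : dist (rmap K u0 ε1 ε2 x) (chord K u0 (chord K u0 x)) < η := by
    refine h1 (wd u0 ε1) ?_ _ hz _ (chord_mem hxf) ?_
    · rw [dist_wd hu]
      exact he1'
    · exact h3.trans_le ((min_le_left _ _).trans (min_le_right _ _))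
  rw [chord_chord hK.clo hK.str hxf] at h4
  refine ⟨h4, h3.trans_le ((min_le_left _ _).trans (min_le_left _ _)), ?_⟩
  obtain ⟨s, hs1, -, hs2⟩ := chord_tang hK hxf (wd_ne_zero hu ε2)
  have ht := (tang_spec hK hxf).1
  have h5 : 0 < cross (wd u0 ε2) (tang K x) := by
    have h6 : cross (wd u0 ε2) (tang K x) =
        cross u0 (tang K x) + ε2 * cross (rot u0) (tang K x) := by
      unfold wd
      rw [cross_add_left, cross_smul_left]
    have h7 : c ≤ cross u0 (tang K x) := by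
      have := (hreg x hx.1).1
      rwa [abs_of_pos hx.2] at this
    have h8 : |ε2 * cross (rot u0) (tang K x)| ≤ |ε2| := by
      rw [abs_mul]
      have h9 := abs_cross_le (rot u0) (tang K x)
      rw [norm_rot, hu, ht, mul_one] at h9
      exact mul_le_of_le_one_right (abs_nonneg _) h9
    have h10 := (abs_le.1 h8).1
    rw [h6]
    linarith
  have h6 := hs2 h5.ne'
  have hs0 : 0 < s := by
    by_contra hcon
    have := mul_nonpos_of_nonpos_of_nonneg (not_lt.1 hcon) h5.le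
    linarith
  refine ⟨s, ?_, hs1⟩
  have h7 : dist x (chord K (wd u0 ε2) x) = s * ‖wd u0 ε2‖ := by
    rw [hs1, dist_eq_norm, sub_sub_cancel, norm_smul, Real.norm_eq_abs, abs_of_pos hs0]
  have h8 : c / 2 ≤ dist x (chord K (wd u0 ε2) x) := by
    have h9 := (hreg x hx.1).2
    have h10 := dist_triangle x (chord K (wd u0 ε2) x) (chord K u0 x)
    have h11 := h3.trans_le (min_le_right _ _)
    linarith
  have h9 := l08_norm_wd hu he21
  have h10 : s * ‖wd u0 ε2‖ ≤ s * 2 := mul_le_mul_of_nonneg_left h9 hs0.le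
  linarith

end ChordMaps
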