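import Pool.Agent.Helper3.LS.L07
import Pool.Agent.Helper3.LS.L08

set_option autoImplicit false

/-! # LS-09: the orbit of `rmap` reaches every height, staying on the right side

Let `w1 = wd u0 ε1`, `r = rmap K u0 ε1 ε2`, `x_j = r^[j] x`, `H = cross u0`, `H1 = cross w1`. If `x_j ∈ Rp (κ/2)`
then by LS-08 (for `κ/2`) and `cross_chord`, `cross_wd`:
`H1 x_{j+1} - H1 x_j = - s * cross w1 (wd u0 ε2) = s * (ε1 - ε2)`, so `σ (H1 x_{j+1} - H1 x_j) ≥ s0 |ε1 - ε2|`,
`σ = sign (ε1 - ε2)`, and `dist x_{j+1} x_j < η'`.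
On `K`, `|H1 - H| ≤ |ε1| * R`, `R` a bound for the norm on `K`; choose `δ` with `2 δ R ≤ κ/2` etc.
Given `η`, let `η''` be as in `rp_unif` (for `κ/2`, `η`), `η' < η''/2` (also for `rp_near`, and
`|H x - H y| ≤ dist x y`).  CLAIM: if `σ (H y - H x_i) ≥ η''` for all `i < j` then all `x_i`, `i ≤ j`, are in
`Rp (κ/2)`: induction; for heights use that `σ H1` increases, so `σ H x_j ≥ σ H x - κ/2`, and
`σ H x_j ≤ σ H x_{j-1} + η' < σ H y`; so `H x_j` lies in the interval between (height of a point of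
`Reg κ`) ∓ κ/2 and `H y`, thus `x_j ∈ Reg (κ/2)`, and `rp_near` gives the side.
If `σ (H y - H x_j) ≥ η''` for all `j`, then `σ H1 x_j ≥ σ H1 x + j s0 |ε1 - ε2|` is unbounded, contradiction.
So there is a first `k` with `σ (H y - H x_k) < η''` (`Nat.find`); and `σ (H y - H x_k) ≥ 0`: for `k = 0` this is the
hypothesis, for `k ≥ 1` it is `≥ η'' - η'`.  Hence `|H y - H x_k| < η''` and `rp_unif` concludes.
(The case `σ = -1` is the same with all signs reversed; it may be convenient to carry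
`σ : ℝ` with `σ = 1 ∨ σ = -1`, `0 < σ * (ε1 - ε2)`.)
-/

namespace ChordMaps

open Topology Filter

variable {K : Set Plane} {u0 : Plane} {κ : ℝ}

private lemma l09_lip (hu : ‖u0‖ = 1) (x y : Plane) : |cross u0 y - cross u0 x| ≤ dist x y := by
  rw [← cross_sub_right, dist_comm, dist_eq_norm]
  have h := abs_cross_le u0 (y - x)
  rwa [hu, one_mul] at h

private lemma l09_H1 (hu : ‖u0‖ = 1) (ε : ℝ) (z : Plane) {R : ℝ} (hz : ‖z‖ ≤ R) :
    |cross (wd u0 ε) z - cross u0 z| ≤ |ε| * R := by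
  have e : cross (wd u0 ε) z - cross u0 z = ε * cross (rot u0) z := by
    unfold wd
    rw [cross_add_left, cross_smul_left]
    ring
  rw [e, abs_mul]
  refine mul_le_mul_of_nonneg_left ?_ (abs_nonneg _)
  have h := abs_cross_le (rot u0) z
  rw [norm_rot, hu, one_mul] at h
  exact h.trans hz

private lemma l09_rmap_mem {ε1 ε2 : ℝ} {x : Plane} (hx : x ∈ frontier K) :
    rmap K u0 ε1 ε2 x ∈ frontier K := chord_mem (chord_mem hx)

private lemma l09_rmap_H1 (hu : ‖u0‖ = 1) {ε1 ε2 s : ℝ} {x : Plane}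
    (hs : chord K (wd u0 ε2) x = x - s • wd u0 ε2) :
    cross (wd u0 ε1) (rmap K u0 ε1 ε2 x) = cross (wd u0 ε1) x + s * (ε1 - ε2) := by
  unfold rmap
  rw [cross_chord, hs, cross_sub_right, cross_smul_right, cross_wd hu]
  ring

theorem reach (hK : SBody K) (hu : ‖u0‖ = 1) (hκ : 0 < κ) {η : ℝ} (hη : 0 < η) :
    ∃ δ > 0, ∀ ε1 ε2 : ℝ, |ε1| < δ → |ε2| < δ → ε1 ≠ ε2 → ∀ x ∈ Rp K u0 κ, ∀ y ∈ Rp K u0 κ,
      0 ≤ (ε1 - ε2) * (cross u0 y - cross u0 x) →
      ∃ k : ℕ, dist ((rmap K u0 ε1 ε2)^[k] x) y < η ∧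
        ∀ j ≤ k, (rmap K u0 ε1 ε2)^[j] x ∈ Rp K u0 (κ / 2) := by
  have hu0 : u0 ≠ 0 := by
    intro h
    rw [h, norm_zero] at hu
    exact zero_ne_one hu
  have hκ2 : 0 < κ / 2 := by linarith
  obtain ⟨η2, hη2, h2⟩ := rp_unif hK hu0 hκ2 hη
  obtain ⟨η3, hη3, h3⟩ := rp_near hK hu0 hκ2 (κ / 2)
  have hη' : 0 < min (η2 / 2) η3 := lt_min (by linarith) hη3
  obtain ⟨δ0, hδ0, s0, hs0, hstep⟩ := rmap_step hK hu hκ2 hη'
  obtain ⟨R0, hR0⟩ := hK.cpt.isBounded.exists_norm_le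
  obtain ⟨R, hR, hRb⟩ : ∃ R > 0, ∀ z ∈ K, ‖z‖ ≤ R :=
    ⟨max R0 1, lt_max_of_lt_right one_pos, fun z hz => (hR0 z hz).trans (le_max_left _ _)⟩
  refine ⟨min δ0 (κ / (4 * R)), lt_min hδ0 (by positivity), ?_⟩
  intro ε1 ε2 hε1 hε2 hne x hx y hy hxy
  have hε1' : |ε1| < δ0 := hε1.trans_le (min_le_left _ _)
  have hε2' : |ε2| < δ0 := hε2.trans_le (min_le_left _ _)
  have hεR : |ε1| * R ≤ κ / 4 := by
    have h : |ε1| ≤ κ / (4 * R) := (hε1.trans_le (min_le_right _ _)).le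
    calc |ε1| * R ≤ κ / (4 * R) * R := mul_le_mul_of_nonneg_right h hR.le
      _ = κ / 4 := by field_simp
  -- the sign
  obtain ⟨σ, hσ, hσD⟩ : ∃ σ : ℝ, (σ = 1 ∨ σ = -1) ∧ 0 < σ * (ε1 - ε2) := by
    rcases lt_or_gt_of_ne hne with h | h
    · exact ⟨-1, Or.inr rfl, by linarith⟩
    · exact ⟨1, Or.inl rfl, by linarith⟩
  have hxy' : 0 ≤ σ * (cross u0 y - cross u0 x) := by
    rcases hσ with rfl | rfl
    · rw [one_mul] at hσD ⊢
      exact nonneg_of_mul_nonneg_right hxy hσD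
    · have h5 : 0 < -(ε1 - ε2) := by linarith
      have h6 : 0 ≤ -(ε1 - ε2) * (-1 * (cross u0 y - cross u0 x)) := by
        have e : -(ε1 - ε2) * (-1 * (cross u0 y - cross u0 x)) =
          (ε1 - ε2) * (cross u0 y - cross u0 x) := by ring
        rw [e]
        exact hxy
      exact nonneg_of_mul_nonneg_right h6 h5
  have hσabs : ∀ a b c : ℝ, |a - b| ≤ c → σ * a ≤ σ * b + c ∧ σ * b - c ≤ σ * a := by
    intro a b c h
    have h' := abs_le.1 h
    rcases hσ with rfl | rfl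
    · constructor <;> linarith [h'.1, h'.2]
    · constructor <;> linarith [h'.1, h'.2]
  set X : ℕ → Plane := fun j => (rmap K u0 ε1 ε2)^[j] x with hX
  have hX0 : X 0 = x := rfl
  have hXs : ∀ j, X (j + 1) = rmap K u0 ε1 ε2 (X j) := fun j => by
    rw [hX]
    exact Function.iterate_succ_apply' _ _ _
  have hXf : ∀ j, X j ∈ frontier K := by
    intro j
    induction j with
    | zero => exact hx.1.1
    | succ j ih => rw [hXs]; exact l09_rmap_mem ih
  have hXR : ∀ j, ‖X j‖ ≤ R := fun j => hRb _ (hK.clo.frontier_subset (hXf j))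
  -- one step
  have hone : ∀ j, X j ∈ Rp K u0 (κ / 2) → dist (X (j + 1)) (X j) < min (η2 / 2) η3 ∧
      σ * cross (wd u0 ε1) (X j) + s0 * (σ * (ε1 - ε2)) ≤ σ * cross (wd u0 ε1) (X (j + 1)) := by
    intro j hj
    obtain ⟨d1, -, s, hs, hs'⟩ := hstep ε1 ε2 hε1' hε2' (X j) hj
    rw [hXs]
    refine ⟨d1, ?_⟩
    rw [l09_rmap_H1 hu hs']
    have : s0 * (σ * (ε1 - ε2)) ≤ s * (σ * (ε1 - ε2)) := mul_le_mul_of_nonneg_right hs hσD.le
    linarith
  -- the claim
  have claim : ∀ j : ℕ, (∀ i < j, η2 ≤ σ * (cross u0 y - cross u0 (X i))) →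
      (∀ i ≤ j, X i ∈ Rp K u0 (κ / 2)) ∧
      σ * cross (wd u0 ε1) x + j * (s0 * (σ * (ε1 - ε2))) ≤ σ * cross (wd u0 ε1) (X j) := by
    intro j
    induction j with
    | zero =>
      intro _
      refine ⟨fun i hi => ?_, ?_⟩
      · obtain rfl : i = 0 := by omega
        rw [hX0]
        exact rp_mono (by linarith) hx
      · rw [hX0]
        simp
    | succ j ih =>
      intro hj
      obtain ⟨ih1, ih2⟩ := ih fun i hi => hj i (by omega)
      have hjj := hj j (by omega)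
      obtain ⟨d1, d2⟩ := hone j (ih1 j le_rfl)
      have hg : σ * cross (wd u0 ε1) x + ((j + 1 : ℕ) : ℝ) * (s0 * (σ * (ε1 - ε2))) ≤
          σ * cross (wd u0 ε1) (X (j + 1)) := by
        push_cast
        linarith
      refine ⟨fun i hi => ?_, hg⟩
      rcases Nat.lt_or_ge i (j + 1) with h | h
      · exact ih1 i (by omega)
      obtain rfl : i = j + 1 := by omega
      have a1 := hσabs _ _ _ (l09_H1 hu ε1 (X (j + 1)) (hXR (j + 1)))
      have a2 := hσabs _ _ _ (l09_H1 hu ε1 x (hXR 0))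
      have a3 : 0 ≤ ((j + 1 : ℕ) : ℝ) * (s0 * (σ * (ε1 - ε2))) := by positivity
      have a4 : σ * cross u0 x - κ / 2 ≤ σ * cross u0 (X (j + 1)) := by
        linarith [a1.1, a2.2]
      have a5 := hσabs _ _ _ (l09_lip hu (X (j + 1)) (X j))
      have a6 : dist (X (j + 1)) (X j) < η2 / 2 := d1.trans_le (min_le_left _ _)
      have a7 : σ * cross u0 (X (j + 1)) ≤ σ * cross u0 y := by
        have : σ * (cross u0 y - cross u0 (X j)) = σ * cross u0 y - σ * cross u0 (X j) := by ring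
        rw [this] at hjj
        linarith [a5.2]
      have hreg : X (j + 1) ∈ Reg K u0 (κ / 2) := by
        obtain ⟨⟨-, ⟨zx, hzx, x1⟩, wx, hwx, x2⟩, -⟩ := hx
        obtain ⟨⟨-, ⟨zy, hzy, y1⟩, wy, hwy, y2⟩, -⟩ := hy
        refine ⟨hXf _, ?_⟩
        rcases hσ with rfl | rfl
        · exact ⟨⟨zx, hzx, by linarith⟩, wy, hwy, by linarith⟩
        · exact ⟨⟨zy, hzy, by linarith⟩, wx, hwx, by linarith⟩
      exact h3 (X j) (ih1 j le_rfl) (X (j + 1)) hreg
        (by rw [dist_comm]; exact d1.trans_le (min_le_right _ _))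
  -- existence of the first `k`
  have hex : ∃ k : ℕ, σ * (cross u0 y - cross u0 (X k)) < η2 := by
    by_contra hcon
    push Not at hcon
    have hall : ∀ j : ℕ, σ * cross (wd u0 ε1) x + j * (s0 * (σ * (ε1 - ε2))) ≤
        σ * cross (wd u0 ε1) (X j) := fun j => (claim j fun i _ => hcon i).2
    have hpos : 0 < s0 * (σ * (ε1 - ε2)) := mul_pos hs0 hσD
    obtain ⟨j, hj⟩ := exists_nat_gt (2 * (‖wd u0 ε1‖ * R) / (s0 * (σ * (ε1 - ε2))))
    rw [div_lt_iff₀ hpos] at hj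
    have hb : ∀ z : Plane, ‖z‖ ≤ R → |cross (wd u0 ε1) z - 0| ≤ ‖wd u0 ε1‖ * R := by
      intro z hz
      rw [sub_zero]
      exact (abs_cross_le _ _).trans (mul_le_mul_of_nonneg_left hz (norm_nonneg _))
    have b1 := hσabs _ _ _ (hb x (hXR 0))
    have b2 := hσabs _ _ _ (hb (X j) (hXR j))
    have b3 := hall j
    rw [mul_zero] at b1 b2
    linarith [b1.2, b2.1]
  classical
  refine ⟨Nat.find hex, ?_, ?_⟩
  · have hk := Nat.find_spec hex
    have hlt : ∀ i < Nat.find hex, η2 ≤ σ * (cross u0 y - cross u0 (X i)) := fun i hi =>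
      not_lt.1 (Nat.find_min hex hi)
    have hmem := (claim _ hlt).1
    have hlow : -η2 < σ * (cross u0 y - cross u0 (X (Nat.find hex))) := by
      rcases Nat.eq_zero_or_pos (Nat.find hex) with h | h
      · rw [h, hX0]
        linarith
      · obtain ⟨m, hm⟩ : ∃ m, Nat.find hex = m + 1 := ⟨Nat.find hex - 1, by omega⟩
        have c1 := hlt m (by omega)
        obtain ⟨d1, -⟩ := hone m (hmem m (by omega))
        have a5 := hσabs _ _ _ (l09_lip hu (X (m + 1)) (X m))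
        have a6 : dist (X (m + 1)) (X m) < η2 / 2 := d1.trans_le (min_le_left _ _)
        rw [hm]
        have e1 : σ * (cross u0 y - cross u0 (X m)) = σ * cross u0 y - σ * cross u0 (X m) := by
          ring
        have e2 : σ * (cross u0 y - cross u0 (X (m + 1))) =
          σ * cross u0 y - σ * cross u0 (X (m + 1)) := by ring
        rw [e1] at c1
        rw [e2]
        linarith [a5.2]
    refine h2 _ (hmem _ le_rfl) y (rp_mono (by linarith) hy) ?_
    rw [abs_lt]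
    rcases hσ with rfl | rfl
    · constructor <;> linarith
    · constructor <;> linarith
  · exact (claim _ fun i hi => not_lt.1 (Nat.find_min hex hi)).1

end ChordMaps
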