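import Pool.Agent.Helper3.LS.Defs

set_option autoImplicit false

/-! # LS-10: the transport estimate (pure vector algebra, exact law of sines + monotone directions)

Write `w' = w + β • t`, `σ e = cross t e / cross w e`, `ρ e = cross w' e / cross w e = 1 + β * σ e`,
`D = cross w' w = β * cross t w > 0` and for `j < k`: `e = b j - a j`, `d = a (j+1) - a j`,
`e' = y j - z j`, `d' = z (j+1) - z j`.
* `cross w d = s j * D > 0` and `cross w' d = cross w' (a (j+1) - z j)`;
  `cross w d' = s (j+1) * D > 0`, `cross w' d' = cross w' (a (j+1) - z j)`; so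
  `s (j+1) / s j = ρ d / ρ d'`.
* `cross w e' = cross w (b (j+1) - a (j+1)) > 0`, `cross w' e' = cross w' e`, so
  `cross w (b (j+1) - a (j+1)) = cross w e * ρ e / ρ e'`.
* hence, with `Θ j = cross w (b j - a j) / s j`:
  `log Θ (j+1) - log Θ j = (log ρ e - log ρ d) + (log ρ d' - log ρ e')`.
* monotonicity: if `0 < cross w p`, `0 < cross w q`, `0 ≤ cross p q` then `σ p ≤ σ q` (Pluecker identity
  `cross t p * cross w q - cross t q * cross w p = cross t w * cross p q` and `cross t w < 0`). Therefore
  `σ (T j) ≤ σ e ≤ σ d ≤ σ (T (j+1))` and `σ (U (j+1)) ≤ σ d' ≤ σ e' ≤ σ (U j)`, all in `[-B, B]`, so all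
  `ρ`'s are in `[1/2, 3/2]`, and `|log ρ p - log ρ q| ≤ 2 |β| |σ p - σ q|`.
* so `|log Θ (j+1) - log Θ j| ≤ 2 |β| ((σ (T (j+1)) - σ (T j)) + (σ (U j) - σ (U (j+1))))`, which telescopes.
-/

namespace ChordMaps

private lemma l10_pluecker (t w p q : Plane) :
    cross t p * cross w q - cross t q * cross w p = cross t w * cross p q := by
  unfold cross; ring

private lemma l10_mono {w t p q : Plane} (hwt : 0 < cross w t) (hp : 0 < cross w p)
    (hq : 0 < cross w q) (h : 0 ≤ cross p q) :
    cross t p / cross w p ≤ cross t q / cross w q := by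
  rw [div_le_div_iff₀ hp hq]
  have h1 := l10_pluecker t w p q
  have h2 : cross t w = - cross w t := cross_comm t w
  have h3 : 0 ≤ cross w t * cross p q := mul_nonneg hwt.le h
  rw [h2] at h1
  linarith

private lemma l10_log_aux {x y : ℝ} (hx : 1 / 2 ≤ x) (hxy : x ≤ y) :
    Real.log y - Real.log x ≤ 2 * (y - x) := by
  have hx0 : 0 < x := by linarith
  have hy0 : 0 < y := by linarith
  have h1 : Real.log (y / x) ≤ y / x - 1 := Real.log_le_sub_one_of_pos (by positivity)
  rw [Real.log_div hy0.ne' hx0.ne'] at h1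
  have h2 : y / x - 1 = (y - x) / x := by field_simp
  have h3 : (y - x) / x ≤ 2 * (y - x) := by
    rw [div_le_iff₀ hx0]
    nlinarith
  linarith

/-- `log (1 + β p)` and `log (1 + β q)` for `p ≤ q` -/
private lemma l10_log {β p q : ℝ} (hβ : β < 0) (hpq : p ≤ q) (hq : 1 / 2 ≤ 1 + β * q) :
    |Real.log (1 + β * p) - Real.log (1 + β * q)| ≤ 2 * |β| * (q - p) := by
  have h1 : 1 + β * q ≤ 1 + β * p := by nlinarith
  have h2 := l10_log_aux hq h1
  have h0 : 0 < 1 + β * q := by linarith
  have h3 : Real.log (1 + β * q) ≤ Real.log (1 + β * p) := Real.log_le_log h0 h1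
  rw [abs_of_nonneg (by linarith), abs_of_neg hβ]
  linarith

/-- one step -/
private lemma l10_step {w t a b z y a' b' z' : Plane} {β s s' : ℝ}
    (hwt : 0 < cross w t) (hβ : β < 0) (hs : 0 < s) (hs' : 0 < s')
    (hz : z = a - s • (w + β • t)) (hz' : z' = a' - s' • (w + β • t))
    (ha : cross w (a' - z) = 0) (hy : cross (w + β • t) (y - b) = 0)
    (hb : cross w (b' - y) = 0)
    (he : 0 < cross w (b - a)) (he' : 0 < cross w (b' - a')) :
    0 < cross w (a' - a) ∧ 0 < cross w (z' - z) ∧ 0 < cross w (y - z) ∧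
      (0 < 1 + β * (cross t (b - a) / cross w (b - a)) →
        0 < 1 + β * (cross t (a' - a) / cross w (a' - a)) →
        0 < 1 + β * (cross t (z' - z) / cross w (z' - z)) →
        0 < 1 + β * (cross t (y - z) / cross w (y - z)) →
        Real.log (cross w (b' - a') / s') - Real.log (cross w (b - a) / s) =
          (Real.log (1 + β * (cross t (b - a) / cross w (b - a))) -
            Real.log (1 + β * (cross t (a' - a) / cross w (a' - a)))) +
          (Real.log (1 + β * (cross t (z' - z) / cross w (z' - z))) -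
            Real.log (1 + β * (cross t (y - z) / cross w (y - z))))) := by
  have hD : 0 < -β * cross w t := mul_pos (by linarith) hwt
  have hza : z - a = -(s • (w + β • t)) := by rw [hz]; abel
  have hza' : z' - a' = -(s' • (w + β • t)) := by rw [hz']; abel
  have e1 : cross w (z - a) = s * (-β * cross w t) := by
    rw [hza, cross_neg_right, cross_smul_right, cross_add_right, cross_smul_right, cross_self]
    ring
  have e2 : cross (w + β • t) (z - a) = 0 := by
    rw [hza, cross_neg_right, cross_smul_right, cross_self]; ring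
  have e1' : cross w (z' - a') = s' * (-β * cross w t) := by
    rw [hza', cross_neg_right, cross_smul_right, cross_add_right, cross_smul_right, cross_self]
    ring
  have e2' : cross (w + β • t) (z' - a') = 0 := by
    rw [hza', cross_neg_right, cross_smul_right, cross_self]; ring
  have d1 : cross w (a' - a) = s * (-β * cross w t) := by
    have : a' - a = (a' - z) + (z - a) := by abel
    rw [this, cross_add_right, ha, e1]; ring
  have d2 : cross w (z' - z) = s' * (-β * cross w t) := by
    have : z' - z = (a' - z) + (z' - a') := by abel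
    rw [this, cross_add_right, ha, e1']; ring
  have d3 : cross (w + β • t) (a' - a) = cross (w + β • t) (z' - z) := by
    have h1 : a' - a = (a' - z) + (z - a) := by abel
    have h2 : z' - z = (a' - z) + (z' - a') := by abel
    rw [h1, h2, cross_add_right, cross_add_right _ (a' - z), e2, e2']
  have d4 : cross w (y - z) = cross w (b' - a') := by
    have h1 : b' - a' = ((b' - y) + (y - z)) - (a' - z) := by abel
    have h2 : cross w (b' - a') = cross w (b' - y) + cross w (y - z) - cross w (a' - z) := by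
      rw [h1, cross_sub_right w (_ + _), cross_add_right]
    rw [h2, ha, hb]; ring
  have d5 : cross (w + β • t) (y - z) = cross (w + β • t) (b - a) := by
    have h1 : y - z = ((y - b) + (b - a)) - (z - a) := by abel
    have h2 : cross (w + β • t) (y - z) = cross (w + β • t) (y - b) +
        cross (w + β • t) (b - a) - cross (w + β • t) (z - a) := by
      conv_lhs => rw [h1]
      rw [cross_sub_right _ (_ + _), cross_add_right]
    rw [h2, hy, e2]; ring
  have p1 : 0 < cross w (a' - a) := by rw [d1]; positivity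
  have p2 : 0 < cross w (z' - z) := by rw [d2]; positivity
  have p3 : 0 < cross w (y - z) := by rw [d4]; exact he'
  refine ⟨p1, p2, p3, ?_⟩
  have hρ : ∀ x : Plane, 0 < cross w x →
      cross (w + β • t) x = cross w x * (1 + β * (cross t x / cross w x)) := by
    intro x hx
    rw [cross_add_left, cross_smul_left]
    field_simp
  intro q1 q2 q3 q4
  have g1 : s * (1 + β * (cross t (a' - a) / cross w (a' - a))) =
      s' * (1 + β * (cross t (z' - z) / cross w (z' - z))) := by
    have h1 := hρ _ p1
    have h2 := hρ _ p2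
    rw [d3, h2] at h1
    rw [d1, d2] at h1 ⊢
    apply mul_left_cancel₀ hD.ne'
    linarith
  have g2 : cross w (b' - a') * (1 + β * (cross t (y - z) / cross w (y - z))) =
      cross w (b - a) * (1 + β * (cross t (b - a) / cross w (b - a))) := by
    have h1 := hρ _ p3
    have h2 := hρ _ he
    rw [d5, h2] at h1
    rw [h1, d4]
  have l1 := congrArg Real.log g1
  have l2 := congrArg Real.log g2
  rw [Real.log_mul hs.ne' q2.ne', Real.log_mul hs'.ne' q3.ne'] at l1
  rw [Real.log_mul he'.ne' q4.ne', Real.log_mul he.ne' q1.ne'] at l2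
  rw [Real.log_div he'.ne' hs'.ne', Real.log_div he.ne' hs.ne']
  linarith

theorem transport_log {w t : Plane} {β B : ℝ} (hwt : 0 < cross w t) (hβ : β < 0)
    (hB : |β| * B ≤ 1 / 2) (k : ℕ) (a b z y T U : ℕ → Plane) (s : ℕ → ℝ)
    (hs : ∀ j ≤ k, 0 < s j)
    (hz : ∀ j ≤ k, z j = a j - s j • (w + β • t))
    (ha : ∀ j < k, cross w (a (j + 1) - z j) = 0)
    (hy : ∀ j ≤ k, cross (w + β • t) (y j - b j) = 0)
    (hb : ∀ j < k, cross w (b (j + 1) - y j) = 0)
    (he : ∀ j ≤ k, 0 < cross w (b j - a j))
    (hT : ∀ j ≤ k, 0 < cross w (T j) ∧ |cross t (T j)| ≤ B * cross w (T j))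
    (hU : ∀ j ≤ k, 0 < cross w (U j) ∧ |cross t (U j)| ≤ B * cross w (U j))
    (h1 : ∀ j ≤ k, 0 ≤ cross (T j) (b j - a j))
    (h2 : ∀ j < k, 0 ≤ cross (b j - a j) (a (j + 1) - a j))
    (h3 : ∀ j < k, 0 ≤ cross (a (j + 1) - a j) (T (j + 1)))
    (h4 : ∀ j < k, 0 ≤ cross (y j - z j) (U j))
    (h5 : ∀ j < k, 0 ≤ cross (z (j + 1) - z j) (y j - z j))
    (h6 : ∀ j < k, 0 ≤ cross (U (j + 1)) (z (j + 1) - z j)) :
    |Real.log (cross w (b k - a k) / s k) - Real.log (cross w (b 0 - a 0) / s 0)|
      ≤ 8 * |β| * B := by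
  have hbd : ∀ x : Plane, 0 < cross w x → |cross t x| ≤ B * cross w x →
      -B ≤ cross t x / cross w x ∧ cross t x / cross w x ≤ B := by
    intro x hx hxB
    obtain ⟨g1, g2⟩ := abs_le.1 hxB
    constructor
    · rw [le_div_iff₀ hx]; linarith
    · rw [div_le_iff₀ hx]; exact g2
  have hρB : ∀ q : ℝ, q ≤ B → 1 / 2 ≤ 1 + β * q := by
    intro q hq
    rw [abs_of_neg hβ] at hB
    nlinarith
  have main : ∀ m ≤ k,
      |Real.log (cross w (b m - a m) / s m) - Real.log (cross w (b 0 - a 0) / s 0)| ≤
        2 * |β| * ((cross t (T m) / cross w (T m) - cross t (T 0) / cross w (T 0)) +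
          (cross t (U 0) / cross w (U 0) - cross t (U m) / cross w (U m))) := by
    intro m
    induction m with
    | zero => intro _; simp
    | succ m ih =>
      intro hm
      have ih' := ih (by omega)
      have hmk : m < k := by omega
      obtain ⟨p1, p2, p3, hlog⟩ := l10_step hwt hβ (hs m hmk.le) (hs (m + 1) hm) (hz m hmk.le)
        (hz (m + 1) hm) (ha m hmk) (hy m hmk.le) (hb m hmk) (he m hmk.le) (he (m + 1) hm)
      have p0 := he m hmk.le
      obtain ⟨t1, t1'⟩ := hT m hmk.le
      obtain ⟨t2, t2'⟩ := hT (m + 1) hm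
      obtain ⟨u1, u1'⟩ := hU m hmk.le
      obtain ⟨u2, u2'⟩ := hU (m + 1) hm
      have o1 := l10_mono hwt t1 p0 (h1 m hmk.le)
      have o2 := l10_mono hwt p0 p1 (h2 m hmk)
      have o3 := l10_mono hwt p1 t2 (h3 m hmk)
      have o4 := l10_mono hwt p3 u1 (h4 m hmk)
      have o5 := l10_mono hwt p2 p3 (h5 m hmk)
      have o6 := l10_mono hwt u2 p2 (h6 m hmk)
      obtain ⟨-, b2⟩ := hbd _ t2 t2'
      obtain ⟨-, b3⟩ := hbd _ u1 u1'
      have r2 := hρB _ (o3.trans b2)
      have r1 := hρB _ ((o2.trans o3).trans b2)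
      have r4 := hρB _ (o4.trans b3)
      have r3 := hρB _ ((o5.trans o4).trans b3)
      have hl := hlog (by linarith) (by linarith) (by linarith) (by linarith)
      have v1 := l10_log hβ o2 r2
      have v2 := l10_log hβ o5 r4
      have hβ0 : 0 ≤ |β| := abs_nonneg β
      have tri : |Real.log (cross w (b (m + 1) - a (m + 1)) / s (m + 1)) -
          Real.log (cross w (b 0 - a 0) / s 0)| ≤
          |Real.log (cross w (b (m + 1) - a (m + 1)) / s (m + 1)) -
            Real.log (cross w (b m - a m) / s m)| +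
          |Real.log (cross w (b m - a m) / s m) - Real.log (cross w (b 0 - a 0) / s 0)| :=
        abs_sub_le _ _ _
      have tri2 := abs_add_le
        (Real.log (1 + β * (cross t (b m - a m) / cross w (b m - a m))) -
          Real.log (1 + β * (cross t (a (m + 1) - a m) / cross w (a (m + 1) - a m))))
        (Real.log (1 + β * (cross t (z (m + 1) - z m) / cross w (z (m + 1) - z m))) -
          Real.log (1 + β * (cross t (y m - z m) / cross w (y m - z m))))
      rw [hl] at tri
      nlinarith
  have hk := main k le_rfl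
  obtain ⟨t1, t1'⟩ := hT k le_rfl
  obtain ⟨t0, t0'⟩ := hT 0 (Nat.zero_le _)
  obtain ⟨u1, u1'⟩ := hU k le_rfl
  obtain ⟨u0, u0'⟩ := hU 0 (Nat.zero_le _)
  obtain ⟨-, c1⟩ := hbd _ t1 t1'
  obtain ⟨c2, -⟩ := hbd _ t0 t0'
  obtain ⟨c3, -⟩ := hbd _ u1 u1'
  obtain ⟨-, c4⟩ := hbd _ u0 u0'
  have hβ0 : 0 ≤ |β| := abs_nonneg β
  refine hk.trans ?_
  have : (cross t (T k) / cross w (T k) - cross t (T 0) / cross w (T 0)) +
          (cross t (U 0) / cross w (U 0) - cross t (U k) / cross w (U k)) ≤ 4 * B := by linarith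
  nlinarith

end ChordMaps
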