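import Pool.Agent.Helper3.LS.L03
import Pool.Agent.Helper3.LS.L06

set_option autoImplicit false

/-! # LS-11: comparison of `cross w (b - a) / s` with the weighted gap length

Let `a ∈ Rp K u0 κ`, `(a, b)` an edge of `M`, `w = wd u0 ε1`, `T = tang K a`, `c` from `reg_bounds`.
* `edge_secant` (LS-03) with small `θ'`: `‖(b - a) - dist a b • T‖ ≤ θ' * dist a b`, and
  `|cross w T - cross u0 T| ≤ |ε1|` (`|cross (rot u0) T| ≤ 1`), so
  `cross w (b - a) / dist a b` is within `θ' ‖w‖ + |ε1|` of `cross u0 T = |cross u0 T| ≥ c`.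
* `s`: `s • wd u0 ε2 = a - chord K (wd u0 ε2) a`, which is within small `η'` of `a - chord K u0 a`
  (`chord_unif`), a vector of norm `≥ c`; by `chord_tang` `0 < s * cross (wd u0 ε2) T` (or `s` is unique and
  has the sign of `cross (wd u0 ε2) T > 0`), so `s > 0`, `s * ‖wd u0 ε2‖ = dist a (chord ..)`, `‖wd‖ → 1`.
* so the quotient of `cross w (b - a) / s` and `dist a b * gw K u0 a = dist a b * |cross u0 T| / dist a (chord K u0 a)`
  is as close to `1` as we wish, uniformly.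
-/

namespace ChordMaps

open Topology Filter

variable {K : Set Plane} {u0 : Plane} {κ η0 θ : ℝ}

private lemma l11_log {x y τ : ℝ} (hy : 0 < y) (hτ : τ ≤ 1 / 2) (h : |x - y| ≤ τ * y) :
    0 < x ∧ |Real.log x - Real.log y| ≤ 2 * τ := by
  have h1 := abs_le.1 h
  have hx : 0 < x := by nlinarith [h1.1]
  refine ⟨hx, ?_⟩
  rw [← Real.log_div hx.ne' hy.ne']
  have hxy : 0 < x / y := div_pos hx hy
  have hτ0 : 0 ≤ τ := by
    by_contra hcon
    push Not at hcon
    have h2 := abs_nonneg (x - y)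
    have h3 : τ * y < 0 := mul_neg_of_neg_of_pos hcon hy
    linarith
  have h2 := Real.log_le_sub_one_of_pos hxy
  have h3 := Real.one_sub_inv_le_log_of_pos hxy
  rw [abs_le]
  constructor
  · rw [inv_div] at h3
    have h4 : y / x ≤ 1 + 2 * τ := by
      rw [div_le_iff₀ hx]
      have h5 : 0 ≤ (1 + 2 * τ) * (x - (1 - τ) * y) :=
        mul_nonneg (by linarith) (by nlinarith [h1.1])
      have h6 : 0 ≤ τ * (1 - 2 * τ) * y := mul_nonneg (mul_nonneg hτ0 (by linarith)) hy.le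
      nlinarith [h5, h6]
    linarith
  · have h4 : x / y ≤ 1 + τ := by
      rw [div_le_iff₀ hy]
      nlinarith [h1.2]
    linarith

theorem theta_compare (hK : SBody K) (hu : ‖u0‖ = 1) (hκ : 0 < κ) (hη0 : 0 < η0) (hθ : 0 < θ) :
    ∃ δ > 0, ∀ (ε1 ε2 : ℝ) (M : Set Plane), Adm K u0 η0 δ ε1 ε2 M → ∀ a b, Edge M a b →
      a ∈ Rp K u0 κ → ∀ s : ℝ, chord K (wd u0 ε2) a = a - s • wd u0 ε2 →
      0 < s ∧ 0 < cross (wd u0 ε1) (b - a) ∧
      |Real.log (cross (wd u0 ε1) (b - a) / s) - Real.log (dist a b * gw K u0 a)| ≤ θ := by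
  have hu0 : u0 ≠ 0 := by
    intro h
    rw [h, norm_zero] at hu
    exact zero_ne_one hu
  obtain ⟨c, hc, hcb⟩ := reg_bounds hK hu0 hκ
  set τ : ℝ := min (1 / 2) (θ / 6) with hτ
  have hτ0 : 0 < τ := lt_min (by norm_num) (by linarith)
  have hτ1 : τ ≤ 1 / 2 := min_le_left _ _
  have hτ2 : 6 * τ ≤ θ := by
    have := min_le_right (1 / 2 : ℝ) (θ / 6)
    rw [← hτ] at this
    linarith
  have hcτ : 0 < c * τ := mul_pos hc hτ0
  obtain ⟨δ1, hδ1, hsec⟩ := edge_secant hK hη0 (θ := c * τ / 4) (by linarith)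
  obtain ⟨δ2, hδ2, hch⟩ := chord_unif hK hu0 hcτ
  refine ⟨min δ1 (min δ2 (min (c * τ / 2) τ)), lt_min hδ1 (lt_min hδ2 (lt_min (by linarith) hτ0)),
    ?_⟩
  intro ε1 ε2 M hA a b hE ha s hs
  have hε : ∀ ε : ℝ, |ε| < min δ1 (min δ2 (min (c * τ / 2) τ)) →
      |ε| < δ2 ∧ |ε| < c * τ / 2 ∧ |ε| < τ := by
    intro ε h
    rw [lt_min_iff, lt_min_iff, lt_min_iff] at h
    exact ⟨h.2.1, h.2.2.1, h.2.2.2⟩
  obtain ⟨-, hε1b, hε1c⟩ := hε ε1 hA.h1
  obtain ⟨hε2a, hε2b, hε2c⟩ := hε ε2 hA.h2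
  have haf : a ∈ frontier K := ha.1.1
  obtain ⟨hT, -⟩ := tang_spec hK haf
  set T := tang K a with hTdef
  obtain ⟨hc1, hc2⟩ := hcb a ha.1
  have hC0pos : 0 < cross u0 T := ha.2
  rw [← hTdef, abs_of_pos hC0pos] at hc1
  have hD : 0 < dist a b := dist_pos.2 hE.2.2.1
  have hD0 : 0 < dist a (chord K u0 a) := lt_of_lt_of_le hc hc2
  -- norms of the directions
  have hwn : ∀ ε : ℝ, |‖wd u0 ε‖ - 1| ≤ |ε| := by
    intro ε
    have h1 := abs_norm_sub_norm_le (wd u0 ε) u0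
    rw [hu, ← dist_eq_norm, dist_wd hu] at h1
    exact h1
  have hwT : ∀ ε : ℝ, |cross (wd u0 ε) T - cross u0 T| ≤ |ε| := by
    intro ε
    rw [← cross_sub_left]
    refine (abs_cross_le _ _).trans ?_
    rw [hT, mul_one, ← dist_eq_norm, dist_wd hu]
  -- the gap
  have hr := hsec M hA.sub hA.fat a b hE
    ((hA.small a b hE).trans_le (min_le_left _ _))
  set r : Plane := b - a - dist a b • T with hrdef
  have hX : cross (wd u0 ε1) (b - a) = dist a b * cross (wd u0 ε1) T + cross (wd u0 ε1) r := by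
    rw [← cross_smul_right, ← cross_add_right]
    congr 1
    rw [hrdef]
    abel
  have hw1 : ‖wd u0 ε1‖ ≤ 2 := by
    have h1 := abs_le.1 (hwn ε1)
    linarith [h1.2]
  have hXb : |cross (wd u0 ε1) (b - a) - dist a b * cross u0 T| ≤
      τ * (dist a b * cross u0 T) := by
    have e1 : cross (wd u0 ε1) (b - a) - dist a b * cross u0 T =
        dist a b * (cross (wd u0 ε1) T - cross u0 T) + cross (wd u0 ε1) r := by
      rw [hX]
      ring
    rw [e1]
    have h1 : |dist a b * (cross (wd u0 ε1) T - cross u0 T)| ≤ dist a b * (c * τ / 2) := by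
      rw [abs_mul, abs_of_pos hD]
      exact mul_le_mul_of_nonneg_left ((hwT ε1).trans hε1b.le) hD.le
    have h2 : |cross (wd u0 ε1) r| ≤ 2 * (c * τ / 4 * dist a b) :=
      (abs_cross_le _ _).trans (mul_le_mul hw1 hr (norm_nonneg _) (by norm_num))
    have h3 := abs_add_le (dist a b * (cross (wd u0 ε1) T - cross u0 T)) (cross (wd u0 ε1) r)
    have h4 : τ * (dist a b * c) ≤ τ * (dist a b * cross u0 T) :=
      mul_le_mul_of_nonneg_left (mul_le_mul_of_nonneg_left hc1 hD.le) hτ0.le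
    have h5 : dist a b * (c * τ / 2) + 2 * (c * τ / 4 * dist a b) = τ * (dist a b * c) := by ring
    linarith
  obtain ⟨hX0, hXlog⟩ := l11_log (mul_pos hD hC0pos) hτ1 hXb
  -- the chord
  have hw2ne : wd u0 ε2 ≠ 0 := wd_ne_zero hu ε2
  have hcw2 : 0 < cross (wd u0 ε2) T := by
    have h1 := abs_le.1 (hwT ε2)
    have h2 : c * τ / 2 ≤ c / 4 := by nlinarith
    linarith [h1.1]
  have hs0 : 0 < s := by
    obtain ⟨s', hs1, -, hs3⟩ := chord_tang hK haf hw2ne
    have h1 : s = s' := by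
      have h2 : s • wd u0 ε2 = s' • wd u0 ε2 := by
        rw [hs] at hs1
        exact sub_right_inj.1 hs1
      have h3 : (s - s') • wd u0 ε2 = 0 := by rw [sub_smul, h2, sub_self]
      rcases smul_eq_zero.1 h3 with h4 | h4
      · linarith
      · exact absurd h4 hw2ne
    rw [h1]
    exact (mul_pos_iff_of_pos_right hcw2).1 (hs3 hcw2.ne')
  have hw2pos : 0 < ‖wd u0 ε2‖ := norm_pos_iff.2 hw2ne
  have hD2 : s * ‖wd u0 ε2‖ = dist a (chord K (wd u0 ε2) a) := by
    rw [hs, dist_eq_norm, sub_sub_cancel, norm_smul, Real.norm_eq_abs, abs_of_pos hs0]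
  have hD2b : |s * ‖wd u0 ε2‖ - dist a (chord K u0 a)| ≤ τ * dist a (chord K u0 a) := by
    have h1 : dist (chord K (wd u0 ε2) a) (chord K u0 a) < c * τ :=
      hch _ (by rw [dist_wd hu]; exact hε2a) a haf a haf (by rw [dist_self]; exact hδ2)
    rw [hD2]
    have h2 : |dist a (chord K (wd u0 ε2) a) - dist a (chord K u0 a)| ≤
        dist (chord K (wd u0 ε2) a) (chord K u0 a) := by
      rw [dist_comm a, dist_comm a]
      exact abs_dist_sub_le _ _ _
    have h3 : c * τ ≤ τ * dist a (chord K u0 a) := by nlinarith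
    linarith
  obtain ⟨hD2pos, hD2log⟩ := l11_log hD0 hτ1 hD2b
  have hw2b : |‖wd u0 ε2‖ - 1| ≤ τ * 1 := by
    rw [mul_one]
    exact (hwn ε2).trans hε2c.le
  obtain ⟨-, hw2log⟩ := l11_log one_pos hτ1 hw2b
  refine ⟨hs0, hX0, ?_⟩
  have hgw : gw K u0 a = cross u0 T / dist a (chord K u0 a) := by
    unfold gw
    rw [← hTdef, abs_of_pos hC0pos]
  have hkey : Real.log (cross (wd u0 ε1) (b - a) / s) - Real.log (dist a b * gw K u0 a) =
      (Real.log (cross (wd u0 ε1) (b - a)) - Real.log (dist a b * cross u0 T)) -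
        (Real.log (s * ‖wd u0 ε2‖) - Real.log (dist a (chord K u0 a))) +
        (Real.log ‖wd u0 ε2‖ - Real.log 1) := by
    rw [hgw, ← mul_div_assoc, Real.log_div hX0.ne' hs0.ne',
      Real.log_div (mul_pos hD hC0pos).ne' hD0.ne', Real.log_mul hs0.ne' hw2pos.ne', Real.log_one]
    ring
  rw [hkey]
  have h1 := abs_le.1 hXlog
  have h2 := abs_le.1 hD2log
  have h3 := abs_le.1 hw2log
  rw [abs_le]
  constructor
  · linarith [h1.1, h2.2, h3.1]
  · linarith [h1.2, h2.1, h3.2]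

end ChordMaps
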