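import Pool.Agent.Helper3.LS.L10
import Pool.Agent.Helper3.LS.L11

set_option autoImplicit false

/-! # LS-12: transport of gaps along `rmap`, upward case (`ε2 < ε1`)

* `edge_rmap`: `edge_chord` (Flow.lean) twice.  `edge_iterate`: induction.
* `transport_up`: apply `transport_log` (LS-10) with `w = wd u0 ε1`, `t = rot u0`, `β = ε2 - ε1 < 0`
  (`w + β • t = wd u0 ε2`, `cross w t = 1`), `a j = r^[j] a`, `b j = r^[j] b`,
  `z j = chord K (wd u0 ε2) (a j)`, `y j = chord K (wd u0 ε2) (b j)`, `T j = tang K (a j)`,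
  `U j = - tang K (z j)`, `s j` from `chord_tang` / `theta_compare`, `B = 4 / c`, `c` from `reg_bounds`
  (`cross u0 (tang K (a j)) ≥ c`; `z j` is close to `chord K u0 (a j) ∈ Reg κ` (`chord_unif`, `chord_reg`),
  where `cross u0 (tang K ·) ≤ - c` (`chord_cross_neg`), so by uniform continuity of `tang K`
  `cross u0 (tang K (z j)) ≤ - c/2`; and `|cross w T - cross u0 T| ≤ |ε1|`).
  Hypotheses: `h1, h3, h4, h6` from `tang_spec` at `a j`, `a (j+1)`, `z j`, `z (j+1)`;
  `h2` from `Edge M (a j) (b j)` and `a (j+1) ∈ M`; `h5` from `Edge M (y j) (z j)` (`edge_chord`) and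
  `z (j+1) ∈ M`: `0 ≤ cross (z j - y j) (z (j+1) - y j)`;
  `ha, hb`: `a (j+1) = chord K w (z j)`, `b (j+1) = chord K w (y j)` and `cross_chord`; `hs, he` from
  `theta_compare`.  Then `8 |β| B ≤ 8 * 2δ * 4/c ≤ θ/3`, and `theta_compare` (with `θ/3`) at `j = 0` and
  `j = k`.
-/

namespace ChordMaps

open Topology Filter

variable {K M : Set Plane} {u0 a b : Plane} {κ η0 θ ε1 ε2 : ℝ}

theorem edge_rmap (hK : SBody K) (hu : ‖u0‖ = 1) (hM : M ⊆ frontier K)
    (h1 : Inv K M (wd u0 ε1)) (h2 : Inv K M (wd u0 ε2)) (he : Edge M a b) :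
    Edge M (rmap K u0 ε1 ε2 a) (rmap K u0 ε1 ε2 b) :=
  edge_chord hK.cpt hK.cvx hK.str hM (wd_ne_zero hu ε1) h1
    (edge_chord hK.cpt hK.cvx hK.str hM (wd_ne_zero hu ε2) h2 he)

theorem edge_iterate (hK : SBody K) (hu : ‖u0‖ = 1) (hM : M ⊆ frontier K)
    (h1 : Inv K M (wd u0 ε1)) (h2 : Inv K M (wd u0 ε2)) (he : Edge M a b) (k : ℕ) :
    Edge M ((rmap K u0 ε1 ε2)^[k] a) ((rmap K u0 ε1 ε2)^[k] b) := by
  induction k with
  | zero => exact he
  | succ k ih =>
    rw [Function.iterate_succ_apply', Function.iterate_succ_apply']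
    exact edge_rmap hK hu hM h1 h2 ih

private lemma l12_cross_wd (u0 x : Plane) (ε : ℝ) :
    cross (wd u0 ε) x = cross u0 x + ε * cross (rot u0) x := by
  unfold wd
  rw [cross_add_left, cross_smul_left]

/-- on the left side, close to the chord point of a point of the right side -/
private lemma l12_left (hK : SBody K) (hu : ‖u0‖ = 1) (hκ : 0 < κ) :
    ∃ c > 0, (∀ x ∈ Rp K u0 κ, c ≤ cross u0 (tang K x)) ∧
      ∃ δ > 0, ∀ ε2 : ℝ, |ε2| < δ → ∀ x ∈ Rp K u0 κ,
        cross u0 (tang K (chord K (wd u0 ε2) x)) ≤ - (c / 2) := by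
  have hu0 : u0 ≠ 0 := by
    intro h
    rw [h, norm_zero] at hu
    exact zero_ne_one hu
  obtain ⟨c, hc, hreg⟩ := reg_bounds hK hu0 hκ
  have hr : ∀ x ∈ Rp K u0 κ, c ≤ cross u0 (tang K x) := by
    intro x hx
    have := (hreg x hx.1).1
    rwa [abs_of_pos hx.2] at this
  refine ⟨c, hc, hr, ?_⟩
  have hcpt : IsCompact (frontier K) :=
    hK.cpt.of_isClosed_subset isClosed_frontier hK.clo.frontier_subset
  have huc := hcpt.uniformContinuousOn_of_continuous
    ((continuous_cross_right u0).comp_continuousOn (tang_continuousOn hK))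
  rw [Metric.uniformContinuousOn_iff] at huc
  obtain ⟨η, hη, h1⟩ := huc (c / 2) (by linarith)
  obtain ⟨δ, hδ, h2⟩ := chord_unif hK hu0 hη
  refine ⟨δ, hδ, fun ε2 he x hx => ?_⟩
  have hxf : x ∈ frontier K := hx.1.1
  have h3 : dist (chord K (wd u0 ε2) x) (chord K u0 x) < η :=
    h2 (wd u0 ε2) (by rw [dist_wd hu]; exact he) x hxf x hxf (by rw [dist_self]; exact hδ)
  have h4 := h1 _ (chord_mem hxf) _ (chord_mem hxf) h3
  have h5 := chord_cross_neg hK hxf hu0 hx.2.ne'
  have h6 := (hreg _ (chord_reg hK hx.1)).1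
  have h7 : cross u0 (tang K (chord K u0 x)) < 0 := by
    by_contra hcon
    exact absurd h5 (not_lt.2 (mul_nonneg hx.2.le (not_lt.1 hcon)))
  rw [abs_of_neg h7] at h6
  rw [Real.dist_eq] at h4
  have h8 := (abs_lt.1 h4).2
  simp only [Function.comp] at h8
  linarith

theorem transport_up (hK : SBody K) (hu : ‖u0‖ = 1) (hκ : 0 < κ) (hη0 : 0 < η0) (hθ : 0 < θ) :
    ∃ δ > 0, ∀ (ε1 ε2 : ℝ) (M : Set Plane), Adm K u0 η0 δ ε1 ε2 M → ε2 < ε1 →
      ∀ a b, Edge M a b → ∀ k : ℕ, (∀ j ≤ k, (rmap K u0 ε1 ε2)^[j] a ∈ Rp K u0 κ) →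
      |Real.log (dist ((rmap K u0 ε1 ε2)^[k] a) ((rmap K u0 ε1 ε2)^[k] b) *
          gw K u0 ((rmap K u0 ε1 ε2)^[k] a)) - Real.log (dist a b * gw K u0 a)| ≤ θ := by
  obtain ⟨c, hc, hr, δ1, hδ1, hleft⟩ := l12_left hK hu hκ
  obtain ⟨δ2, hδ2, hcmp⟩ := theta_compare hK hu hκ hη0 (θ := θ / 3) (by linarith)
  refine ⟨min (min δ1 δ2) (min (c / 16) (θ * c / 192)),
    lt_min (lt_min hδ1 hδ2) (lt_min (by positivity) (by positivity)), ?_⟩
  intro ε1 ε2 M hA hlt a b hE k hRp
  have hd1 : ∀ ε, |ε| < min (min δ1 δ2) (min (c / 16) (θ * c / 192)) → |ε| < δ1 ∧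
      |ε| < c / 16 ∧ |ε| < θ * c / 192 := fun ε h =>
    ⟨h.trans_le ((min_le_left _ _).trans (min_le_left _ _)),
      h.trans_le ((min_le_right _ _).trans (min_le_left _ _)),
      h.trans_le ((min_le_right _ _).trans (min_le_right _ _))⟩
  obtain ⟨-, e1a, e1b⟩ := hd1 ε1 hA.h1
  obtain ⟨e2d, e2a, e2b⟩ := hd1 ε2 hA.h2
  have hA2 : Adm K u0 η0 δ2 ε1 ε2 M :=
    hA.mono ((min_le_left _ _).trans (min_le_right _ _))
  set r := rmap K u0 ε1 ε2 with hrd
  have hEj : ∀ j, Edge M (r^[j] a) (r^[j] b) := fun j =>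
    edge_iterate hK hu hA.sub hA.inv1 hA.inv2 hE j
  have hw2 : wd u0 ε1 + (ε2 - ε1) • rot u0 = wd u0 ε2 := by
    unfold wd
    rw [sub_smul]
    abel
  have hwt : cross (wd u0 ε1) (rot u0) = 1 := by
    rw [l12_cross_wd, cross_rot, hu, cross_self]
    norm_num
  have hβ : ε2 - ε1 < 0 := by linarith
  have hβa : |ε2 - ε1| ≤ |ε2| + |ε1| := abs_sub _ _
  have hline : ∀ x : Plane, ∃ s : ℝ, chord K (wd u0 ε2) x = x - s • wd u0 ε2 := by
    intro x
    obtain ⟨t, ht⟩ := chord_line K (wd u0 ε2) x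
    exact ⟨-t, by rw [ht, neg_smul, sub_neg_eq_add]⟩
  choose sf hsf using hline
  have haf : ∀ j, r^[j] a ∈ frontier K := fun j => hA.sub (hEj j).1
  have hbf : ∀ j, r^[j] b ∈ frontier K := fun j => hA.sub (hEj j).2.1
  have hfK : ∀ x ∈ frontier K, x ∈ K := fun x hx => hK.clo.frontier_subset hx
  have hcj : ∀ j ≤ k, 0 < sf (r^[j] a) ∧ 0 < cross (wd u0 ε1) (r^[j] b - r^[j] a) ∧
      |Real.log (cross (wd u0 ε1) (r^[j] b - r^[j] a) / sf (r^[j] a)) -
        Real.log (dist (r^[j] a) (r^[j] b) * gw K u0 (r^[j] a))| ≤ θ / 3 := fun j hj =>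
    hcmp ε1 ε2 M hA2 _ _ (hEj j) (hRp j hj) _ (hsf _)
  have htr : ∀ x ∈ frontier K, |cross (rot u0) (tang K x)| ≤ 1 := by
    intro x hx
    have h := abs_cross_le (rot u0) (tang K x)
    rwa [norm_rot, hu, (tang_spec hK hx).1, mul_one] at h
  have hEz : ∀ j, Edge M (chord K (wd u0 ε2) (r^[j] b)) (chord K (wd u0 ε2) (r^[j] a)) :=
    fun j => edge_chord hK.cpt hK.cvx hK.str hA.sub (wd_ne_zero hu ε2) hA.inv2 (hEj j)
  have hsucc : ∀ j (x : Plane), r^[j + 1] x = chord K (wd u0 ε1) (chord K (wd u0 ε2) (r^[j] x)) :=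
    fun j x => by rw [Function.iterate_succ_apply']; rfl
  have hdiv : |ε2 - ε1| * (4 / c) ≤ 1 / 2 := by
    have h1 : |ε2 - ε1| ≤ c / 8 := by linarith
    calc |ε2 - ε1| * (4 / c) ≤ c / 8 * (4 / c) :=
          mul_le_mul_of_nonneg_right h1 (by positivity)
      _ = 1 / 2 := by field_simp; norm_num
  have hdiv2 : 8 * |ε2 - ε1| * (4 / c) ≤ θ / 3 := by
    have h1 : |ε2 - ε1| ≤ θ * c / 96 := by linarith
    calc 8 * |ε2 - ε1| * (4 / c) ≤ 8 * (θ * c / 96) * (4 / c) := by
          refine mul_le_mul_of_nonneg_right ?_ (by positivity)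
          linarith
      _ = θ / 3 := by field_simp; norm_num
  have key := transport_log (w := wd u0 ε1) (t := rot u0) (β := ε2 - ε1) (B := 4 / c)
    (by rw [hwt]; exact one_pos) hβ hdiv k (fun j => r^[j] a) (fun j => r^[j] b)
    (fun j => chord K (wd u0 ε2) (r^[j] a)) (fun j => chord K (wd u0 ε2) (r^[j] b))
    (fun j => tang K (r^[j] a)) (fun j => - tang K (chord K (wd u0 ε2) (r^[j] a)))
    (fun j => sf (r^[j] a))
    (fun j hj => (hcj j hj).1)
    (fun j hj => by rw [hw2]; exact hsf _)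
    (fun j hj => by
      show cross (wd u0 ε1) (r^[j + 1] a - _) = 0
      rw [hsucc, cross_sub_right, cross_chord, sub_self])
    (fun j hj => by
      show cross _ (chord K (wd u0 ε2) (r^[j] b) - _) = 0
      rw [hw2, cross_sub_right, cross_chord, sub_self])
    (fun j hj => by
      show cross (wd u0 ε1) (r^[j + 1] b - _) = 0
      rw [hsucc, cross_sub_right, cross_chord, sub_self])
    (fun j hj => (hcj j hj).2.1)
    (fun j hj => by
      show 0 < cross (wd u0 ε1) (tang K (r^[j] a)) ∧ |cross (rot u0) (tang K (r^[j] a))| ≤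
        4 / c * cross (wd u0 ε1) (tang K (r^[j] a))
      have h1 := hr _ (hRp j hj)
      have h2 := htr _ (haf j)
      have h3 : c / 2 ≤ cross (wd u0 ε1) (tang K (r^[j] a)) := by
        rw [l12_cross_wd]
        have h4 : |ε1 * cross (rot u0) (tang K (r^[j] a))| ≤ |ε1| := by
          rw [abs_mul]
          exact mul_le_of_le_one_right (abs_nonneg _) h2
        have h5 := (abs_le.1 h4).1
        linarith
      refine ⟨by linarith, h2.trans ?_⟩
      calc (1 : ℝ) ≤ 4 / c * (c / 2) := by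
            have : 4 / c * (c / 2) = 2 := by field_simp; norm_num
            linarith
        _ ≤ _ := mul_le_mul_of_nonneg_left h3 (by positivity))
    (fun j hj => by
      show 0 < cross (wd u0 ε1) (- tang K (chord K (wd u0 ε2) (r^[j] a))) ∧
        |cross (rot u0) (- tang K (chord K (wd u0 ε2) (r^[j] a)))| ≤
        4 / c * cross (wd u0 ε1) (- tang K (chord K (wd u0 ε2) (r^[j] a)))
      have h1 := hleft ε2 e2d _ (hRp j hj)
      have h2 := htr _ (chord_mem (u := wd u0 ε2) (haf j))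
      have h3 : c / 4 ≤ cross (wd u0 ε1) (- tang K (chord K (wd u0 ε2) (r^[j] a))) := by
        rw [cross_neg_right, l12_cross_wd]
        have h4 : |ε1 * cross (rot u0) (tang K (chord K (wd u0 ε2) (r^[j] a)))| ≤ |ε1| := by
          rw [abs_mul]
          exact mul_le_of_le_one_right (abs_nonneg _) h2
        have h5 := (abs_le.1 h4).2
        linarith
      rw [cross_neg_right (rot u0), abs_neg]
      refine ⟨by linarith, h2.trans ?_⟩
      calc (1 : ℝ) = 4 / c * (c / 4) := by field_simp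
        _ ≤ _ := mul_le_mul_of_nonneg_left h3 (by positivity))
    (fun j hj => (tang_spec hK (haf j)).2 _ (hfK _ (hbf j)))
    (fun j hj => (hEj j).2.2.2 _ (hEj (j + 1)).1)
    (fun j hj => by
      show 0 ≤ cross (r^[j + 1] a - r^[j] a) (tang K (r^[j + 1] a))
      have h1 := (tang_spec hK (haf (j + 1))).2 _ (hfK _ (haf j))
      rw [cross_comm, ← cross_neg_right, neg_sub]
      exact h1)
    (fun j hj => by
      show 0 ≤ cross (_ - _) (- tang K (chord K (wd u0 ε2) (r^[j] a)))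
      have h1 := (tang_spec hK (chord_mem (u := wd u0 ε2) (haf j))).2 _
        (hfK _ (chord_mem (u := wd u0 ε2) (hbf j)))
      rw [cross_neg_right, cross_comm, neg_neg]
      exact h1)
    (fun j hj => by
      show 0 ≤ cross (chord K (wd u0 ε2) (r^[j + 1] a) - chord K (wd u0 ε2) (r^[j] a))
        (chord K (wd u0 ε2) (r^[j] b) - chord K (wd u0 ε2) (r^[j] a))
      have h1 := (hEz j).2.2.2 _ (hEz (j + 1)).2.1
      generalize chord K (wd u0 ε2) (r^[j + 1] a) = z' at h1 ⊢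
      generalize chord K (wd u0 ε2) (r^[j] a) = z at h1 ⊢
      generalize chord K (wd u0 ε2) (r^[j] b) = y at h1 ⊢
      have e : cross (z' - z) (y - z) = cross (z - y) (z' - y) := by
        unfold cross
        simp only [PiLp.sub_apply]
        ring
      rw [e]
      exact h1)
    (fun j hj => by
      show 0 ≤ cross (- tang K (chord K (wd u0 ε2) (r^[j + 1] a)))
        (chord K (wd u0 ε2) (r^[j + 1] a) - chord K (wd u0 ε2) (r^[j] a))
      have h1 := (tang_spec hK (chord_mem (u := wd u0 ε2) (haf (j + 1)))).2 _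
        (hfK _ (chord_mem (u := wd u0 ε2) (haf j)))
      rw [cross_neg_left, ← cross_neg_right, neg_sub]
      exact h1)
  have hk := (hcj k le_rfl).2.2
  have h0 := (hcj 0 (Nat.zero_le _)).2.2
  simp only [Function.iterate_zero, id_eq] at h0 key
  have t1 := abs_le.1 hk
  have t2 := abs_le.1 h0
  have t3 := abs_le.1 key
  rw [abs_le]
  constructor <;> linarith [t1.1, t1.2, t2.1, t2.2, t3.1, t3.2]

end ChordMaps
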