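import Pool.Agent.Helper3.LS.L12

set_option autoImplicit false

/-! # LS-13: transport of gaps along `rmap`, both directions

If `ε2 < ε1` this is `transport_up` (all weighted lengths are positive: `reg_cross_ne`, `chord_eq_iff`).
If `ε1 < ε2`: `r' = rmap K u0 ε2 ε1` is the inverse of `r = rmap K u0 ε1 ε2` on `frontier K`
(`chord_chord`), so with `a' = r^[k] a`, `b' = r^[k] b`: `r'^[j] a' = r^[k - j] a` for `j ≤ k`; apply
`transport_up` for `(ε2, ε1)` (`Adm.symm`) to `(a', b')` and use the absolute value.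
-/

namespace ChordMaps

open Topology Filter

variable {K M : Set Plane} {u0 a b : Plane} {κ η0 θ ε1 ε2 : ℝ}

private theorem l13_frontier (u0 : Plane) (ε1 ε2 : ℝ) {x : Plane} (hx : x ∈ frontier K) (k : ℕ) :
    (rmap K u0 ε1 ε2)^[k] x ∈ frontier K := by
  induction k with
  | zero => exact hx
  | succ k ih =>
    rw [Function.iterate_succ_apply']
    exact chord_mem (chord_mem ih)

private theorem l13_inv (hK : SBody K) (u0 : Plane) (ε1 ε2 : ℝ) {x : Plane}
    (hx : x ∈ frontier K) : rmap K u0 ε2 ε1 (rmap K u0 ε1 ε2 x) = x := by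
  unfold rmap
  rw [chord_chord hK.clo hK.str (chord_mem hx), chord_chord hK.clo hK.str hx]

private theorem l13_iter (hK : SBody K) (u0 : Plane) (ε1 ε2 : ℝ) {x : Plane}
    (hx : x ∈ frontier K) (i j : ℕ) :
    (rmap K u0 ε2 ε1)^[j] ((rmap K u0 ε1 ε2)^[i + j] x) = (rmap K u0 ε1 ε2)^[i] x := by
  induction j with
  | zero => rfl
  | succ j ih =>
    rw [Function.iterate_succ_apply, ← add_assoc, Function.iterate_succ_apply',
      l13_inv hK u0 ε1 ε2 (l13_frontier u0 ε1 ε2 hx _), ih]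

private theorem l13_gw_pos (hK : SBody K) (hu : ‖u0‖ = 1) (hκ : 0 < κ) {x : Plane}
    (hx : x ∈ Rp K u0 κ) : 0 < gw K u0 x := by
  have hu0 : u0 ≠ 0 := by
    rintro rfl
    rw [norm_zero] at hu
    exact zero_ne_one hu
  have h1 := reg_cross_ne hK hu0 hκ hx.1
  refine div_pos (abs_pos.2 h1) (dist_pos.2 fun h => h1 ?_)
  exact (chord_eq_iff hK hx.1.1 hu0).1 h.symm

theorem transport (hK : SBody K) (hu : ‖u0‖ = 1) (hκ : 0 < κ) (hη0 : 0 < η0) (hθ : 0 < θ) :
    ∃ δ > 0, ∀ (ε1 ε2 : ℝ) (M : Set Plane), Adm K u0 η0 δ ε1 ε2 M →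
      ∀ a b, Edge M a b → ∀ k : ℕ, (∀ j ≤ k, (rmap K u0 ε1 ε2)^[j] a ∈ Rp K u0 κ) →
      Real.exp (-θ) * (dist a b * gw K u0 a) ≤
        dist ((rmap K u0 ε1 ε2)^[k] a) ((rmap K u0 ε1 ε2)^[k] b) *
          gw K u0 ((rmap K u0 ε1 ε2)^[k] a) := by
  obtain ⟨δ, hδ, H⟩ := transport_up (κ := κ) (η0 := η0) (θ := θ) hK hu hκ hη0 hθ
  refine ⟨δ, hδ, fun ε1 ε2 M hA a b he k hk => ?_⟩
  have heK := edge_iterate hK hu hA.sub hA.inv1 hA.inv2 he k
  have haf : a ∈ frontier K := hA.sub he.1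
  have hbf : b ∈ frontier K := hA.sub he.2.1
  have hp0 : 0 < dist a b * gw K u0 a :=
    mul_pos (dist_pos.2 he.2.2.1) (l13_gw_pos hK hu hκ (hk 0 (Nat.zero_le k)))
  have hpk : 0 < dist ((rmap K u0 ε1 ε2)^[k] a) ((rmap K u0 ε1 ε2)^[k] b) *
      gw K u0 ((rmap K u0 ε1 ε2)^[k] a) :=
    mul_pos (dist_pos.2 heK.2.2.1) (l13_gw_pos hK hu hκ (hk k le_rfl))
  have hlog : Real.log (dist a b * gw K u0 a) - θ ≤
      Real.log (dist ((rmap K u0 ε1 ε2)^[k] a) ((rmap K u0 ε1 ε2)^[k] b) *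
        gw K u0 ((rmap K u0 ε1 ε2)^[k] a)) := by
    rcases lt_or_gt_of_ne hA.ne with hlt | hlt
    · have h1 := H ε2 ε1 M hA.symm hlt _ _ heK k (fun j hj => by
        have h2 := l13_iter hK u0 ε1 ε2 haf (k - j) j
        rw [Nat.sub_add_cancel hj] at h2
        rw [h2]
        exact hk (k - j) (Nat.sub_le k j))
      have h3 := l13_iter hK u0 ε1 ε2 haf 0 k
      have h4 := l13_iter hK u0 ε1 ε2 hbf 0 k
      rw [zero_add] at h3 h4
      rw [h3, h4] at h1
      have h5 := (abs_le.1 h1).2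
      simp only [Function.iterate_zero, id_eq] at h5
      linarith
    · have h1 := H ε1 ε2 M hA hlt a b he k hk
      have h5 := (abs_le.1 h1).1
      linarith
  have h6 := Real.exp_le_exp.2 hlog
  rw [Real.exp_log hpk, sub_eq_add_neg, Real.exp_add, Real.exp_log hp0, mul_comm] at h6
  exact h6

end ChordMaps
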