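import Pool.Agent.Helper3.LS.L02
import Pool.Agent.Helper3.LS.L03

set_option autoImplicit false

/-! # LS-14: the ratio of a short gap and its image under a chord map

`e = b - a`, image edge `(a1, b1) = (chord K v' b, chord K v' a)` (`edge_chord`), `e1 = b1 - a1`;
`|cross v' e| = |cross v' e1|` (`cross_chord`).  On the compact `Q` `|cross v (tang K ·)| ≥ c > 0`
(`tang_continuousOn`). By `edge_secant` at `a` and at `a1` and `|cross v' · - cross v ·| ≤ ‖v' - v‖ ‖·‖`:
`|cross v' e| ≥ dist a b * (|cross v (tang K a)| - small) ≥ exp (-θ/2) * dist a b * |cross v (tang K a)|`, and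
`|cross v' e1| ≤ dist a1 b1 * (|cross v (tang K a1)| + small)`, where `a1` is close to
`chord K v a` (`chord_unif`, `dist a b` small), at which `|cross v (tang K (chord K v a))| ≥ c1 > 0`
(`chord_cross_neg`, compactness of the image of `Q`), so
`|cross v' e1| ≤ exp (θ/2) * dist a1 b1 * |cross v (tang K (chord K v a))|` (uniform continuity of `tang K`).
-/

namespace ChordMaps

open Topology Filter

variable {K : Set Plane} {v : Plane} {η0 θ : ℝ}

private lemma l14_low {Q : Set Plane} (hQ : IsCompact Q) {f : Plane → ℝ} (hf : ContinuousOn f Q)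
    (h0 : ∀ x ∈ Q, f x ≠ 0) : ∃ c > 0, ∀ x ∈ Q, c ≤ |f x| := by
  rcases Q.eq_empty_or_nonempty with hE | hne
  · exact ⟨1, one_pos, fun x hx => by rw [hE] at hx; exact absurd hx (Set.notMem_empty x)⟩
  · obtain ⟨x0, hx0, hmin⟩ := hQ.exists_isMinOn hne hf.abs
    exact ⟨|f x0|, abs_pos.2 (h0 x0 hx0), fun x hx => hmin hx⟩

private lemma l14_cpt (hK : SBody K) : IsCompact (frontier K) :=
  hK.cpt.of_isClosed_subset isClosed_frontier hK.clo.frontier_subset

private lemma l14_cross_unif (v a b : Plane) : |cross v a| ≤ |cross v b| + ‖v‖ * ‖a - b‖ := by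
  have h1 : cross v a = cross v b + cross v (a - b) := by rw [cross_sub_right]; ring
  rw [h1]
  exact (abs_add_le _ _).trans (add_le_add le_rfl (abs_cross_le _ _))

private lemma l14_cross_left (v v' a : Plane) : |cross v' a| ≤ |cross v a| + dist v' v * ‖a‖ := by
  have h1 : cross v' a = cross v a + cross (v' - v) a := by
    unfold cross
    simp only [PiLp.sub_apply]
    ring
  rw [h1, dist_eq_norm]
  exact (abs_add_le _ _).trans (add_le_add le_rfl (abs_cross_le _ _))

private lemma l14_smul (v t : Plane) {r : ℝ} (hr : 0 ≤ r) : |cross v (r • t)| = r * |cross v t| := by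
  rw [cross_smul_right, abs_mul, abs_of_nonneg hr]

theorem edge_ratio (hK : SBody K) (hv : v ≠ 0) {Q : Set Plane} (hQ : IsCompact Q)
    (hQs : Q ⊆ frontier K) (hQv : ∀ x ∈ Q, cross v (tang K x) ≠ 0) (hη0 : 0 < η0) (hθ : 0 < θ) :
    ∃ δ > 0, ∀ v', dist v' v < δ → ∀ M ⊆ frontier K, Inv K M v' →
      (∀ a ∈ M, ∃ c ∈ M, η0 ≤ dist a c) → (∀ a b, Edge M a b → dist a b < δ) →
      ∀ a b, Edge M a b → a ∈ Q →
        Edge M (chord K v' b) (chord K v' a) ∧
        Real.exp (-θ) * (dist a b * |cross v (tang K a)|) ≤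
          dist (chord K v' b) (chord K v' a) * |cross v (tang K (chord K v a))| := by
  have hN : 0 < ‖v‖ := norm_pos_iff.2 hv
  have hT := tang_continuousOn hK
  have hcc : Continuous (fun w : Plane => cross v w) := continuous_cross_right v
  obtain ⟨c, hc0, hc⟩ := l14_low hQ (f := fun x => cross v (tang K x))
    (hcc.comp_continuousOn (hT.mono hQs)) hQv
  have hchQ : ContinuousOn (fun x => tang K (chord K v x)) Q := by
    refine hT.comp ((chord_continuousOn hK hv).mono hQs) ?_
    intro x hx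
    exact chord_mem (hQs hx)
  obtain ⟨c1, hc10, hc1⟩ := l14_low hQ (f := fun x => cross v (tang K (chord K v x)))
    (hcc.comp_continuousOn hchQ) (fun x hx h0 => by
      have h1 := chord_cross_neg hK (hQs hx) hv (hQv x hx)
      rw [h0, mul_zero] at h1
      exact lt_irrefl _ h1)
  have hx1 : Real.exp (-(θ / 2)) < 1 := by
    rw [Real.exp_lt_one_iff]
    linarith
  have hx2 : 1 < Real.exp (θ / 2) := by
    rw [Real.one_lt_exp_iff]
    linarith
  obtain ⟨ρ, hρ0, hρ1, hρ2⟩ : ∃ ρ : ℝ, 0 < ρ ∧ ρ ≤ c * (1 - Real.exp (-(θ / 2))) ∧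
      ρ ≤ c1 * (Real.exp (θ / 2) - 1) :=
    ⟨min (c * (1 - Real.exp (-(θ / 2)))) (c1 * (Real.exp (θ / 2) - 1)),
      lt_min (mul_pos hc0 (by linarith)) (mul_pos hc10 (by linarith)), min_le_left _ _,
      min_le_right _ _⟩
  set σ : ℝ := ρ / (3 * (‖v‖ + 1)) with hσ
  have hσ0 : 0 < σ := by rw [hσ]; positivity
  have hσN : ‖v‖ * σ ≤ ρ / 3 := by
    rw [hσ]
    have h1 : ‖v‖ * (ρ / (3 * (‖v‖ + 1))) = (ρ / 3) * (‖v‖ / (‖v‖ + 1)) := by
      field_simp
    rw [h1]
    have h2 : ‖v‖ / (‖v‖ + 1) ≤ 1 := by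
      rw [div_le_one (by linarith)]
      linarith
    have h3 : 0 < ρ / 3 := by positivity
    exact mul_le_of_le_one_right h3.le h2
  obtain ⟨δ1, hδ1, hsec⟩ := edge_secant hK hη0 hσ0
  obtain ⟨ε1, hε1, htan⟩ : ∃ ε1 > 0, ∀ x ∈ frontier K, ∀ y ∈ frontier K, dist x y < ε1 →
      dist (tang K x) (tang K y) < σ := by
    have hu := (l14_cpt hK).uniformContinuousOn_of_continuous hT
    rw [Metric.uniformContinuousOn_iff] at hu
    obtain ⟨ε1, h1, h2⟩ := hu σ hσ0
    exact ⟨ε1, h1, fun x hx y hy h => h2 x hx y hy h⟩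
  obtain ⟨δ2, hδ2, hch⟩ := chord_unif hK hv hε1
  refine ⟨min (min δ1 δ2) (min (ρ / 3) ‖v‖), by positivity, ?_⟩
  intro v' hv' M hM hinv hfat hsm a b hab haQ
  have hd1 : dist v' v < δ2 := hv'.trans_le ((min_le_left _ _).trans (min_le_right _ _))
  have hd2 : dist v' v < ρ / 3 := hv'.trans_le ((min_le_right _ _).trans (min_le_left _ _))
  have hd3 : dist v' v < ‖v‖ := hv'.trans_le ((min_le_right _ _).trans (min_le_right _ _))
  have hv'0 : v' ≠ 0 := by
    rintro rfl
    rw [dist_zero_left] at hd3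
    exact lt_irrefl _ hd3
  have hE := edge_chord hK.cpt hK.cvx hK.str hM hv'0 hinv hab
  refine ⟨hE, ?_⟩
  have haF := hM hab.1
  have hbF := hM hab.2.1
  have hs1 : dist a b < δ1 := (hsm a b hab).trans_le ((min_le_left _ _).trans (min_le_left _ _))
  have hs2 : dist a b < δ2 := (hsm a b hab).trans_le ((min_le_left _ _).trans (min_le_right _ _))
  have hs3 : dist (chord K v' b) (chord K v' a) < δ1 :=
    (hsm _ _ hE).trans_le ((min_le_left _ _).trans (min_le_left _ _))
  have hsecA := hsec M hM hfat a b hab hs1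
  have hsecB := hsec M hM hfat _ _ hE hs3
  have hnear : dist (chord K v' b) (chord K v a) < ε1 :=
    hch v' hd1 b hbF a haF (by rw [dist_comm]; exact hs2)
  have htn := htan _ (chord_mem hbF) _ (chord_mem haF) hnear
  have hS : 0 < dist a b := dist_pos.2 hab.2.2.1
  have hL : 0 < dist (chord K v' b) (chord K v' a) := dist_pos.2 hE.2.2.1
  have hcA := hc a haQ
  have hcB := hc1 a haQ
  have hcr : |cross v' (b - a)| = |cross v' (chord K v' a - chord K v' b)| := by
    rw [cross_sub_right, cross_sub_right, cross_chord, cross_chord, abs_sub_comm]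
  have hsub1 : ‖b - a‖ = dist a b := by rw [dist_comm, dist_eq_norm]
  have hsub2 : ‖chord K v' a - chord K v' b‖ = dist (chord K v' b) (chord K v' a) := by
    rw [dist_comm, dist_eq_norm]
  generalize hSd : dist a b = S at *
  generalize hLd : dist (chord K v' b) (chord K v' a) = L at *
  generalize hAd : |cross v (tang K a)| = A at *
  generalize hBd : |cross v (tang K (chord K v a))| = B at *
  generalize hXd : |cross v' (b - a)| = X at *
  -- lower bound
  have hlow : S * A - S * (ρ / 3) - S * (ρ / 3) ≤ X := by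
    have h1 := l14_cross_unif v (S • tang K a) (b - a)
    rw [l14_smul v (tang K a) hS.le, hAd, norm_sub_rev] at h1
    have h2 := l14_cross_left v' v (b - a)
    rw [hXd, hsub1, dist_comm] at h2
    have h3 : ‖v‖ * ‖(b - a) - S • tang K a‖ ≤ S * (ρ / 3) := by
      calc ‖v‖ * ‖(b - a) - S • tang K a‖ ≤ ‖v‖ * (σ * S) :=
            mul_le_mul_of_nonneg_left hsecA hN.le
        _ = S * (‖v‖ * σ) := by ring
        _ ≤ S * (ρ / 3) := mul_le_mul_of_nonneg_left hσN hS.le
    have h4 : dist v' v * S ≤ S * (ρ / 3) := by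
      rw [mul_comm]
      exact mul_le_mul_of_nonneg_left hd2.le hS.le
    linarith
  have hupp : X ≤ L * B + L * (ρ / 3) + L * (ρ / 3) + L * (ρ / 3) := by
    rw [hcr]
    have h1 := l14_cross_left v v' (chord K v' a - chord K v' b)
    rw [hsub2] at h1
    have h2 := l14_cross_unif v (chord K v' a - chord K v' b) (L • tang K (chord K v' b))
    rw [l14_smul v _ hL.le] at h2
    have h3 : ‖v‖ * ‖(chord K v' a - chord K v' b) - L • tang K (chord K v' b)‖ ≤ L * (ρ / 3) := by
      calc ‖v‖ * ‖(chord K v' a - chord K v' b) - L • tang K (chord K v' b)‖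
          ≤ ‖v‖ * (σ * L) := mul_le_mul_of_nonneg_left hsecB hN.le
        _ = L * (‖v‖ * σ) := by ring
        _ ≤ L * (ρ / 3) := mul_le_mul_of_nonneg_left hσN hL.le
    have h4 := l14_cross_unif v (tang K (chord K v' b)) (tang K (chord K v a))
    rw [hBd, ← dist_eq_norm] at h4
    have h5 : ‖v‖ * dist (tang K (chord K v' b)) (tang K (chord K v a)) ≤ ρ / 3 :=
      (mul_le_mul_of_nonneg_left htn.le hN.le).trans hσN
    have h6 : L * |cross v (tang K (chord K v' b))| ≤ L * (B + ρ / 3) :=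
      mul_le_mul_of_nonneg_left (by linarith) hL.le
    have h7 : dist v' v * L ≤ L * (ρ / 3) := by
      rw [mul_comm]
      exact mul_le_mul_of_nonneg_left hd2.le hL.le
    linarith
  have hA2 : S * (A * Real.exp (-(θ / 2))) ≤ S * A - S * (ρ / 3) - S * (ρ / 3) := by
    have h1 : ρ ≤ A * (1 - Real.exp (-(θ / 2))) :=
      hρ1.trans (mul_le_mul_of_nonneg_right hcA (by linarith))
    have h2 : A * Real.exp (-(θ / 2)) ≤ A - ρ / 3 - ρ / 3 := by linarith
    have h3 := mul_le_mul_of_nonneg_left h2 hS.le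
    linarith
  have hB2 : L * B + L * (ρ / 3) + L * (ρ / 3) + L * (ρ / 3) ≤ L * (B * Real.exp (θ / 2)) := by
    have h1 : ρ ≤ B * (Real.exp (θ / 2) - 1) :=
      hρ2.trans (mul_le_mul_of_nonneg_right hcB (by linarith))
    have h2 : B + ρ / 3 + ρ / 3 + ρ / 3 ≤ B * Real.exp (θ / 2) := by linarith
    have h3 := mul_le_mul_of_nonneg_left h2 hL.le
    linarith
  have hfin : S * (A * Real.exp (-(θ / 2))) ≤ L * (B * Real.exp (θ / 2)) := by linarith
  have he1 : Real.exp (-θ) = Real.exp (-(θ / 2)) * Real.exp (-(θ / 2)) := by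
    rw [← Real.exp_add]
    congr 1
    ring
  have he2 : Real.exp (θ / 2) * Real.exp (-(θ / 2)) = 1 := by
    rw [← Real.exp_add, add_neg_cancel, Real.exp_zero]
  calc Real.exp (-θ) * (S * A) = (S * (A * Real.exp (-(θ / 2)))) * Real.exp (-(θ / 2)) := by
        rw [he1]; ring
    _ ≤ (L * (B * Real.exp (θ / 2))) * Real.exp (-(θ / 2)) :=
        mul_le_mul_of_nonneg_right hfin (Real.exp_pos _).le
    _ = L * B * (Real.exp (θ / 2) * Real.exp (-(θ / 2))) := by ring
    _ = L * B := by rw [he2, mul_one]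

end ChordMaps
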