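import Pool.Agent.Helper3.LS.L14
import Pool.Agent.Helper3.LS.L06

set_option autoImplicit false

/-! # LS-15: switching sides preserves the weighted gap length up to a factor near 1

Use `edge_ratio` (LS-14) with `v = u0`, `v' = wd u0 ε1` (`dist_wd`), `Q = Reg K u0 κ` (`reg_cross_ne`),
`θ/2`, and `a1 = chord K (wd u0 ε1) b`, `b1 = chord K (wd u0 ε1) a`.  `a1` is close to `chord K u0 a`
(`chord_unif`), which is in `Rp K u0 κ` (`chord_reg`, `chord_cross_neg`), so `a1 ∈ Rp K u0 (κ/2)`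
(`reg_near`, `rp_near`); `gw K u0` is uniformly continuous and bounded below on `Reg K u0 (κ/2)`, so
`gw K u0 a1 ≥ exp (-θ/2) * gw K u0 (chord K u0 a)`, and
`gw K u0 (chord K u0 a) = |cross u0 (tang K (chord K u0 a))| / dist a (chord K u0 a)`.
-/

namespace ChordMaps

open Topology Filter

variable {K : Set Plane} {u0 : Plane} {κ η0 θ : ℝ}

theorem switch_side (hK : SBody K) (hu : ‖u0‖ = 1) (hκ : 0 < κ) (hη0 : 0 < η0) (hθ : 0 < θ) :
    ∃ δ > 0, ∀ (ε1 ε2 : ℝ) (M : Set Plane), Adm K u0 η0 δ ε1 ε2 M → ∀ a b, Edge M a b →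
      a ∈ Reg K u0 κ → cross u0 (tang K a) < 0 →
      ∃ a1 b1, Edge M a1 b1 ∧ a1 ∈ Rp K u0 (κ / 2) ∧
        Real.exp (-θ) * (dist a b * gw K u0 a) ≤ dist a1 b1 * gw K u0 a1 := by
  have hu0 : u0 ≠ 0 := by
    rintro rfl
    rw [norm_zero] at hu
    exact zero_ne_one hu
  have hκ2 : 0 < κ / 2 := by linarith
  have hlt : κ / 2 < κ := by linarith
  have hθ2 : 0 < θ / 2 := by linarith
  obtain ⟨δ0, hδ0, hedge⟩ := edge_ratio hK hu0 (reg_isCompact hK u0 κ) (fun x hx => hx.1)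
    (fun x hx => reg_cross_ne hK hu0 hκ hx) hη0 hθ2
  obtain ⟨η1, hη1, hn1⟩ := reg_near hK hu0 hlt
  obtain ⟨η2, hη2, hn2⟩ := rp_near hK hu0 hκ (κ / 2)
  obtain ⟨g1, hg1, g2, hg⟩ := gw_bounds hK hu0 hκ2
  have hx1 : Real.exp (-(θ / 2)) < 1 := by
    rw [Real.exp_lt_one_iff]
    linarith
  have hx0 : 0 < Real.exp (-(θ / 2)) := Real.exp_pos _
  have huc := (reg_isCompact hK u0 (κ / 2)).uniformContinuousOn_of_continuous
    (gw_continuousOn hK hu0 hκ2)
  rw [Metric.uniformContinuousOn_iff] at huc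
  obtain ⟨η3, hη3, hn3⟩ := huc (g1 * (1 - Real.exp (-(θ / 2)))) (mul_pos hg1 (by linarith))
  obtain ⟨δ1, hδ1, hch⟩ := chord_unif hK hu0 (lt_min hη1 (lt_min hη2 hη3))
  refine ⟨min δ0 δ1, lt_min hδ0 hδ1, ?_⟩
  intro ε1 ε2 M hM a b hab ha hneg
  have hd : dist (wd u0 ε1) u0 < min δ0 δ1 := by
    rw [dist_wd hu]
    exact hM.h1
  obtain ⟨hE, hineq⟩ := hedge (wd u0 ε1) (hd.trans_le (min_le_left _ _)) M hM.sub hM.inv1 hM.fat
    (fun a b h => (hM.small a b h).trans_le (min_le_left _ _)) a b hab ha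
  have haF : a ∈ frontier K := ha.1
  have hbF : b ∈ frontier K := hM.sub hab.2.1
  have hcA : chord K u0 a ∈ Reg K u0 κ := chord_reg hK ha
  have hneg2 := chord_cross_neg hK haF hu0 hneg.ne
  have hcP : chord K u0 a ∈ Rp K u0 κ := ⟨hcA, by nlinarith⟩
  have hnear := hch (wd u0 ε1) (hd.trans_le (min_le_right _ _)) b hbF a haF (by
    rw [dist_comm]
    exact (hM.small a b hab).trans_le (min_le_right _ _))
  have hd1 : dist (chord K u0 a) (chord K (wd u0 ε1) b) < η1 := by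
    rw [dist_comm]
    exact hnear.trans_le (min_le_left _ _)
  have hd2 : dist (chord K u0 a) (chord K (wd u0 ε1) b) < η2 := by
    rw [dist_comm]
    exact hnear.trans_le ((min_le_right _ _).trans (min_le_left _ _))
  have hd3 : dist (chord K u0 a) (chord K (wd u0 ε1) b) < η3 := by
    rw [dist_comm]
    exact hnear.trans_le ((min_le_right _ _).trans (min_le_right _ _))
  have ha1R : chord K (wd u0 ε1) b ∈ Reg K u0 (κ / 2) := hn1 _ hcA _ (chord_mem hbF) hd1
  have ha1P : chord K (wd u0 ε1) b ∈ Rp K u0 (κ / 2) := hn2 _ hcP _ ha1R hd2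
  refine ⟨_, _, hE, ha1P, ?_⟩
  have hcA2 : chord K u0 a ∈ Reg K u0 (κ / 2) := reg_mono hlt.le hcA
  have hg3 := hn3 _ hcA2 _ ha1R hd3
  rw [Real.dist_eq] at hg3
  have hg4 := (abs_lt.1 hg3).2
  have hg5 := (hg _ hcA2).1
  have hgw : Real.exp (-(θ / 2)) * gw K u0 (chord K u0 a) ≤
      gw K u0 (chord K (wd u0 ε1) b) := by
    have h1 : g1 * (1 - Real.exp (-(θ / 2))) ≤
        gw K u0 (chord K u0 a) * (1 - Real.exp (-(θ / 2))) :=
      mul_le_mul_of_nonneg_right hg5 (by linarith)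
    linarith
  obtain ⟨c, hc0, hc⟩ := reg_bounds hK hu0 hκ
  have hD : 0 < dist a (chord K u0 a) := hc0.trans_le (hc a ha).2
  have e1 : gw K u0 a = |cross u0 (tang K a)| / dist a (chord K u0 a) := rfl
  have e2 : gw K u0 (chord K u0 a) =
      |cross u0 (tang K (chord K u0 a))| / dist a (chord K u0 a) := by
    unfold gw
    rw [chord_chord hK.clo hK.str haF, dist_comm (chord K u0 a) a]
  have h2 : Real.exp (-(θ / 2)) * (dist a b * gw K u0 a) ≤
      dist (chord K (wd u0 ε1) b) (chord K (wd u0 ε1) a) * gw K u0 (chord K u0 a) := by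
    rw [e1, e2, mul_div_assoc', mul_div_assoc', mul_div_assoc']
    exact div_le_div_of_nonneg_right hineq hD.le
  have he : Real.exp (-θ) = Real.exp (-(θ / 2)) * Real.exp (-(θ / 2)) := by
    rw [← Real.exp_add]
    congr 1
    ring
  calc Real.exp (-θ) * (dist a b * gw K u0 a)
      = Real.exp (-(θ / 2)) * (Real.exp (-(θ / 2)) * (dist a b * gw K u0 a)) := by
        rw [he]; ring
    _ ≤ Real.exp (-(θ / 2)) *
        (dist (chord K (wd u0 ε1) b) (chord K (wd u0 ε1) a) * gw K u0 (chord K u0 a)) :=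
        mul_le_mul_of_nonneg_left h2 hx0.le
    _ = dist (chord K (wd u0 ε1) b) (chord K (wd u0 ε1) a) *
        (Real.exp (-(θ / 2)) * gw K u0 (chord K u0 a)) := by ring
    _ ≤ _ := mul_le_mul_of_nonneg_left hgw dist_nonneg

end ChordMaps
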