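import Pool.Agent.Helper3.LS.L14
import Pool.Agent.Helper3.LS.L06

set_option autoImplicit false

/-! # LS-16: pushing short gaps near the tangency points of `u0` into the region

(A) There are `κ0 > 0` and `c > 0` with `chord K v x ∈ Reg K u0 (2 κ0)` and `c ≤ |cross v (tang K x)|` for all
`x ∈ frontier K \ Reg K u0 κ0`. By contradiction: `κ n → 0`, `x n ∉ Reg K u0 (κ n)`, `x n → x ∈ frontier K`.
If `cross u0 (tang K x) ≠ 0` then `x ∈ Reg K u0 (2 κ)` for some `κ > 0` (`exists_reg`), so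
`x n ∈ Reg K u0 κ ⊆ Reg K u0 (κ n)` for large `n` (`reg_near`), contradiction. So `cross u0 (tang K x) = 0`, hence
`cross u0 (tang K (chord K v x)) ≠ 0`, `chord K v x ∈ Reg K u0 κ'` and `chord K v (x n) ∈ Reg K u0 (κ'/2)` for large
`n`; and `cross v (tang K x) ≠ 0` since otherwise `chord K v x = x` (`chord_eq_iff`).
(B) `a ∉ Reg K u0 κ`, `κ ≤ κ0` imply `a ∉ Reg K u0 κ0`. Use `edge_ratio` with
`Q = closure (frontier K \ Reg K u0 κ0)` (there `c ≤ |cross v (tang K ·)|` by continuity) and `θ = 1`: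
`dist a1 b1 ≥ exp (-1) * c * dist a b / ‖v‖` (`abs_cross_le`), with `a1 = chord K v' b` close to
`chord K v a ∈ Reg K u0 (2 κ0)` (`chord_unif`), so `a1 ∈ Reg K u0 κ0 ⊆ Reg K u0 κ` (`reg_near`).
-/

namespace ChordMaps

open Topology Filter

variable {K : Set Plane} {u0 v : Plane} {η0 : ℝ}

private lemma l16_cpt (hK : SBody K) : IsCompact (frontier K) :=
  hK.cpt.of_isClosed_subset isClosed_frontier hK.clo.frontier_subset

private lemma l16_cross_cont (hK : SBody K) (v : Plane) :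
    ContinuousOn (fun z => |cross v (tang K z)|) (frontier K) :=
  ((continuous_cross_right v).comp_continuousOn (tang_continuousOn hK)).abs

/-- part (A) -/
private lemma l16_A (hK : SBody K) (hu : u0 ≠ 0) (hv : v ≠ 0)
    (hpush : ∀ p ∈ frontier K, cross u0 (tang K p) = 0 → cross u0 (tang K (chord K v p)) ≠ 0) :
    ∃ κ0 > 0, ∃ c > 0, ∀ x ∈ frontier K, x ∉ Reg K u0 κ0 →
      chord K v x ∈ Reg K u0 (2 * κ0) ∧ c ≤ |cross v (tang K x)| := by
  by_contra hcon
  push Not at hcon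
  have hpos : ∀ n : ℕ, (0 : ℝ) < 1 / ((n : ℝ) + 1) := fun n => by positivity
  choose x hx hxn hbad using fun n : ℕ => hcon (1 / ((n : ℝ) + 1)) (hpos n) _ (hpos n)
  obtain ⟨p, hp, φ, hφ, hlim⟩ := (l16_cpt hK).tendsto_subseq hx
  have h0 : Tendsto (fun n : ℕ => 1 / ((φ n : ℝ) + 1)) atTop (𝓝 0) :=
    (tendsto_one_div_add_atTop_nhds_zero_nat (𝕜 := ℝ)).comp hφ.tendsto_atTop
  -- a point near which the sequence lives in the region
  have key : ∀ (z : ℕ → Plane) (q : Plane) (C : ℝ), 0 < C → q ∈ frontier K →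
      (∀ n, z n ∈ frontier K) → Tendsto z atTop (𝓝 q) → cross u0 (tang K q) ≠ 0 →
      ∀ᶠ n in atTop, z n ∈ Reg K u0 (C * (1 / ((φ n : ℝ) + 1))) := by
    intro z q C hC hq hz hzq hne
    obtain ⟨κ, hκ, hr⟩ := exists_reg hK hu hq hne
    obtain ⟨η, hη, hn⟩ := reg_near (u0 := u0) hK hu (show κ / 2 < κ by linarith)
    have h1 : ∀ᶠ n in atTop, dist q (z n) < η := by
      have := hzq (Metric.ball_mem_nhds q hη)
      filter_upwards [this] with n hn
      rw [dist_comm]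
      exact hn
    have h2 : ∀ᶠ n in atTop, C * (1 / ((φ n : ℝ) + 1)) ≤ κ / 2 := by
      have h3 : Tendsto (fun n : ℕ => C * (1 / ((φ n : ℝ) + 1))) atTop (𝓝 0) := by
        have := h0.const_mul C
        rwa [mul_zero] at this
      exact h3.eventually_le_const (by linarith)
    filter_upwards [h1, h2] with n h3 h4
    exact reg_mono h4 (hn q hr _ (hz n) h3)
  have hp0 : cross u0 (tang K p) = 0 := by
    by_contra hne
    obtain ⟨n, hn⟩ := (key _ p 1 one_pos hp (fun n => hx (φ n)) hlim hne).exists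
    rw [one_mul] at hn
    exact hxn (φ n) hn
  have hp1 := hpush p hp hp0
  have hv0 : cross v (tang K p) ≠ 0 := by
    intro h
    rw [(chord_eq_iff hK hp hv).2 h] at hp1
    exact hp1 hp0
  have hlim2 : Tendsto (fun n => chord K v (x (φ n))) atTop (𝓝 (chord K v p)) :=
    chord_tendsto hK hv (u := fun _ => v) tendsto_const_nhds (fun n => hx (φ n)) hlim
  have h1 := key _ _ 2 two_pos (chord_mem hp) (fun n => chord_mem (u := v) (hx (φ n))) hlim2 hp1
  have h2 : Tendsto (fun n => |cross v (tang K (x (φ n)))|) atTop (𝓝 |cross v (tang K p)|) :=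
    (l16_cross_cont hK v p hp).tendsto.comp
      (tendsto_nhdsWithin_iff.2 ⟨hlim, Filter.Eventually.of_forall fun n => hx (φ n)⟩)
  have h3 : ∀ᶠ n in atTop, 1 / ((φ n : ℝ) + 1) < |cross v (tang K (x (φ n)))| :=
    h0.eventually_lt h2 (abs_pos.2 hv0)
  obtain ⟨n, hn1, hn2⟩ := (h1.and h3).exists
  have := hbad (φ n) hn1
  linarith

theorem push_gap (hK : SBody K) (hu : ‖u0‖ = 1) (hv : v ≠ 0) (hη0 : 0 < η0)
    (hpush : ∀ p ∈ frontier K, cross u0 (tang K p) = 0 → cross u0 (tang K (chord K v p)) ≠ 0) :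
    ∃ κ0 > 0, ∃ c > 0, ∀ κ, 0 < κ → κ ≤ κ0 → ∃ δ > 0, ∀ v', dist v' v < δ →
      ∀ M ⊆ frontier K, Inv K M v' → (∀ a ∈ M, ∃ c ∈ M, η0 ≤ dist a c) →
      (∀ a b, Edge M a b → dist a b < δ) → ∀ a b, Edge M a b → a ∉ Reg K u0 κ →
      ∃ a1 b1, Edge M a1 b1 ∧ a1 ∈ Reg K u0 κ ∧ c * dist a b ≤ dist a1 b1 := by
  have hu0 : u0 ≠ 0 := by
    rintro rfl
    rw [norm_zero] at hu
    exact zero_ne_one hu
  obtain ⟨κ0, hκ0, c, hc, hA⟩ := l16_A hK hu0 hv hpush
  have hvn : 0 < ‖v‖ := norm_pos_iff.2 hv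
  refine ⟨κ0, hκ0, Real.exp (-1) * c / ‖v‖, by positivity, ?_⟩
  intro κ hκ hκκ
  have hQ : IsCompact (frontier K ∩ (fun z => |cross v (tang K z)|) ⁻¹' Set.Ici c) :=
    (l16_cpt hK).of_isClosed_subset
      ((l16_cross_cont hK v).preimage_isClosed_of_isClosed isClosed_frontier isClosed_Ici)
      Set.inter_subset_left
  have hQv : ∀ z ∈ frontier K ∩ (fun z => |cross v (tang K z)|) ⁻¹' Set.Ici c,
      cross v (tang K z) ≠ 0 := by
    rintro z ⟨-, hz⟩
    rw [← abs_pos]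
    exact hc.trans_le hz
  obtain ⟨δ6, hδ6, h6⟩ := edge_ratio hK hv hQ Set.inter_subset_left hQv hη0 one_pos
  obtain ⟨η, hη, hnear⟩ := reg_near (u0 := u0) hK hu0 (show κ0 < 2 * κ0 by linarith)
  obtain ⟨δ5, hδ5, h5⟩ := chord_unif hK hv hη
  refine ⟨min δ5 δ6, lt_min hδ5 hδ6, ?_⟩
  intro v' hv' M hM hinv hfat hsmall a b hab haR
  simp only [lt_min_iff] at hv' hsmall
  have haF : a ∈ frontier K := hM hab.1
  have hbF : b ∈ frontier K := hM hab.2.1
  obtain ⟨hA1, hA2⟩ := hA a haF fun h => haR (reg_mono hκκ h)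
  obtain ⟨hedge, hineq⟩ := h6 v' hv'.2 M hM hinv hfat (fun a b h => (hsmall a b h).2) a b hab
    ⟨haF, hA2⟩
  have hd1 : dist (chord K v a) (chord K v' b) < η := by
    rw [dist_comm]
    refine h5 v' hv'.1 b hbF a haF ?_
    rw [dist_comm]
    exact (hsmall a b hab).1
  refine ⟨_, _, hedge, reg_mono hκκ (hnear _ hA1 _ (chord_mem hbF) hd1), ?_⟩
  have hn : |cross v (tang K (chord K v a))| ≤ ‖v‖ := by
    have h1 := abs_cross_le v (tang K (chord K v a))
    rwa [(tang_spec hK (chord_mem haF)).1, mul_one] at h1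
  have hd : 0 ≤ dist a b := dist_nonneg
  have hd2 : 0 ≤ dist (chord K v' b) (chord K v' a) := dist_nonneg
  rw [div_mul_eq_mul_div, div_le_iff₀ hvn]
  calc Real.exp (-1) * c * dist a b
      = Real.exp (-1) * (dist a b * c) := by ring
    _ ≤ Real.exp (-1) * (dist a b * |cross v (tang K a)|) :=
        mul_le_mul_of_nonneg_left (mul_le_mul_of_nonneg_left hA2 hd) (Real.exp_pos _).le
    _ ≤ dist (chord K v' b) (chord K v' a) * |cross v (tang K (chord K v a))| := hineq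
    _ ≤ dist (chord K v' b) (chord K v' a) * ‖v‖ := mul_le_mul_of_nonneg_left hn hd2

end ChordMaps
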