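import Pool.Agent.Helper3.LS.L14
import Pool.Agent.Helper3.LS.L06

set_option autoImplicit false

/-! # LS-17: expanding short gaps near a good point

Let `y = chord K v x`. `hq` gives `cross v (tang K x) ≠ 0` (the right side is positive), so (chord_cross_neg)
`cross v (tang K y) ≠ 0`, and `gw K u0 x, gw K u0 y > 0` (`chord_eq_iff`).  Choose `θ > 0` with
`exp (4 θ) * (gw x * |cross v (tang K y)|) ≤ gw y * |cross v (tang K x)|`, and `κ` with
`x, y ∈ Reg K u0 (2 κ)` (`exists_reg`).  For `a` in a small closed ball `Q` around `x` (intersected with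
`frontier K`) `edge_ratio` with `θ` gives, for `(a1, b1) = (chord K v' b, chord K v' a)`,
`dist a1 b1 * |cross v (tang K (chord K v a))| ≥ exp (-θ) * dist a b * |cross v (tang K a)|`; `a` is close to `x`,
`a1` and `chord K v a` are close to `y` (`chord_unif`), and `gw K u0`, `tang K` are continuous; so
`dist a1 b1 * gw K u0 a1 ≥ exp θ * (dist a b * gw K u0 a)` for `δ` small, and `a1 ∈ Reg K u0 κ` (`reg_near`).
-/

namespace ChordMaps

open Topology Filter

variable {K : Set Plane} {u0 v x : Plane} {η0 : ℝ}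

private lemma l17_gw_nonneg (K : Set Plane) (u0 z : Plane) : 0 ≤ gw K u0 z :=
  div_nonneg (abs_nonneg _) dist_nonneg

private lemma l17_gw_pos (hK : SBody K) (hu : u0 ≠ 0) {z : Plane} (hz : z ∈ frontier K)
    (h : cross u0 (tang K z) ≠ 0) : 0 < gw K u0 z :=
  div_pos (abs_pos.2 h) (dist_pos.2 fun h1 => h ((chord_eq_iff hK hz hu).1 h1.symm))

private lemma l17_open {p q r s E : ℝ} (h : E * (r * s) < p * q) : ∃ ε > 0, ∀ p' q' r' s' : ℝ,
    dist p' p < ε → dist q' q < ε → dist r' r < ε → dist s' s < ε →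
      E * (r' * s') < p' * q' := by
  have hc : Continuous fun t : ℝ × ℝ × ℝ × ℝ => t.1 * t.2.1 - E * (t.2.2.1 * t.2.2.2) := by
    fun_prop
  have h1 : ∀ᶠ t : ℝ × ℝ × ℝ × ℝ in 𝓝 (p, q, r, s),
      0 < t.1 * t.2.1 - E * (t.2.2.1 * t.2.2.2) :=
    hc.continuousAt.eventually (lt_mem_nhds (by show 0 < p * q - E * (r * s); linarith))
  obtain ⟨ε, hε, h2⟩ := Metric.eventually_nhds_iff.1 h1
  refine ⟨ε, hε, fun p' q' r' s' h3 h4 h5 h6 => ?_⟩
  have h7 := h2 (y := (p', q', r', s'))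
    (max_lt h3 (max_lt h4 (max_lt h5 h6)))
  simp only at h7
  linarith

private lemma l17_theta {P R : ℝ} (hP : 0 < P) (h : P < R) : ∃ θ > 0, Real.exp (2 * θ) * P < R := by
  have h1 : Real.log P < Real.log R := Real.log_lt_log hP h
  refine ⟨(Real.log R - Real.log P) / 4, by linarith, ?_⟩
  have h2 : Real.exp (2 * ((Real.log R - Real.log P) / 4)) * P =
      Real.exp ((Real.log R + Real.log P) / 2) := by
    conv_lhs => rw [← Real.exp_log hP, ← Real.exp_add, Real.log_exp]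
    congr 1
    ring
  rw [h2]
  calc Real.exp ((Real.log R + Real.log P) / 2) < Real.exp (Real.log R) :=
        Real.exp_lt_exp.2 (by linarith)
    _ = R := Real.exp_log (hP.trans h)

theorem expand_gap (hK : SBody K) (hu : ‖u0‖ = 1) (hv : v ≠ 0) (hη0 : 0 < η0)
    (hx : x ∈ frontier K) (hx1 : cross u0 (tang K x) ≠ 0)
    (hx2 : cross u0 (tang K (chord K v x)) ≠ 0)
    (hq : gw K u0 x * |cross v (tang K (chord K v x))| <
      gw K u0 (chord K v x) * |cross v (tang K x)|) :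
    ∃ κ > 0, ∃ θ > 0, ∃ δ > 0, ∀ v', dist v' v < δ → ∀ M ⊆ frontier K, Inv K M v' →
      (∀ a ∈ M, ∃ c ∈ M, η0 ≤ dist a c) → (∀ a b, Edge M a b → dist a b < δ) →
      ∀ a b, Edge M a b → dist a x < δ →
      ∃ a1 b1, Edge M a1 b1 ∧ a1 ∈ Reg K u0 κ ∧
        Real.exp θ * (dist a b * gw K u0 a) ≤ dist a1 b1 * gw K u0 a1 := by
  have hu0 : u0 ≠ 0 := by
    rintro rfl
    rw [norm_zero] at hu
    exact zero_ne_one hu
  set y := chord K v x with hy_def
  have hy : y ∈ frontier K := chord_mem hx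
  have hgy : 0 < gw K u0 y := l17_gw_pos hK hu0 hy hx2
  have hgx : 0 < gw K u0 x := l17_gw_pos hK hu0 hx hx1
  have hcx : 0 < |cross v (tang K x)| := by
    rcases (abs_nonneg (cross v (tang K x))).eq_or_lt with h | h
    · rw [← h, mul_zero] at hq
      exact absurd hq (not_lt.2 (mul_nonneg hgx.le (abs_nonneg _)))
    · exact h
  have hcy : 0 < |cross v (tang K y)| := by
    have h1 := chord_cross_neg hK hx hv (abs_pos.1 hcx)
    rw [abs_pos]
    intro h2
    rw [← hy_def, h2, mul_zero] at h1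
    exact lt_irrefl _ h1
  obtain ⟨θ, hθ, hθ2⟩ := l17_theta (mul_pos hgx hcy) hq
  obtain ⟨ε, hε, hopen⟩ := l17_open (p := |cross v (tang K x)|) (q := gw K u0 y)
    (r := gw K u0 x) (s := |cross v (tang K y)|) (E := Real.exp (2 * θ))
    (by rw [mul_comm (|cross v (tang K x)|)]; exact hθ2)
  -- the regions
  obtain ⟨κx, hκx, hxr⟩ := exists_reg hK hu0 hx hx1
  obtain ⟨κy, hκy, hyr⟩ := exists_reg hK hu0 hy hx2
  have hκ : 0 < min κx κy / 2 := by positivity
  have hκ2 : min κx κy / 2 < min κx κy := by linarith [lt_min hκx hκy]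
  set κ := min κx κy / 2 with hκd
  obtain ⟨η, hη, hnear⟩ := reg_near (u0 := u0) hK hu0 hκ2
  have hxr' : x ∈ Reg K u0 (min κx κy) := reg_mono (min_le_left _ _) hxr
  have hyr' : y ∈ Reg K u0 (min κx κy) := reg_mono (min_le_right _ _) hyr
  -- continuity
  have hfc : ContinuousOn (fun z => |cross v (tang K z)|) (frontier K) :=
    ((continuous_cross_right v).comp_continuousOn (tang_continuousOn hK)).abs
  have hgc := gw_continuousOn (u0 := u0) hK hu0 hκ
  rw [Metric.continuousOn_iff] at hfc hgc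
  obtain ⟨δ1, hδ1, h1⟩ := hfc x hx ε hε
  obtain ⟨δ1', hδ1', h1'⟩ := hfc x hx _ hcx
  obtain ⟨δ2, hδ2, h2⟩ := hfc y hy (min ε |cross v (tang K y)|) (lt_min hε hcy)
  obtain ⟨δ3, hδ3, h3⟩ := hgc x (reg_mono hκ2.le hxr') ε hε
  obtain ⟨δ4, hδ4, h4⟩ := hgc y (reg_mono hκ2.le hyr') ε hε
  obtain ⟨δ5, hδ5, h5⟩ := chord_unif hK hv (lt_min hδ2 (lt_min hδ4 hη))
  -- the compact set
  have hQ : IsCompact (frontier K ∩ Metric.closedBall x (δ1' / 2)) :=
    (hK.cpt.of_isClosed_subset isClosed_frontier hK.clo.frontier_subset).inter_right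
      Metric.isClosed_closedBall
  have hQv : ∀ z ∈ frontier K ∩ Metric.closedBall x (δ1' / 2), cross v (tang K z) ≠ 0 := by
    rintro z ⟨hz, hz2⟩
    have hz3 : dist z x < δ1' := (Metric.mem_closedBall.1 hz2).trans_lt (by linarith)
    have h6 := h1' z hz hz3
    rw [Real.dist_eq, abs_lt] at h6
    rw [← abs_pos]
    linarith [h6.1]
  obtain ⟨δ6, hδ6, h6⟩ := edge_ratio hK hv hQ Set.inter_subset_left hQv hη0 hθ
  refine ⟨κ, hκ, θ, hθ, min (min δ1 (min δ3 η)) (min (δ5 / 2) (min δ6 (δ1' / 2))),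
    by positivity, ?_⟩
  intro v' hv' M hM hinv hfat hsmall a b hab hax
  simp only [lt_min_iff] at hv' hsmall hax
  obtain ⟨⟨ha1, ha3, haη⟩, ha5, ha6, ha7⟩ := hax
  obtain ⟨⟨-, -, -⟩, hv5, hv6, -⟩ := hv'
  have haF : a ∈ frontier K := hM hab.1
  have hbF : b ∈ frontier K := hM hab.2.1
  have hab5 : dist a b < δ5 / 2 := (hsmall a b hab).2.1
  have haQ : a ∈ frontier K ∩ Metric.closedBall x (δ1' / 2) :=
    ⟨haF, Metric.mem_closedBall.2 ha7.le⟩
  obtain ⟨hedge, hineq⟩ := h6 v' hv6 M hM hinv hfat (fun a b h => (hsmall a b h).2.2.1) a b hab haQ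
  have hc : dist (chord K v a) y < min δ2 (min δ4 η) :=
    h5 v (by rw [dist_self]; exact hδ5) a haF x hx (by linarith)
  have hbx : dist b x < δ5 := by
    have := dist_triangle b a x
    rw [dist_comm b a] at this
    linarith
  have ha1y : dist (chord K v' b) y < min δ2 (min δ4 η) := h5 v' (by linarith) b hbF x hx hbx
  simp only [lt_min_iff] at hc ha1y
  have ha1F : chord K v' b ∈ frontier K := chord_mem hbF
  have ha1R : chord K v' b ∈ Reg K u0 κ := hnear y hyr' _ ha1F (by rw [dist_comm]; exact ha1y.2.2)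
  have haR : a ∈ Reg K u0 κ := hnear x hxr' _ haF (by rw [dist_comm]; exact haη)
  refine ⟨_, _, hedge, ha1R, ?_⟩
  have e2 := h2 _ (chord_mem haF) hc.1
  rw [lt_min_iff] at e2
  have e := hopen _ _ _ _ (h1 a haF ha1) (h4 _ ha1R ha1y.2.1) (h3 a haR ha3) e2.1
  have e3 : 0 < |cross v (tang K (chord K v a))| := by
    have h7 := e2.2
    rw [Real.dist_eq, abs_lt] at h7
    linarith [h7.1]
  -- conclusion
  set d := dist a b
  set d1 := dist (chord K v' b) (chord K v' a)
  set fa := |cross v (tang K a)|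
  set fc := |cross v (tang K (chord K v a))|
  have g1 : 0 ≤ gw K u0 (chord K v' b) := l17_gw_nonneg _ _ _
  have hd : 0 ≤ d := dist_nonneg
  have k1 : Real.exp (-θ) * (d * fa) * gw K u0 (chord K v' b) ≤
      d1 * fc * gw K u0 (chord K v' b) := mul_le_mul_of_nonneg_right hineq g1
  have k2 : Real.exp (-θ) * d * (Real.exp (2 * θ) * (gw K u0 a * fc)) ≤
      Real.exp (-θ) * d * (fa * gw K u0 (chord K v' b)) :=
    mul_le_mul_of_nonneg_left e.le (mul_nonneg (Real.exp_pos _).le hd)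
  have k3 : Real.exp (-θ) * Real.exp (2 * θ) = Real.exp θ := by
    rw [← Real.exp_add]
    congr 1
    ring
  refine le_of_mul_le_mul_right ?_ e3
  calc Real.exp θ * (d * gw K u0 a) * fc
      = Real.exp (-θ) * d * (Real.exp (2 * θ) * (gw K u0 a * fc)) := by rw [← k3]; ring
    _ ≤ Real.exp (-θ) * d * (fa * gw K u0 (chord K v' b)) := k2
    _ = Real.exp (-θ) * (d * fa) * gw K u0 (chord K v' b) := by ring
    _ ≤ d1 * fc * gw K u0 (chord K v' b) := k1
    _ = d1 * gw K u0 (chord K v' b) * fc := by ring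

end ChordMaps
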