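import Pool.Agent.Helper3.LS.L01
import Pool.Agent.Helper3.LS.L02

set_option autoImplicit false

/-! # LS-18: two non-parallel directions: one of them moves a point a lot

By contradiction: sequences `u n → u`, `v n → v`, `a n ∈ frontier K`, `a n → a`, both
`dist (a n) (chord K (u n) (a n)) → 0` and `dist (a n) (chord K (v n) (a n)) → 0`; by `chord_tendsto`
`chord K u a = a = chord K v a`, so by `chord_eq_iff` `tang K a` is parallel to `u` and to `v`
(or use `chord_ne_chord`), contradiction.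
-/

namespace ChordMaps

open Topology Filter

variable {K : Set Plane} {u v : Plane}

private lemma l18_cpt (hK : SBody K) : IsCompact (frontier K) :=
  hK.cpt.of_isClosed_subset isClosed_frontier hK.clo.frontier_subset

private lemma l18_fix (hK : SBody K) (hv : v ≠ 0) {u a : ℕ → Plane} {z : Plane}
    (hu : Tendsto u atTop (𝓝 v)) (ha : ∀ n, a n ∈ frontier K) (haz : Tendsto a atTop (𝓝 z))
    {e : ℕ → ℝ} (he : Tendsto e atTop (𝓝 0)) (h : ∀ n, dist (a n) (chord K (u n) (a n)) < e n) :
    chord K v z = z := by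
  have c1 := haz.dist (chord_tendsto hK hv hu ha haz)
  have c2 : dist z (chord K v z) ≤ 0 :=
    le_of_tendsto_of_tendsto' c1 he (fun n => (h n).le)
  exact (dist_le_zero.1 c2).symm

theorem fat_const (hK : SBody K) (huv : cross u v ≠ 0) :
    ∃ η0 > 0, ∃ δ > 0, ∀ u' v', dist u' u < δ → dist v' v < δ → ∀ a ∈ frontier K,
      η0 ≤ dist a (chord K u' a) ∨ η0 ≤ dist a (chord K v' a) := by
  have hu : u ≠ 0 := by
    rintro rfl
    exact huv (by simp [cross])
  have hv : v ≠ 0 := by
    rintro rfl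
    exact huv (by simp [cross])
  by_contra hcon
  push Not at hcon
  have h1 : ∀ n : ℕ, ∃ u' v' a, dist u' u < 1 / ((n : ℝ) + 1) ∧ dist v' v < 1 / ((n : ℝ) + 1) ∧
      a ∈ frontier K ∧ dist a (chord K u' a) < 1 / ((n : ℝ) + 1) ∧
      dist a (chord K v' a) < 1 / ((n : ℝ) + 1) := by
    intro n
    obtain ⟨u', v', hu', hv', a, ha, h2, h3⟩ := hcon (1 / ((n : ℝ) + 1)) (by positivity)
      (1 / ((n : ℝ) + 1)) (by positivity)
    exact ⟨u', v', a, hu', hv', ha, h2, h3⟩
  choose u' v' a hu' hv' ha h2 h3 using h1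
  have h0 : Tendsto (fun n : ℕ => 1 / ((n : ℝ) + 1)) atTop (𝓝 0) :=
    tendsto_one_div_add_atTop_nhds_zero_nat
  have hut : Tendsto u' atTop (𝓝 u) := by
    rw [tendsto_iff_dist_tendsto_zero]
    exact squeeze_zero (fun n => dist_nonneg) (fun n => (hu' n).le) h0
  have hvt : Tendsto v' atTop (𝓝 v) := by
    rw [tendsto_iff_dist_tendsto_zero]
    exact squeeze_zero (fun n => dist_nonneg) (fun n => (hv' n).le) h0
  obtain ⟨z, hz, φ, hφ, haz⟩ := (l18_cpt hK).tendsto_subseq ha
  have e1 := l18_fix hK hu (u := fun n => u' (φ n)) (a := fun n => a (φ n))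
    (hut.comp hφ.tendsto_atTop) (fun n => ha _) haz (h0.comp hφ.tendsto_atTop) (fun n => h2 _)
  have e2 := l18_fix hK hv (u := fun n => v' (φ n)) (a := fun n => a (φ n))
    (hvt.comp hφ.tendsto_atTop) (fun n => ha _) haz (h0.comp hφ.tendsto_atTop) (fun n => h3 _)
  exact chord_ne_chord hK.cpt hK.str hK.smo huv hz (e1.trans e2.symm)

end ChordMaps
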