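import Pool.Agent.Helper3.LS.L04
import Pool.Agent.Helper3.LS.L05
import Pool.Agent.Helper3.LS.L09
import Pool.Agent.Helper3.LS.L13
import Pool.Agent.Helper3.LS.L15
import Pool.Agent.Helper3.LS.L16
import Pool.Agent.Helper3.LS.L17
import Pool.Agent.Helper3.LS.L18

set_option autoImplicit false

/-! # LS-19: the main lemma (potential argument)

First `main_lemma_pos` (`0 < cross u0 (tang K x)`).  There is `p ∈ frontier K` with `cross u0 (tang K p) = 0`
(minimise `cross u0` on `K`); `hpush` and `chord_eq_iff` give `cross v1 (tang K p) ≠ 0`, hence `cross u0 v1 ≠ 0`.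
`fat_const` (u0, v1) gives `η0`.  `expand_gap` (v2, x) gives `κx, θ, δx`; `push_gap` (v1) gives `κ0, c`.
Let `κ ≤ κx, κ0` and `x ∈ Rp K u0 κ` (`exists_reg`).  `gw_bounds`: `g1 ≤ gw ≤ g2` on `Reg K u0 κ`.
Weight `g y = gw K u0 y` on `Reg K u0 κ` and `g y = c0 := c * g1 / 2` off it.
Suppose `M ≠ frontier K`.  For small `δ` (`small_gaps`, `fat_const`, `dist_wd`) `Adm K u0 η0 δ' ε1 ε2 M` for any
prescribed `δ'`. `exists_edge` (Flow.lean; `M` compact, two points of `M`, a point of `frontier K` not in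
`M`) gives an edge; `max_gap` (LS-05; `cross_wd`) gives an edge `(a, b)` with maximal `dist a b * g a`.
* `a ∉ Reg κ`: `push_gap` gives `dist a1 b1 * g a1 ≥ c * dist a b * g1 = 2 c0 dist a b > dist a b * g a`.
* `a ∈ Reg κ`: `switch_side` (θ/4) if `cross u0 (tang K a) < 0` (it is `≠ 0` by `reg_cross_ne`): an edge `(a1, b1)`,
  `a1 ∈ Rp (κ/2)`, weight at least `exp (-θ/4)` times (if `> 0` take `(a1, b1) = (a, b)`).  `reach` (for
  `κ/2`, `η = δx`), applied to `(ε1, ε2)` or `(ε2, ε1)` according to the sign of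
  `(ε1 - ε2) * (cross u0 x - cross u0 a1)` (`Adm.symm`): `k` with `r^[k] a1` `δx`-close to `x` and
  `r^[j] a1 ∈ Rp (κ/4)` for `j ≤ k`. `transport` (κ/4, θ/4): weight of `(r^[k] a1, r^[k] b1)`
  at least `exp (-θ/4)` times; it is an edge (`edge_iterate`).  `expand_gap`: an edge `(a3, b3)`, `a3 ∈ Reg κx ⊆ Reg κ`,
  weight at least `exp θ` times.  In total at least `exp (θ/2) > 1` times the weight of `(a, b)`: contradiction.
`main_lemma`: if `cross u0 (tang K x) < 0` apply `main_lemma_pos` to `-u0`: `wd (-u0) ε = - wd u0 ε` (`wd_neg`),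
`chord_neg`, `gw K (-u0) = gw K u0` on `frontier K`, `cross (-u0) · = - cross u0 ·`.
-/

namespace ChordMaps

open Topology Filter

variable {K : Set Plane} {u0 v1 v2 x : Plane}

private lemma l19_ne {u : Plane} (hu : ‖u‖ = 1) : u ≠ 0 := by
  intro h
  rw [h, norm_zero] at hu
  exact zero_ne_one hu

private lemma l19_min (hK : SBody K) (hu : ‖u0‖ = 1) : ∃ p ∈ frontier K, tang K p = u0 := by
  have hne : K.Nonempty := hK.int.mono interior_subset
  obtain ⟨p, hp, hmin⟩ := hK.cpt.exists_isMinOn hne (continuous_cross_right u0).continuousOn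
  have hmin' : ∀ z ∈ K, cross u0 p ≤ cross u0 z := fun z hz => hmin hz
  have hpf : p ∈ frontier K := by
    apply mem_frontier_of hK.clo hp
    intro hint
    rw [mem_interior_iff_mem_nhds, Metric.mem_nhds_iff] at hint
    obtain ⟨ε, hε, hb⟩ := hint
    have h1 : p - (ε / 2) • rot u0 ∈ K := by
      apply hb
      rw [Metric.mem_ball, dist_eq_norm, sub_sub_cancel_left, norm_neg, norm_smul, norm_rot, hu,
        mul_one, Real.norm_eq_abs, abs_of_pos (half_pos hε)]
      linarith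
    have h2 := hmin' _ h1
    rw [cross_sub_right, cross_smul_right, cross_rot, hu] at h2
    linarith
  refine ⟨p, hpf, ?_⟩
  have h := tang_unique hK hpf (l19_ne hu) (fun z hz => by
    rw [cross_sub_right]
    linarith [hmin' z hz])
  rw [hu, one_smul] at h
  exact h.symm

theorem main_lemma_pos (hK : SBody K) (hu : ‖u0‖ = 1) (hv1 : v1 ≠ 0) (hv2 : v2 ≠ 0)
    (hpush : ∀ p ∈ frontier K, cross u0 (tang K p) = 0 → cross u0 (tang K (chord K v1 p)) ≠ 0)
    (hx : x ∈ frontier K) (hx1 : 0 < cross u0 (tang K x))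
    (hx2 : cross u0 (tang K (chord K v2 x)) ≠ 0)
    (hq : gw K u0 x * |cross v2 (tang K (chord K v2 x))| <
      gw K u0 (chord K v2 x) * |cross v2 (tang K x)|) :
    ∃ δ > 0, ∀ (ε1 ε2 : ℝ) (v1' v2' : Plane), |ε1| < δ → |ε2| < δ → ε1 ≠ ε2 →
      dist v1' v1 < δ → dist v2' v2 < δ → ∀ M ⊆ frontier K, M.Nonempty → IsClosed M →
      Inv K M (wd u0 ε1) → Inv K M (wd u0 ε2) → Inv K M v1' → Inv K M v2' →
      M = frontier K := by
  classical
  have hu0 := l19_ne hu
  obtain ⟨p, hpf, hpt⟩ := l19_min hK hu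
  have hp0 : cross u0 (tang K p) = 0 := by rw [hpt, cross_self]
  have hp1 := hpush p hpf hp0
  have hp2 : cross v1 (tang K p) ≠ 0 := by
    intro h
    rw [(chord_eq_iff hK hpf hv1).2 h] at hp1
    exact hp1 hp0
  have huv : cross u0 v1 ≠ 0 := by
    rw [hpt] at hp2
    rw [cross_comm]
    exact neg_ne_zero.2 hp2
  obtain ⟨η0, hη0, δf, hδf, hfat⟩ := fat_const hK huv
  obtain ⟨κx, hκx, θ, hθ, δe, hδe, hexp⟩ := expand_gap hK hu hv2 hη0 hx hx1.ne' hx2 hq
  obtain ⟨κ0, hκ0, c, hc, hpushgap⟩ := push_gap hK hu hv1 hη0 hpush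
  obtain ⟨κ1, hκ1, hxr⟩ := exists_reg hK hu0 hx hx1.ne'
  obtain ⟨κ, hκ, hκκx, hκκ0, hκκ1⟩ : ∃ κ > 0, κ ≤ κx ∧ κ ≤ κ0 ∧ κ ≤ κ1 :=
    ⟨min κx (min κ0 κ1), lt_min hκx (lt_min hκ0 hκ1), min_le_left _ _,
      (min_le_right _ _).trans (min_le_left _ _), (min_le_right _ _).trans (min_le_right _ _)⟩
  have hxR : x ∈ Rp K u0 κ := ⟨reg_mono hκκ1 hxr, hx1⟩
  have hxR2 : x ∈ Rp K u0 (κ / 2) := rp_mono (by linarith) hxR
  obtain ⟨δp, hδp, hpg⟩ := hpushgap κ hκ hκκ0
  obtain ⟨g1, hg1, g2, hgb⟩ := gw_bounds hK hu0 hκ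
  obtain ⟨δr, hδr, hreach⟩ := reach hK hu (half_pos hκ) hδe
  have hθ4 : 0 < θ / 4 := by positivity
  obtain ⟨δt, hδt, htr⟩ := transport hK hu (half_pos (half_pos hκ)) hη0 hθ4
  obtain ⟨δs, hδs, hsw⟩ := switch_side hK hu hκ hη0 hθ4
  obtain ⟨η, hη, hηp, hηe, hηt, hηs⟩ : ∃ η > 0, η ≤ δp ∧ η ≤ δe ∧ η ≤ δt ∧ η ≤ δs :=
    ⟨min (min δp δe) (min δt δs), lt_min (lt_min hδp hδe) (lt_min hδt hδs),
      (min_le_left _ _).trans (min_le_left _ _), (min_le_left _ _).trans (min_le_right _ _),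
      (min_le_right _ _).trans (min_le_left _ _), (min_le_right _ _).trans (min_le_right _ _)⟩
  obtain ⟨δg, hδg, hgap⟩ := small_gaps hK hu hη
  obtain ⟨δ, hδ, hδδf, hδδg, hδδr, hδη⟩ : ∃ δ > 0, δ ≤ δf ∧ δ ≤ δg ∧ δ ≤ δr ∧ δ ≤ η :=
    ⟨min (min δf δg) (min δr η), lt_min (lt_min hδf hδg) (lt_min hδr hη),
      (min_le_left _ _).trans (min_le_left _ _), (min_le_left _ _).trans (min_le_right _ _),
      (min_le_right _ _).trans (min_le_left _ _), (min_le_right _ _).trans (min_le_right _ _)⟩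
  refine ⟨δ, hδ, ?_⟩
  intro ε1 ε2 v1' v2' h1 h2 hne hd1 hd2 M hM hMne hMc hi1 hi2 hiv1 hiv2
  by_contra hcon
  have hfatM : ∀ a ∈ M, ∃ c ∈ M, η0 ≤ dist a c := by
    intro a ha
    rcases hfat (wd u0 ε1) v1' (by rw [dist_wd hu]; linarith) (by linarith) a (hM ha) with h | h
    · exact ⟨chord K (wd u0 ε1) a, hi1 a ha, h⟩
    · exact ⟨chord K v1' a, hiv1 a ha, h⟩
  have hgaps : ∀ a b, Edge M a b → dist a b < η :=
    hgap ε1 ε2 (by linarith) (by linarith) hne M hM hi1 hi2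
  have hAdm : Adm K u0 η0 η ε1 ε2 M :=
    ⟨hM, by linarith, by linarith, hne, hi1, hi2, hgaps, hfatM⟩
  -- an edge
  have hex : ∃ a b, Edge M a b := by
    obtain ⟨a, ha⟩ := hMne
    obtain ⟨b, hb, hab⟩ := hfatM a ha
    have hab' : a ≠ b := by
      intro h
      rw [h, dist_self] at hab
      linarith
    obtain ⟨q, hq1, hq2⟩ : ∃ q ∈ frontier K, q ∉ M := by
      by_contra h
      push Not at h
      exact hcon (Set.Subset.antisymm hM h)
    have hfc : IsCompact (frontier K) :=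
      hK.cpt.of_isClosed_subset isClosed_frontier hK.clo.frontier_subset
    exact exists_edge hK.clo hK.str hM (hfc.of_isClosed_subset hMc hM) ha hb hab' hq1 hq2
  -- the weight
  have hc0 : 0 < c * g1 / 2 := by positivity
  set g : Plane → ℝ := fun y => if y ∈ Reg K u0 κ then gw K u0 y else c * g1 / 2 with hg
  have hgR : ∀ y ∈ Reg K u0 κ, g y = gw K u0 y := fun y hy => if_pos hy
  have hgN : ∀ y, y ∉ Reg K u0 κ → g y = c * g1 / 2 := fun y hy => if_neg hy
  have hgpos : ∀ y ∈ M, 0 < g y := by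
    intro y _
    by_cases hy : y ∈ Reg K u0 κ
    · rw [hgR y hy]
      exact hg1.trans_le (hgb y hy).1
    · rw [hgN y hy]
      exact hc0
  have hgle : ∀ y ∈ M, g y ≤ max g2 (c * g1 / 2) := by
    intro y _
    by_cases hy : y ∈ Reg K u0 κ
    · rw [hgR y hy]
      exact (hgb y hy).2.trans (le_max_left _ _)
    · rw [hgN y hy]
      exact le_max_right _ _
  have hcw : cross (wd u0 ε1) (wd u0 ε2) ≠ 0 := by
    rw [cross_wd hu]
    exact sub_ne_zero.2 hne.symm
  obtain ⟨a, b, hE, hmax⟩ := max_gap hK hM hcw hi1 hi2 g _ hgpos hgle hex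
  have hdab : 0 < dist a b := dist_pos.2 hE.2.2.1
  by_cases haR : a ∈ Reg K u0 κ
  · -- the main case
    have hga : g a = gw K u0 a := hgR a haR
    have hW : 0 < dist a b * gw K u0 a := mul_pos hdab (hg1.trans_le (hgb a haR).1)
    -- switch the side
    obtain ⟨a1, b1, hE1, ha1, hw1⟩ : ∃ a1 b1, Edge M a1 b1 ∧ a1 ∈ Rp K u0 (κ / 2) ∧
        Real.exp (-(θ / 4)) * (dist a b * gw K u0 a) ≤ dist a1 b1 * gw K u0 a1 := by
      rcases lt_or_gt_of_ne (reg_cross_ne hK hu0 hκ haR) with hneg | hpos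
      · exact hsw ε1 ε2 M (hAdm.mono hηs) a b hE haR hneg
      · refine ⟨a, b, hE, rp_mono (by linarith) ⟨haR, hpos⟩, ?_⟩
        have h3 : Real.exp (-(θ / 4)) ≤ 1 := Real.exp_le_one_iff.2 (by linarith)
        nlinarith
    -- reach the point x
    have key : ∀ e1 e2 : ℝ, Adm K u0 η0 η e1 e2 M → |e1| < δr → |e2| < δr →
        0 ≤ (e1 - e2) * (cross u0 x - cross u0 a1) → False := by
      intro e1 e2 hA he1 he2 hsgn
      obtain ⟨k, hk, hkj⟩ := hreach e1 e2 he1 he2 hA.ne a1 ha1 x hxR2 hsgn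
      have hw2 := htr e1 e2 M (hA.mono hηt) a1 b1 hE1 k hkj
      have hE2 := edge_iterate hK hu hM hA.inv1 hA.inv2 hE1 k
      obtain ⟨a3, b3, hE3, ha3, hw3⟩ := hexp v2' (by linarith) M hM hiv2 hfatM
        (fun a' b' h' => (hgaps a' b' h').trans_le hηe) _ _ hE2 hk
      have hm := hmax a3 b3 hE3
      rw [hga, hgR a3 (reg_mono hκκx ha3)] at hm
      -- combine
      have h4 : Real.exp θ * (Real.exp (-(θ / 4)) * (Real.exp (-(θ / 4)) *
          (dist a b * gw K u0 a))) ≤ dist a b * gw K u0 a := by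
        refine le_trans ?_ (hw3.trans hm)
        apply mul_le_mul_of_nonneg_left _ (Real.exp_pos _).le
        refine le_trans ?_ hw2
        exact mul_le_mul_of_nonneg_left hw1 (Real.exp_pos _).le
      have h5 : Real.exp θ * (Real.exp (-(θ / 4)) * (Real.exp (-(θ / 4)) *
          (dist a b * gw K u0 a))) = Real.exp (θ / 2) * (dist a b * gw K u0 a) := by
        rw [← mul_assoc, ← mul_assoc, ← Real.exp_add, ← Real.exp_add]
        congr 2
        ring
      rw [h5] at h4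
      have h6 : 1 < Real.exp (θ / 2) := Real.one_lt_exp_iff.2 (by positivity)
      nlinarith
    rcases le_total 0 ((ε1 - ε2) * (cross u0 x - cross u0 a1)) with h | h
    · exact key ε1 ε2 hAdm (by linarith) (by linarith) h
    · refine key ε2 ε1 hAdm.symm (by linarith) (by linarith) ?_
      have : (ε2 - ε1) * (cross u0 x - cross u0 a1) =
          -((ε1 - ε2) * (cross u0 x - cross u0 a1)) := by ring
      rw [this]
      linarith
  · -- push the gap into the region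
    obtain ⟨a1, b1, hE1, ha1, hd⟩ := hpg v1' (by linarith) M hM hiv1 hfatM
      (fun a' b' h' => (hgaps a' b' h').trans_le hηp) a b hE haR
    have hm := hmax a1 b1 hE1
    rw [hgN a haR, hgR a1 ha1] at hm
    have h3 : c * dist a b * g1 ≤ dist a1 b1 * gw K u0 a1 := by
      apply mul_le_mul hd (hgb a1 ha1).1 hg1.le dist_nonneg
    have h4 : 0 < c * dist a b * g1 := by positivity
    nlinarith

theorem main_lemma (hK : SBody K) (hu : ‖u0‖ = 1) (hv1 : v1 ≠ 0) (hv2 : v2 ≠ 0)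
    (hpush : ∀ p ∈ frontier K, cross u0 (tang K p) = 0 → cross u0 (tang K (chord K v1 p)) ≠ 0)
    (hx : x ∈ frontier K) (hx1 : cross u0 (tang K x) ≠ 0)
    (hx2 : cross u0 (tang K (chord K v2 x)) ≠ 0)
    (hq : gw K u0 x * |cross v2 (tang K (chord K v2 x))| <
      gw K u0 (chord K v2 x) * |cross v2 (tang K x)|) :
    ∃ δ > 0, ∀ (ε1 ε2 : ℝ) (v1' v2' : Plane), |ε1| < δ → |ε2| < δ → ε1 ≠ ε2 →
      dist v1' v1 < δ → dist v2' v2 < δ → ∀ M ⊆ frontier K, M.Nonempty → IsClosed M →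
      Inv K M (wd u0 ε1) → Inv K M (wd u0 ε2) → Inv K M v1' → Inv K M v2' →
      M = frontier K := by
  rcases lt_or_gt_of_ne hx1 with hneg | hpos
  · have hu' : ‖-u0‖ = 1 := by rw [norm_neg, hu]
    have hgw : ∀ y ∈ frontier K, gw K (-u0) y = gw K u0 y := by
      intro y hy
      unfold gw
      rw [cross_neg_left, abs_neg, chord_neg hK.clo hK.str hy]
    obtain ⟨δ, hδ, H⟩ := main_lemma_pos (u0 := -u0) hK hu' hv1 hv2
      (fun p hp h => by
        rw [cross_neg_left]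
        rw [cross_neg_left, neg_eq_zero] at h
        exact neg_ne_zero.2 (hpush p hp h)) hx
      (by rw [cross_neg_left]; linarith)
      (by rw [cross_neg_left]; exact neg_ne_zero.2 hx2)
      (by rw [hgw x hx, hgw _ (chord_mem hx)]; exact hq)
    refine ⟨δ, hδ, ?_⟩
    intro ε1 ε2 v1' v2' h1 h2 hne hd1 hd2 M hM hMne hMc hi1 hi2 hiv1 hiv2
    have hinv : ∀ ε : ℝ, Inv K M (wd u0 ε) → Inv K M (wd (-u0) ε) := by
      intro ε h y hy
      rw [wd_neg, chord_neg hK.clo hK.str (hM hy)]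
      exact h y hy
    exact H ε1 ε2 v1' v2' h1 h2 hne hd1 hd2 M hM hMne hMc (hinv ε1 hi1) (hinv ε2 hi2) hiv1 hiv2
  · exact main_lemma_pos hK hu hv1 hv2 hpush hx hpos hx2 hq

end ChordMaps
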