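import Pool.Agent.Helper3.LS.Defs2
import Pool.Agent.Helper3.LS.L07

set_option autoImplicit false

/-! # LS-20: the right side as a curve over the heights; a primitive of `1 / chord length`

* `exists_rho`: `h0`, `h1` = minimum and maximum of the height `cross u0` on `K` (`h0 < h1` as `K` has interior).
  For `t ∈ (h0, h1)` the set `K ∩ {cross u0 = t}` is compact and nonempty (convexity / IVT); let `ρ t` be its point
  maximising `- cross (rot u0) ·` (the horizontal coordinate, `decomp`).  `ρ t ∈ frontier K` (an interior point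
  could be moved to the right).  `cross u0 (tang K (ρ t)) ≠ 0` by `reg_cross_ne`, and `> 0` since otherwise
  `chord K u0 (ρ t) = ρ t - s • u0` with `s < 0` (`chord_tang`) would be further right.
  Continuity: if `t n → t ∈ (h0, h1)` and (subsequence) `ρ (t n) → y`, then `cross u0 y = t`,
  `0 ≤ cross u0 (tang K y)`, `≠ 0`, so `y = ρ t` (`rp_inj`).
  Last item: `reg_cross_ne`; conversely if `cross u0 x = h0` or `h1` then `u0` or `-u0` is tangential at `x`
  (`tang_unique`), so `cross u0 (tang K x) = 0`.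
* `exists_massFun`: `ℓ t = dist (ρ t) (chord K u0 (ρ t))` is continuous and positive on `(h0, h1)`
  (`chord_continuousOn`, `chord_eq_iff`); `P t = ∫ τ in c..t, (ℓ τ)⁻¹` with `c = (h0 + h1) / 2`
  (`intervalIntegral.integral_hasDerivAt_right`, or first replace the integrand by a continuous function on
  `ℝ` near `[c, t]`).  For `x` on the left side, `chord K u0 x = ρ (cross u0 x)` and `chord_chord`, `dist_comm`.
-/

namespace ChordMaps

open Topology Filter

variable {K : Set Plane} {u0 : Plane}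

private lemma l20_ne (hu : ‖u0‖ = 1) : u0 ≠ 0 := by
  intro h
  rw [h, norm_zero] at hu
  exact zero_ne_one hu

private lemma l20_cross (hu : ‖u0‖ = 1) : cross u0 (rot u0) = 1 := by
  rw [cross_rot, hu]; norm_num

private lemma l20_cross' (hu : ‖u0‖ = 1) : cross (rot u0) u0 = -1 := by
  rw [cross_comm, l20_cross hu]

/-- extremal heights -/
private lemma l20_h (hK : SBody K) (hu : ‖u0‖ = 1) : ∃ h0 h1 : ℝ, h0 < h1 ∧
    (∃ z ∈ K, cross u0 z = h0) ∧ (∃ z ∈ K, cross u0 z = h1) ∧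
    ∀ z ∈ K, h0 ≤ cross u0 z ∧ cross u0 z ≤ h1 := by
  have hne : K.Nonempty := hK.int.mono interior_subset
  obtain ⟨z0, hz0, h0⟩ := hK.cpt.exists_isMinOn hne (continuous_cross_right u0).continuousOn
  obtain ⟨z1, hz1, h1⟩ := hK.cpt.exists_isMaxOn hne (continuous_cross_right u0).continuousOn
  have h0' : ∀ z ∈ K, cross u0 z0 ≤ cross u0 z := fun z hz => h0 hz
  have h1' : ∀ z ∈ K, cross u0 z ≤ cross u0 z1 := fun z hz => h1 hz
  refine ⟨cross u0 z0, cross u0 z1, ?_, ⟨z0, hz0, rfl⟩, ⟨z1, hz1, rfl⟩,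
    fun z hz => ⟨h0' z hz, h1' z hz⟩⟩
  obtain ⟨c, hc⟩ := hK.int
  obtain ⟨r, hr, hball⟩ := Metric.isOpen_iff.1 isOpen_interior c hc
  have h2 : c + (r / 2) • rot u0 ∈ K := by
    apply interior_subset
    apply hball
    rw [Metric.mem_ball, dist_eq_norm, add_sub_cancel_left, norm_smul, norm_rot, hu, mul_one,
      Real.norm_eq_abs, abs_of_pos (by linarith)]
    linarith
  have h3 := h1' _ h2
  have h4 := h0' c (interior_subset hc)
  rw [cross_add_right, cross_smul_right, l20_cross hu] at h3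
  linarith

/-- the point on the right side at a given height -/
private lemma l20_pt (hK : SBody K) (hu : ‖u0‖ = 1) {h0 h1 t : ℝ} (hz0 : ∃ z ∈ K, cross u0 z = h0)
    (hz1 : ∃ z ∈ K, cross u0 z = h1) (ht0 : h0 < t) (ht1 : t < h1) :
    ∃ x ∈ frontier K, 0 < cross u0 (tang K x) ∧ cross u0 x = t := by
  obtain ⟨z0, hz0, h0'⟩ := hz0
  obtain ⟨z1, hz1, h1'⟩ := hz1
  have hu0 := l20_ne hu
  have hcl : IsClosed {x : Plane | cross u0 x = t} :=
    isClosed_eq (continuous_cross_right u0) continuous_const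
  have hcpt : IsCompact (K ∩ {x : Plane | cross u0 x = t}) := hK.cpt.inter_right hcl
  have hne : (K ∩ {x : Plane | cross u0 x = t}).Nonempty := by
    have hpos : 0 < h1 - h0 := by linarith
    set θ := (t - h0) / (h1 - h0) with hθ
    have hθ0 : 0 ≤ θ := div_nonneg (by linarith) hpos.le
    have hθ1 : θ ≤ 1 := (div_le_one hpos).2 (by linarith)
    refine ⟨(1 - θ) • z0 + θ • z1, hK.cvx hz0 hz1 (by linarith) hθ0 (by ring), ?_⟩
    show cross u0 ((1 - θ) • z0 + θ • z1) = t
    rw [cross_add_right, cross_smul_right, cross_smul_right, h0', h1']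
    have h2 : θ * (h1 - h0) = t - h0 := div_mul_cancel₀ _ hpos.ne'
    linear_combination h2
  obtain ⟨x, ⟨hxK, hxt⟩, hmax⟩ := hcpt.exists_isMaxOn hne
    (continuous_cross_right (rot u0)).neg.continuousOn
  have hxt' : cross u0 x = t := hxt
  have hmax' : ∀ s : ℝ, x + s • u0 ∈ K → s ≤ 0 := by
    intro s hs
    have h2 : - cross (rot u0) (x + s • u0) ≤ - cross (rot u0) x := hmax ⟨hs, by
      show cross u0 (x + s • u0) = t
      rw [cross_add_right, cross_smul_right, cross_self, mul_zero, add_zero, hxt']⟩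
    rw [cross_add_right, cross_smul_right, l20_cross' hu] at h2
    linarith
  have hxf : x ∈ frontier K := by
    rw [hK.clo.frontier_eq]
    refine ⟨hxK, fun hint => ?_⟩
    obtain ⟨r, hr, hball⟩ := Metric.isOpen_iff.1 isOpen_interior x hint
    have h2 : x + (r / 2) • u0 ∈ K := by
      apply interior_subset
      apply hball
      rw [Metric.mem_ball, dist_eq_norm, add_sub_cancel_left, norm_smul, hu, mul_one,
        Real.norm_eq_abs, abs_of_pos (by linarith)]
      linarith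
    have h3 := hmax' _ h2
    linarith
  have hreg : x ∈ Reg K u0 (min (t - h0) (h1 - t)) := by
    refine ⟨hxf, ⟨z0, hz0, ?_⟩, z1, hz1, ?_⟩
    · rw [h0', hxt']
      have := min_le_left (t - h0) (h1 - t)
      linarith
    · rw [h1', hxt']
      have := min_le_right (t - h0) (h1 - t)
      linarith
  have hne0 := reg_cross_ne hK hu0 (lt_min (by linarith) (by linarith)) hreg
  refine ⟨x, hxf, ?_, hxt'⟩
  by_contra hneg
  have hlt : cross u0 (tang K x) < 0 := lt_of_le_of_ne (not_lt.1 hneg) hne0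
  obtain ⟨s, hs1, _, hs3⟩ := chord_tang hK hxf hu0
  have hs := hs3 hne0
  have hs0 : s < 0 := by
    by_contra hcon
    have := mul_nonpos_of_nonneg_of_nonpos (not_lt.1 hcon) hlt.le
    linarith
  have h2 : x + (-s) • u0 ∈ K := by
    have h3 : x + (-s) • u0 = chord K u0 x := by rw [hs1, neg_smul, sub_eq_add_neg]
    rw [h3]
    exact hK.clo.frontier_subset (chord_mem hxf)
  have h3 := hmax' _ h2
  linarith

theorem exists_rho (hK : SBody K) (hu : ‖u0‖ = 1) :
    ∃ (h0 h1 : ℝ) (ρ : ℝ → Plane), h0 < h1 ∧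
      (∀ t ∈ Set.Ioo h0 h1, ρ t ∈ frontier K ∧ 0 < cross u0 (tang K (ρ t)) ∧
        cross u0 (ρ t) = t) ∧
      ContinuousOn ρ (Set.Ioo h0 h1) ∧
      ∀ x ∈ frontier K, cross u0 (tang K x) ≠ 0 ↔ cross u0 x ∈ Set.Ioo h0 h1 := by
  have hu0 := l20_ne hu
  obtain ⟨h0, h1, h01, hz0, hz1, hb⟩ := l20_h hK hu
  have hex : ∀ t : ℝ, ∃ x : Plane, t ∈ Set.Ioo h0 h1 →
      x ∈ frontier K ∧ 0 < cross u0 (tang K x) ∧ cross u0 x = t := by
    intro t
    by_cases ht : t ∈ Set.Ioo h0 h1
    · obtain ⟨x, hx, hx1, hx2⟩ := l20_pt hK hu hz0 hz1 ht.1 ht.2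
      exact ⟨x, fun _ => ⟨hx, hx1, hx2⟩⟩
    · exact ⟨0, fun h => absurd h ht⟩
  choose ρ hρ using hex
  obtain ⟨z0, hz0, h0'⟩ := hz0
  obtain ⟨z1, hz1, h1'⟩ := hz1
  have hreg : ∀ (κ : ℝ) (x : Plane), x ∈ frontier K → h0 + κ ≤ cross u0 x → cross u0 x + κ ≤ h1 →
      x ∈ Reg K u0 κ := by
    intro κ x hx ha hb
    exact ⟨hx, ⟨z0, hz0, by rw [h0']; exact ha⟩, z1, hz1, by rw [h1']; exact hb⟩
  refine ⟨h0, h1, ρ, h01, fun t ht => hρ t ht, ?_, fun x hx => ⟨fun h => ?_, fun h => ?_⟩⟩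
  · rw [Metric.continuousOn_iff]
    intro t ht ε hε
    set κ := min (t - h0) (h1 - t) / 2 with hκ
    have hm : 0 < min (t - h0) (h1 - t) := lt_min (by linarith [ht.1]) (by linarith [ht.2])
    have hκ0 : 0 < κ := by positivity
    have hk1 : 2 * κ ≤ t - h0 := by
      have := min_le_left (t - h0) (h1 - t)
      linarith
    have hk2 : 2 * κ ≤ h1 - t := by
      have := min_le_right (t - h0) (h1 - t)
      linarith
    obtain ⟨η, hη, hunif⟩ := rp_unif hK hu0 hκ0 hε
    refine ⟨min η κ, lt_min hη hκ0, fun s hs hst => ?_⟩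
    rw [Real.dist_eq] at hst
    have hst1 := lt_of_lt_of_le hst (min_le_left _ _)
    have hst2 := lt_of_lt_of_le hst (min_le_right _ _)
    obtain ⟨hs1, hs2, hs3⟩ := hρ s hs
    obtain ⟨ht1, ht2, ht3⟩ := hρ t ht
    rw [abs_lt] at hst2
    refine hunif _ ⟨hreg κ _ hs1 (by rw [hs3]; linarith) (by rw [hs3]; linarith), hs2⟩ _
      ⟨hreg κ _ ht1 (by rw [ht3]; linarith) (by rw [ht3]; linarith), ht2⟩ ?_
    rw [hs3, ht3]
    exact hst1
  · obtain ⟨κ, hκ, -, ⟨z, hz, ha⟩, w, hw, hb'⟩ := exists_reg hK hu0 hx h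
    exact ⟨by linarith [(hb z hz).1], by linarith [(hb w hw).2]⟩
  · have h2 : 0 < min (cross u0 x - h0) (h1 - cross u0 x) :=
      lt_min (by linarith [h.1]) (by linarith [h.2])
    refine reg_cross_ne hK hu0 h2 (hreg _ x hx ?_ ?_)
    · have := min_le_left (cross u0 x - h0) (h1 - cross u0 x)
      linarith
    · have := min_le_right (cross u0 x - h0) (h1 - cross u0 x)
      linarith

theorem exists_massFun (hK : SBody K) (hu : ‖u0‖ = 1) : ∃ P : ℝ → ℝ, MassFun K u0 P := by
  have hu0 := l20_ne hu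
  obtain ⟨h0, h1, ρ, h01, hρ, hρc, hiff⟩ := exists_rho hK hu
  have hmaps : Set.MapsTo ρ (Set.Ioo h0 h1) (frontier K) := fun t ht => (hρ t ht).1
  have hℓc : ContinuousOn (fun t => dist (ρ t) (chord K u0 (ρ t))) (Set.Ioo h0 h1) :=
    continuous_dist.comp_continuousOn
      (hρc.prodMk ((chord_continuousOn hK hu0).comp hρc hmaps))
  have hℓ0 : ∀ t ∈ Set.Ioo h0 h1, dist (ρ t) (chord K u0 (ρ t)) ≠ 0 := by
    intro t ht h
    have h2 := (chord_eq_iff hK (hρ t ht).1 hu0).1 (dist_eq_zero.1 h).symm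
    exact (hρ t ht).2.1.ne' h2
  have hgc : ContinuousOn (fun t => (dist (ρ t) (chord K u0 (ρ t)))⁻¹) (Set.Ioo h0 h1) :=
    hℓc.inv₀ hℓ0
  set g : ℝ → ℝ := fun t => (dist (ρ t) (chord K u0 (ρ t)))⁻¹ with hg
  set c := (h0 + h1) / 2 with hc
  have hcI : c ∈ Set.Ioo h0 h1 := ⟨by linarith, by linarith⟩
  have hder : ∀ t ∈ Set.Ioo h0 h1, HasDerivAt (fun t => ∫ τ in c..t, g τ) (g t) t := by
    intro t ht
    have hsub : Set.uIcc c t ⊆ Set.Ioo h0 h1 := by
      intro τ hτ
      rw [Set.mem_uIcc] at hτ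
      rcases hτ with h | h
      · exact ⟨lt_of_lt_of_le hcI.1 h.1, lt_of_le_of_lt h.2 ht.2⟩
      · exact ⟨lt_of_lt_of_le ht.1 h.1, lt_of_le_of_lt h.2 hcI.2⟩
    exact intervalIntegral.integral_hasDerivAt_right (hgc.mono hsub).intervalIntegrable
      (hgc.stronglyMeasurableAtFilter isOpen_Ioo t ht)
      (hgc.continuousAt (Ioo_mem_nhds ht.1 ht.2))
  refine ⟨fun t => ∫ τ in c..t, g τ, fun x hx hne => ?_⟩
  have hxI := (hiff x hx).1 hne
  have h2 := hder _ hxI
  obtain ⟨r1, r2, r3⟩ := hρ _ hxI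
  have h3 : g (cross u0 x) = (dist x (chord K u0 x))⁻¹ := by
    rcases lt_or_gt_of_ne hne with hlt | hgt
    · have hy := chord_mem (u := u0) hx
      have hy1 := chord_cross_neg hK hx hu0 hne
      have hy2 : 0 < cross u0 (tang K (chord K u0 x)) := by
        by_contra hcon
        have := mul_nonneg_of_nonpos_of_nonpos hlt.le (not_lt.1 hcon)
        linarith
      have hy3 : cross u0 (chord K u0 x) = cross u0 x := by
        obtain ⟨s, hs⟩ := chord_line K u0 x
        rw [hs, cross_add_right, cross_smul_right, cross_self, mul_zero, add_zero]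
      have h4 : ρ (cross u0 x) = chord K u0 x :=
        rp_inj hK hu0 r1 hy r2 hy2 (r3.trans hy3.symm)
      show (dist (ρ (cross u0 x)) (chord K u0 (ρ (cross u0 x))))⁻¹ = _
      rw [h4, chord_chord hK.clo hK.str hx, dist_comm]
    · have h4 : ρ (cross u0 x) = x := rp_inj hK hu0 r1 hx r2 hgt r3
      show (dist (ρ (cross u0 x)) (chord K u0 (ρ (cross u0 x))))⁻¹ = _
      rw [h4]
  rw [← h3]
  exact h2

end ChordMaps
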