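import Pool.Agent.Helper3.LS.L01

set_option autoImplicit false

/-! # LS-21: chord maps map caps to caps

For `a, b, x, c ∈ frontier K`:
* `quad_left`, `quad_right` (convex quadrilaterals): `T = tang K a` has `cross T (p - a) > 0` for `p = x, b, c`
  (`tang_pos`); Pluecker: `cross T b' * cross x' c' = cross T x' * cross b' c' + cross T c' * cross x' b'` with
  `x' = x - a` etc. (`ring` after `unfold cross`), where `cross b' c' ≥ 0`, `cross x' b' > 0`. `quad_right` is
  the mirror image (use `T = tang K b`).
* `cap_map`: let `y = chord K v x`, `C' = M ∪ {x, y}`, which is invariant under `chord K v`, contained in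
  `frontier K`.  `x ∉ M` (`Edge`).  If `y ∉` cap, i.e. `0 ≤ cross (b - a) (y - a)`, or `y = x`: `Edge C' a x` and
  `Edge C' x b` by `quad_left/right` (every `c ∈ C'`, `c ≠ x`, is left of `a → b`). By `edge_chord`:
  `Edge C' y (chord K v a)` and `Edge C' (chord K v b) y`.  (i) If `y = x`, then `out_unique` (Flow.lean) for `Edge C' x b`
  and `Edge C' x (chord K v a)` gives `chord K v a = b`, so `chord K v b = a`, contradiction to `hne`.  (ii) else
  `Edge C' (chord K v b) y` evaluated at `chord K v a ∈ C'` gives
  `0 ≤ cross (y - chord K v b) (chord K v a - chord K v b)`, and it is `≠ 0` by `cross_ne_zero_of_distinct`, which is the claim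
  up to antisymmetry.  If `y ≠ x` is in the cap of `(a, b)` too: let `(p, q) = (x, y)` or `(y, x)` such that
  the order is `a, p, q, b`: precisely `0 < cross (q - p) (b - p)`... simplest: of the two points, one,
  say `p`, satisfies `0 < cross (p - a) (q - a)` (not collinear); then `Edge C' a p`, `Edge C' q b`
  (`quad` lemmas), `edge_chord`: `Edge C' (chord K v p) (chord K v a) = Edge C' q (chord K v a)` since
  `chord K v p = q`; `out_unique` gives `chord K v a = b`, contradiction to `hne`.
* `cap_ne`: case (i) above.
-/

namespace ChordMaps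

variable {K M : Set Plane} {a b c x v : Plane}

/-- Pluecker relation in the plane -/
private lemma l21_pl (T p q r : Plane) :
    cross T p * cross q r = cross T q * cross p r + cross T r * cross q p := by
  simp only [cross]
  ring

private lemma l21_ne_left (hbx : cross (b - a) (x - a) < 0) : x ≠ a := by
  rintro rfl
  rw [sub_self] at hbx
  simp [cross] at hbx

private lemma l21_ne_right (hbx : cross (b - a) (x - a) < 0) : x ≠ b := by
  rintro rfl
  rw [cross_self] at hbx
  exact lt_irrefl _ hbx

theorem quad_left (hK : SBody K) (ha : a ∈ frontier K) (hb : b ∈ frontier K)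
    (hc : c ∈ frontier K) (hx : x ∈ frontier K) (hab : a ≠ b)
    (hbc : 0 ≤ cross (b - a) (c - a)) (hbx : cross (b - a) (x - a) < 0) :
    0 ≤ cross (x - a) (c - a) := by
  have hmem : ∀ {z : Plane}, z ∈ frontier K → z ∈ K := fun h => hK.clo.frontier_subset h
  have hTb := tang_pos hK ha (hmem hb) hab.symm
  have hTx := tang_pos hK ha (hmem hx) (l21_ne_left hbx)
  have hTc := (tang_spec hK ha).2 c (hmem hc)
  have h := l21_pl (tang K a) (b - a) (x - a) (c - a)
  have hxb : 0 < cross (x - a) (b - a) := by
    rw [cross_comm]
    linarith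
  have h1 : 0 ≤ cross (tang K a) (b - a) * cross (x - a) (c - a) := by
    rw [h]
    have := mul_nonneg hTx.le hbc
    have := mul_nonneg hTc hxb.le
    linarith
  exact nonneg_of_mul_nonneg_right h1 hTb

theorem quad_right (hK : SBody K) (ha : a ∈ frontier K) (hb : b ∈ frontier K)
    (hc : c ∈ frontier K) (hx : x ∈ frontier K) (hab : a ≠ b)
    (hbc : 0 ≤ cross (b - a) (c - a)) (hbx : cross (b - a) (x - a) < 0) :
    0 ≤ cross (b - x) (c - x) := by
  have hmem : ∀ {z : Plane}, z ∈ frontier K → z ∈ K := fun h => hK.clo.frontier_subset h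
  have hTa := tang_pos hK hb (hmem ha) hab
  have hTx := tang_pos hK hb (hmem hx) (l21_ne_right hbx)
  have hTc := (tang_spec hK hb).2 c (hmem hc)
  have h := l21_pl (tang K b) (a - b) (x - b) (c - b)
  have h1 : cross (a - b) (c - b) = - cross (b - a) (c - a) := by
    simp only [cross, PiLp.sub_apply]; ring
  have h2 : cross (x - b) (a - b) = cross (b - a) (x - a) := by
    simp only [cross, PiLp.sub_apply]; ring
  have h3 : cross (b - x) (c - x) = - cross (x - b) (c - b) := by
    simp only [cross, PiLp.sub_apply]; ring
  rw [h3]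
  have h4 : cross (tang K b) (a - b) * cross (x - b) (c - b) ≤ 0 := by
    rw [h, h1, h2]
    have := mul_nonneg hTx.le hbc
    have := mul_nonneg hTc (neg_nonneg.2 hbx.le)
    linarith
  by_contra hcon
  have h5 : 0 < cross (x - b) (c - b) := by linarith
  have := mul_pos hTa h5
  linarith

private lemma l21_mid (hK : SBody K) {p q : Plane} (ha : a ∈ frontier K) (hb : b ∈ frontier K)
    (hp : p ∈ frontier K) (hq : q ∈ frontier K) (hqb : cross (b - a) (q - a) < 0)
    (hpq : 0 < cross (p - a) (q - a)) : 0 < cross (b - q) (p - q) := by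
  have hmem : ∀ {z : Plane}, z ∈ frontier K → z ∈ K := fun h => hK.clo.frontier_subset h
  have hpq' : p ≠ q := by
    rintro rfl
    rw [cross_self] at hpq
    exact lt_irrefl _ hpq
  have hTa := tang_pos hK hq (hmem ha) (l21_ne_left hqb).symm
  have hTb := tang_pos hK hq (hmem hb) (l21_ne_right hqb).symm
  have hTp := tang_pos hK hq (hmem hp) hpq'
  have h := l21_pl (tang K q) (a - q) (b - q) (p - q)
  have h1 : cross (a - q) (p - q) = cross (p - a) (q - a) := by
    simp only [cross, PiLp.sub_apply]; ring
  have h2 : cross (b - q) (a - q) = - cross (b - a) (q - a) := by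
    simp only [cross, PiLp.sub_apply]; ring
  have h4 : 0 < cross (tang K q) (a - q) * cross (b - q) (p - q) := by
    rw [h, h1, h2]
    have := mul_pos hTb hpq
    have := mul_pos hTp (neg_pos.2 hqb)
    linarith
  exact (mul_pos_iff_of_pos_left hTa).1 h4

private lemma l21_edge_left (hK : SBody K) (hM : M ⊆ frontier K) (he : Edge M a b)
    {C : Set Plane} (haC : a ∈ C) (hxC : x ∈ C) (hx : x ∈ frontier K)
    (hxc : cross (b - a) (x - a) < 0)
    (h : ∀ c ∈ C, c ∈ M ∨ 0 ≤ cross (x - a) (c - a)) : Edge C a x := by
  refine ⟨haC, hxC, (l21_ne_left hxc).symm, fun c hc => ?_⟩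
  rcases h c hc with h1 | h1
  · exact quad_left hK (hM he.1) (hM he.2.1) (hM h1) hx he.2.2.1 (he.2.2.2 c h1) hxc
  · exact h1

private lemma l21_edge_right (hK : SBody K) (hM : M ⊆ frontier K) (he : Edge M a b)
    {C : Set Plane} (hbC : b ∈ C) (hxC : x ∈ C) (hx : x ∈ frontier K)
    (hxc : cross (b - a) (x - a) < 0)
    (h : ∀ c ∈ C, c ∈ M ∨ 0 ≤ cross (b - x) (c - x)) : Edge C x b := by
  refine ⟨hxC, hbC, l21_ne_right hxc, fun c hc => ?_⟩
  rcases h c hc with h1 | h1
  · exact quad_right hK (hM he.1) (hM he.2.1) (hM h1) hx he.2.2.1 (he.2.2.2 c h1) hxc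
  · exact h1

private lemma l21_zero (w : Plane) : cross w (x - x) = 0 := by
  rw [sub_self]
  simp [cross]

theorem cap_ne (hK : SBody K) (hM : M ⊆ frontier K) (hv : v ≠ 0) (hinv : Inv K M v)
    (he : Edge M a b) (hne : chord K v b ≠ a) (hx : x ∈ frontier K)
    (hxc : cross (b - a) (x - a) < 0) : chord K v x ≠ x := by
  intro hxx
  have hCK : insert x M ⊆ frontier K := Set.insert_subset hx hM
  have hCinv : ∀ z ∈ insert x M, chord K v z ∈ insert x M := by
    intro z hz
    rcases Set.mem_insert_iff.1 hz with h | h
    · rw [h, hxx]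
      exact Set.mem_insert _ _
    · exact Set.mem_insert_of_mem _ (hinv z h)
  have h1 : Edge (insert x M) a x := by
    refine l21_edge_left hK hM he (Set.mem_insert_of_mem _ he.1) (Set.mem_insert _ _) hx hxc ?_
    intro c hc
    rcases Set.mem_insert_iff.1 hc with h | h
    · right
      rw [h, cross_self]
    · exact Or.inl h
  have h2 : Edge (insert x M) x b := by
    refine l21_edge_right hK hM he (Set.mem_insert_of_mem _ he.2.1) (Set.mem_insert _ _) hx hxc ?_
    intro c hc
    rcases Set.mem_insert_iff.1 hc with h | h
    · right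
      rw [h, l21_zero]
    · exact Or.inl h
  have h3 := edge_chord hK.cpt hK.cvx hK.str hCK hv hCinv h1
  rw [hxx] at h3
  have h4 := h2.out_unique hK.clo hK.str hCK h3
  apply hne
  rw [h4, chord_chord hK.clo hK.str (hM he.1)]

theorem cap_map (hK : SBody K) (hM : M ⊆ frontier K) (hv : v ≠ 0) (hinv : Inv K M v)
    (he : Edge M a b) (hne : chord K v b ≠ a) (hx : x ∈ frontier K)
    (hxc : cross (b - a) (x - a) < 0) :
    cross (chord K v a - chord K v b) (chord K v x - chord K v b) < 0 := by
  have hyx := cap_ne hK hM hv hinv he hne hx hxc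
  set y := chord K v x with hy
  have hyK : y ∈ frontier K := chord_mem hx
  have hcy : chord K v y = x := chord_chord hK.clo hK.str hx
  have hCK : insert x (insert y M) ⊆ frontier K :=
    Set.insert_subset hx (Set.insert_subset hyK hM)
  have hMC : ∀ z ∈ M, z ∈ insert x (insert y M) := fun z hz =>
    Set.mem_insert_of_mem _ (Set.mem_insert_of_mem _ hz)
  have hxC : x ∈ insert x (insert y M) := Set.mem_insert _ _
  have hyC : y ∈ insert x (insert y M) := Set.mem_insert_of_mem _ (Set.mem_insert _ _)
  have hcases : ∀ z ∈ insert x (insert y M), z = x ∨ z = y ∨ z ∈ M := by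
    intro z hz
    rcases Set.mem_insert_iff.1 hz with h | h
    · exact Or.inl h
    · rcases Set.mem_insert_iff.1 h with h | h
      · exact Or.inr (Or.inl h)
      · exact Or.inr (Or.inr h)
  have hCinv : ∀ z ∈ insert x (insert y M), chord K v z ∈ insert x (insert y M) := by
    intro z hz
    rcases hcases z hz with h | h | h
    · rw [h]; exact hyC
    · rw [h, hcy]; exact hxC
    · exact hMC _ (hinv z h)
  by_cases hcase : 0 ≤ cross (b - a) (y - a)
  · -- the image is not in the cap
    have h1 : Edge (insert x (insert y M)) a x := by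
      refine l21_edge_left hK hM he (hMC _ he.1) hxC hx hxc ?_
      intro c hc
      rcases hcases c hc with h | h | h
      · right
        rw [h, cross_self]
      · right
        rw [h]
        exact quad_left hK (hM he.1) (hM he.2.1) hyK hx he.2.2.1 hcase hxc
      · exact Or.inl h
    have h2 : Edge (insert x (insert y M)) x b := by
      refine l21_edge_right hK hM he (hMC _ he.2.1) hxC hx hxc ?_
      intro c hc
      rcases hcases c hc with h | h | h
      · right
        rw [h, l21_zero]
      · right
        rw [h]
        exact quad_right hK (hM he.1) (hM he.2.1) hyK hx he.2.2.1 hcase hxc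
      · exact Or.inl h
    have h3 := edge_chord hK.cpt hK.cvx hK.str hCK hv hCinv h1
    have h4 := edge_chord hK.cpt hK.cvx hK.str hCK hv hCinv h2
    have h5 := edge_chord hK.cpt hK.cvx hK.str hM hv hinv he
    rw [← hy] at h3 h4
    have h6 := h4.2.2.2 (chord K v a) (hMC _ (hinv a he.1))
    have h7 := cross_ne_zero_of_distinct hK.clo hK.str (hCK h4.1) (hCK h4.2.1)
      (hCK h3.2.1) h4.2.2.1 h5.2.2.1.symm h3.2.2.1.symm
    have h8 := lt_of_le_of_ne h6 h7.symm
    rw [cross_comm]
    linarith
  · -- both points in the cap: contradiction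
    exfalso
    push Not at hcase
    have key : ∀ p q : Plane, (p = x ∧ q = y) ∨ (p = y ∧ q = x) →
        0 < cross (p - a) (q - a) → False := by
      intro p q hpq hpos
      have hpC : p ∈ insert x (insert y M) := by
        rcases hpq with h | h <;> rw [h.1] <;> assumption
      have hqC : q ∈ insert x (insert y M) := by
        rcases hpq with h | h <;> rw [h.2] <;> assumption
      have hpc : cross (b - a) (p - a) < 0 := by
        rcases hpq with h | h <;> rw [h.1] <;> assumption
      have hqc : cross (b - a) (q - a) < 0 := by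
        rcases hpq with h | h <;> rw [h.2] <;> assumption
      have hcp : chord K v p = q := by
        rcases hpq with h | h
        · rw [h.1, h.2]
        · rw [h.1, h.2, hcy]
      have hc2 : ∀ z ∈ insert x (insert y M), z = p ∨ z = q ∨ z ∈ M := by
        intro z hz
        rcases hcases z hz with h | h | h
        · rcases hpq with h' | h'
          · exact Or.inl (by rw [h, h'.1])
          · exact Or.inr (Or.inl (by rw [h, h'.2]))
        · rcases hpq with h' | h'
          · exact Or.inr (Or.inl (by rw [h, h'.2]))
          · exact Or.inl (by rw [h, h'.1])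
        · exact Or.inr (Or.inr h)
      have h1 : Edge (insert x (insert y M)) a p := by
        refine l21_edge_left hK hM he (hMC _ he.1) hpC (hCK hpC) hpc ?_
        intro c hc
        rcases hc2 c hc with h | h | h
        · right
          rw [h, cross_self]
        · right
          rw [h]
          exact hpos.le
        · exact Or.inl h
      have h2 : Edge (insert x (insert y M)) q b := by
        refine l21_edge_right hK hM he (hMC _ he.2.1) hqC (hCK hqC) hqc ?_
        intro c hc
        rcases hc2 c hc with h | h | h
        · right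
          rw [h]
          exact (l21_mid hK (hM he.1) (hM he.2.1) (hCK hpC) (hCK hqC) hqc hpos).le
        · right
          rw [h, l21_zero]
        · exact Or.inl h
      have h3 := edge_chord hK.cpt hK.cvx hK.str hCK hv hCinv h1
      rw [hcp] at h3
      have h4 := h2.out_unique hK.clo hK.str hCK h3
      apply hne
      rw [h4, chord_chord hK.clo hK.str (hM he.1)]
    have hne0 := cross_ne_zero_of_distinct hK.clo hK.str (hM he.1) hx hyK
      (l21_ne_left hxc).symm (l21_ne_left hcase) hyx
    rcases lt_or_gt_of_ne hne0 with h | h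
    · refine key y x (Or.inr ⟨rfl, rfl⟩) ?_
      rw [cross_comm]
      linarith
    · exact key x y (Or.inl ⟨rfl, rfl⟩) h

end ChordMaps
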