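import Pool.Agent.Helper3.LS.Defs2
import Pool.Agent.Helper3.LS.L01

set_option autoImplicit false

/-! # LS-22: the cap of a one-sided edge in terms of heights

First the right side (`0 < cross u0 (tang K a)`, `0 < cross u0 (tang K b)`, `cross u0 a < cross u0 b`), `d = b - a`.
(→) `cross d (x - a) < 0`. Write `x - a = α • tang K a + β • d` (`cross (tang K a) d > 0` by `tang_pos`):
`cross d (x - a) = α * cross d (tang K a)` gives `α > 0`, `cross (tang K a) (x - a) = β * cross (tang K a) d ≥ 0` gives
`β ≥ 0`; so `cross u0 (x - a) > 0`.  In the same way `x - b = - (α' • tang K b + β' • d)` gives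
`cross u0 (x - b) < 0`.  Then let `q = a + λ • d` be the point of the segment with the height of `x`
(`0 < λ < 1`), `x = q + τ • u0` (same height; `‖u0‖ = 1`), `cross d (x - a) = - τ * cross u0 d < 0` gives `τ > 0`; and `q ∈ K`:
`0 < cross (tang K x) (q - x) = τ * cross u0 (tang K x)` (`tang_pos`).
(←) `0 < cross u0 (tang K x)` and `cross u0 a < cross u0 x < cross u0 b`: same `q`, `x = q + τ • u0`,
`0 ≤ cross (tang K x) (q - x) = τ * cross u0 (tang K x)`, so `τ ≥ 0`; `τ = 0` means `x = q` is in the open segment,
impossible (`not_between`, Basic.lean); so `cross d (x - a) = - τ * cross u0 d < 0`.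
The left side follows by replacing `u0` by `-u0` (all four sign conditions are symmetric).
-/

namespace ChordMaps

variable {K : Set Plane} {a b x u0 : Plane}

private lemma l22_plane (u p q w : Plane) :
    cross u w * cross p q = cross w q * cross u p + cross p w * cross u q := by
  unfold cross
  ring

private lemma l22_right (hK : SBody K) (hu : ‖u0‖ = 1) (ha : a ∈ frontier K)
    (hb : b ∈ frontier K) (hx : x ∈ frontier K) (hTa : 0 < cross u0 (tang K a))
    (hTb : 0 < cross u0 (tang K b)) (hab : cross u0 a < cross u0 b) :
    cross (b - a) (x - a) < 0 ↔ 0 < cross u0 (tang K x) ∧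
      cross u0 a < cross u0 x ∧ cross u0 x < cross u0 b := by
  have hu0 : u0 ≠ 0 := by
    rintro rfl
    rw [norm_zero] at hu
    exact zero_ne_one hu
  have haK := hK.clo.frontier_subset ha
  have hbK := hK.clo.frontier_subset hb
  have hxK := hK.clo.frontier_subset hx
  have hne : a ≠ b := by
    rintro rfl
    exact lt_irrefl _ hab
  have hd : 0 < cross u0 (b - a) := by
    rw [cross_sub_right]
    linarith
  -- the point of the segment with the height of `x`
  have key : ∀ l : ℝ, 0 < l → l < 1 → cross u0 x = cross u0 a + l * cross u0 (b - a) →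
      ∃ τ : ℝ, τ ≠ 0 ∧ 0 < τ * cross u0 (tang K x) ∧
        cross (b - a) (x - a) = - (τ * cross u0 (b - a)) := by
    intro l hl0 hl1 hl
    have hseg : a + l • (b - a) ∈ openSegment ℝ a b := by
      refine ⟨1 - l, l, by linarith, hl0, by ring, ?_⟩
      rw [smul_sub, sub_smul, one_smul]
      abel
    have hqK : a + l • (b - a) ∈ K :=
      hK.cvx.segment_subset haK hbK (openSegment_subset_segment ℝ a b hseg)
    obtain ⟨τ, hτ⟩ := exists_smul_of_cross_eq_zero hu0
      (show cross u0 (x - (a + l • (b - a))) = 0 by
        rw [cross_sub_right, cross_add_right, cross_smul_right, hl]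
        ring)
    have hqx : a + l • (b - a) ≠ x := by
      intro h
      exact not_between hK.str hx haK hbK hne (h ▸ hseg)
    have h1 := tang_pos hK hx hqK hqx
    have h2 : a + l • (b - a) - x = (-τ) • u0 := by
      rw [neg_smul, ← hτ, neg_sub]
    rw [h2, cross_smul_right, cross_comm] at h1
    refine ⟨τ, ?_, by linarith, ?_⟩
    · rintro rfl
      rw [neg_zero, zero_mul] at h1
      exact lt_irrefl _ h1
    · have h3 : x - a = l • (b - a) + τ • u0 := by
        rw [← hτ]
        abel
      rw [h3, cross_add_right, cross_smul_right, cross_smul_right, cross_self,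
        cross_comm (b - a) u0]
      ring
  have hheight : ∀ t, cross u0 x = cross u0 a + t * cross u0 (b - a) ↔
      cross u0 (x - a) = t * cross u0 (b - a) := by
    intro t
    rw [cross_sub_right u0 x a]
    constructor <;> intro h <;> linarith
  constructor
  · intro hneg
    have hA : cross u0 a < cross u0 x := by
      have h1 := l22_plane u0 (tang K a) (b - a) (x - a)
      have h2 := tang_pos hK ha hbK hne.symm
      have h3 := (tang_spec hK ha).2 x hxK
      have h4 : 0 < cross (x - a) (b - a) := by
        rw [cross_comm]
        linarith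
      have h5 : 0 < cross u0 (x - a) * cross (tang K a) (b - a) := by
        rw [h1]
        have h6 := mul_pos h4 hTa
        have h7 := mul_nonneg h3 hd.le
        linarith
      have h8 := (pos_iff_pos_of_mul_pos h5).2 h2
      rw [cross_sub_right] at h8
      linarith
    have hB : cross u0 x < cross u0 b := by
      have h1 := l22_plane u0 (tang K b) (a - b) (x - b)
      have h2 := tang_pos hK hb haK hne
      have h3 := (tang_spec hK hb).2 x hxK
      have h4 : cross (x - b) (a - b) = cross (b - a) (x - a) := by
        unfold cross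
        simp only [PiLp.sub_apply]
        ring
      have hd' : cross u0 (a - b) < 0 := by
        rw [cross_sub_right]
        linarith
      have h5 : cross u0 (x - b) * cross (tang K b) (a - b) < 0 := by
        rw [h1, h4]
        have h6 := mul_neg_of_neg_of_pos hneg hTb
        have h7 := mul_nonpos_of_nonneg_of_nonpos h3 hd'.le
        linarith
      have h8 : cross u0 (x - b) < 0 := by
        by_contra hcon
        push Not at hcon
        have := mul_nonneg hcon h2.le
        linarith
      rw [cross_sub_right] at h8
      linarith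
    refine ⟨?_, hA, hB⟩
    have hl0 : 0 < cross u0 (x - a) / cross u0 (b - a) := by
      refine div_pos ?_ hd
      rw [cross_sub_right]
      linarith
    have hl1 : cross u0 (x - a) / cross u0 (b - a) < 1 := by
      rw [div_lt_one hd, cross_sub_right, cross_sub_right]
      linarith
    obtain ⟨τ, hτ0, hτ1, hτ2⟩ := key _ hl0 hl1 ((hheight _).2 (div_mul_cancel₀ _ hd.ne').symm)
    rw [hτ2] at hneg
    have h1 : 0 < τ * cross u0 (b - a) := by linarith
    have h2 : 0 < τ := (pos_iff_pos_of_mul_pos h1).2 hd
    exact (pos_iff_pos_of_mul_pos hτ1).1 h2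
  · rintro ⟨hT, hA, hB⟩
    have hl0 : 0 < cross u0 (x - a) / cross u0 (b - a) := by
      refine div_pos ?_ hd
      rw [cross_sub_right]
      linarith
    have hl1 : cross u0 (x - a) / cross u0 (b - a) < 1 := by
      rw [div_lt_one hd, cross_sub_right, cross_sub_right]
      linarith
    obtain ⟨τ, hτ0, hτ1, hτ2⟩ := key _ hl0 hl1 ((hheight _).2 (div_mul_cancel₀ _ hd.ne').symm)
    have h1 : 0 < τ := (pos_iff_pos_of_mul_pos hτ1).2 hT
    rw [hτ2]
    have := mul_pos h1 hd
    linarith

private lemma l22_arith {A B X : ℝ} (h : A < B) :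
    (A < X ∧ X < B) ↔ 0 < (X - A) * (B - X) := by
  constructor
  · rintro ⟨h1, h2⟩
    exact mul_pos (by linarith) (by linarith)
  · intro h1
    rcases lt_trichotomy (X - A) 0 with h2 | h2 | h2
    · have h3 : B - X < 0 := by
        by_contra hcon
        push Not at hcon
        have := mul_nonpos_of_nonpos_of_nonneg h2.le hcon
        linarith
      linarith
    · rw [h2, zero_mul] at h1
      exact absurd h1 (lt_irrefl _)
    · have h3 : 0 < B - X := (pos_iff_pos_of_mul_pos h1).1 h2
      exact ⟨by linarith, by linarith⟩

theorem cap_iff (hK : SBody K) (hu : ‖u0‖ = 1) (ha : a ∈ frontier K) (hb : b ∈ frontier K)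
    (hx : x ∈ frontier K) (h : NE K u0 a b) :
    cross (b - a) (x - a) < 0 ↔ 0 < cross u0 (tang K x) * cross u0 (tang K a) ∧
      0 < (cross u0 x - cross u0 a) * (cross u0 b - cross u0 x) := by
  rcases h with ⟨hTa, hTb, hab⟩ | ⟨hTa, hTb, hab⟩
  · rw [l22_right hK hu ha hb hx hTa hTb hab, ← l22_arith hab]
    have h1 : 0 < cross u0 (tang K x) * cross u0 (tang K a) ↔ 0 < cross u0 (tang K x) :=
      ⟨fun h => (pos_iff_pos_of_mul_pos h).2 hTa, fun h => mul_pos h hTa⟩
    rw [h1]
  · have h0 := l22_right (u0 := -u0) hK (by rw [norm_neg]; exact hu) ha hb hx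
      (by rw [cross_neg_left]; linarith) (by rw [cross_neg_left]; linarith)
      (by rw [cross_neg_left, cross_neg_left]; linarith)
    rw [h0, cross_neg_left, cross_neg_left, cross_neg_left, cross_neg_left,
      l22_arith (by linarith)]
    have h1 : 0 < cross u0 (tang K x) * cross u0 (tang K a) ↔ 0 < - cross u0 (tang K x) := by
      constructor
      · intro h
        by_contra hcon
        push Not at hcon
        have := mul_nonpos_of_nonneg_of_nonpos (show 0 ≤ cross u0 (tang K x) by linarith) hTa.le
        linarith
      · intro h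
        exact mul_pos_of_neg_of_neg (by linarith) hTa
    have h2 : (-cross u0 x - -cross u0 a) * (-cross u0 b - -cross u0 x) =
        (cross u0 x - cross u0 a) * (cross u0 b - cross u0 x) := by ring
    rw [h1, h2]

end ChordMaps
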