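import Pool.Agent.Helper3.LS.L02
import Pool.Agent.Helper3.LS.L03

set_option autoImplicit false

/-! # LS-23: derivative of the height of the image point

* `secant_quot`: by sequences (`tendsto_of_seq_tendsto` / subsequences): `x n → p`, `x n ∈ frontier K`,
  `x n ≠ p`; a subsequence of the unit vectors `(dist p (x n))⁻¹ • (x n - p)` converges to `± tang K p`
  (`secant_limit`); the quotient does not change if `x n - p` is replaced by a nonzero multiple.
* `height_deriv`: slope at `t' ≠ t`: `x' = c t' ≠ x = c t` (different heights), `y' = chord K v x'`, `y = chord K v x`,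
  `y' ≠ y` (`chord_chord`), `y' → y` (`chord_continuousOn`), `cross v (y' - y) = cross v (x' - x)` (`cross_chord`), so
  `(cross u0 y' - cross u0 y) / (t' - t) = (cross u0 (y' - y) / cross v (y' - y)) * (cross v (x' - x) / cross u0 (x' - x))`
  (eventually the crosses are nonzero, as the quotients `cross v (x' - x) / cross u0 (x' - x)` tend to a nonzero
  limit), and use `secant_quot` twice; `cross v (tang K y) ≠ 0` by `chord_cross_neg`.
-/

namespace ChordMaps

open Topology Filter

variable {K : Set Plane} {u0 v p : Plane}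

theorem secant_quot (hK : SBody K) (hp : p ∈ frontier K) (u v : Plane)
    (hv : cross v (tang K p) ≠ 0) :
    Tendsto (fun x => cross u (x - p) / cross v (x - p)) (𝓝[frontier K \ {p}] p)
      (𝓝 (cross u (tang K p) / cross v (tang K p))) := by
  rw [tendsto_iff_seq_tendsto]
  intro x hx
  have hxp : Tendsto x atTop (𝓝 p) := tendsto_nhds_of_tendsto_nhdsWithin hx
  have hxm : ∀ᶠ n in atTop, x n ∈ frontier K \ {p} := hx.eventually self_mem_nhdsWithin
  refine tendsto_of_subseq_tendsto fun ns hns => ?_
  obtain ⟨N, hN⟩ := eventually_atTop.1 (hns.eventually hxm)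
  have hz : ∀ n, x (ns (n + N)) ∈ frontier K \ {p} := fun n => hN _ (Nat.le_add_left _ _)
  have hzne : ∀ n, p ≠ x (ns (n + N)) := fun n h => (hz n).2 (by rw [← h]; exact rfl)
  have hunit : ∀ n, (dist p (x (ns (n + N))))⁻¹ • (x (ns (n + N)) - p) ∈
      Metric.sphere (0 : Plane) 1 := by
    intro n
    have h1 : dist p (x (ns (n + N))) ≠ 0 := (dist_pos.2 (hzne n)).ne'
    rw [mem_sphere_zero_iff_norm, norm_smul, norm_inv, Real.norm_eq_abs,
      abs_of_nonneg dist_nonneg, ← dist_eq_norm, dist_comm (x (ns (n + N))) p, inv_mul_cancel₀ h1]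
  obtain ⟨e, he, φ, hφ, hlim⟩ := (isCompact_sphere (0 : Plane) 1).tendsto_subseq hunit
  have hsub : Tendsto (fun n => ns (φ n + N)) atTop atTop :=
    hns.comp ((tendsto_add_atTop_nat N).comp hφ.tendsto_atTop)
  have hlim' : Tendsto (fun n => (dist p (x (ns (φ n + N))))⁻¹ • (x (ns (φ n + N)) - p)) atTop
      (𝓝 e) := hlim
  have hT := secant_limit hK (x := fun _ => p) (y := fun n => x (ns (φ n + N)))
    (fun _ => hp) (fun n => (hz (φ n)).1) (fun n => hzne (φ n)) tendsto_const_nhds
    (hxp.comp hsub) hlim'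
  have hquot : cross u e / cross v e = cross u (tang K p) / cross v (tang K p) := by
    rcases hT with h | h
    · rw [h]
    · rw [h]
      have e1 : cross u (-tang K p) = - cross u (tang K p) := by
        rw [← neg_one_smul ℝ, cross_smul_right]; ring
      have e2 : cross v (-tang K p) = - cross v (tang K p) := by
        rw [← neg_one_smul ℝ, cross_smul_right]; ring
      rw [e1, e2, neg_div_neg_eq]
  have hve : cross v e ≠ 0 := by
    rcases hT with h | h
    · rw [h]; exact hv
    · rw [h]
      have e2 : cross v (-tang K p) = - cross v (tang K p) := by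
        rw [← neg_one_smul ℝ, cross_smul_right]; ring
      rw [e2]
      exact neg_ne_zero.2 hv
  refine ⟨fun n => φ n + N, ?_⟩
  rw [← hquot]
  have h1 := ((continuous_cross_right u).tendsto e).comp hlim'
  have h2 := ((continuous_cross_right v).tendsto e).comp hlim'
  refine (h1.div h2 hve).congr fun n => ?_
  have h3 : (dist p (x (ns (φ n + N))))⁻¹ ≠ 0 := inv_ne_zero (dist_pos.2 (hzne (φ n))).ne'
  show cross u ((dist p (x (ns (φ n + N))))⁻¹ • (x (ns (φ n + N)) - p)) /
    cross v ((dist p (x (ns (φ n + N))))⁻¹ • (x (ns (φ n + N)) - p)) = _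
  rw [cross_smul_right, cross_smul_right, mul_div_mul_left _ _ h3]
  rfl

theorem height_deriv (hK : SBody K) (hu : ‖u0‖ = 1) (hv : v ≠ 0) {c : ℝ → Plane} {t : ℝ}
    (hcont : ContinuousAt c t)
    (hc : ∀ᶠ t' in 𝓝 t, c t' ∈ frontier K ∧ cross u0 (c t') = t')
    (hS : cross u0 (tang K (c t)) ≠ 0) (hne : cross v (tang K (c t)) ≠ 0) :
    HasDerivAt (fun t' => cross u0 (chord K v (c t')))
      (cross u0 (tang K (chord K v (c t))) * cross v (tang K (c t)) /
        (cross v (tang K (chord K v (c t))) * cross u0 (tang K (c t)))) t := by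
  have _ := hu
  have hxt := hc.self_of_nhds
  have hx : c t ∈ frontier K := hxt.1
  have hy : chord K v (c t) ∈ frontier K := chord_mem hx
  have hvy : cross v (tang K (chord K v (c t))) ≠ 0 := by
    intro h0
    have h1 := chord_cross_neg hK hx hv hne
    rw [h0, mul_zero] at h1
    exact lt_irrefl _ h1
  have hc' : ∀ᶠ t' in 𝓝[≠] t, c t' ∈ frontier K ∧ cross u0 (c t') = t' :=
    hc.filter_mono nhdsWithin_le_nhds
  have hne' : ∀ᶠ t' in 𝓝[≠] t, t' ≠ t := self_mem_nhdsWithin
  have hcx : ∀ᶠ t' in 𝓝[≠] t, c t' ≠ c t := by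
    filter_upwards [hc', hne'] with t' h1 h2 h3
    apply h2
    rw [← h1.2, h3, hxt.2]
  have hcy : ∀ᶠ t' in 𝓝[≠] t, chord K v (c t') ≠ chord K v (c t) := by
    filter_upwards [hc', hcx] with t' h1 h2 h3
    apply h2
    rw [← chord_chord hK.clo hK.str h1.1 (u := v), h3, chord_chord hK.clo hK.str hx]
  have hlim1 : Tendsto c (𝓝[≠] t) (𝓝[frontier K \ {c t}] (c t)) := by
    apply tendsto_nhdsWithin_of_tendsto_nhds_of_eventually_within
    · exact hcont.tendsto.mono_left nhdsWithin_le_nhds
    · filter_upwards [hc', hcx] with t' h1 h2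
      exact ⟨h1.1, h2⟩
  have hlim1' : Tendsto c (𝓝[≠] t) (𝓝[frontier K] (c t)) :=
    hlim1.mono_right (nhdsWithin_mono _ Set.diff_subset)
  have hlim2 : Tendsto (fun t' => chord K v (c t')) (𝓝[≠] t)
      (𝓝[frontier K \ {chord K v (c t)}] (chord K v (c t))) := by
    apply tendsto_nhdsWithin_of_tendsto_nhds_of_eventually_within
    · exact ((chord_continuousOn hK hv) (c t) hx).tendsto.comp hlim1'
    · filter_upwards [hc', hcy] with t' h1 h2
      exact ⟨chord_mem h1.1, h2⟩
  have q1 := (secant_quot hK hx v u0 hS).comp hlim1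
  have q2 := (secant_quot hK hy u0 v hvy).comp hlim2
  have hlimne : cross v (tang K (c t)) / cross u0 (tang K (c t)) ≠ 0 := div_ne_zero hne hS
  have hev : ∀ᶠ t' in 𝓝[≠] t, cross v (c t' - c t) ≠ 0 := by
    filter_upwards [q1.eventually_ne hlimne] with t' h1 h2
    apply h1
    show cross v (c t' - c t) / cross u0 (c t' - c t) = 0
    rw [h2, zero_div]
  rw [hasDerivAt_iff_tendsto_slope]
  have q3 := q2.mul q1
  have e : cross u0 (tang K (chord K v (c t))) * cross v (tang K (c t)) /
        (cross v (tang K (chord K v (c t))) * cross u0 (tang K (c t))) =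
      cross u0 (tang K (chord K v (c t))) / cross v (tang K (chord K v (c t))) *
        (cross v (tang K (c t)) / cross u0 (tang K (c t))) := by
    rw [div_mul_div_comm]
  rw [e]
  refine q3.congr' ?_
  filter_upwards [hc', hev] with t' h1 h2
  show cross u0 (chord K v (c t') - chord K v (c t)) / cross v (chord K v (c t') - chord K v (c t)) *
    (cross v (c t' - c t) / cross u0 (c t' - c t)) = _
  have h3 : cross v (chord K v (c t') - chord K v (c t)) = cross v (c t' - c t) := by
    rw [cross_sub_right, cross_sub_right, cross_chord, cross_chord]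
  have h4 : cross u0 (c t' - c t) = t' - t := by
    rw [cross_sub_right, h1.2, hxt.2]
  rw [h3, h4, div_mul_div_cancel₀ h2, cross_sub_right, slope_def_field]

end ChordMaps
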