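import Pool.Agent.Helper3.LS.L20
import Pool.Agent.Helper3.LS.L21
import Pool.Agent.Helper3.LS.L22
import Pool.Agent.Helper3.LS.L23

set_option autoImplicit false

/-! # LS-24: the mass of one-sided gaps is invariant

Let `(a1, b1) = (chord K v b, chord K v a)`, an edge of `M` (`edge_chord`).  If `a1 = a` then `b1 = b` (`out_unique`
or `chord_chord`) and the claim is trivial.  Otherwise take the curve `c t = ρ t` (right side) resp.
`c t = chord K u0 (ρ t)` (left side) of LS-20 on the closed interval `I` between `cross u0 a` and `cross u0 b`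
(contained in `(h0, h1)` by the last item of `exists_rho`): `c` is continuous on `(h0, h1)`,
`c (cross u0 a) = a`, `c (cross u0 b) = b` (`rp_inj`, `chord_chord`).  For `t` in the open interval, `x = c t` is in the
cap of `(a, b)` (`cap_iff`), so `y = chord K v x` is in the cap of `(a1, b1)` (`cap_map`), so
`cross u0 (tang K y)` has the sign of `cross u0 (tang K a1)` (`cap_iff`), and `y ≠ x` (`cap_ne`), so
`cross v (tang K x) ≠ 0` (`chord_eq_iff`).  `height_deriv` and `MassFun` give the derivative of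
`t ↦ P (cross u0 (chord K v (c t)))`: its absolute value is `(dist x (chord K u0 x))⁻¹` by `hq` (unfold `gw`), its sign is
`- sign (cross u0 (tang K a) * cross u0 (tang K a1))` (`chord_cross_neg` for `v`), constant. So for
`σ = ±1` suitable `t ↦ P (cross u0 (chord K v (c t))) + σ * P t` is continuous on the closed interval (at the end points
`cross u0 (tang K b1) ≠ 0`, `cross u0 (tang K a1) ≠ 0`, so `P` is differentiable there) with zero derivative inside, hence has
equal values at the end points (`exists_hasDerivAt_eq_slope` or `constant_of_..`), whence the claim.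
-/

namespace ChordMaps

open Topology Filter

variable {K M : Set Plane} {u0 v a b : Plane} {P : ℝ → ℝ}

private lemma l24_inj (hK : SBody K) (hu : u0 ≠ 0) {x y : Plane} (hx : x ∈ frontier K)
    (hy : y ∈ frontier K) (h1 : 0 < cross u0 (tang K x) * cross u0 (tang K y))
    (h : cross u0 x = cross u0 y) : x = y := by
  rcases eq_of_cross_eq hK.clo hK.str hu hx hy h.symm with h3 | h3
  · exact h3.symm
  · exfalso
    have h0 : cross u0 (tang K x) ≠ 0 := by
      intro h0
      rw [h0, zero_mul] at h1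
      exact lt_irrefl _ h1
    have h4 := chord_cross_neg hK hx hu h0
    rw [← h3] at h4
    exact absurd h1 (not_lt.2 h4.le)

/-- the boundary curve over the heights, on the side of `a` -/
private lemma l24_curve (hK : SBody K) (hu : ‖u0‖ = 1) (ha : a ∈ frontier K)
    (ha0 : cross u0 (tang K a) ≠ 0) :
    ∃ (h0 h1 : ℝ) (c : ℝ → Plane), ContinuousOn c (Set.Ioo h0 h1) ∧
      (∀ t ∈ Set.Ioo h0 h1, c t ∈ frontier K ∧ cross u0 (c t) = t ∧
        0 < cross u0 (tang K (c t)) * cross u0 (tang K a)) ∧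
      (∀ x ∈ frontier K, cross u0 (tang K x) ≠ 0 → cross u0 x ∈ Set.Ioo h0 h1) ∧
      ∀ x ∈ frontier K, 0 < cross u0 (tang K x) * cross u0 (tang K a) → c (cross u0 x) = x := by
  have hu0 : u0 ≠ 0 := by
    rintro rfl
    rw [norm_zero] at hu
    exact zero_ne_one hu
  obtain ⟨h0, h1, ρ, -, hρ, hρc, hiff⟩ := exists_rho hK hu
  have key : ∃ c : ℝ → Plane, ContinuousOn c (Set.Ioo h0 h1) ∧
      ∀ t ∈ Set.Ioo h0 h1, c t ∈ frontier K ∧ cross u0 (c t) = t ∧
        0 < cross u0 (tang K (c t)) * cross u0 (tang K a) := by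
    rcases lt_or_gt_of_ne ha0 with hneg | hpos
    · refine ⟨fun t => chord K u0 (ρ t), (chord_continuousOn hK hu0).comp hρc fun t ht =>
        (hρ t ht).1, fun t ht => ?_⟩
      obtain ⟨e1, e2, e3⟩ := hρ t ht
      refine ⟨chord_mem e1, ?_, ?_⟩
      · rw [cross_chord, e3]
      · have h2 := chord_cross_neg hK e1 hu0 e2.ne'
        have h3 : cross u0 (tang K (chord K u0 (ρ t))) < 0 := by
          by_contra h4
          exact absurd h2 (not_lt.2 (mul_nonneg e2.le (not_lt.1 h4)))
        exact mul_pos_of_neg_of_neg h3 hneg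
    · refine ⟨ρ, hρc, fun t ht => ?_⟩
      obtain ⟨e1, e2, e3⟩ := hρ t ht
      exact ⟨e1, e3, mul_pos e2 hpos⟩
  obtain ⟨c, hc, hc'⟩ := key
  refine ⟨h0, h1, c, hc, hc', fun x hx h => (hiff x hx).1 h, fun x hx h => ?_⟩
  have hx0 : cross u0 (tang K x) ≠ 0 := by
    intro h2
    rw [h2, zero_mul] at h
    exact lt_irrefl _ h
  obtain ⟨e1, e2, e3⟩ := hc' _ ((hiff x hx).1 hx0)
  refine l24_inj hK hu0 e1 hx ?_ e2
  have ha2 : 0 < cross u0 (tang K a) ^ 2 := by positivity
  have h5 : 0 < (cross u0 (tang K (c (cross u0 x))) * cross u0 (tang K x)) *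
      cross u0 (tang K a) ^ 2 := by
    have h6 := mul_pos e3 h
    have e : (cross u0 (tang K (c (cross u0 x))) * cross u0 (tang K x)) *
        cross u0 (tang K a) ^ 2 = cross u0 (tang K (c (cross u0 x))) * cross u0 (tang K a) *
          (cross u0 (tang K x) * cross u0 (tang K a)) := by ring
    rw [e]
    exact h6
  exact pos_of_mul_pos_left h5 ha2.le

private lemma l24_NE (h : NE K u0 a b) : cross u0 (tang K a) ≠ 0 ∧
    0 < cross u0 (tang K b) * cross u0 (tang K a) ∧ cross u0 a ≠ cross u0 b := by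
  rcases h with ⟨h1, h2, h3⟩ | ⟨h1, h2, h3⟩
  · exact ⟨h1.ne', mul_pos h2 h1, h3.ne⟩
  · exact ⟨h1.ne, mul_pos_of_neg_of_neg h2 h1, h3.ne'⟩

/-- zero derivative between `α` and `β` -/
private lemma l24_const {f : ℝ → ℝ} {α β h0 h1 : ℝ} (hα : α ∈ Set.Ioo h0 h1)
    (hβ : β ∈ Set.Ioo h0 h1) (hαβ : α ≠ β) (hc : ∀ t ∈ Set.Ioo h0 h1,
      (t = α ∨ t = β ∨ 0 < (t - α) * (β - t)) → ContinuousAt f t)
    (hd : ∀ t ∈ Set.Ioo h0 h1, 0 < (t - α) * (β - t) → HasDerivAt f 0 t) : f α = f β := by
  have key : ∀ l r : ℝ, l ∈ Set.Ioo h0 h1 → r ∈ Set.Ioo h0 h1 → l < r →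
      (∀ t, l < t → t < r → 0 < (t - α) * (β - t)) → (l = α ∨ l = β) → (r = α ∨ r = β) →
      f l = f r := by
    intro l r hl hr hlr hin hl' hr'
    have hmem : ∀ t ∈ Set.Icc l r, t ∈ Set.Ioo h0 h1 := fun t ht =>
      ⟨hl.1.trans_le ht.1, ht.2.trans_lt hr.2⟩
    obtain ⟨x, hx, hx'⟩ := exists_hasDerivAt_eq_slope f (fun _ => 0) hlr (fun t ht => by
      refine (hc t (hmem t ht) ?_).continuousWithinAt
      rcases ht.1.eq_or_lt with h | h
      · rw [← h]
        rcases hl' with h' | h'
        · exact Or.inl h'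
        · exact Or.inr (Or.inl h')
      · rcases ht.2.eq_or_lt with h2 | h2
        · rw [h2]
          rcases hr' with h' | h'
          · exact Or.inl h'
          · exact Or.inr (Or.inl h')
        · exact Or.inr (Or.inr (hin t h h2))) (fun t ht =>
      hd t (hmem t ⟨ht.1.le, ht.2.le⟩) (hin t ht.1 ht.2))
    have h2 : r - l ≠ 0 := (sub_pos.2 hlr).ne'
    have h3 : f r - f l = 0 := by
      have := hx'.symm
      rw [div_eq_zero_iff] at this
      exact this.resolve_right h2
    linarith
  rcases lt_or_gt_of_ne hαβ with h | h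
  · exact key α β hα hβ h (fun t h1 h2 => mul_pos (sub_pos.2 h1) (sub_pos.2 h2))
      (Or.inl rfl) (Or.inr rfl)
  · exact (key β α hβ hα h (fun t h1 h2 =>
      mul_pos_of_neg_of_neg (sub_neg.2 h2) (sub_neg.2 h1)) (Or.inr rfl) (Or.inl rfl)).symm

private lemma l24_alg {A B C D dx dy s : ℝ} (hs : s = 1 ∨ s = -1) (hdx : 0 < dx) (hdy : 0 < dy)
    (hq : |A| / dx * |D| = |B| / dy * |C|) (hA : A ≠ 0) (hD : D ≠ 0)
    (hCD : C * D < 0) (hAB : 0 < s * (A * B)) :
    dy⁻¹ * (B * C / (D * A)) + s * dx⁻¹ = 0 := by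
  have h1 : |A| * |D| * dy = |B| * |C| * dx := by
    field_simp at hq
    linarith
  have h2 : |A * D| * dy = |B * C| * dx := by
    rw [abs_mul, abs_mul]
    exact h1
  have h3 : (A * D) * (B * C) = (A * B) * (C * D) := by ring
  have key : B * C * dx = - s * (A * D * dy) := by
    rcases hs with rfl | rfl
    · have h4 : (A * D) * (B * C) < 0 := by
        rw [h3]
        exact mul_neg_of_pos_of_neg (by linarith) hCD
      rcases lt_trichotomy (A * D) 0 with h5 | h5 | h5
      · have h6 : 0 < B * C := by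
          by_contra h7
          exact absurd h4 (not_lt.2 (mul_nonneg_of_nonpos_of_nonpos h5.le (not_lt.1 h7)))
        rw [abs_of_neg h5, abs_of_pos h6] at h2
        linarith
      · rw [h5, zero_mul] at h4
        exact absurd h4 (lt_irrefl _)
      · have h6 : B * C < 0 := by
          by_contra h7
          exact absurd h4 (not_lt.2 (mul_nonneg h5.le (not_lt.1 h7)))
        rw [abs_of_pos h5, abs_of_neg h6] at h2
        linarith
    · have h4 : 0 < (A * D) * (B * C) := by
        rw [h3]
        exact mul_pos_of_neg_of_neg (by linarith) hCD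
      rcases lt_trichotomy (A * D) 0 with h5 | h5 | h5
      · have h6 : B * C < 0 := by
          by_contra h7
          exact absurd h4 (not_lt.2 (mul_nonpos_of_nonpos_of_nonneg h5.le (not_lt.1 h7)))
        rw [abs_of_neg h5, abs_of_neg h6] at h2
        linarith
      · rw [h5, zero_mul] at h4
        exact absurd h4 (lt_irrefl _)
      · have h6 : 0 < B * C := by
          by_contra h7
          exact absurd h4 (not_lt.2 (mul_nonpos_of_nonneg_of_nonpos h5.le (not_lt.1 h7)))
        rw [abs_of_pos h5, abs_of_pos h6] at h2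
        linarith
  have hAD : D * A ≠ 0 := mul_ne_zero hD hA
  field_simp
  linarith

private lemma l24_dist (hK : SBody K) (hu : u0 ≠ 0) {x : Plane} (hx : x ∈ frontier K)
    (h : cross u0 (tang K x) ≠ 0) : 0 < dist x (chord K u0 x) := by
  rw [dist_pos]
  intro h2
  exact h ((chord_eq_iff hK hx hu).1 h2.symm)

theorem mass_invariant (hK : SBody K) (hu : ‖u0‖ = 1) (hP : MassFun K u0 P)
    (hM : M ⊆ frontier K) (hv : v ≠ 0) (hinv : Inv K M v) (hq : QZero K u0 v)
    (he : Edge M a b) (h1 : NE K u0 a b) (h2 : NE K u0 (chord K v b) (chord K v a)) :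
    |P (cross u0 (chord K v a)) - P (cross u0 (chord K v b))| =
      |P (cross u0 b) - P (cross u0 a)| := by
  have hu0 : u0 ≠ 0 := by
    rintro rfl
    rw [norm_zero] at hu
    exact zero_ne_one hu
  have ha : a ∈ frontier K := hM he.1
  have hb : b ∈ frontier K := hM he.2.1
  by_cases hne : chord K v b = a
  · have h3 : chord K v a = b := by
      rw [← hne]
      exact chord_chord hK.clo hK.str hb
    rw [hne, h3]
  obtain ⟨ha0, hab0, hαβ⟩ := l24_NE h1
  obtain ⟨ha10, hab10, hαβ1⟩ := l24_NE h2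
  obtain ⟨h0, h1', c, hcc, hc, hin, hcx⟩ := l24_curve hK hu ha ha0
  have ha1f : chord K v b ∈ frontier K := chord_mem hb
  have hb1f : chord K v a ∈ frontier K := chord_mem ha
  have hb0 : cross u0 (tang K b) ≠ 0 := by
    intro h
    rw [h, zero_mul] at hab0
    exact lt_irrefl _ hab0
  have hb10 : cross u0 (tang K (chord K v a)) ≠ 0 := by
    intro h
    rw [h, zero_mul] at hab10
    exact lt_irrefl _ hab10
  have hα := hin a ha ha0
  have hβ := hin b hb hb0
  have hca : c (cross u0 a) = a := hcx a ha (by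
    have : 0 < cross u0 (tang K a) ^ 2 := by positivity
    nlinarith)
  have hcb : c (cross u0 b) = b := hcx b hb hab0
  -- the sign
  obtain ⟨s, hs, hs'⟩ : ∃ s : ℝ, (s = 1 ∨ s = -1) ∧
      0 < s * (cross u0 (tang K a) * cross u0 (tang K (chord K v b))) := by
    rcases lt_or_gt_of_ne (mul_ne_zero ha0 ha10) with h | h
    · exact ⟨-1, Or.inr rfl, by linarith⟩
    · exact ⟨1, Or.inl rfl, by linarith⟩
  -- points strictly between
  have hpt : ∀ t ∈ Set.Ioo h0 h1', 0 < (t - cross u0 a) * (cross u0 b - t) →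
      chord K v (c t) ≠ c t ∧
        0 < cross u0 (tang K (chord K v (c t))) * cross u0 (tang K (chord K v b)) := by
    intro t ht htt
    obtain ⟨e1, e2, e3⟩ := hc t ht
    have hcap : cross (b - a) (c t - a) < 0 :=
      (cap_iff hK hu ha hb e1 h1).2 ⟨e3, by rw [e2]; exact htt⟩
    refine ⟨cap_ne hK hM hv hinv he hne e1 hcap, ?_⟩
    have h5 := cap_map hK hM hv hinv he hne e1 hcap
    exact ((cap_iff hK hu ha1f hb1f (chord_mem e1) h2).1 h5).1
  have hcAt : ∀ t ∈ Set.Ioo h0 h1', ContinuousAt c t := fun t ht =>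
    hcc.continuousAt (isOpen_Ioo.mem_nhds ht)
  have hyAt : ∀ t ∈ Set.Ioo h0 h1', ContinuousAt (fun t' => cross u0 (chord K v (c t'))) t := by
    intro t ht
    have h5 : ContinuousOn (fun t' => chord K v (c t')) (Set.Ioo h0 h1') :=
      (chord_continuousOn hK hv).comp hcc fun t' ht' => (hc t' ht').1
    exact (continuous_cross_right u0).continuousAt.comp (h5.continuousAt (isOpen_Ioo.mem_nhds ht))
  have hPc : ∀ x ∈ frontier K, cross u0 (tang K x) ≠ 0 → ContinuousAt P (cross u0 x) :=
    fun x hx h => (hP x hx h).continuousAt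
  have hmain := l24_const (f := fun t => P (cross u0 (chord K v (c t))) + s * P t) hα hβ hαβ
    (by
      intro t ht htt
      have hy0 : cross u0 (tang K (chord K v (c t))) ≠ 0 := by
        rcases htt with h | h | h
        · rw [h, hca]
          exact hb10
        · rw [h, hcb]
          exact ha10
        · intro h5
          have h6 := (hpt t ht h).2
          rw [h5, zero_mul] at h6
          exact lt_irrefl _ h6
      obtain ⟨e1, e2, e3⟩ := hc t ht
      have hx0 : cross u0 (tang K (c t)) ≠ 0 := by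
        intro h5
        rw [h5, zero_mul] at e3
        exact lt_irrefl _ e3
      have hPt : ContinuousAt P t := by
        have := hPc (c t) e1 hx0
        rwa [e2] at this
      exact (ContinuousAt.comp (f := fun t' => cross u0 (chord K v (c t')))
        (hPc _ (chord_mem e1) hy0) (hyAt t ht)).add (hPt.const_mul s))
    (by
      intro t ht htt
      obtain ⟨e1, e2, e3⟩ := hc t ht
      obtain ⟨hne2, hpos⟩ := hpt t ht htt
      have hx0 : cross u0 (tang K (c t)) ≠ 0 := by
        intro h5
        rw [h5, zero_mul] at e3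
        exact lt_irrefl _ e3
      have hy0 : cross u0 (tang K (chord K v (c t))) ≠ 0 := by
        intro h5
        rw [h5, zero_mul] at hpos
        exact lt_irrefl _ hpos
      have hvx : cross v (tang K (c t)) ≠ 0 := fun h => hne2 ((chord_eq_iff hK e1 hv).2 h)
      have hCD := chord_cross_neg hK e1 hv hvx
      have hvy : cross v (tang K (chord K v (c t))) ≠ 0 := by
        intro h5
        rw [h5, mul_zero] at hCD
        exact lt_irrefl _ hCD
      have hd1 := height_deriv hK hu hv (hcAt t ht) (by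
        filter_upwards [isOpen_Ioo.mem_nhds ht] with t' ht'
        exact ⟨(hc t' ht').1, (hc t' ht').2.1⟩) hx0 hvx
      have hd2 := hP _ (chord_mem (u := v) e1) hy0
      have hd3 := hP _ e1 hx0
      rw [e2] at hd3
      have hd4 := (HasDerivAt.comp (h := fun t' => cross u0 (chord K v (c t'))) t hd2 hd1).add
        (hd3.const_mul s)
      have h6 := hq (c t) e1 hx0 hy0
      unfold gw at h6
      have hAB : 0 < s * (cross u0 (tang K (c t)) * cross u0 (tang K (chord K v (c t)))) := by
        have h7 := mul_pos hs' (mul_pos e3 hpos)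
        have h8 : 0 < cross u0 (tang K a) ^ 2 * cross u0 (tang K (chord K v b)) ^ 2 := by
          positivity
        have h9 : 0 < s * (cross u0 (tang K (c t)) * cross u0 (tang K (chord K v (c t)))) *
            (cross u0 (tang K a) ^ 2 * cross u0 (tang K (chord K v b)) ^ 2) := by
          refine lt_of_lt_of_eq h7 ?_
          ring
        exact pos_of_mul_pos_left h9 h8.le
      have h10 := l24_alg hs (l24_dist hK hu0 e1 hx0) (l24_dist hK hu0 (chord_mem e1) hy0) h6 hx0
        hvy hCD hAB
      rw [h10] at hd4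
      exact hd4)
  simp only [hca, hcb] at hmain
  have h11 : P (cross u0 (chord K v a)) - P (cross u0 (chord K v b)) =
      s * (P (cross u0 b) - P (cross u0 a)) := by linarith
  rw [h11, abs_mul]
  rcases hs with rfl | rfl
  · rw [abs_one, one_mul]
  · rw [abs_neg, abs_one, one_mul]

/-- one-sided edges have positive mass -/
theorem mass_pos (hK : SBody K) (hu : ‖u0‖ = 1) (hP : MassFun K u0 P) (ha : a ∈ frontier K)
    (hb : b ∈ frontier K) (h1 : NE K u0 a b) : 0 < |P (cross u0 b) - P (cross u0 a)| := by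
  have hu0 : u0 ≠ 0 := by
    rintro rfl
    rw [norm_zero] at hu
    exact zero_ne_one hu
  obtain ⟨ha0, hab0, hαβ⟩ := l24_NE h1
  obtain ⟨h0, h1', c, hcc, hc, hin, hcx⟩ := l24_curve hK hu ha ha0
  have hb0 : cross u0 (tang K b) ≠ 0 := by
    intro h
    rw [h, zero_mul] at hab0
    exact lt_irrefl _ hab0
  have hα := hin a ha ha0
  have hβ := hin b hb hb0
  have hd : ∀ t ∈ Set.Ioo h0 h1', HasDerivAt P (dist (c t) (chord K u0 (c t)))⁻¹ t ∧
      0 < (dist (c t) (chord K u0 (c t)))⁻¹ := by
    intro t ht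
    obtain ⟨e1, e2, e3⟩ := hc t ht
    have hx0 : cross u0 (tang K (c t)) ≠ 0 := by
      intro h5
      rw [h5, zero_mul] at e3
      exact lt_irrefl _ e3
    have := hP _ e1 hx0
    rw [e2] at this
    exact ⟨this, inv_pos.2 (l24_dist hK hu0 e1 hx0)⟩
  have key : ∀ l r : ℝ, l ∈ Set.Ioo h0 h1' → r ∈ Set.Ioo h0 h1' → l < r → P l ≠ P r := by
    intro l r hl hr hlr heq
    have hmem : ∀ t ∈ Set.Icc l r, t ∈ Set.Ioo h0 h1' := fun t ht =>
      ⟨hl.1.trans_le ht.1, ht.2.trans_lt hr.2⟩
    obtain ⟨x, hx, hx'⟩ := exists_hasDerivAt_eq_slope P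
      (fun t => (dist (c t) (chord K u0 (c t)))⁻¹) hlr
      (fun t ht => (hd t (hmem t ht)).1.continuousAt.continuousWithinAt)
      (fun t ht => (hd t (hmem t ⟨ht.1.le, ht.2.le⟩)).1)
    have h3 := (hd x (hmem x ⟨hx.1.le, hx.2.le⟩)).2
    have hx2 : (dist (c x) (chord K u0 (c x)))⁻¹ = (P r - P l) / (r - l) := hx'
    rw [hx2, heq, sub_self, zero_div] at h3
    exact lt_irrefl _ h3
  rw [abs_pos, sub_ne_zero]
  rcases lt_or_gt_of_ne hαβ with h | h
  · exact (key _ _ hα hβ h).symm
  · exact key _ _ hβ hα h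

end ChordMaps
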