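import Pool.Agent.Helper3.LS.Defs2
import Pool.Agent.Helper3.LS.L03
import Pool.Agent.Helper3.LS.L05
import Pool.Agent.Helper3.LS.L18

set_option autoImplicit false

/-! # LS-25: only finitely many gaps are not one-sided

* `tangency_finite`: if `cross u0 (tang K x) = 0` then `tang K x = u0` or `-u0` (unit vectors); two different points
  with the same tangent vector contradict `tang_pos`. So there are at most two such points.
* `exc_finite`: suppose infinite; choose an injective sequence of edges `(a n, b n)`, not `NE`.  By
  `finite_long_gaps` `dist (a n) (b n) → 0`; pass to a subsequence `a n → x`, `b n → x`.  Fatness: by `fat_const` for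
  `v, v'`, `∃ η0, ∀ a ∈ M, ∃ c ∈ M, η0 ≤ dist a c`, so `edge_secant`:
  `‖(b n - a n) - dist • tang K (a n)‖ ≤ θ dist`, for large `n`.
  If `cross u0 (tang K x) > 0` (or `< 0`), then for large `n` `cross u0 (tang K (a n))`, `cross u0 (tang K (b n))` have the
  same sign (`tang_continuousOn`) and `cross u0 (b n - a n)` too, so `NE`, contradiction.
  If `cross u0 (tang K x) = 0`, then `cross v (tang K x) ≠ 0` (`cross u0 v ≠ 0`); replacing `v` by `-v` assume it is
  `> 0` (`chord_neg`, Flow.lean), so `cross v (a n) < cross v (b n)` for large `n`. Sign of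
  `cross u0 (tang K y)` for `y ∈ frontier K` near `x`: let `T = tang K x = ς u0`, `ς = ± 1`, `y ≠ x`:
  `0 < cross (tang K y) (x - y)` and `0 < cross T (y - x)` (`tang_pos`), and `y - x` is almost parallel to `T`; if
  `cross v y > cross v x` then `y - x ≈ + dist • T` (`secant_limit`), and then `cross T (tang K y) > 0`
  (write `y - x = p • T + q • rot T` with `p, q > 0`, `tang K y = r • T + m • rot T`, `r > 0` near `x`;
  `0 < cross (tang K y) (x - y) = m p - r q` gives `m > 0`); if `cross v y < cross v x` then
  `cross T (tang K y) < 0`. So if `cross v x < cross v (a n)`, both `a n, b n` have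
  `ς cross u0 (tang K ·) > 0` and `ς cross u0 (b n - a n) > 0`: `NE`, contradiction; same if `cross v (b n) < cross v x`.
  So `cross v (a n) ≤ cross v x ≤ cross v (b n)` for large `n`.  For two different such `n` with strict inequalities
  `edge_left_unique` (Flow.lean, `u = v`, `t = cross v x`) gives `a n = a m`, contradiction;
  equality `cross v (a n) = cross v x` means `a n = x` (near `x`; `eq_of_cross_eq`, `chord K v x ≠ x`), at most one `n`;
  `b n = x` for at most one `n` (`Edge.in_unique`).
-/

namespace ChordMaps

open Topology Filter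

variable {K M : Set Plane} {u0 v v' : Plane}

private lemma l25_cross_smul_add {v w T : Plane} {d θ c : ℝ} (hd : 0 < d)
    (h : ‖w - d • T‖ ≤ θ * d) (hc : c ≤ cross v T) (hθ : ‖v‖ * θ < c) : 0 < cross v w := by
  have h1 : cross v w = cross v (w - d • T) + d * cross v T := by
    rw [cross_sub_right, cross_smul_right]; ring
  have h2 : |cross v (w - d • T)| ≤ ‖v‖ * (θ * d) :=
    (abs_cross_le _ _).trans (mul_le_mul_of_nonneg_left h (norm_nonneg _))
  have h3 := (abs_le.1 h2).1
  have h4 : d * c ≤ d * cross v T := mul_le_mul_of_nonneg_left hc hd.le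
  have h5 : 0 < d * (c - ‖v‖ * θ) := mul_pos hd (by linarith)
  rw [h1]
  nlinarith

/-- a Cramer identity in the plane -/
private lemma l25_cramer (v T S w : Plane) :
    cross T S * cross v w + cross S w * cross v T = cross T w * cross v S := by
  unfold cross
  ring

private lemma l25_tang_inj (hK : SBody K) :
    Set.InjOn (tang K) (frontier K) := by
  intro x hx y hy hxy
  by_contra hne
  have h1 := tang_pos hK hx (hK.clo.frontier_subset hy) (Ne.symm hne)
  have h2 := tang_pos hK hy (hK.clo.frontier_subset hx) hne
  rw [hxy] at h1
  have h3 : cross (tang K y) (y - x) = - cross (tang K y) (x - y) := by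
    unfold cross
    simp only [PiLp.sub_apply]
    ring
  linarith

private lemma l25_tang_eq (hK : SBody K) (hu : ‖u0‖ = 1) {x : Plane} (hx : x ∈ frontier K)
    (h : cross u0 (tang K x) = 0) : tang K x = u0 ∨ tang K x = -u0 := by
  have hu0 : u0 ≠ 0 := by
    rintro rfl
    rw [norm_zero] at hu
    exact zero_ne_one hu
  obtain ⟨t, ht⟩ := exists_smul_of_cross_eq_zero hu0 h
  have h1 := (tang_spec hK hx).1
  rw [ht, norm_smul, hu, mul_one, Real.norm_eq_abs] at h1
  rcases (abs_eq zero_le_one).1 h1 with h2 | h2
  · left; rw [ht, h2, one_smul]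
  · right; rw [ht, h2, neg_smul, one_smul]

theorem tangency_finite (hK : SBody K) (hu : ‖u0‖ = 1) :
    {x | x ∈ frontier K ∧ cross u0 (tang K x) = 0}.Finite := by
  refine Set.Finite.of_finite_image (f := tang K) ?_
    ((l25_tang_inj hK).mono fun x hx => hx.1)
  refine (Set.toFinite ({u0, -u0} : Set Plane)).subset ?_
  rintro _ ⟨x, hx, rfl⟩
  rcases l25_tang_eq hK hu hx.1 hx.2 with h | h
  · left; exact h
  · right; exact h

/-- near a point where the height has nonzero derivative all short edges are one-sided -/
private lemma l25_local1 (hK : SBody K) (hu : ‖u0‖ = 1) (hM : M ⊆ frontier K)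
    {η0 : ℝ} (hη0 : 0 < η0) (hfat : ∀ a ∈ M, ∃ c ∈ M, η0 ≤ dist a c)
    {p : Plane} (hp : p ∈ frontier K) (hne : cross u0 (tang K p) ≠ 0) :
    ∃ r > 0, ∀ a b, Edge M a b → dist a p < r → dist a b < r → NE K u0 a b := by
  set c := |cross u0 (tang K p)| with hcdef
  have hc : 0 < c := abs_pos.2 hne
  obtain ⟨δ1, hδ1, hsec⟩ := edge_secant hK hη0 (show (0 : ℝ) < c / 4 by linarith)
  have hcont : ContinuousOn (fun y => cross u0 (tang K y)) (frontier K) :=
    (continuous_cross_right u0).comp_continuousOn (tang_continuousOn hK)
  obtain ⟨δ2, hδ2, hclose⟩ := Metric.continuousOn_iff.1 hcont p hp (c / 2) (by linarith)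
  refine ⟨min δ1 (δ2 / 2), lt_min hδ1 (by linarith), fun a b hab hap hd => ?_⟩
  have ha := hM hab.1
  have hb := hM hab.2.1
  have hap2 : dist a p < δ2 / 2 := hap.trans_le (min_le_right _ _)
  have hbp : dist b p < δ2 := by
    have h1 : dist b p ≤ dist b a + dist a p := dist_triangle _ _ _
    have h2 : dist b a < δ2 / 2 := by
      rw [dist_comm]; exact hd.trans_le (min_le_right _ _)
    linarith
  have h1 := hclose a ha (by linarith)
  have h2 := hclose b hb hbp
  rw [Real.dist_eq] at h1 h2
  have h3 := abs_lt.1 h1
  have h4 := abs_lt.1 h2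
  have hs := hsec M hM hfat a b hab (hd.trans_le (min_le_left _ _))
  have hdpos : 0 < dist a b := dist_pos.2 hab.2.2.1
  rcases lt_or_gt_of_ne hne with hneg | hpos
  · have hc2 : c = - cross u0 (tang K p) := abs_of_neg hneg
    right
    have hlt : 0 < cross (-u0) (b - a) := by
      refine l25_cross_smul_add (c := c / 2) hdpos hs ?_ ?_
      · rw [cross_neg_left]; linarith
      · rw [norm_neg, hu]; linarith
    rw [cross_neg_left, cross_sub_right] at hlt
    exact ⟨by linarith, by linarith, by linarith⟩
  · have hc2 : c = cross u0 (tang K p) := abs_of_pos hpos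
    left
    have hlt : 0 < cross u0 (b - a) := by
      refine l25_cross_smul_add (c := c / 2) hdpos hs ?_ ?_
      · linarith
      · rw [hu]; linarith
    rw [cross_sub_right] at hlt
    exact ⟨by linarith, by linarith, by linarith⟩

/-- the sign of `cross T (tang K y)` near a point with tangent `T` -/
private lemma l25_sign (hK : SBody K) {p y : Plane} (hp : p ∈ frontier K) (hy : y ∈ frontier K)
    (hne : y ≠ p) (hvT : 0 < cross v (tang K p)) (hvy : 0 < cross v (tang K y)) :
    0 < cross (tang K p) (tang K y) * (cross v y - cross v p) := by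
  have h1 := tang_pos hK hp (hK.clo.frontier_subset hy) hne
  have h2 := tang_pos hK hy (hK.clo.frontier_subset hp) (Ne.symm hne)
  have h3 := l25_cramer v (tang K p) (tang K y) (y - p)
  have h4 : cross (tang K y) (y - p) = - cross (tang K y) (p - y) := by
    unfold cross
    simp only [PiLp.sub_apply]
    ring
  have h5 : cross v (y - p) = cross v y - cross v p := cross_sub_right _ _ _
  rw [h5, h4] at h3
  have h6 := mul_pos h1 hvy
  have h7 := mul_pos h2 hvT
  nlinarith

private lemma l25_local2 (hK : SBody K) (hu : ‖u0‖ = 1) (hM : M ⊆ frontier K)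
    {η0 : ℝ} (hη0 : 0 < η0) (hfat : ∀ a ∈ M, ∃ c ∈ M, η0 ≤ dist a c)
    {p : Plane} (hp : p ∈ frontier K) (hz : cross u0 (tang K p) = 0)
    (hv : 0 < cross v (tang K p)) (h1 : Inv K M v) :
    ∃ r > 0, {a | ∃ b, Edge M a b ∧ dist a p < r ∧ dist a b < r ∧ ¬ NE K u0 a b}.Finite := by
  have hv0 : v ≠ 0 := by
    rintro rfl
    simp [cross] at hv
  set T := tang K p with hT
  set c := cross v T with hcdef
  have hvn : 0 < ‖v‖ := norm_pos_iff.2 hv0
  obtain ⟨δ1, hδ1, hsec⟩ := edge_secant hK hη0 (show (0 : ℝ) < c / (4 * ‖v‖) by positivity)
  have hcont : ContinuousOn (fun y => cross v (tang K y)) (frontier K) :=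
    (continuous_cross_right v).comp_continuousOn (tang_continuousOn hK)
  obtain ⟨δ2, hδ2, hclose⟩ := Metric.continuousOn_iff.1 hcont p hp (c / 2) (by linarith)
  refine ⟨min δ1 (δ2 / 2), lt_min hδ1 (by linarith), ?_⟩
  have hsub : {a | ∃ b, Edge M a b ∧ dist a p < min δ1 (δ2 / 2) ∧ dist a b < min δ1 (δ2 / 2) ∧
      ¬ NE K u0 a b} ⊆ {p} ∪ ({a | Edge M a p} ∪
        {a | ∃ b, Edge M a b ∧ cross v a < cross v p ∧ cross v p < cross v b}) := by
    rintro a ⟨b, hab, hap, hd, hNE⟩
    by_cases hapne : a = p
    · left; exact hapne
    right
    by_cases hbpne : b = p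
    · left
      rw [← hbpne]
      exact hab
    right
    refine ⟨b, hab, ?_⟩
    have ha := hM hab.1
    have hb := hM hab.2.1
    have hap2 : dist a p < δ2 / 2 := hap.trans_le (min_le_right _ _)
    have hbp : dist b p < δ2 := by
      have h1 : dist b p ≤ dist b a + dist a p := dist_triangle _ _ _
      have h2 : dist b a < δ2 / 2 := by
        rw [dist_comm]; exact hd.trans_le (min_le_right _ _)
      linarith
    have g1 := hclose a ha (by linarith)
    have g2 := hclose b hb hbp
    rw [Real.dist_eq] at g1 g2
    have g3 := abs_lt.1 g1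
    have g4 := abs_lt.1 g2
    have hva : c / 2 < cross v (tang K a) := by
      have : cross v (tang K p) = c := rfl
      linarith [g3.1]
    have hvb : c / 2 < cross v (tang K b) := by
      have : cross v (tang K p) = c := rfl
      linarith [g4.1]
    have hs := hsec M hM hfat a b hab (hd.trans_le (min_le_left _ _))
    have hdpos : 0 < dist a b := dist_pos.2 hab.2.2.1
    have hlt : 0 < cross v (b - a) := by
      refine l25_cross_smul_add (c := c / 2) hdpos hs hva.le ?_
      have : ‖v‖ * (c / (4 * ‖v‖)) = c / 4 := by field_simp
      rw [this]; linarith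
    have hva0 : 0 < cross v (tang K a) := by linarith
    have hvb0 : 0 < cross v (tang K b) := by linarith
    have hab' : cross v a < cross v b := by
      rw [cross_sub_right] at hlt; linarith
    have sa := l25_sign hK hp ha hapne hv hva0
    have sb := l25_sign hK hp hb hbpne hv hvb0
    have ta := tang_pos hK ha (hK.clo.frontier_subset hb) hab.2.2.1.symm
    have tb := tang_pos hK hb (hK.clo.frontier_subset ha) hab.2.2.1
    have tb' : cross (tang K b) (b - a) = - cross (tang K b) (a - b) := by
      unfold cross
      simp only [PiLp.sub_apply]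
      ring
    have ka := l25_cramer v T (tang K a) (b - a)
    have kb := l25_cramer v T (tang K b) (b - a)
    rcases l25_tang_eq hK hu hp hz with hTu | hTu
    · -- `T = u0`
      have hTu' : T = u0 := hTu
      constructor
      · by_contra hcon
        push Not at hcon
        apply hNE
        left
        have hb1 : 0 < cross T (tang K b) := by
          by_contra hh
          push Not at hh
          have : 0 < cross v b - cross v p := by linarith
          nlinarith
        have ha1 : 0 < cross T (tang K a) := by
          by_contra hh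
          push Not at hh
          have : 0 ≤ cross v a - cross v p := by linarith
          nlinarith
        have hw : 0 < cross T (b - a) := by
          by_contra hh
          push Not at hh
          have e1 := mul_pos ha1 hlt
          have e2 := mul_pos ta hv
          nlinarith
        rw [hTu', cross_sub_right] at hw
        rw [hTu'] at ha1 hb1
        exact ⟨ha1, hb1, by linarith⟩
      · by_contra hcon
        push Not at hcon
        apply hNE
        right
        have hb1 : cross T (tang K b) < 0 := by
          by_contra hh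
          push Not at hh
          have : cross v b - cross v p ≤ 0 := by linarith
          nlinarith
        have ha1 : cross T (tang K a) < 0 := by
          by_contra hh
          push Not at hh
          have : cross v a - cross v p < 0 := by linarith
          nlinarith
        have hw : cross T (b - a) < 0 := by
          by_contra hh
          push Not at hh
          have e1 := mul_pos (neg_pos.2 hb1) hlt
          have e2 := mul_pos tb hv
          have e3 := mul_nonneg hh hvb0.le
          rw [tb'] at kb
          nlinarith
        rw [hTu', cross_sub_right] at hw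
        rw [hTu'] at ha1 hb1
        exact ⟨ha1, hb1, by linarith⟩
    · -- `T = -u0`
      have hTu' : T = -u0 := hTu
      constructor
      · by_contra hcon
        push Not at hcon
        apply hNE
        right
        have hb1 : 0 < cross T (tang K b) := by
          by_contra hh
          push Not at hh
          have : 0 < cross v b - cross v p := by linarith
          nlinarith
        have ha1 : 0 < cross T (tang K a) := by
          by_contra hh
          push Not at hh
          have : 0 ≤ cross v a - cross v p := by linarith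
          nlinarith
        have hw : 0 < cross T (b - a) := by
          by_contra hh
          push Not at hh
          have e1 := mul_pos ha1 hlt
          have e2 := mul_pos ta hv
          nlinarith
        rw [hTu', cross_neg_left, cross_sub_right] at hw
        rw [hTu', cross_neg_left] at ha1 hb1
        exact ⟨by linarith, by linarith, by linarith⟩
      · by_contra hcon
        push Not at hcon
        apply hNE
        left
        have hb1 : cross T (tang K b) < 0 := by
          by_contra hh
          push Not at hh
          have : cross v b - cross v p ≤ 0 := by linarith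
          nlinarith
        have ha1 : cross T (tang K a) < 0 := by
          by_contra hh
          push Not at hh
          have : cross v a - cross v p < 0 := by linarith
          nlinarith
        have hw : cross T (b - a) < 0 := by
          by_contra hh
          push Not at hh
          have e1 := mul_pos (neg_pos.2 hb1) hlt
          have e2 := mul_pos tb hv
          have e3 := mul_nonneg hh hvb0.le
          rw [tb'] at kb
          nlinarith
        rw [hTu', cross_neg_left, cross_sub_right] at hw
        rw [hTu', cross_neg_left] at ha1 hb1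
        exact ⟨by linarith, by linarith, by linarith⟩
  refine Set.Finite.subset ?_ hsub
  refine (Set.finite_singleton p).union (Set.Finite.union ?_ ?_)
  · refine Set.Subsingleton.finite fun a ha a' ha' => ?_
    exact Edge.in_unique hK.clo hK.str hM ha ha'
  · refine Set.Subsingleton.finite ?_
    rintro a ⟨b, hab, g1, g2⟩ a' ⟨b', hab', g1', g2'⟩
    exact edge_left_unique hK.cpt hK.cvx hK.str hM hv0 h1 hab hab' g1 g2 g1' g2'

theorem exc_finite (hK : SBody K) (hu : ‖u0‖ = 1) (hM : M ⊆ frontier K)
    (hvv : cross v v' ≠ 0) (huv : cross u0 v ≠ 0) (h1 : Inv K M v) (h2 : Inv K M v') :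
    {a | ∃ b, Edge M a b ∧ ¬ NE K u0 a b}.Finite := by
  obtain ⟨η0, hη0, δ, hδ, hf⟩ := fat_const hK hvv
  have hfat : ∀ a ∈ M, ∃ c ∈ M, η0 ≤ dist a c := by
    intro a ha
    rcases hf v v' (by rw [dist_self]; exact hδ) (by rw [dist_self]; exact hδ) a (hM ha) with h | h
    · exact ⟨_, h1 a ha, h⟩
    · exact ⟨_, h2 a ha, h⟩
  have hcpt : IsCompact (frontier K) :=
    hK.cpt.of_isClosed_subset isClosed_frontier hK.clo.frontier_subset
  have hmain : ∃ ρ > 0, {a | a ∈ frontier K ∧ ∃ b, Edge M a b ∧ dist a b < ρ ∧
      ¬ NE K u0 a b}.Finite := by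
    refine hcpt.induction_on (p := fun s => ∃ ρ > 0, {a | a ∈ s ∧ ∃ b, Edge M a b ∧
      dist a b < ρ ∧ ¬ NE K u0 a b}.Finite) ?_ ?_ ?_ ?_
    · refine ⟨1, one_pos, ?_⟩
      simp
    · rintro s t hst ⟨ρ, hρ, hfin⟩
      exact ⟨ρ, hρ, hfin.subset fun a ha => ⟨hst ha.1, ha.2⟩⟩
    · rintro s t ⟨ρ, hρ, hfin⟩ ⟨ρ', hρ', hfin'⟩
      refine ⟨min ρ ρ', lt_min hρ hρ', (hfin.union hfin').subset ?_⟩
      rintro a ⟨ha, b, hab, hd, hne⟩
      rcases ha with ha | ha
      · exact Or.inl ⟨ha, b, hab, hd.trans_le (min_le_left _ _), hne⟩
      · exact Or.inr ⟨ha, b, hab, hd.trans_le (min_le_right _ _), hne⟩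
    · intro p hp
      by_cases hz : cross u0 (tang K p) = 0
      · have hvp : cross v (tang K p) ≠ 0 := by
          rcases l25_tang_eq hK hu hp hz with h | h
          · rw [h, cross_comm]; simpa using huv
          · rw [h, cross_neg_right, cross_comm]; simpa using huv
        have key : ∃ r > 0, {a | ∃ b, Edge M a b ∧ dist a p < r ∧ dist a b < r ∧
            ¬ NE K u0 a b}.Finite := by
          rcases lt_or_gt_of_ne hvp with hneg | hpos
          · refine l25_local2 (v := -v) hK hu hM hη0 hfat hp hz ?_ ?_
            · rw [cross_neg_left]; linarith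
            · intro x hx
              rw [chord_neg hK.clo hK.str (hM hx)]
              exact h1 x hx
          · exact l25_local2 hK hu hM hη0 hfat hp hz hpos h1
        obtain ⟨r, hr, hfin⟩ := key
        refine ⟨Metric.ball p r, mem_nhdsWithin_of_mem_nhds (Metric.ball_mem_nhds p hr), r, hr,
          hfin.subset ?_⟩
        rintro a ⟨ha, b, hab, hd, hne⟩
        exact ⟨b, hab, Metric.mem_ball.1 ha, hd, hne⟩
      · obtain ⟨r, hr, hNE⟩ := l25_local1 hK hu hM hη0 hfat hp hz
        refine ⟨Metric.ball p r, mem_nhdsWithin_of_mem_nhds (Metric.ball_mem_nhds p hr), r, hr,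
          ?_⟩
        refine Set.finite_empty.subset ?_
        rintro a ⟨ha, b, hab, hd, hne⟩
        exact hne (hNE a b hab (Metric.mem_ball.1 ha) hd)
  obtain ⟨ρ, hρ, hfin⟩ := hmain
  refine (hfin.union (finite_long_gaps hK hM hvv h1 h2 hρ)).subset ?_
  rintro a ⟨b, hab, hne⟩
  rcases lt_or_ge (dist a b) ρ with hd | hd
  · exact Or.inl ⟨hM hab.1, b, hab, hd, hne⟩
  · exact Or.inr ⟨b, hab, hd⟩

end ChordMaps
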