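import Pool.Agent.Helper3.LS.L24
import Pool.Agent.Helper3.LS.L25

set_option autoImplicit false

/-! # LS-26: the case of a common invariant measure

Suppose `M ≠ frontier K`.  `M` has two points (else it is a finite nonempty invariant set).  `exists_edge`
(Flow.lean) gives an edge `(a0, b0)`.  Let `O : Plane → Plane → Prop` be the orbit relation: inductive,
`O a0 b0`, and `O a b → O (chord K v b) (chord K v a)` for `v ∈ S`; all are edges (`edge_chord`).  The set
`A = {a | ∃ b, O a b} ∪ {b | ∃ a, O a b}` is invariant, so infinite by `hfin`; since `b` is determined by `a`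
(`Edge.out_unique`), `A1 = {a | ∃ b, O a b}` is infinite.
`P` from `exists_massFun`, `m a b = |P (cross u0 b) - P (cross u0 a)|`.  The set
`Vals = {m a0 b0} ∪ {m (chord K v b) (chord K v a) | v ∈ S, Edge M a b, ¬ NE a b}` is finite (`exc_finite`, applied with the `v, v'` of `h2`).  By induction
along `O`: if `O a b` and `NE a b` then `m a b ∈ Vals` (if the predecessor is `NE` use `mass_invariant`).
So there is `μ > 0` with `μ ≤ m a b` for all `O a b` with `NE a b` (`mass_pos`).
Let `Acc = {x ∈ frontier K | ∀ η > 0, {a ∈ A1 | dist a x < η} infinite}`; it is nonempty (compactness).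
If `x ∈ Acc` then `cross u0 (tang K x) = 0`: otherwise take distinct `a n → x` with `O (a n) (b n)`; by
`finite_long_gaps` `b n → x`, by `exc_finite` eventually `NE`, and `m (a n) (b n) → 0` by continuity of `P` at
`cross u0 x` (`MassFun` gives differentiability), contradiction.  So `Acc` is finite (`tangency_finite`).
`Acc` is invariant: if `a n → x` distinct, then `b n → x`, `chord K v (b n) → chord K v x` (`chord_continuousOn`), distinct
(`Edge.in_unique`, injectivity of `chord K v`).  This contradicts `hfin`.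
-/

namespace ChordMaps

open Topology Filter

variable {K : Set Plane} {u0 : Plane}

/-- the orbit of an edge -/
inductive L26Orb (K : Set Plane) (S : Finset Plane) (a0 b0 : Plane) : Plane → Plane → Prop
  | base : L26Orb K S a0 b0 a0 b0
  | step {a b v : Plane} : v ∈ S → L26Orb K S a0 b0 a b →
      L26Orb K S a0 b0 (chord K v b) (chord K v a)

private lemma l26_min {s : Set ℝ} (hs : s.Finite) : ∃ μ > 0, ∀ r ∈ s, 0 < r → μ ≤ r := by
  induction s, hs using Set.Finite.induction_on with
  | empty => exact ⟨1, one_pos, fun r hr => absurd hr (Set.notMem_empty r)⟩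
  | @insert x s _ _ ih =>
    obtain ⟨μ, hμ, h⟩ := ih
    by_cases hx : 0 < x
    · refine ⟨min x μ, lt_min hx hμ, fun r hr hr0 => ?_⟩
      rcases Set.mem_insert_iff.1 hr with h1 | h1
      · rw [h1]
        exact min_le_left _ _
      · exact (min_le_right _ _).trans (h r h1 hr0)
    · refine ⟨μ, hμ, fun r hr hr0 => ?_⟩
      rcases Set.mem_insert_iff.1 hr with h1 | h1
      · rw [h1] at hr0
        exact absurd hr0 hx
      · exact h r h1 hr0

private lemma l26_ev {a : ℕ → Plane} (ha : Function.Injective a) {F : Set Plane}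
    (hF : F.Finite) : ∀ᶠ n in atTop, a n ∉ F := by
  have h1 := ha.tendsto_cofinite.eventually hF.eventually_cofinite_notMem
  rwa [Nat.cofinite_eq_atTop] at h1

theorem measure_case (hK : SBody K) (hu : ‖u0‖ = 1) (S : Finset Plane) (hS : ∀ v ∈ S, v ≠ 0)
    (hfin : ∀ T ⊆ frontier K, T.Finite → T.Nonempty → ¬ ∀ v ∈ S, Inv K T v)
    (h2 : ∃ v ∈ S, ∃ v' ∈ S, cross v v' ≠ 0 ∧ cross u0 v ≠ 0)
    (hq : ∀ v ∈ S, QZero K u0 v) :
    ∀ M ⊆ frontier K, M.Nonempty → IsClosed M → (∀ v ∈ S, Inv K M v) → M = frontier K := by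
  intro M hM hMne hMcl hinv
  by_contra hcon
  obtain ⟨p, hp, hpM⟩ : ∃ p ∈ frontier K, p ∉ M := by
    by_contra h
    push Not at h
    exact hcon (Set.Subset.antisymm hM h)
  have hMc : IsCompact M := hK.cpt.of_isClosed_subset hMcl (hM.trans hK.clo.frontier_subset)
  obtain ⟨x0, hx0⟩ := hMne
  obtain ⟨y0, hy0, hxy0⟩ : ∃ y0 ∈ M, x0 ≠ y0 := by
    by_contra h
    push Not at h
    have h1 : M ⊆ {x0} := fun y hy => (h y hy).symm
    exact hfin M hM ((Set.finite_singleton x0).subset h1) ⟨x0, hx0⟩ hinv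
  obtain ⟨a0, b0, he0⟩ := exists_edge hK.clo hK.str hM hMc hx0 hy0 hxy0 hp hpM
  -- the orbit
  have hedge : ∀ a b, L26Orb K S a0 b0 a b → Edge M a b := by
    intro a b h
    induction h with
    | base => exact he0
    | @step a b v hv _ ih =>
      exact edge_chord hK.cpt hK.cvx hK.str hM (hS v hv) (hinv v hv) ih
  let A1 : Set Plane := {a | ∃ b, L26Orb K S a0 b0 a b}
  let A2 : Set Plane := {b | ∃ a, L26Orb K S a0 b0 a b}
  have hA1M : A1 ⊆ M := fun a ⟨b, h⟩ => (hedge a b h).1
  have hA2M : A2 ⊆ M := fun b ⟨a, h⟩ => (hedge a b h).2.1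
  have hA1inf : A1.Infinite := by
    intro hf
    have hA2f : A2.Finite := by
      refine (hf.image (outP M)).subset ?_
      rintro b ⟨a, h⟩
      exact ⟨a, ⟨b, h⟩, outP_edge hK.clo hK.str hM (hedge a b h)⟩
    refine hfin (A1 ∪ A2) ((Set.union_subset hA1M hA2M).trans hM) (hf.union hA2f)
      ⟨a0, Or.inl ⟨b0, L26Orb.base⟩⟩ ?_
    rintro v hv x (⟨b, h⟩ | ⟨a, h⟩)
    · exact Or.inr ⟨_, L26Orb.step hv h⟩
    · exact Or.inl ⟨_, L26Orb.step hv h⟩
  -- the mass
  obtain ⟨P, hP⟩ := exists_massFun hK hu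
  obtain ⟨v1, hv1, v2, hv2, hv12, huv1⟩ := h2
  have hE := exc_finite hK hu hM hv12 huv1 (hinv v1 hv1) (hinv v2 hv2)
  have hlong : ∀ ε > 0, {a | ∃ b, Edge M a b ∧ ε ≤ dist a b}.Finite := fun ε hε =>
    finite_long_gaps hK hM hv12 (hinv v1 hv1) (hinv v2 hv2) hε
  let m : Plane → Plane → ℝ := fun a b => |P (cross u0 b) - P (cross u0 a)|
  let Vals : Set ℝ := insert (m a0 b0) (⋃ v ∈ S, (fun a => m (chord K v (outP M a))
    (chord K v a)) '' {a | ∃ b, Edge M a b ∧ ¬ NE K u0 a b})
  have hVals : Vals.Finite := by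
    apply Set.Finite.insert
    exact S.finite_toSet.biUnion fun v _ => hE.image _
  have hmv : ∀ a b, L26Orb K S a0 b0 a b → NE K u0 a b → m a b ∈ Vals := by
    intro a b h
    induction h with
    | base => exact fun _ => Set.mem_insert _ _
    | @step a b v hv h ih =>
      intro hne
      by_cases hab : NE K u0 a b
      · have h3 := mass_invariant hK hu hP hM (hS v hv) (hinv v hv) (hq v hv) (hedge a b h) hab hne
        have h4 : m (chord K v b) (chord K v a) = m a b := h3
        rw [h4]
        exact ih hab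
      · refine Set.mem_insert_of_mem _ (Set.mem_biUnion hv ⟨a, ⟨b, hedge a b h, hab⟩, ?_⟩)
        show m (chord K v (outP M a)) (chord K v a) = _
        rw [outP_edge hK.clo hK.str hM (hedge a b h)]
  obtain ⟨μ, hμ, hμle⟩ := l26_min hVals
  have hμm : ∀ a b, L26Orb K S a0 b0 a b → NE K u0 a b → μ ≤ m a b := fun a b h hne =>
    hμle _ (hmv a b h hne) (mass_pos hK hu hP (hM (hedge a b h).1) (hM (hedge a b h).2.1) hne)
  -- accumulation points
  let Acc : Set Plane := {x | ∃ a : ℕ → Plane, Function.Injective a ∧ (∀ n, a n ∈ A1) ∧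
    Tendsto a atTop (𝓝 x)}
  have hAccne : Acc.Nonempty := by
    let f := hA1inf.natEmbedding
    obtain ⟨x, _, φ, hφ, hlim⟩ := hMc.tendsto_subseq (x := fun n => ((f n : A1) : Plane))
      (fun n => hA1M (f n).2)
    refine ⟨x, fun n => ((f (φ n) : A1) : Plane), ?_, fun n => (f (φ n)).2, hlim⟩
    intro i j hij
    exact hφ.injective (f.injective (Subtype.ext hij))
  have hAccM : Acc ⊆ M := by
    rintro x ⟨a, _, ha, hlim⟩
    exact hMcl.mem_of_tendsto hlim (Eventually.of_forall fun n => hA1M (ha n))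
  -- the partners converge too
  have hpart : ∀ (x : Plane) (a b : ℕ → Plane), Function.Injective a →
      (∀ n, L26Orb K S a0 b0 (a n) (b n)) → Tendsto a atTop (𝓝 x) → Tendsto b atTop (𝓝 x) := by
    intro x a b hinj hab hlim
    have h3 : Tendsto (fun n => dist (a n) (b n)) atTop (𝓝 0) := by
      rw [Metric.tendsto_atTop']
      intro ε hε
      obtain ⟨N, hN⟩ := eventually_atTop.1 (l26_ev hinj (hlong ε hε))
      refine ⟨N, fun n hn => ?_⟩
      have h4 := hN n hn.le
      rw [Real.dist_eq, sub_zero, abs_of_nonneg dist_nonneg]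
      by_contra h5
      exact h4 ⟨b n, hedge _ _ (hab n), not_lt.1 h5⟩
    exact (tendsto_iff_of_dist h3).1 hlim
  have hAccfin : Acc.Finite := by
    refine (tangency_finite hK hu).subset ?_
    rintro x hx
    refine ⟨hM (hAccM hx), ?_⟩
    obtain ⟨a, hinj, ha, hlim⟩ := hx
    by_contra hne
    choose b hb using ha
    have hblim := hpart x a b hinj hb hlim
    have hPx : ContinuousAt P (cross u0 x) :=
      (hP x (hM (hMcl.mem_of_tendsto hlim (Eventually.of_forall fun n => hA1M ⟨b n, hb n⟩)))
        hne).continuousAt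
    have hca : Tendsto (fun n => P (cross u0 (a n))) atTop (𝓝 (P (cross u0 x))) :=
      hPx.tendsto.comp (((continuous_cross_right u0).tendsto x).comp hlim)
    have hcb : Tendsto (fun n => P (cross u0 (b n))) atTop (𝓝 (P (cross u0 x))) :=
      hPx.tendsto.comp (((continuous_cross_right u0).tendsto x).comp hblim)
    have hm0 : Tendsto (fun n => m (a n) (b n)) atTop (𝓝 0) := by
      have h3 := (hcb.sub hca).abs
      rw [sub_self, abs_zero] at h3
      exact h3
    have hev1 := l26_ev hinj hE
    have hev2 := hm0.eventually (gt_mem_nhds hμ)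
    obtain ⟨n, h3, h4⟩ := (hev1.and hev2).exists
    have h5 : NE K u0 (a n) (b n) := by
      by_contra h6
      exact h3 ⟨b n, hedge _ _ (hb n), h6⟩
    exact absurd h4 (not_lt.2 (hμm _ _ (hb n) h5))
  refine hfin Acc (hAccM.trans hM) hAccfin hAccne ?_
  rintro v hv x hx
  have hxM := hAccM hx
  obtain ⟨a, hinj, ha, hlim⟩ := hx
  choose b hb using ha
  have hblim := hpart x a b hinj hb hlim
  have hbf : ∀ n, b n ∈ frontier K := fun n => hM (hedge _ _ (hb n)).2.1
  refine ⟨fun n => chord K v (b n), ?_, fun n => ⟨_, L26Orb.step hv (hb n)⟩, ?_⟩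
  · intro i j hij
    have h3 : b i = b j := by
      rw [← chord_chord hK.clo hK.str (hbf i) (u := v), ← chord_chord hK.clo hK.str (hbf j) (u := v)]
      exact congrArg (chord K v) hij
    have h4 := hedge _ _ (hb i)
    rw [h3] at h4
    exact hinj (h4.in_unique hK.clo hK.str hM (hedge _ _ (hb j)))
  · have h3 : Tendsto b atTop (𝓝[frontier K] x) :=
      tendsto_nhdsWithin_of_tendsto_nhds_of_eventually_within _ hblim (Eventually.of_forall hbf)
    exact ((chord_continuousOn hK (hS v hv)) x (hM hxM)).tendsto.comp h3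

end ChordMaps
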