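import Pool.Agent.Helper3.Chord.MainU
import Pool.Agent.Helper3.LS.Defs

set_option autoImplicit false

/-! # LS-27: consequences of Gardner-McMullen

* `exists_three`: from `exists_directions` (Chord/MainU.lean): `w i = c • v`, `v ∈ S`, take the `v`'s for three
  indices.
* `no_finite_inv`: as in the proof of `dense_of_no_configU` (Chord/MainU.lean, case of a finite orbit):
  `gardner_mcmullen hcp hs hsm hT hne hTK w hw hinv` and `not_determines`.
* `inv_smul`: `chord_smul` (Chord/MainU.lean).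
-/

namespace ChordMaps

variable {K M : Set Plane}

theorem exists_three (S : Finset Plane) (hS : ∀ v ∈ S, v ≠ 0) (hd : Determines S) :
    ∃ w : Fin 3 → Plane, (∀ i, w i ∈ S) ∧ PNP w := by
  obtain ⟨r, w, hr, -, hp, hv, -⟩ := exists_directions S hS hd
  choose v hvS c hc hwc using hv
  refine ⟨fun i => v ⟨i, by omega⟩, fun i => hvS _, fun i j hij h => ?_⟩
  have hne : (⟨i, by omega⟩ : Fin r) ≠ ⟨j, by omega⟩ := by
    intro h'
    apply hij
    have h2 : (i : ℕ) = (j : ℕ) := (Fin.mk.injEq _ _ _ _).mp h'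
    exact Fin.ext h2
  apply hp _ _ hne
  rw [hwc, hwc, cross_smul_left, cross_smul_right]
  have h' : cross (v ⟨i, by omega⟩) (v ⟨j, by omega⟩) = 0 := h
  rw [h', mul_zero, mul_zero]

theorem no_finite_inv (hK : SBody K) (S : Finset Plane) (hS : ∀ v ∈ S, v ≠ 0)
    (hd : Determines S) :
    ∀ T ⊆ frontier K, T.Finite → T.Nonempty → ¬ ∀ v ∈ S, Inv K T v := by
  intro T hTK hT hne hinv
  obtain ⟨w, hwS, hw⟩ := exists_three S hS hd
  obtain ⟨n, A, hn, hA⟩ := gardner_mcmullen hK.cpt hK.str hK.smo hT hne hTK w hw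
    (fun i x hx => hinv (w i) (hwS i) x hx)
  exact not_determines S hn A (fun v hv => hA v (hS v hv) (hinv v hv)) hd

theorem inv_smul (hK : SBody K) (hM : M ⊆ frontier K) {c : ℝ} (hc : c ≠ 0) (v : Plane) :
    Inv K M (c • v) ↔ Inv K M v := by
  unfold Inv
  constructor
  · intro h x hx
    rw [← chord_smul hK.clo hK.str (hM hx) hc]
    exact h x hx
  · intro h x hx
    rw [chord_smul hK.clo hK.str (hM hx) hc]
    exact h x hx

end ChordMaps
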