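import Pool.Agent.Helper3.LS.L19
import Pool.Agent.Helper3.LS.L26
import Pool.Agent.Helper3.LS.L27

set_option autoImplicit false

/-! # LS-28: the local statement at a direction `u0`

`exists_three` gives `w 0, w 1, w 2 ∈ S`, pairwise non-parallel.
Case B: `QZero K u0 v` for all `v ∈ S`: `measure_case` (`no_finite_inv`; two of the `w i` are not parallel to `u0`... for `h2` take
`v = w i` not parallel to `u0` (at least two of the three are not) and `v' = w j`, `j ≠ i`), `δ = 1`.
Case A: there are `v2 ∈ S`, `x ∈ frontier K`, `cross u0 (tang K x) ≠ 0`, `cross u0 (tang K (chord K v2 x)) ≠ 0` and the two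
sides of `QZero` differ; if the inequality is in the wrong direction replace `x` by `chord K v2 x`
(`chord_chord`).  `v1`: the points `p ∈ frontier K` with `cross u0 (tang K p) = 0` are at most two
(`tangency_finite` and its proof: two such points with equal tangent vector coincide by `tang_pos`), say `p, p'`; among
`w 0, w 1, w 2` there is one which is neither parallel to `u0` nor to `p' - p`; for it `chord K v1 p ≠ p`
(`chord_eq_iff`, `tang K p ∥ u0`), `chord K v1 p ≠ p'` and vice versa, so `cross u0 (tang K (chord K v1 p)) ≠ 0`.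
`main_lemma` with `v1' = v1`, `v2' = v2`.
-/

namespace ChordMaps

variable {K : Set Plane} {u0 : Plane}

private lemma l28_par {d a b : Plane} (hd : d ≠ 0) (ha : cross d a = 0) (hb : cross d b = 0) :
    cross a b = 0 := by
  obtain ⟨s, rfl⟩ := exists_smul_of_cross_eq_zero hd ha
  obtain ⟨t, rfl⟩ := exists_smul_of_cross_eq_zero hd hb
  rw [cross_smul_left, cross_smul_right, cross_self]
  ring

private lemma l28_pick {w : Fin 3 → Plane} (hw : PNP w) {d d' : Plane} (hd : d ≠ 0)
    (hd' : d' ≠ 0) : ∃ i, cross d (w i) ≠ 0 ∧ cross d' (w i) ≠ 0 := by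
  by_contra hcon
  push Not at hcon
  have h : ∀ i, cross d (w i) = 0 ∨ cross d' (w i) = 0 := by
    intro i
    by_cases h : cross d (w i) = 0
    · exact Or.inl h
    · exact Or.inr (hcon i h)
  have h01 := hw 0 1 (by decide)
  have h02 := hw 0 2 (by decide)
  have h12 := hw 1 2 (by decide)
  rcases h 0 with h0 | h0
  · rcases h 1 with h1 | h1
    · exact h01 (l28_par hd h0 h1)
    · rcases h 2 with h2 | h2
      · exact h02 (l28_par hd h0 h2)
      · exact h12 (l28_par hd' h1 h2)
  · rcases h 1 with h1 | h1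
    · rcases h 2 with h2 | h2
      · exact h12 (l28_par hd h1 h2)
      · exact h02 (l28_par hd' h0 h2)
    · exact h01 (l28_par hd' h0 h1)

private lemma l28_tang_eq (hK : SBody K) (hu : ‖u0‖ = 1) {x : Plane} (hx : x ∈ frontier K)
    (h : cross u0 (tang K x) = 0) : tang K x = u0 ∨ tang K x = -u0 := by
  have h1 := decomp hu (tang K x)
  rw [h, zero_smul, add_zero] at h1
  have h2 := (tang_spec hK hx).1
  rw [h1, norm_smul, hu, mul_one, Real.norm_eq_abs] at h2
  rcases eq_or_eq_neg_of_abs_eq h2 with h3 | h3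
  · left
    rw [h1, h3, one_smul]
  · right
    rw [h1, h3, neg_smul, one_smul]

private lemma l28_tang_inj (hK : SBody K) {x y : Plane} (hx : x ∈ frontier K)
    (hy : y ∈ frontier K) (h : tang K x = tang K y) : x = y := by
  by_contra hne
  have h1 := tang_pos hK hx (hK.clo.frontier_subset hy) (fun h' => hne h'.symm)
  have h2 := tang_pos hK hy (hK.clo.frontier_subset hx) hne
  rw [← h] at h2
  rw [cross_sub_right] at h1 h2
  linarith

/-- a direction containing all differences of tangency points -/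
private lemma l28_dir (hK : SBody K) (hu : ‖u0‖ = 1) : ∃ D : Plane, D ≠ 0 ∧
    ∀ q ∈ frontier K, cross u0 (tang K q) = 0 → ∀ q' ∈ frontier K, cross u0 (tang K q') = 0 →
      ∃ c : ℝ, q' ≠ q → c ≠ 0 ∧ q' - q = c • D := by
  by_cases h : ∃ p ∈ frontier K, cross u0 (tang K p) = 0 ∧ ∃ p' ∈ frontier K,
      cross u0 (tang K p') = 0 ∧ p' ≠ p
  · obtain ⟨p, hp, hp0, p', hp', hp0', hne⟩ := h
    have hne' : tang K p' ≠ tang K p := fun h => hne (l28_tang_inj hK hp' hp h)
    have key : ∀ q ∈ frontier K, cross u0 (tang K q) = 0 → q = p ∨ q = p' := by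
      intro q hq hq0
      rcases l28_tang_eq hK hu hq hq0 with h1 | h1 <;>
        rcases l28_tang_eq hK hu hp hp0 with h2 | h2 <;>
        rcases l28_tang_eq hK hu hp' hp0' with h3 | h3
      · exact absurd (h3.trans h2.symm) hne'
      · exact Or.inl (l28_tang_inj hK hq hp (h1.trans h2.symm))
      · exact Or.inr (l28_tang_inj hK hq hp' (h1.trans h3.symm))
      · exact absurd (h3.trans h2.symm) hne'
      · exact absurd (h3.trans h2.symm) hne'
      · exact Or.inr (l28_tang_inj hK hq hp' (h1.trans h3.symm))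
      · exact Or.inl (l28_tang_inj hK hq hp (h1.trans h2.symm))
      · exact absurd (h3.trans h2.symm) hne'
    refine ⟨p' - p, sub_ne_zero.2 hne, fun q hq hq0 q' hq' hq0' => ?_⟩
    rcases key q hq hq0 with rfl | rfl
    · rcases key q' hq' hq0' with rfl | rfl
      · exact ⟨0, fun h => absurd rfl h⟩
      · exact ⟨1, fun _ => ⟨one_ne_zero, by rw [one_smul]⟩⟩
    · rcases key q' hq' hq0' with rfl | rfl
      · exact ⟨-1, fun _ => ⟨by norm_num, by rw [neg_smul, one_smul, neg_sub]⟩⟩
      · exact ⟨0, fun h => absurd rfl h⟩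
  · push Not at h
    have hu0 : u0 ≠ 0 := by
      intro h0
      rw [h0, norm_zero] at hu
      exact zero_ne_one hu
    refine ⟨u0, hu0, fun q hq hq0 q' hq' hq0' => ⟨0, fun hne => absurd (h q hq hq0 q' hq' hq0') hne⟩⟩

theorem local_good (hK : SBody K) (hu : ‖u0‖ = 1) (S : Finset Plane) (hS : ∀ v ∈ S, v ≠ 0)
    (hd : Determines S) :
    ∃ δ > 0, ∀ ε1 ε2 : ℝ, |ε1| < δ → |ε2| < δ → ε1 ≠ ε2 → ∀ M ⊆ frontier K, M.Nonempty →
      IsClosed M → (∀ v ∈ S, Inv K M v) → Inv K M (wd u0 ε1) → Inv K M (wd u0 ε2) →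
      M = frontier K := by
  have hu0 : u0 ≠ 0 := by
    intro h0
    rw [h0, norm_zero] at hu
    exact zero_ne_one hu
  obtain ⟨w, hwS, hw⟩ := exists_three S hS hd
  by_cases hq : ∀ v ∈ S, QZero K u0 v
  · refine ⟨1, one_pos, fun ε1 ε2 _ _ _ M hM hMne hMc hinv _ _ => ?_⟩
    refine measure_case hK hu S hS (no_finite_inv hK S hS hd) ?_ hq M hM hMne hMc hinv
    obtain ⟨i, hi, _⟩ := l28_pick hw hu0 hu0
    obtain ⟨j, hj⟩ := exists_ne i
    exact ⟨w i, hwS i, w j, hwS j, hw i j hj.symm, hi⟩
  · push Not at hq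
    obtain ⟨v2, hv2, hq2⟩ := hq
    unfold QZero at hq2
    push Not at hq2
    obtain ⟨x, hx, hx1, hx2, hx3⟩ := hq2
    obtain ⟨D, hD0, hD⟩ := l28_dir hK hu
    obtain ⟨i, hi, hi'⟩ := l28_pick hw hu0 hD0
    have hv1 : w i ∈ S := hwS i
    have hpush : ∀ p ∈ frontier K, cross u0 (tang K p) = 0 →
        cross u0 (tang K (chord K (w i) p)) ≠ 0 := by
      intro p hp hp0 hc
      have hcm : chord K (w i) p ∈ frontier K := chord_mem hp
      by_cases hne : chord K (w i) p = p
      · have h1 := (chord_eq_iff hK hp (hS _ hv1)).1 hne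
        rcases l28_tang_eq hK hu hp hp0 with h2 | h2
        · rw [h2, cross_comm, neg_eq_zero] at h1
          exact hi h1
        · rw [h2, cross_neg_right, cross_comm, neg_neg] at h1
          exact hi h1
      · obtain ⟨c, hc'⟩ := hD p hp hp0 _ hcm hc
        obtain ⟨hc0, hc1⟩ := hc' hne
        obtain ⟨t, ht⟩ := chord_line K (w i) p
        have h1 : cross (chord K (w i) p - p) (w i) = 0 := by
          rw [ht, add_sub_cancel_left, cross_smul_left, cross_self, mul_zero]
        rw [hc1, cross_smul_left] at h1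
        rcases mul_eq_zero.1 h1 with h2 | h2
        · exact hc0 h2
        · exact hi' h2
    have main : ∃ y ∈ frontier K, cross u0 (tang K y) ≠ 0 ∧
        cross u0 (tang K (chord K v2 y)) ≠ 0 ∧
        gw K u0 y * |cross v2 (tang K (chord K v2 y))| <
          gw K u0 (chord K v2 y) * |cross v2 (tang K y)| := by
      rcases lt_or_gt_of_ne hx3 with h | h
      · exact ⟨x, hx, hx1, hx2, h⟩
      · refine ⟨chord K v2 x, chord_mem hx, hx2, ?_, ?_⟩
        · rw [chord_chord hK.clo hK.str hx]
          exact hx1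
        · rw [chord_chord hK.clo hK.str hx]
          exact h
    obtain ⟨y, hy, hy1, hy2, hy3⟩ := main
    obtain ⟨δ, hδ, H⟩ := main_lemma hK hu (hS _ hv1) (hS _ hv2) hpush hy hy1 hy2 hy3
    refine ⟨δ, hδ, fun ε1 ε2 h1 h2 hne M hM hMne hMc hinv hi1 hi2 => ?_⟩
    exact H ε1 ε2 (w i) v2 h1 h2 hne (by rw [dist_self]; exact hδ) (by rw [dist_self]; exact hδ)
      M hM hMne hMc hi1 hi2 (hinv _ hv1) (hinv _ hv2)

end ChordMaps
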