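import Pool.Agent.Helper3.LS.Defs

set_option autoImplicit false

/-! # LS-29: vectors near `u0` are multiples of `wd u0 ε`; a pigeonhole lemma

* `wd_repr`: `decomp` (Defs): `w = p • u0 + q • rot u0`, `p = - cross (rot u0) w`, `q = cross u0 w`; `|p - 1| ≤ dist w u0`,
  `|q| ≤ dist w u0` (`abs_cross_le`, `cross (rot u0) u0 = -1`); `c = p`, `ε = q / p`.
* `exists_close_pair`: the unit sphere is totally bounded: it is covered by `M` sets of diameter `< δ`
  (`Metric.totallyBounded_iff`); `N = M + 1`; pigeonhole for `v ↦ ‖v‖⁻¹ • v`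
  (`Finset.exists_ne_map_eq_of_card_lt_of_maps_to`); and
  `|cross a b| = |cross a (b - a)| ≤ ‖b - a‖` for unit vectors.
-/

namespace ChordMaps

theorem wd_repr {u0 : Plane} (hu : ‖u0‖ = 1) {δ : ℝ} (hδ : 0 < δ) :
    ∃ δ' > 0, ∀ w, dist w u0 < δ' → ∃ c ε : ℝ, c ≠ 0 ∧ |ε| < δ ∧ w = c • wd u0 ε := by
  refine ⟨min (1 / 2) (δ / 2), lt_min (by norm_num) (by linarith), fun w hw => ?_⟩
  have hw1 : dist w u0 < 1 / 2 := hw.trans_le (min_le_left _ _)
  have hw2 : dist w u0 < δ / 2 := hw.trans_le (min_le_right _ _)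
  have h1 : cross u0 (rot u0) = 1 := by rw [cross_rot, hu]; norm_num
  have h2 : cross (rot u0) u0 = -1 := by rw [cross_comm, h1]
  have hsub : ∀ a x y : Plane, cross a (x - y) = cross a x - cross a y := by
    intro a x y
    simp only [cross, PiLp.sub_apply]
    ring
  have hp : |(- cross (rot u0) w) - 1| ≤ dist w u0 := by
    have h3 : (- cross (rot u0) w) - 1 = - cross (rot u0) (w - u0) := by
      rw [hsub, h2]
      ring
    rw [h3, abs_neg, dist_eq_norm]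
    refine (abs_cross_le _ _).trans ?_
    rw [norm_rot, hu, one_mul]
  have hq : |cross u0 w| ≤ dist w u0 := by
    have h3 : cross u0 w = cross u0 (w - u0) := by
      rw [hsub, cross_self, sub_zero]
    rw [h3, dist_eq_norm]
    refine (abs_cross_le _ _).trans ?_
    rw [hu, one_mul]
  have hp1 : 1 / 2 < - cross (rot u0) w := by
    have := (abs_le.1 hp).1
    linarith
  refine ⟨- cross (rot u0) w, cross u0 w / (- cross (rot u0) w), by linarith, ?_, ?_⟩
  · rw [abs_div, abs_of_pos (show 0 < - cross (rot u0) w by linarith),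
      div_lt_iff₀ (by linarith)]
    nlinarith
  · have hpne : - cross (rot u0) w ≠ 0 := by linarith
    unfold wd
    rw [smul_add, smul_smul, mul_div_cancel₀ _ hpne]
    exact decomp hu w

theorem exists_close_pair {δ : ℝ} (hδ : 0 < δ) :
    ∃ N : ℕ, ∀ S : Finset Plane, (∀ v ∈ S, v ≠ 0) →
      (∀ v ∈ S, ∀ v' ∈ S, v ≠ v' → cross v v' ≠ 0) → N ≤ S.card →
      ∃ w ∈ S, ∃ w' ∈ S, cross w w' ≠ 0 ∧ |cross w w'| < δ * (‖w‖ * ‖w'‖) := by
  obtain ⟨t, ht, hcov⟩ := Metric.totallyBounded_iff.1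
    (isCompact_sphere (0 : Plane) 1).totallyBounded (δ / 2) (by linarith)
  refine ⟨ht.toFinset.card + 1, fun S hS0 hS hcard => ?_⟩
  have h : ∀ v ∈ S, ∃ y ∈ t, dist (‖v‖⁻¹ • v) y < δ / 2 := by
    intro v hv
    have h1 : ‖v‖⁻¹ • v ∈ Metric.sphere (0 : Plane) 1 := by
      rw [mem_sphere_zero_iff_norm, norm_smul, norm_inv, norm_norm,
        inv_mul_cancel₀ (norm_ne_zero_iff.2 (hS0 v hv))]
    have h2 := hcov h1
    simp only [Set.mem_iUnion, Metric.mem_ball] at h2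
    obtain ⟨y, hy, h3⟩ := h2
    exact ⟨y, hy, h3⟩
  choose! f hf1 hf2 using h
  obtain ⟨v, hv, v', hv', hne, hff⟩ := Finset.exists_ne_map_eq_of_card_lt_of_maps_to
    (s := S) (t := ht.toFinset) (f := f) (by omega)
    (fun v hv => by
      rw [Finset.mem_coe, Set.Finite.mem_toFinset]
      exact hf1 v hv)
  refine ⟨v, hv, v', hv', hS v hv v' hv' hne, ?_⟩
  have hn : 0 < ‖v‖ := norm_pos_iff.2 (hS0 v hv)
  have hn' : 0 < ‖v'‖ := norm_pos_iff.2 (hS0 v' hv')
  have h1 : dist (‖v'‖⁻¹ • v') (‖v‖⁻¹ • v) < δ := by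
    have h2 := hf2 v hv
    have h3 := hf2 v' hv'
    rw [← hff] at h3
    have h4 := dist_triangle_right (‖v'‖⁻¹ • v') (‖v‖⁻¹ • v) (f v)
    linarith
  have hsub : ∀ a x y : Plane, cross a (x - y) = cross a x - cross a y := by
    intro a x y
    simp only [cross, PiLp.sub_apply]
    ring
  have h2 : |cross (‖v‖⁻¹ • v) (‖v'‖⁻¹ • v')| < δ := by
    have h3 : cross (‖v‖⁻¹ • v) (‖v'‖⁻¹ • v') =
        cross (‖v‖⁻¹ • v) (‖v'‖⁻¹ • v' - ‖v‖⁻¹ • v) := by
      rw [hsub, cross_self, sub_zero]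
    rw [h3]
    refine (abs_cross_le _ _).trans_lt ?_
    rw [norm_smul, norm_inv, norm_norm, inv_mul_cancel₀ hn.ne', one_mul, ← dist_eq_norm]
    exact h1
  rw [cross_smul_left, cross_smul_right, abs_mul, abs_mul, abs_of_pos (inv_pos.2 hn),
    abs_of_pos (inv_pos.2 hn')] at h2
  have h3 : |cross v v'| = (‖v‖ * ‖v'‖) * (‖v‖⁻¹ * (‖v'‖⁻¹ * |cross v v'|)) := by
    field_simp
  rw [h3]
  have h4 : 0 < ‖v‖ * ‖v'‖ := mul_pos hn hn'
  rw [mul_comm δ]
  exact mul_lt_mul_of_pos_left h2 h4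

end ChordMaps
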