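import Pool.Agent.Helper3.LS.L28
import Pool.Agent.Helper3.LS.L29

set_option autoImplicit false

/-! # LS-30: the theorem for all pairs of close directions

By contradiction: for all `n` unit vectors `w n, w' n` with `0 < |cross (w n) (w' n)| < 1/(n+1)` and a closed nonempty
invariant `M n ≠ frontier K`.  Replacing `w' n` by `- w' n` (`chord_neg` resp. `inv_smul` with `c = -1`) assume
`0 ≤ inner (w n) (w' n)`.  Subsequence `w n → u0`, `‖u0‖ = 1`, and then `w' n → u0` (along a further subsequence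
`w' n → u'`, `cross u0 u' = 0`, `0 ≤ inner u0 u'`, both unit, so `u' = u0`).  `local_good` at `u0` gives `δ`, `wd_repr`
gives `w n = c • wd u0 ε1`, `w' n = c' • wd u0 ε2` for large `n`, `|ε1|, |ε2| < δ`, `ε1 ≠ ε2` since
`cross (w n) (w' n) ≠ 0`; `inv_smul`.
-/

namespace ChordMaps

variable {K : Set Plane}

private lemma l30_dist {a b : Plane} (ha : ‖a‖ = 1) (hb : ‖b‖ = 1) (hin : 0 ≤ inner ℝ a b) :
    dist b a ≤ 2 * |cross a b| := by
  have h1 : a 0 ^ 2 + a 1 ^ 2 = 1 := by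
    have h : ‖a‖ ^ 2 = 1 := by rw [ha]; norm_num
    rw [EuclideanSpace.norm_sq_eq, Fin.sum_univ_two] at h
    simpa only [Real.norm_eq_abs, sq_abs] using h
  have h2 : b 0 ^ 2 + b 1 ^ 2 = 1 := by
    have h : ‖b‖ ^ 2 = 1 := by rw [hb]; norm_num
    rw [EuclideanSpace.norm_sq_eq, Fin.sum_univ_two] at h
    simpa only [Real.norm_eq_abs, sq_abs] using h
  have h3 : inner ℝ a b = a 0 * b 0 + a 1 * b 1 := by
    rw [PiLp.inner_apply, Fin.sum_univ_two]
    simp [mul_comm]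
  rw [h3] at hin
  set c := a 0 * b 0 + a 1 * b 1 with hc
  have h4 : c ^ 2 + cross a b ^ 2 = 1 := by
    have : c ^ 2 + cross a b ^ 2 = (a 0 ^ 2 + a 1 ^ 2) * (b 0 ^ 2 + b 1 ^ 2) := by
      rw [hc]; unfold cross; ring
    rw [this, h1, h2, one_mul]
  have h5 : dist b a ^ 2 = 2 - 2 * c := by
    rw [dist_eq_norm, EuclideanSpace.norm_sq_eq, Fin.sum_univ_two]
    simp only [Real.norm_eq_abs, sq_abs, PiLp.sub_apply]
    rw [hc]
    linear_combination h1 + h2
  have h6 : c ≤ 1 := by nlinarith [sq_nonneg (cross a b)]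
  have h7 : dist b a ^ 2 ≤ (2 * |cross a b|) ^ 2 := by
    rw [h5, mul_pow, sq_abs]
    nlinarith
  exact (pow_le_pow_iff_left₀ dist_nonneg (by positivity) two_ne_zero).1 h7

private lemma l30_inv (hK : SBody K) {M : Set Plane} (hM : M ⊆ frontier K) {v : Plane} {c : ℝ}
    (hc : c ≠ 0) (h : Inv K M (c • v)) : Inv K M v := by
  intro x hx
  rw [← chord_smul hK.clo hK.str (hM hx) hc]
  exact h x hx

theorem close_good (hK : SBody K) (S : Finset Plane) (hS : ∀ v ∈ S, v ≠ 0)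
    (hd : Determines S) :
    ∃ δ > 0, ∀ w w' : Plane, ‖w‖ = 1 → ‖w'‖ = 1 → cross w w' ≠ 0 → |cross w w'| < δ →
      ∀ M ⊆ frontier K, M.Nonempty → IsClosed M → (∀ v ∈ S, Inv K M v) → Inv K M w →
      Inv K M w' → M = frontier K := by
  by_contra hcon
  push Not at hcon
  have hex : ∀ n : ℕ, ∃ (w w' : Plane) (M : Set Plane), ‖w‖ = 1 ∧ ‖w'‖ = 1 ∧ cross w w' ≠ 0 ∧
      |cross w w'| < 1 / ((n : ℝ) + 1) ∧ 0 ≤ inner ℝ w w' ∧ M ⊆ frontier K ∧ M.Nonempty ∧
      IsClosed M ∧ (∀ v ∈ S, Inv K M v) ∧ Inv K M w ∧ Inv K M w' ∧ M ≠ frontier K := by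
    intro n
    obtain ⟨w, w', h1, h2, h3, h4, M, h5, h6, h7, h8, h9, h10, h11⟩ :=
      hcon (1 / ((n : ℝ) + 1)) (by positivity)
    rcases le_total 0 (inner ℝ w w') with hin | hin
    · exact ⟨w, w', M, h1, h2, h3, h4, hin, h5, h6, h7, h8, h9, h10, h11⟩
    · refine ⟨w, -w', M, h1, by rw [norm_neg, h2], ?_, ?_, ?_, h5, h6, h7, h8, h9, ?_, h11⟩
      · rw [cross_neg_right]
        exact neg_ne_zero.2 h3
      · rw [cross_neg_right, abs_neg]
        exact h4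
      · rw [inner_neg_right]
        linarith
      · intro x hx
        rw [chord_neg hK.clo hK.str (h5 hx)]
        exact h10 x hx
  choose w w' M h1 h2 h3 h4 hin h5 h6 h7 h8 h9 h10 h11 using hex
  obtain ⟨u0, hu0, φ, hφ, hlim⟩ := (isCompact_sphere (0 : Plane) 1).tendsto_subseq
    (x := w) fun n => by rw [mem_sphere_zero_iff_norm]; exact h1 n
  have hu : ‖u0‖ = 1 := by rwa [mem_sphere_zero_iff_norm] at hu0
  obtain ⟨δ, hδ, hloc⟩ := local_good hK hu S hS hd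
  obtain ⟨δ', hδ', hrep⟩ := wd_repr hu hδ
  have hev1 : ∀ᶠ n in Filter.atTop, dist (w (φ n)) u0 < δ' / 2 :=
    (Metric.tendsto_nhds.1 hlim) (δ' / 2) (by linarith)
  have hev2 : ∀ᶠ n : ℕ in Filter.atTop, 1 / ((φ n : ℝ) + 1) < δ' / 4 := by
    have ht : Filter.Tendsto (fun n : ℕ => 1 / ((φ n : ℝ) + 1)) Filter.atTop (nhds 0) :=
      tendsto_one_div_add_atTop_nhds_zero_nat.comp hφ.tendsto_atTop
    exact ht.eventually (gt_mem_nhds (show (0 : ℝ) < δ' / 4 by linarith))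
  obtain ⟨n, hn1, hn2⟩ := (hev1.and hev2).exists
  have hd1 : dist (w' (φ n)) u0 < δ' := by
    have h12 := l30_dist (h1 (φ n)) (h2 (φ n)) (hin (φ n))
    have h13 := h4 (φ n)
    have h14 := dist_triangle (w' (φ n)) (w (φ n)) u0
    linarith
  obtain ⟨c, ε1, hc, he1, hw⟩ := hrep (w (φ n)) (by linarith)
  obtain ⟨c', ε2, hc', he2, hw'⟩ := hrep (w' (φ n)) hd1
  refine h11 (φ n) (hloc ε1 ε2 he1 he2 ?_ (M (φ n)) (h5 _) (h6 _) (h7 _) (h8 _) ?_ ?_)
  · rintro rfl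
    apply h3 (φ n)
    rw [hw, hw', cross_smul_left, cross_smul_right, cross_self, mul_zero, mul_zero]
  · refine l30_inv hK (h5 _) hc ?_
    rw [← hw]
    exact h9 _
  · refine l30_inv hK (h5 _) hc' ?_
    rw [← hw']
    exact h10 _

end ChordMaps
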