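import Pool.Agent.Helper3.LS.L30
import Pool.Agent.Helper3.Chord.Main

set_option autoImplicit false

/-! # LS-31: Theorem J

`good_of_closed`: `closure V` is closed, contained in `frontier K`, nonempty and invariant
(`closure_invariant`, Chord/Main.lean, for `v ≠ 0`; the hypothesis on `V` gives `chord K v x ∈ V` by `chord_line`,
`chord_mem`; for `v = 0` the chord map is the identity).
`theoremJ`: `close_good` for `‖w‖⁻¹ • w`, `‖w'‖⁻¹ • w'` (`inv_smul`, `w, w' ≠ 0` since `cross w w' ≠ 0`), and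
`exists_close_pair` for the second part.
-/

namespace ChordMaps

variable {K : Set Plane}

/-- every nonempty set of boundary points which is invariant under the chord maps in the
directions of `S` is dense -/
def GoodFor (K S : Set Plane) : Prop :=
  ∀ V ⊆ frontier K, V.Nonempty →
    (∀ v ∈ S, ∀ x ∈ V, ∀ t : ℝ, x + t • v ∈ frontier K → x + t • v ∈ V) →
    closure V = frontier K

theorem good_of_closed (hK : SBody K) (S : Set Plane)
    (h : ∀ M ⊆ frontier K, M.Nonempty → IsClosed M → (∀ v ∈ S, Inv K M v) → M = frontier K) :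
    GoodFor K S := by
  intro V hV hne hinv
  refine h (closure V) (closure_minimal hV isClosed_frontier) hne.closure isClosed_closure ?_
  intro v hv x hx
  have hVv : ∀ y ∈ V, chord K v y ∈ V := by
    intro y hy
    obtain ⟨t, ht⟩ := chord_line K v y
    rw [ht]
    refine hinv v hv y hy t ?_
    rw [← ht]
    exact chord_mem (hV hy)
  by_cases hv0 : v = 0
  · subst hv0
    obtain ⟨t, ht⟩ := chord_line K 0 x
    rw [ht, smul_zero, add_zero]
    exact hx
  · exact closure_invariant hK.cpt hK.str hv0 hV hVv hx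

theorem theoremJ (hK : SBody K) (S : Finset Plane) (hS : ∀ v ∈ S, v ≠ 0)
    (hd : Determines S) :
    (∃ δ > 0, ∀ S' : Set Plane, (S : Set Plane) ⊆ S' →
      (∃ w ∈ S', ∃ w' ∈ S', cross w w' ≠ 0 ∧ |cross w w'| < δ * (‖w‖ * ‖w'‖)) →
      GoodFor K S') ∧
    ∃ N : ℕ, ∀ S' : Finset Plane, S ⊆ S' → (∀ v ∈ S', v ≠ 0) →
      (∀ v ∈ S', ∀ v' ∈ S', v ≠ v' → cross v v' ≠ 0) → N ≤ S'.card →
      GoodFor K (S' : Set Plane) := by
  obtain ⟨δ, hδ, H⟩ := close_good hK S hS hd
  have key : ∀ S' : Set Plane, (S : Set Plane) ⊆ S' →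
      (∃ w ∈ S', ∃ w' ∈ S', cross w w' ≠ 0 ∧ |cross w w'| < δ * (‖w‖ * ‖w'‖)) →
      GoodFor K S' := by
    rintro S' hSS ⟨w, hw, w', hw', hne, hlt⟩
    apply good_of_closed hK
    intro M hM hMne hMcl hinv
    have hw0 : w ≠ 0 := by
      rintro rfl
      apply hne
      simp [cross]
    have hw0' : w' ≠ 0 := by
      rintro rfl
      apply hne
      simp [cross]
    have hn : 0 < ‖w‖ := norm_pos_iff.2 hw0
    have hn' : 0 < ‖w'‖ := norm_pos_iff.2 hw0'
    have e : cross (‖w‖⁻¹ • w) (‖w'‖⁻¹ • w') = cross w w' / (‖w‖ * ‖w'‖) := by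
      rw [cross_smul_left, cross_smul_right]
      field_simp
    refine H (‖w‖⁻¹ • w) (‖w'‖⁻¹ • w') (norm_smul_inv_norm hw0) (norm_smul_inv_norm hw0') ?_ ?_ M hM
      hMne hMcl (fun v hv => hinv v (hSS hv)) ?_ ?_
    · rw [e]
      exact div_ne_zero hne (mul_pos hn hn').ne'
    · rw [e, abs_div, abs_of_pos (mul_pos hn hn'), div_lt_iff₀ (mul_pos hn hn')]
      exact hlt
    · exact (inv_smul hK hM (inv_ne_zero hn.ne') w).2 (hinv w hw)
    · exact (inv_smul hK hM (inv_ne_zero hn'.ne') w').2 (hinv w' hw')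
  refine ⟨⟨δ, hδ, key⟩, ?_⟩
  obtain ⟨N, hN⟩ := exists_close_pair hδ
  refine ⟨N, fun S' hSS hS0 hSp hcard => ?_⟩
  obtain ⟨w, hw, w', hw', h1, h2⟩ := hN S' hS0 hSp hcard
  exact key (S' : Set Plane) (by exact_mod_cast hSS) ⟨w, hw, w', hw', h1, h2⟩

end ChordMaps
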