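import Pool.Agent.Helper3.LS.L20
import Pool.Agent.Helper3.LS.L25

set_option autoImplicit false

/-! # LS-32: rigidity gives a conic

`conic_rel` is a polynomial identity: with `c1 = cross (x2 - x) (x3 - x)` etc. one has
`c1 • (x1 - x) + c2 • (x2 - x) + c3 • (x3 - x) = 0` and `c1 + c2 + c3 = cross (x2 - x1) (x3 - x1) = D`.  So
`0 = Σ ci * cross U (xi - x) = Σ ci * cross Ui (x - xi)` and
`D • (x - xi) = Σ_j cj • (xj - xi)`, hence `0 = Σ_{i,j} ci cj cross Ui (xj - xi) = 2 (G12 c1 c2 + ..)`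
(`linear_combination` in coordinates should do it).
`conic_of_rigid`: let `p, p'` be the (at most two) points with `cross u0 (tang K ·) = 0` (`tangency_finite`); if there is only one
or none take any vector for `p' - p`.  For `x ≠ y` in `frontier K` with `cross u0 (tang K ·) ≠ 0` and `v = y - x` not parallel
to `p' - p`: `chord K v x = y`, `chord K v y = x` (`chord_eq`); if `v ∥ u0` then
`gw K u0 x * |cross v (tang K y)| = gw K u0 y * |cross v (tang K x)|` directly by definition of `gw`; otherwise `v` satisfies the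
push condition (see LS-28), and `h` for `(v, x)` and `(v, y)` gives the same equality.  With
`U x = (gw K u0 x)⁻¹ • tang K x` this reads `cross (U x) (y - x) = cross (U y) (x - y)` (both positive by `tang_pos`).
Choose `x1, x2, x3` with `cross u0 (tang K xi) ≠ 0`, distinct, pairwise differences not parallel to `p' - p` (the
boundary is infinite: `exists_rho`, LS-20; only finitely many points are excluded at each step, `chord`).
`G12 = cross (U x1) (x2 - x1) > 0` etc.  `F` = the finite set of `p, p', xi`, `chord K (p' - p) xi`.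
`D ≠ 0` by `cross_ne_zero_of_distinct`.
-/

namespace ChordMaps

variable {K : Set Plane} {u0 : Plane}

/-- a quadratic polynomial vanishing at `x1, x2, x3` -/
noncomputable def conicQ (x1 x2 x3 : Plane) (G12 G13 G23 : ℝ) (x : Plane) : ℝ :=
  G12 * (cross (x2 - x) (x3 - x) * cross (x3 - x) (x1 - x)) +
  G13 * (cross (x2 - x) (x3 - x) * cross (x1 - x) (x2 - x)) +
  G23 * (cross (x3 - x) (x1 - x) * cross (x1 - x) (x2 - x))

theorem conic_rel {x x1 x2 x3 U U1 U2 U3 : Plane} (hD : cross (x2 - x1) (x3 - x1) ≠ 0)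
    (h1 : cross U (x1 - x) = cross U1 (x - x1)) (h2 : cross U (x2 - x) = cross U2 (x - x2))
    (h3 : cross U (x3 - x) = cross U3 (x - x3))
    (h12 : cross U1 (x2 - x1) = cross U2 (x1 - x2))
    (h13 : cross U1 (x3 - x1) = cross U3 (x1 - x3))
    (h23 : cross U2 (x3 - x2) = cross U3 (x2 - x3)) :
    conicQ x1 x2 x3 (cross U1 (x2 - x1)) (cross U1 (x3 - x1)) (cross U2 (x3 - x2)) x = 0 := by
  unfold conicQ
  unfold cross at *
  simp only [PiLp.sub_apply] at *
  linear_combination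
    (-(((x2 0 - x1 0) * (x3 1 - x1 1) - (x2 1 - x1 1) * (x3 0 - x1 0)) *
      ((x2 0 - x 0) * (x3 1 - x 1) - (x2 1 - x 1) * (x3 0 - x 0))) / 2) * h1 +
    (-(((x2 0 - x1 0) * (x3 1 - x1 1) - (x2 1 - x1 1) * (x3 0 - x1 0)) *
      ((x3 0 - x 0) * (x1 1 - x 1) - (x3 1 - x 1) * (x1 0 - x 0))) / 2) * h2 +
    (-(((x2 0 - x1 0) * (x3 1 - x1 1) - (x2 1 - x1 1) * (x3 0 - x1 0)) *
      ((x1 0 - x 0) * (x2 1 - x 1) - (x1 1 - x 1) * (x2 0 - x 0))) / 2) * h3 +
    (((x2 0 - x 0) * (x3 1 - x 1) - (x2 1 - x 1) * (x3 0 - x 0)) *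
      ((x3 0 - x 0) * (x1 1 - x 1) - (x3 1 - x 1) * (x1 0 - x 0)) / 2) * h12 +
    (((x2 0 - x 0) * (x3 1 - x 1) - (x2 1 - x 1) * (x3 0 - x 0)) *
      ((x1 0 - x 0) * (x2 1 - x 1) - (x1 1 - x 1) * (x2 0 - x 0)) / 2) * h13 +
    (((x3 0 - x 0) * (x1 1 - x 1) - (x3 1 - x 1) * (x1 0 - x 0)) *
      ((x1 0 - x 0) * (x2 1 - x 1) - (x1 1 - x 1) * (x2 0 - x 0)) / 2) * h23

private lemma l32_ne (hu : ‖u0‖ = 1) : u0 ≠ 0 := by
  intro h
  rw [h, norm_zero] at hu
  exact zero_ne_one hu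

/-- a chord is determined by its direction -/
private lemma l32_chord (hK : SBody K) {x y w : Plane} (hx : x ∈ frontier K)
    (hy : y ∈ frontier K) (hne : y ≠ x) (hw : w ≠ 0) (h : cross w (y - x) = 0) :
    chord K w x = y := by
  obtain ⟨t, ht⟩ := exists_smul_of_cross_eq_zero hw h
  exact chord_eq hK.clo hK.str hx hy hne ⟨t, by rw [← ht]; abel⟩

private lemma l32_dist (hK : SBody K) (hu : ‖u0‖ = 1) {x : Plane} (hx : x ∈ frontier K)
    (h : cross u0 (tang K x) ≠ 0) : 0 < dist x (chord K u0 x) := by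
  rw [dist_pos]
  intro he
  exact h ((chord_eq_iff hK hx (l32_ne hu)).1 he.symm)

private lemma l32_gw_pos (hK : SBody K) (hu : ‖u0‖ = 1) {x : Plane} (hx : x ∈ frontier K)
    (h : cross u0 (tang K x) ≠ 0) : 0 < gw K u0 x :=
  div_pos (abs_pos.2 h) (l32_dist hK hu hx h)

/-- the push condition for a direction which is not a difference of tangency points -/
private lemma l32_eq (hK : SBody K) (hu : ‖u0‖ = 1)
    (h : ∀ v x : Plane, v ≠ 0 → x ∈ frontier K →
      (∀ p ∈ frontier K, cross u0 (tang K p) = 0 → cross u0 (tang K (chord K v p)) ≠ 0) →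
      cross u0 (tang K x) ≠ 0 → cross u0 (tang K (chord K v x)) ≠ 0 →
      ¬ (gw K u0 x * |cross v (tang K (chord K v x))| <
        gw K u0 (chord K v x) * |cross v (tang K x)|))
    {x y : Plane} (hx : x ∈ frontier K) (hy : y ∈ frontier K) (hne : y ≠ x)
    (hx0 : cross u0 (tang K x) ≠ 0) (hy0 : cross u0 (tang K y) ≠ 0)
    (hP : ∀ p ∈ frontier K, ∀ q ∈ frontier K, cross u0 (tang K p) = 0 →
      cross u0 (tang K q) = 0 → p ≠ q → cross (q - p) (y - x) ≠ 0) :
    gw K u0 x * |cross (y - x) (tang K y)| = gw K u0 y * |cross (y - x) (tang K x)| := by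
  have hu0 := l32_ne hu
  have hv0 : y - x ≠ 0 := sub_ne_zero.2 hne
  have hcx : chord K (y - x) x = y := l32_chord hK hx hy hne hv0 (cross_self _)
  have hcy : chord K (y - x) y = x :=
    l32_chord hK hy hx hne.symm hv0 (by rw [← neg_sub x y, cross_neg_left, cross_self, neg_zero])
  by_cases hpar : cross u0 (y - x) = 0
  · have h1 : chord K u0 x = y := l32_chord hK hx hy hne hu0 hpar
    have h2 : chord K u0 y = x := l32_chord hK hy hx hne.symm hu0
      (by rw [← neg_sub y x, cross_neg_right, hpar, neg_zero])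
    obtain ⟨t, ht⟩ := exists_smul_of_cross_eq_zero hu0 hpar
    rw [ht, cross_smul_left, cross_smul_left, abs_mul, abs_mul]
    unfold gw
    rw [h1, h2, dist_comm y x]
    ring
  · have hpush : ∀ p ∈ frontier K, cross u0 (tang K p) = 0 →
        cross u0 (tang K (chord K (y - x) p)) ≠ 0 := by
      intro p hp hp0 hcon
      have hq := chord_mem (u := y - x) hp
      by_cases hpq : p = chord K (y - x) p
      · have h3 := (chord_eq_iff hK hp hv0).1 hpq.symm
        obtain ⟨t, ht⟩ := exists_smul_of_cross_eq_zero hu0 hp0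
        have ht0 : t ≠ 0 := by
          rintro rfl
          have := (tang_spec hK hp).1
          rw [ht, zero_smul, norm_zero] at this
          exact zero_ne_one this
        rw [ht, cross_smul_right] at h3
        have h4 := (mul_eq_zero.1 h3).resolve_left ht0
        apply hpar
        rw [cross_comm, h4, neg_zero]
      · apply hP p hp _ hq hp0 hcon hpq
        rw [cross_comm, cross_sub_right, cross_chord, sub_self, neg_zero]
    have h5 := h (y - x) x hv0 hx hpush hx0 (by rw [hcx]; exact hy0)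
    have h6 := h (y - x) y hv0 hy hpush hy0 (by rw [hcy]; exact hx0)
    rw [hcx] at h5
    rw [hcy] at h6
    exact le_antisymm (not_lt.1 h6) (not_lt.1 h5)

theorem conic_of_rigid (hK : SBody K) (hu : ‖u0‖ = 1)
    (h : ∀ v x : Plane, v ≠ 0 → x ∈ frontier K →
      (∀ p ∈ frontier K, cross u0 (tang K p) = 0 → cross u0 (tang K (chord K v p)) ≠ 0) →
      cross u0 (tang K x) ≠ 0 → cross u0 (tang K (chord K v x)) ≠ 0 →
      ¬ (gw K u0 x * |cross v (tang K (chord K v x))| <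
        gw K u0 (chord K v x) * |cross v (tang K x)|)) :
    ∃ x1 x2 x3 : Plane, x1 ∈ frontier K ∧ x2 ∈ frontier K ∧ x3 ∈ frontier K ∧
      cross (x2 - x1) (x3 - x1) ≠ 0 ∧
      ∃ G12 G13 G23 : ℝ, 0 < G12 ∧ 0 < G13 ∧ 0 < G23 ∧ ∃ F : Set Plane, F.Finite ∧
        ∀ x ∈ frontier K, x ∉ F → conicQ x1 x2 x3 G12 G13 G23 x = 0 := by
  set Z : Set Plane := {x | x ∈ frontier K ∧ cross u0 (tang K x) = 0} with hZ
  have hZf : Z.Finite := tangency_finite hK hu
  set P : Set Plane := (fun r : Plane × Plane => r.2 - r.1) '' (Z ×ˢ Z) \ {0} with hPdef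
  have hPf : P.Finite := ((hZf.prod hZf).image _).subset Set.diff_subset
  let bad : Plane → Set Plane := fun x => {x} ∪ (fun w => chord K w x) '' P
  have hbadf : ∀ x, (bad x).Finite := fun x => (Set.finite_singleton x).union (hPf.image _)
  have hfsub := hK.clo.frontier_subset
  -- the infinite set of good points
  have hinf : (frontier K \ Z).Infinite := by
    obtain ⟨h0, h1, ρ, h01, hρ, -, -⟩ := exists_rho hK hu
    have hinj : Set.InjOn ρ (Set.Ioo h0 h1) := by
      intro s hs t ht hst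
      rw [← (hρ s hs).2.2, ← (hρ t ht).2.2, hst]
    refine ((Set.Ioo_infinite h01).image hinj).mono ?_
    rintro _ ⟨t, ht, rfl⟩
    exact ⟨(hρ t ht).1, fun hz => (hρ t ht).2.1.ne' hz.2⟩
  -- the symmetric relation
  have hrel : ∀ x ∈ frontier K, ∀ y ∈ frontier K, x ∉ Z → y ∉ Z → y ∉ bad x →
      y ≠ x ∧ cross ((gw K u0 x)⁻¹ • tang K x) (y - x) = cross ((gw K u0 y)⁻¹ • tang K y) (x - y) ∧
        0 < cross ((gw K u0 x)⁻¹ • tang K x) (y - x) := by
    intro x hx y hy hxZ hyZ hyb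
    have hx0 : cross u0 (tang K x) ≠ 0 := fun hh => hxZ ⟨hx, hh⟩
    have hy0 : cross u0 (tang K y) ≠ 0 := fun hh => hyZ ⟨hy, hh⟩
    have hne : y ≠ x := fun hh => hyb (Or.inl hh)
    have hP : ∀ p ∈ frontier K, ∀ q ∈ frontier K, cross u0 (tang K p) = 0 →
        cross u0 (tang K q) = 0 → p ≠ q → cross (q - p) (y - x) ≠ 0 := by
      intro p hp q hq hp0 hq0 hpq hcr
      have hw0 : q - p ≠ 0 := sub_ne_zero.2 hpq.symm
      refine hyb (Or.inr ⟨q - p, ⟨⟨(p, q), ⟨⟨hp, hp0⟩, hq, hq0⟩, rfl⟩, hw0⟩, ?_⟩)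
      exact l32_chord hK hx hy hne hw0 hcr
    have h1 := l32_eq hK hu h hx hy hne hx0 hy0 hP
    have hgx := l32_gw_pos hK hu hx hx0
    have hgy := l32_gw_pos hK hu hy hy0
    have htx := tang_pos hK hx (hfsub hy) hne
    have hty := tang_pos hK hy (hfsub hx) hne.symm
    have e1 : |cross (y - x) (tang K x)| = cross (tang K x) (y - x) := by
      rw [cross_comm, abs_neg, abs_of_pos htx]
    have e2 : |cross (y - x) (tang K y)| = cross (tang K y) (x - y) := by
      rw [← neg_sub x y, cross_neg_left, abs_neg, cross_comm, abs_neg, abs_of_pos hty]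
    rw [e1, e2] at h1
    refine ⟨hne, ?_, ?_⟩
    · rw [cross_smul_left, cross_smul_left, inv_mul_eq_iff_eq_mul₀ hgx.ne', ← mul_assoc,
        mul_comm (gw K u0 x), mul_assoc, h1, ← mul_assoc, inv_mul_cancel₀ hgy.ne', one_mul]
    · rw [cross_smul_left]
      exact mul_pos (inv_pos.2 hgx) htx
  -- the three points
  obtain ⟨x1, ⟨hx1, hx1Z⟩⟩ := hinf.nonempty
  obtain ⟨x2, ⟨hx2, hx2Z⟩, hx2b⟩ := (hinf.diff (hbadf x1)).nonempty
  obtain ⟨x3, ⟨hx3, hx3Z⟩, hx3b⟩ := (hinf.diff ((hbadf x1).union (hbadf x2))).nonempty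
  obtain ⟨n12, e12, p12⟩ := hrel x1 hx1 x2 hx2 hx1Z hx2Z hx2b
  obtain ⟨n13, e13, p13⟩ := hrel x1 hx1 x3 hx3 hx1Z hx3Z fun hh => hx3b (Or.inl hh)
  obtain ⟨n23, e23, p23⟩ := hrel x2 hx2 x3 hx3 hx2Z hx3Z fun hh => hx3b (Or.inr hh)
  have hD : cross (x2 - x1) (x3 - x1) ≠ 0 :=
    cross_ne_zero_of_distinct hK.clo hK.str hx1 hx2 hx3 n12.symm n13 n23
  refine ⟨x1, x2, x3, hx1, hx2, hx3, hD, _, _, _, p12, p13, p23,
    Z ∪ (bad x1 ∪ (bad x2 ∪ bad x3)),
    hZf.union ((hbadf x1).union ((hbadf x2).union (hbadf x3))), fun x hx hxF => ?_⟩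
  have hxZ : x ∉ Z := fun hh => hxF (Or.inl hh)
  have g1 := hrel x1 hx1 x hx hx1Z hxZ fun hh => hxF (Or.inr (Or.inl hh))
  have g2 := hrel x2 hx2 x hx hx2Z hxZ fun hh => hxF (Or.inr (Or.inr (Or.inl hh)))
  have g3 := hrel x3 hx3 x hx hx3Z hxZ fun hh => hxF (Or.inr (Or.inr (Or.inr hh)))
  exact conic_rel hD g1.2.1.symm g2.2.1.symm g3.2.1.symm e12 e13 e23

end ChordMaps
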