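import Pool.Agent.Helper3.LS.Defs2

set_option autoImplicit false

/-! # LS-33: a strictly convex body whose boundary lies on a conic is an ellipse

`q x = A x0^2 + B x0 x1 + C x1^2 + D x0 + E x1 + F`, `a e = A e0^2 + B e0 e1 + C e1^2`.  Let `c ∈ interior K`.  For
`e ≠ 0` the line `c + ℝ e` meets `frontier K` at parameters `s2 < 0 < s1` (`exists_last`, Basic.lean, for
`e` and `-e`; `c` is interior so both are nonzero), and `c + s e ∈ K ↔ s2 ≤ s ≤ s1` (convexity and maximality).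
`q (c + s e) = a e * s^2 + b * s + q c` vanishes at `s1, s2`.  If `q c = 0` it has three roots, so `a e = b = 0` and `q = 0` on the
line; for all `e`: `q = 0`, contradiction.  So `q c ≠ 0`, then `a e ≠ 0` and `a e * s1 * s2 = q c`, so `a e` has the sign of `- q c`.
WLOG (replace `q` by `-q`) `q c < 0 < a e` for all `e ≠ 0`, and `K = {x | q x ≤ 0}`.
`ellipse_of_posdef`: `a` positive definite: `A > 0`, `Δ = 4 A C - B^2 > 0` (test vectors).  There is a centre `m` with
`q x = a (x - m) - r^2`, `r > 0` (`m` solves the linear system `2 A m0 + B m1 = - D`, `B m0 + 2 C m1 = - E`; `r^2 = - q m > 0` because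
`q m ≤ q c < 0`), and `a y = (√A (y0 + B/(2A) y1))^2 + (√(Δ/(4A)) y1)^2 = ‖L y‖^2`, `L` an invertible linear map; so
`{q ≤ 0} = m + r L⁻¹ (closedBall 0 1)`.  (To build `A : Plane ≃L[ℝ] Plane` see `exists_equiv` in Chord/MainU.lean.)
-/

namespace ChordMaps

variable {K : Set Plane}

private lemma exists_equiv33 {a b : Plane} (h : cross a b ≠ 0) : ∃ A : Plane ≃L[ℝ] Plane,
    ∀ x : Plane, A x = x 0 • a + x 1 • b := by
  let f : Plane →ₗ[ℝ] Plane :=
    { toFun := fun x => x 0 • a + x 1 • b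
      map_add' := fun x y => by
        simp only [PiLp.add_apply, add_smul]; abel
      map_smul' := fun t x => by
        simp only [PiLp.smul_apply, smul_eq_mul, RingHom.id_apply, smul_add, smul_smul] }
  have hinj : LinearMap.ker f = ⊥ := by
    rw [LinearMap.ker_eq_bot']
    intro x hx
    change x 0 • a + x 1 • b = 0 at hx
    have h1 : cross a (x 0 • a + x 1 • b) = 0 := by rw [hx]; simp [cross]
    have h2 : cross (x 0 • a + x 1 • b) b = 0 := by rw [hx]; simp [cross]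
    rw [cross_add_right, cross_smul_right, cross_smul_right, cross_self] at h1
    rw [cross_add_left, cross_smul_left, cross_smul_left, cross_self] at h2
    have h3 : x 1 = 0 := by
      have : x 1 * cross a b = 0 := by linarith
      exact (mul_eq_zero.1 this).resolve_right h
    have h4 : x 0 = 0 := by
      have : x 0 * cross a b = 0 := by linarith
      exact (mul_eq_zero.1 this).resolve_right h
    ext i
    fin_cases i
    · exact h4
    · exact h3
  exact ⟨(LinearEquiv.ofInjectiveEndo f (LinearMap.ker_eq_bot.1 hinj)).toContinuousLinearEquiv,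
    fun x => rfl⟩

theorem ellipse_of_posdef (A B C D E F : ℝ) (hA : 0 < A) (hΔ : 0 < 4 * A * C - B ^ 2)
    (c : Plane)
    (hc : A * c 0 ^ 2 + B * (c 0 * c 1) + C * c 1 ^ 2 + D * c 0 + E * c 1 + F < 0) :
    IsEllipse {x : Plane | A * x 0 ^ 2 + B * (x 0 * x 1) + C * x 1 ^ 2 + D * x 0 + E * x 1 + F ≤ 0} := by
  have hΔ0 : 4 * A * C - B ^ 2 ≠ 0 := hΔ.ne'
  obtain ⟨m0, hm0⟩ : ∃ m0, m0 = (-2 * C * D + B * E) / (4 * A * C - B ^ 2) := ⟨_, rfl⟩
  obtain ⟨m1, hm1⟩ : ∃ m1, m1 = (B * D - 2 * A * E) / (4 * A * C - B ^ 2) := ⟨_, rfl⟩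
  have hm0' : (4 * A * C - B ^ 2) * m0 = -2 * C * D + B * E := by
    rw [hm0, mul_div_assoc', mul_div_cancel_left₀ _ hΔ0]
  have hm1' : (4 * A * C - B ^ 2) * m1 = B * D - 2 * A * E := by
    rw [hm1, mul_div_assoc', mul_div_cancel_left₀ _ hΔ0]
  have e1 : 2 * A * m0 + B * m1 = -D := by
    refine mul_left_cancel₀ hΔ0 ?_
    linear_combination 2 * A * hm0' + B * hm1'
  have e2 : B * m0 + 2 * C * m1 = -E := by
    refine mul_left_cancel₀ hΔ0 ?_
    linear_combination B * hm0' + 2 * C * hm1'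
  obtain ⟨R, hR⟩ : ∃ R, R = -(F + (D * m0 + E * m1) / 2) := ⟨_, rfl⟩
  -- completing the square
  have key : ∀ x0 x1 : ℝ, A * x0 ^ 2 + B * (x0 * x1) + C * x1 ^ 2 + D * x0 + E * x1 + F =
      A * (x0 - m0) ^ 2 + B * ((x0 - m0) * (x1 - m1)) + C * (x1 - m1) ^ 2 - R := by
    intro x0 x1
    rw [hR]
    linear_combination (x0 - m0 / 2) * e1 + (x1 - m1 / 2) * e2
  have hpos : ∀ y0 y1 : ℝ, 0 ≤ A * y0 ^ 2 + B * (y0 * y1) + C * y1 ^ 2 := by
    intro y0 y1
    have h1 : 0 ≤ 4 * A * (A * y0 ^ 2 + B * (y0 * y1) + C * y1 ^ 2) := by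
      have : 4 * A * (A * y0 ^ 2 + B * (y0 * y1) + C * y1 ^ 2) =
        (2 * A * y0 + B * y1) ^ 2 + (4 * A * C - B ^ 2) * y1 ^ 2 := by ring
      rw [this]
      positivity
    exact nonneg_of_mul_nonneg_right h1 (by positivity)
  have hRpos : 0 < R := by
    have h1 := key (c 0) (c 1)
    have h2 := hpos (c 0 - m0) (c 1 - m1)
    linarith
  set p0 : ℝ := Real.sqrt (R / A) with hp0
  set t : ℝ := Real.sqrt (R / (A * (4 * A * C - B ^ 2))) with ht
  have hp0sq : A * p0 ^ 2 = R := by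
    rw [hp0, Real.sq_sqrt (by positivity)]
    field_simp
  have htsq : A * (4 * A * C - B ^ 2) * t ^ 2 = R := by
    have hne : A * (4 * A * C - B ^ 2) ≠ 0 := (mul_pos hA hΔ).ne'
    rw [ht, Real.sq_sqrt (by positivity), mul_div_assoc', mul_div_cancel_left₀ _ hne]
  have hp0pos : 0 < p0 := Real.sqrt_pos.2 (by positivity)
  have htpos : 0 < t := Real.sqrt_pos.2 (by positivity)
  have hcr : cross (!₂[p0, 0] : Plane) (!₂[-(t * B), 2 * A * t] : Plane) ≠ 0 := by
    simp only [cross]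
    simp
    exact ⟨hp0pos.ne', hA.ne', htpos.ne'⟩
  obtain ⟨M, hM⟩ := exists_equiv33 hcr
  have hM0 : ∀ y : Plane, (M y) 0 = y 0 * p0 - y 1 * (t * B) := by
    intro y
    rw [hM y]
    simp
    ring
  have hM1 : ∀ y : Plane, (M y) 1 = y 1 * (2 * A * t) := by
    intro y
    rw [hM y]
    simp
  have hval : ∀ y : Plane, A * (M y) 0 ^ 2 + B * ((M y) 0 * (M y) 1) + C * (M y) 1 ^ 2 =
      R * (y 0 ^ 2 + y 1 ^ 2) := by
    intro y
    rw [hM0, hM1]
    linear_combination (y 0) ^ 2 * hp0sq + (y 1) ^ 2 * htsq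
  have hnorm : ∀ y : Plane, ‖y‖ ≤ 1 ↔ y 0 ^ 2 + y 1 ^ 2 ≤ 1 := by
    intro y
    have h1 : ‖y‖ ^ 2 = y 0 ^ 2 + y 1 ^ 2 := by
      rw [EuclideanSpace.norm_sq_eq, Fin.sum_univ_two]
      simp
    rw [← h1]
    constructor
    · intro h; nlinarith [norm_nonneg y]
    · intro h; nlinarith [norm_nonneg y]
  refine ⟨M, !₂[m0, m1], ?_⟩
  ext x
  constructor
  · intro hx
    change A * x 0 ^ 2 + B * (x 0 * x 1) + C * x 1 ^ 2 + D * x 0 + E * x 1 + F ≤ 0 at hx
    refine ⟨M.symm (x - !₂[m0, m1]), ?_, ?_⟩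
    · rw [mem_closedBall_zero_iff, hnorm]
      have h1 := hval (M.symm (x - !₂[m0, m1]))
      rw [ContinuousLinearEquiv.apply_symm_apply] at h1
      have h2 : (x - !₂[m0, m1]) 0 = x 0 - m0 := by simp
      have h3 : (x - !₂[m0, m1]) 1 = x 1 - m1 := by simp
      rw [h2, h3] at h1
      rw [key] at hx
      have h4 : R * ((M.symm (x - !₂[m0, m1])) 0 ^ 2 + (M.symm (x - !₂[m0, m1])) 1 ^ 2) ≤ R * 1 := by
        rw [← h1]; linarith
      exact le_of_mul_le_mul_left h4 hRpos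
    · simp only [ContinuousLinearEquiv.apply_symm_apply, sub_add_cancel]
  · rintro ⟨y, hy, rfl⟩
    rw [mem_closedBall_zero_iff, hnorm] at hy
    change A * (M y + !₂[m0, m1]) 0 ^ 2 + B * ((M y + !₂[m0, m1]) 0 * (M y + !₂[m0, m1]) 1) +
      C * (M y + !₂[m0, m1]) 1 ^ 2 + D * (M y + !₂[m0, m1]) 0 + E * (M y + !₂[m0, m1]) 1 + F ≤ 0
    have h2 : (M y + !₂[m0, m1]) 0 - m0 = (M y) 0 := by simp
    have h3 : (M y + !₂[m0, m1]) 1 - m1 = (M y) 1 := by simp
    rw [key, h2, h3, hval]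
    nlinarith

private lemma ellipse_core (hK : SBody K) (A B C D E F : ℝ) (c : Plane) (hci : c ∈ interior K)
    (hc : A * c 0 ^ 2 + B * (c 0 * c 1) + C * c 1 ^ 2 + D * c 0 + E * c 1 + F < 0)
    (h : ∀ x ∈ frontier K,
      A * x 0 ^ 2 + B * (x 0 * x 1) + C * x 1 ^ 2 + D * x 0 + E * x 1 + F = 0) :
    IsEllipse K := by
  have hcK : c ∈ K := interior_subset hci
  have hline : ∀ e : Plane, e ≠ 0 → ∃ t1 t2 b : ℝ, 0 < t1 ∧ 0 < t2 ∧ c + t1 • e ∈ K ∧
      (∀ s : ℝ, c + s • e ∈ K → s ≤ t1) ∧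
      (A * e 0 ^ 2 + B * (e 0 * e 1) + C * e 1 ^ 2) * (t1 * t2) =
        -(A * c 0 ^ 2 + B * (c 0 * c 1) + C * c 1 ^ 2 + D * c 0 + E * c 1 + F) ∧
      A * (c + e) 0 ^ 2 + B * ((c + e) 0 * (c + e) 1) + C * (c + e) 1 ^ 2 + D * (c + e) 0 +
        E * (c + e) 1 + F = (A * e 0 ^ 2 + B * (e 0 * e 1) + C * e 1 ^ 2) * ((1 - t1) * (1 + t2)) := by
    intro e he
    obtain ⟨t1, ht1, hf1, hl1⟩ := exists_last hK.cpt hcK he
    obtain ⟨t2, ht2, hf2, hl2⟩ := exists_last hK.cpt hcK (neg_ne_zero.2 he)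
    have hne1 : t1 ≠ 0 := by
      rintro rfl
      rw [zero_smul, add_zero] at hf1
      exact frontier_notMem_interior hf1 hci
    have hne2 : t2 ≠ 0 := by
      rintro rfl
      rw [zero_smul, add_zero] at hf2
      exact frontier_notMem_interior hf2 hci
    have hp1 : 0 < t1 := lt_of_le_of_ne ht1 hne1.symm
    have hp2 : 0 < t2 := lt_of_le_of_ne ht2 hne2.symm
    have q1 := h _ hf1
    have q2 := h _ hf2
    simp only [PiLp.add_apply, PiLp.smul_apply, PiLp.neg_apply, smul_eq_mul] at q1 q2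
    set a := A * e 0 ^ 2 + B * (e 0 * e 1) + C * e 1 ^ 2 with ha
    set b := 2 * A * c 0 * e 0 + B * (c 0 * e 1 + c 1 * e 0) + 2 * C * c 1 * e 1 + D * e 0 +
      E * e 1 with hb
    set qc := A * c 0 ^ 2 + B * (c 0 * c 1) + C * c 1 ^ 2 + D * c 0 + E * c 1 + F with hqc
    have r1 : a * t1 ^ 2 + b * t1 + qc = 0 := by rw [ha, hb, hqc]; linear_combination q1
    have r2 : a * t2 ^ 2 - b * t2 + qc = 0 := by rw [ha, hb, hqc]; linear_combination q2
    have r3 : a * (t1 * t2) = -qc := by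
      have : (t1 + t2) * (a * (t1 * t2) + qc) = 0 := by linear_combination t2 * r1 + t1 * r2
      rcases mul_eq_zero.1 this with h1 | h1
      · linarith
      · linarith
    have r4 : b = a * (t2 - t1) := by
      have : t1 * (b - a * (t2 - t1)) = 0 := by linear_combination r1 - r3
      rcases mul_eq_zero.1 this with h1 | h1
      · exact absurd h1 hne1
      · linarith
    refine ⟨t1, t2, b, hp1, hp2, hK.clo.frontier_subset hf1, hl1, r3, ?_⟩
    simp only [PiLp.add_apply]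
    have : A * (c 0 + e 0) ^ 2 + B * ((c 0 + e 0) * (c 1 + e 1)) + C * (c 1 + e 1) ^ 2 +
        D * (c 0 + e 0) + E * (c 1 + e 1) + F = a + b + qc := by rw [ha, hb, hqc]; ring
    rw [this]
    linear_combination r4 + r3
  have hapos : ∀ e : Plane, e ≠ 0 → 0 < A * e 0 ^ 2 + B * (e 0 * e 1) + C * e 1 ^ 2 := by
    intro e he
    obtain ⟨t1, t2, b, hp1, hp2, -, -, h3, -⟩ := hline e he
    by_contra hcon
    have : (A * e 0 ^ 2 + B * (e 0 * e 1) + C * e 1 ^ 2) * (t1 * t2) ≤ 0 :=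
      mul_nonpos_of_nonpos_of_nonneg (not_lt.1 hcon) (by positivity)
    linarith
  have hApos : 0 < A := by
    have h1 := hapos !₂[1, 0] (by
      intro h0
      have := congrArg (fun v : Plane => v 0) h0
      simp at this)
    simpa using h1
  have hΔ : 0 < 4 * A * C - B ^ 2 := by
    have h1 := hapos !₂[-B, 2 * A] (by
      intro h0
      have := congrArg (fun v : Plane => v 1) h0
      simp at this
      exact hApos.ne' this)
    have h2 : 0 < A * (4 * A * C - B ^ 2) := by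
      have h3 : (!₂[-B, 2 * A] : Plane) 0 = -B := by simp
      have h4 : (!₂[-B, 2 * A] : Plane) 1 = 2 * A := by simp
      rw [h3, h4] at h1
      linarith
    exact (mul_pos_iff_of_pos_left hApos).1 h2
  have hKeq : K = {x : Plane | A * x 0 ^ 2 + B * (x 0 * x 1) + C * x 1 ^ 2 + D * x 0 + E * x 1 +
      F ≤ 0} := by
    ext x
    by_cases hx : x = c
    · subst hx
      exact ⟨fun _ => hc.le, fun _ => hcK⟩
    have he : x - c ≠ 0 := sub_ne_zero.2 hx
    obtain ⟨t1, t2, b, hp1, hp2, hmem, hlast, h3, h4⟩ := hline (x - c) he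
    have ha := hapos (x - c) he
    rw [add_sub_cancel] at h4
    constructor
    · intro hxK
      have h5 : (1 : ℝ) ≤ t1 := hlast 1 (by rw [one_smul, add_sub_cancel]; exact hxK)
      change A * x 0 ^ 2 + B * (x 0 * x 1) + C * x 1 ^ 2 + D * x 0 + E * x 1 + F ≤ 0
      rw [h4]
      refine mul_nonpos_of_nonneg_of_nonpos ha.le (mul_nonpos_of_nonpos_of_nonneg ?_ ?_)
      · linarith
      · linarith
    · intro hq
      change A * x 0 ^ 2 + B * (x 0 * x 1) + C * x 1 ^ 2 + D * x 0 + E * x 1 + F ≤ 0 at hq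
      rw [h4] at hq
      have h5 : 1 ≤ t1 := by
        by_contra hcon
        push Not at hcon
        have : 0 < (A * (x - c) 0 ^ 2 + B * ((x - c) 0 * (x - c) 1) + C * (x - c) 1 ^ 2) *
          ((1 - t1) * (1 + t2)) := mul_pos ha (mul_pos (by linarith) (by linarith))
        linarith
      have h6 := hK.cvx hcK hmem (a := 1 - 1 / t1) (b := 1 / t1)
        (by rw [sub_nonneg, div_le_one hp1]; exact h5) (by positivity) (by ring)
      have h7 : (1 - 1 / t1) • c + (1 / t1) • (c + t1 • (x - c)) = x := by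
        rw [smul_add, smul_smul, one_div, inv_mul_cancel₀ hp1.ne', one_smul, sub_smul, one_smul]
        abel
      rwa [h7] at h6
  rw [hKeq]
  exact ellipse_of_posdef A B C D E F hApos hΔ c hc

theorem ellipse_of_quadratic (hK : SBody K) (A B C D E F : ℝ)
    (hne : ∃ x : Plane, A * x 0 ^ 2 + B * (x 0 * x 1) + C * x 1 ^ 2 + D * x 0 + E * x 1 + F ≠ 0)
    (h : ∀ x ∈ frontier K,
      A * x 0 ^ 2 + B * (x 0 * x 1) + C * x 1 ^ 2 + D * x 0 + E * x 1 + F = 0) :
    IsEllipse K := by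
  obtain ⟨c, hci⟩ := hK.int
  rcases lt_trichotomy (A * c 0 ^ 2 + B * (c 0 * c 1) + C * c 1 ^ 2 + D * c 0 + E * c 1 + F) 0
    with h1 | h1 | h1
  · exact ellipse_core hK A B C D E F c hci h1 h
  · exfalso
    obtain ⟨x, hx⟩ := hne
    apply hx
    by_cases hxc : x = c
    · rw [hxc, h1]
    have he : x - c ≠ 0 := sub_ne_zero.2 hxc
    have hcK : c ∈ K := interior_subset hci
    obtain ⟨t1, ht1, hf1, -⟩ := exists_last hK.cpt hcK he
    obtain ⟨t2, ht2, hf2, -⟩ := exists_last hK.cpt hcK (neg_ne_zero.2 he)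
    have hne1 : t1 ≠ 0 := by
      rintro rfl
      rw [zero_smul, add_zero] at hf1
      exact frontier_notMem_interior hf1 hci
    have hne2 : t2 ≠ 0 := by
      rintro rfl
      rw [zero_smul, add_zero] at hf2
      exact frontier_notMem_interior hf2 hci
    have hp1 : 0 < t1 := lt_of_le_of_ne ht1 hne1.symm
    have hp2 : 0 < t2 := lt_of_le_of_ne ht2 hne2.symm
    have q1 := h _ hf1
    have q2 := h _ hf2
    have hxe0 : x 0 = c 0 + (x - c) 0 := by simp
    have hxe1 : x 1 = c 1 + (x - c) 1 := by simp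
    rw [hxe0, hxe1]
    generalize x - c = e at q1 q2
    simp only [PiLp.add_apply, PiLp.smul_apply, PiLp.neg_apply, smul_eq_mul] at q1 q2
    have r1 : t1 * ((A * e 0 ^ 2 + B * (e 0 * e 1) + C * e 1 ^ 2) * t1 +
      (2 * A * c 0 * e 0 + B * (c 0 * e 1 + c 1 * e 0) + 2 * C * c 1 * e 1 + D * e 0 +
      E * e 1)) = 0 := by linear_combination q1 - h1
    have r2 : t2 * ((A * e 0 ^ 2 + B * (e 0 * e 1) + C * e 1 ^ 2) * t2 -
      (2 * A * c 0 * e 0 + B * (c 0 * e 1 + c 1 * e 0) + 2 * C * c 1 * e 1 + D * e 0 +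
      E * e 1)) = 0 := by linear_combination q2 - h1
    have r1' := (mul_eq_zero.1 r1).resolve_left hne1
    have r2' := (mul_eq_zero.1 r2).resolve_left hne2
    have r3 : A * e 0 ^ 2 + B * (e 0 * e 1) + C * e 1 ^ 2 = 0 := by
      have : (t1 + t2) * (A * e 0 ^ 2 + B * (e 0 * e 1) + C * e 1 ^ 2) = 0 := by
        linear_combination r1' + r2'
      rcases mul_eq_zero.1 this with h5 | h5
      · linarith
      · exact h5
    rw [r3] at r1'
    linear_combination r1' + r3 + h1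
  · have := ellipse_core hK (-A) (-B) (-C) (-D) (-E) (-F) c hci (by linarith)
      (fun x hx => by have := h x hx; linarith)
    exact this

end ChordMaps
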