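import Pool.Agent.Helper3.LS.L02
import Pool.Agent.Helper3.LS.L32
import Pool.Agent.Helper3.LS.L33

set_option autoImplicit false

/-! # LS-34: non-ellipses have an expanding point for a pushing direction

* `conicQ_quadratic`: expand `conicQ` as a polynomial in `x 0`, `x 1`: each `cross (xi - x) (xj - x) =
  cross xi xj - cross xi x - cross x xj` is affine in `x` (the `cross x x` term vanishes).
* `frontier_no_isolated`: for `x ∈ frontier K` the points `y n = chord K (wd e (1/(n+1))) (chord K e x)` (`e` any unit vector) are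
  `≠ x` (`chord_ne_chord`, `chord_chord`) and tend to `x` (`chord_tendsto`).  So `x ∈ closure (frontier K \ F)` for finite `F`.
* `exists_expanding`: by contradiction; `conic_of_rigid` (LS-32), extend the vanishing of the continuous function `conicQ` to
  all of `frontier K`, `ellipse_of_quadratic` (LS-33); `conicQ ≠ 0` somewhere: at the midpoint `m` of `x1, x2`,
  `cross (x1 - m) (x2 - m) = 0` and `cross (x2 - m) (x3 - m)`, `cross (x3 - m) (x1 - m)` are `D/2 ≠ 0`.
-/

namespace ChordMaps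

variable {K : Set Plane} {u0 : Plane}

private def IsQuad (f : Plane → ℝ) : Prop :=
  ∃ A B C D E F : ℝ, ∀ x : Plane, f x =
    A * x 0 ^ 2 + B * (x 0 * x 1) + C * x 1 ^ 2 + D * x 0 + E * x 1 + F

private lemma IsQuad.add {f g : Plane → ℝ} (hf : IsQuad f) (hg : IsQuad g) :
    IsQuad (fun x => f x + g x) := by
  obtain ⟨A, B, C, D, E, F, h⟩ := hf
  obtain ⟨A', B', C', D', E', F', h'⟩ := hg
  exact ⟨A + A', B + B', C + C', D + D', E + E', F + F', fun x => by
    simp only [h, h']; ring⟩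

private lemma isQuad_prod (G : ℝ) (a b c d : Plane) :
    IsQuad (fun x => G * (cross (a - x) (b - x) * cross (c - x) (d - x))) := by
  refine ⟨G * ((a 1 - b 1) * (c 1 - d 1)),
    G * ((a 1 - b 1) * (d 0 - c 0) + (b 0 - a 0) * (c 1 - d 1)),
    G * ((b 0 - a 0) * (d 0 - c 0)),
    G * (cross a b * (c 1 - d 1) + (a 1 - b 1) * cross c d),
    G * (cross a b * (d 0 - c 0) + (b 0 - a 0) * cross c d),
    G * (cross a b * cross c d), fun x => ?_⟩
  have h : ∀ p q : Plane, cross (p - x) (q - x) =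
      cross p q + (p 1 - q 1) * x 0 + (q 0 - p 0) * x 1 := by
    intro p q
    simp only [cross, PiLp.sub_apply]
    ring
  simp only [h]
  ring

theorem conicQ_quadratic (x1 x2 x3 : Plane) (G12 G13 G23 : ℝ) :
    ∃ A B C D E F : ℝ, ∀ x : Plane, conicQ x1 x2 x3 G12 G13 G23 x =
      A * x 0 ^ 2 + B * (x 0 * x 1) + C * x 1 ^ 2 + D * x 0 + E * x 1 + F :=
  ((isQuad_prod G12 x2 x3 x3 x1).add (isQuad_prod G13 x2 x3 x1 x2)).add
    (isQuad_prod G23 x3 x1 x1 x2)

open Topology Filter in
theorem frontier_no_isolated (hK : SBody K) {F : Set Plane} (hF : F.Finite) {x : Plane}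
    (hx : x ∈ frontier K) : x ∈ closure (frontier K \ F) := by
  set e : Plane := !₂[1, 0] with he
  have hen : ‖e‖ = 1 := by
    have : ‖e‖ ^ 2 = 1 := by
      rw [EuclideanSpace.norm_sq_eq, Fin.sum_univ_two]
      simp [he]
    exact (pow_eq_one_iff_of_nonneg (norm_nonneg e) (by norm_num)).1 this
  have he0 : e ≠ 0 := by
    intro h
    rw [h, norm_zero] at hen
    exact zero_ne_one hen
  have hc : chord K e x ∈ frontier K := chord_mem hx
  have hcc : chord K e (chord K e x) = x := chord_chord hK.clo hK.str hx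
  have hwd : Tendsto (fun n : ℕ => wd e (1 / ((n : ℝ) + 1))) atTop (𝓝 e) := by
    have h1 : Tendsto (fun n : ℕ => (1 / ((n : ℝ) + 1))) atTop (𝓝 0) :=
      tendsto_one_div_add_atTop_nhds_zero_nat
    have h2 : Tendsto (fun n : ℕ => e + (1 / ((n : ℝ) + 1)) • rot e) atTop
        (𝓝 (e + (0 : ℝ) • rot e)) := tendsto_const_nhds.add (h1.smul_const _)
    rw [zero_smul, add_zero] at h2
    exact h2
  have hlim := chord_tendsto hK he0 hwd (fun _ => hc) (tendsto_const_nhds (x := chord K e x))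
  rw [hcc] at hlim
  have hne : ∀ n : ℕ, chord K (wd e (1 / ((n : ℝ) + 1))) (chord K e x) ≠ x := by
    intro n h
    have h1 : cross (wd e (1 / ((n : ℝ) + 1))) e ≠ 0 := by
      have h2 := cross_wd hen (1 / ((n : ℝ) + 1)) 0
      rw [wd_zero] at h2
      rw [h2]
      have : (0 : ℝ) < 1 / ((n : ℝ) + 1) := by positivity
      intro h3
      linarith
    have h4 := chord_ne_chord hK.cpt hK.str hK.smo h1 hc
    rw [hcc] at h4
    exact h4 h
  have hopen : (F \ {x})ᶜ ∈ 𝓝 x := by
    refine (hF.subset Set.sdiff_subset).isClosed.isOpen_compl.mem_nhds ?_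
    simp
  have hev : ∀ᶠ n : ℕ in atTop, chord K (wd e (1 / ((n : ℝ) + 1))) (chord K e x) ∈
      frontier K \ F := by
    filter_upwards [hlim.eventually hopen] with n hn
    refine ⟨chord_mem hc, fun hnF => hn ⟨hnF, ?_⟩⟩
    exact hne n
  exact mem_closure_of_tendsto hlim hev

private lemma conicQ_mid (x1 x2 x3 : Plane) (G12 G13 G23 : ℝ) :
    conicQ x1 x2 x3 G12 G13 G23 ((1 / 2 : ℝ) • (x1 + x2)) =
      G12 * (cross (x2 - x1) (x3 - x1) / 2) ^ 2 := by
  simp only [conicQ, cross, PiLp.sub_apply, PiLp.smul_apply, PiLp.add_apply, smul_eq_mul]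
  ring

theorem exists_expanding (hK : SBody K) (hu : ‖u0‖ = 1) (hE : ¬ IsEllipse K) :
    ∃ v x : Plane, v ≠ 0 ∧ x ∈ frontier K ∧
      (∀ p ∈ frontier K, cross u0 (tang K p) = 0 → cross u0 (tang K (chord K v p)) ≠ 0) ∧
      cross u0 (tang K x) ≠ 0 ∧ cross u0 (tang K (chord K v x)) ≠ 0 ∧
      gw K u0 x * |cross v (tang K (chord K v x))| <
        gw K u0 (chord K v x) * |cross v (tang K x)| := by
  by_contra hcon
  obtain ⟨x1, x2, x3, -, -, -, hD, G12, G13, G23, h12, -, -, F, hF, hQ⟩ :=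
    conic_of_rigid hK hu (fun v x hv hx hp h1 h2 h3 => hcon ⟨v, x, hv, hx, hp, h1, h2, h3⟩)
  obtain ⟨A, B, C, D, E, F', h⟩ := conicQ_quadratic x1 x2 x3 G12 G13 G23
  have hcont : Continuous (conicQ x1 x2 x3 G12 G13 G23) := by
    have : conicQ x1 x2 x3 G12 G13 G23 = fun x : Plane =>
        A * x 0 ^ 2 + B * (x 0 * x 1) + C * x 1 ^ 2 + D * x 0 + E * x 1 + F' := funext h
    rw [this]
    fun_prop
  have hz : ∀ x ∈ frontier K, conicQ x1 x2 x3 G12 G13 G23 x = 0 := by
    intro x hx
    have hcl : IsClosed {y : Plane | conicQ x1 x2 x3 G12 G13 G23 y = 0} :=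
      isClosed_eq hcont continuous_const
    exact closure_minimal (fun y hy => hQ y hy.1 hy.2) hcl (frontier_no_isolated hK hF hx)
  refine hE (ellipse_of_quadratic hK A B C D E F' ⟨(1 / 2 : ℝ) • (x1 + x2), ?_⟩ fun x hx => ?_)
  · rw [← h, conicQ_mid]
    exact mul_ne_zero h12.ne' (pow_ne_zero 2 (div_ne_zero hD two_ne_zero))
  · rw [← h]
    exact hz x hx

end ChordMaps
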