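import Pool.Agent.Helper3.LS.L31
import Pool.Agent.Helper3.LS.L34

set_option autoImplicit false

/-! # LS-35: Theorems E (three directions) and B (dense sets of directions) for non-ellipses

* `theoremE`: first for unit `u0` (for general `u0 ≠ 0` rescale: `w` close to `u0` means `‖u0‖⁻¹ • w` close to `‖u0‖⁻¹ • u0`, and
  use `inv_smul`): `exists_expanding` gives `v, x`; `main_lemma` with `v1 = v2 = v`, `v1' = v2' = v'`; `wd_repr` for `w, w'`
  (`ε1 ≠ ε2` because `cross w w' ≠ 0`), `inv_smul`; `good_of_closed`.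
* `theoremB`: take `u0 = !₂[1, 0]` and `v, δ` from `theoremE`.  An `ε`-dense `S` (for every unit vector `u` there is
  `s ∈ S` with `s = c • u'`, `c ≠ 0`, `dist u' u < ε`) has elements with directions near
  `wd u0 0`, near `wd u0 (δ/4)` normalised, and near `v` normalised; for `ε` small the first two are not parallel.
-/

namespace ChordMaps

variable {K : Set Plane}

private lemma l35_smul {S S' : Set Plane}
    (h : ∀ s ∈ S, ∃ s' ∈ S', ∃ c : ℝ, s = c • s') (hg : GoodFor K S) : GoodFor K S' := by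
  intro V hV hne hinv
  apply hg V hV hne
  intro s hs x hx t hxt
  obtain ⟨s', hs', c, rfl⟩ := h s hs
  rw [smul_smul] at hxt ⊢
  exact hinv s' hs' x hx (t * c) hxt

private lemma l35_unit (hK : SBody K) (hE : ¬ IsEllipse K) {u0 : Plane} (hu : ‖u0‖ = 1) :
    ∃ v : Plane, v ≠ 0 ∧ ∃ δ > 0, ∀ w w' v' : Plane, dist w u0 < δ → dist w' u0 < δ →
      dist v' v < δ → cross w w' ≠ 0 → GoodFor K {w, w', v'} := by
  obtain ⟨v, x, hv, hx, hpush, hx1, hx2, hq⟩ := exists_expanding hK hu hE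
  obtain ⟨δ, hδ, H⟩ := main_lemma hK hu hv hv hpush hx hx1 hx2 hq
  obtain ⟨δ', hδ', Hw⟩ := wd_repr hu hδ
  refine ⟨v, hv, min δ δ', lt_min hδ hδ', fun w w' v' hw hw' hv' hc => ?_⟩
  obtain ⟨c, ε1, hc1, hε1, rfl⟩ := Hw w (hw.trans_le (min_le_right _ _))
  obtain ⟨c', ε2, hc2, hε2, rfl⟩ := Hw w' (hw'.trans_le (min_le_right _ _))
  apply good_of_closed hK
  intro M hM hne hcl hinv
  have h1 : Inv K M (wd u0 ε1) := (inv_smul hK hM hc1 _).1 (hinv _ (by simp))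
  have h2 : Inv K M (wd u0 ε2) := (inv_smul hK hM hc2 _).1 (hinv _ (by simp))
  have h3 : Inv K M v' := hinv _ (by simp)
  have hne12 : ε1 ≠ ε2 := by
    rintro rfl
    apply hc
    rw [cross_smul_left, cross_smul_right, cross_self]
    ring
  have hv'' := hv'.trans_le (min_le_left _ _)
  exact H ε1 ε2 v' v' hε1 hε2 hne12 hv'' hv'' M hM hne hcl h1 h2 h3 h3

theorem theoremE (hK : SBody K) (hE : ¬ IsEllipse K) {u0 : Plane} (hu : u0 ≠ 0) :
    ∃ v : Plane, v ≠ 0 ∧ ∃ δ > 0, ∀ w w' v' : Plane, dist w u0 < δ → dist w' u0 < δ →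
      dist v' v < δ → cross w w' ≠ 0 → GoodFor K {w, w', v'} := by
  have hr : 0 < ‖u0‖ := norm_pos_iff.2 hu
  have hr0 : ‖u0‖ ≠ 0 := hr.ne'
  have hu1 : ‖‖u0‖⁻¹ • u0‖ = 1 := by
    rw [norm_smul, norm_inv, norm_norm, inv_mul_cancel₀ hr0]
  obtain ⟨v, hv, δ, hδ, H⟩ := l35_unit hK hE hu1
  have key : ∀ w : Plane, dist w u0 < ‖u0‖ * δ → dist (‖u0‖⁻¹ • w) (‖u0‖⁻¹ • u0) < δ := by
    intro w hw
    rw [dist_smul₀, norm_inv, norm_norm, inv_mul_lt_iff₀ hr]
    exact hw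
  refine ⟨v, hv, min δ (‖u0‖ * δ), lt_min hδ (mul_pos hr hδ), fun w w' v' hw hw' hv' hc => ?_⟩
  have hg := H (‖u0‖⁻¹ • w) (‖u0‖⁻¹ • w') v' (key w (hw.trans_le (min_le_right _ _)))
    (key w' (hw'.trans_le (min_le_right _ _))) (hv'.trans_le (min_le_left _ _)) (by
      rw [cross_smul_left, cross_smul_right]
      exact mul_ne_zero (inv_ne_zero hr0) (mul_ne_zero (inv_ne_zero hr0) hc))
  apply l35_smul _ hg
  rintro s (rfl | rfl | rfl)
  · exact ⟨w, by simp, _, rfl⟩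
  · exact ⟨w', by simp, _, rfl⟩
  · exact ⟨s, by simp, 1, (one_smul _ _).symm⟩

theorem theoremB (hK : SBody K) (hE : ¬ IsEllipse K) :
    ∃ ε > 0, ∀ S : Set Plane,
      (∀ u : Plane, ‖u‖ = 1 → ∃ s ∈ S, ∃ c : ℝ, ∃ u', c ≠ 0 ∧ s = c • u' ∧ dist u' u < ε) →
      GoodFor K S := by
  obtain ⟨u0, hu⟩ : ∃ u0 : Plane, ‖u0‖ = 1 := exists_norm_eq Plane zero_le_one
  have hu00 : u0 ≠ 0 := by
    intro h
    rw [h, norm_zero] at hu
    exact zero_ne_one hu
  obtain ⟨v, hv, δ, hδ, H⟩ := theoremE hK hE hu00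
  have hvn : 0 < ‖v‖ := norm_pos_iff.2 hv
  have hδ4 : 0 < δ / 4 := by linarith
  set w := wd u0 (δ / 4) with hwdef
  have hw0 : w ≠ 0 := wd_ne_zero hu _
  have hwn : 0 < ‖w‖ := norm_pos_iff.2 hw0
  set q := ‖w‖⁻¹ • w with hqdef
  have hq1 : ‖q‖ = 1 := by
    rw [hqdef, norm_smul, norm_inv, norm_norm, inv_mul_cancel₀ hwn.ne']
  have hdw : dist w u0 = δ / 4 := by rw [hwdef, dist_wd hu, abs_of_pos hδ4]
  have hqw : dist q w ≤ δ / 4 := by
    have h1 : q - w = (‖w‖⁻¹ - 1) • w := by rw [hqdef, sub_smul, one_smul]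
    have h2 : |‖w‖⁻¹ - 1| * ‖w‖ = |1 - ‖w‖| := by
      rw [← abs_of_pos hwn, ← abs_mul, abs_of_pos hwn, sub_mul, inv_mul_cancel₀ hwn.ne', one_mul]
    rw [dist_eq_norm, h1, norm_smul, Real.norm_eq_abs, h2, ← hu, ← hdw, dist_comm, dist_eq_norm]
    exact abs_norm_sub_norm_le _ _
  have hqu : dist q u0 < δ := by
    have := dist_triangle q w u0
    linarith
  have hcr : cross u0 q ≠ 0 := by
    have h1 : cross u0 w = δ / 4 := by
      have := cross_wd hu 0 (δ / 4)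
      rw [wd_zero] at this
      rw [hwdef, this, sub_zero]
    rw [hqdef, cross_smul_right, h1]
    exact mul_ne_zero (inv_ne_zero hwn.ne') hδ4.ne'
  have hopen : IsOpen {z : Plane × Plane | cross z.1 z.2 ≠ 0 ∧ dist z.1 u0 < δ ∧ dist z.2 u0 < δ} := by
    have hc : Continuous fun z : Plane × Plane => cross z.1 z.2 := by
      unfold cross; fun_prop
    have h1 : IsOpen {z : Plane × Plane | dist z.1 u0 < δ} :=
      isOpen_lt (continuous_fst.dist continuous_const) continuous_const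
    have h2 : IsOpen {z : Plane × Plane | dist z.2 u0 < δ} :=
      isOpen_lt (continuous_snd.dist continuous_const) continuous_const
    have h3 : IsOpen {z : Plane × Plane | cross z.1 z.2 ≠ 0} := isOpen_ne_fun hc continuous_const
    exact h3.inter (h1.inter h2)
  obtain ⟨ε1, hε1, hb⟩ := Metric.isOpen_iff.1 hopen (u0, q)
    ⟨hcr, by simpa using hδ, hqu⟩
  refine ⟨min ε1 (δ / ‖v‖), lt_min hε1 (div_pos hδ hvn), fun S hS => ?_⟩
  obtain ⟨s1, hs1, c1, u1, hc1, rfl, hu1⟩ := hS u0 hu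
  obtain ⟨s2, hs2, c2, u2, hc2, rfl, hu2⟩ := hS q hq1
  obtain ⟨s3, hs3, c3, u3, hc3, rfl, hu3⟩ := hS (‖v‖⁻¹ • v) (by
    rw [norm_smul, norm_inv, norm_norm, inv_mul_cancel₀ hvn.ne'])
  have hm := hb (show ((u1, u2) : Plane × Plane) ∈ Metric.ball (u0, q) ε1 by
    rw [Metric.mem_ball, Prod.dist_eq]
    exact max_lt (hu1.trans_le (min_le_left _ _)) (hu2.trans_le (min_le_left _ _)))
  obtain ⟨hm1, hm2, hm3⟩ := hm
  have hv3 : dist (‖v‖ • u3) v < δ := by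
    have h1 : v = ‖v‖ • (‖v‖⁻¹ • v) := by
      rw [smul_smul, mul_inv_cancel₀ hvn.ne', one_smul]
    have h2 : dist (‖v‖ • u3) v = ‖v‖ * dist u3 (‖v‖⁻¹ • v) := by
      conv_lhs => rw [h1]
      rw [norm_smul, norm_smul, norm_inv, norm_norm, inv_mul_cancel₀ hvn.ne', mul_one, dist_smul₀,
        norm_norm]
    rw [h2]
    have h3 := hu3.trans_le (min_le_right _ _)
    rw [lt_div_iff₀ hvn] at h3
    linarith
  have hg := H u1 u2 (‖v‖ • u3) hm2 hm3 hv3 hm1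
  apply l35_smul _ hg
  rintro s (rfl | rfl | rfl)
  · exact ⟨c1 • s, hs1, c1⁻¹, by rw [smul_smul, inv_mul_cancel₀ hc1, one_smul]⟩
  · exact ⟨c2 • s, hs2, c2⁻¹, by rw [smul_smul, inv_mul_cancel₀ hc2, one_smul]⟩
  · exact ⟨c3 • u3, hs3, ‖v‖ * c3⁻¹, by
      rw [smul_smul, mul_assoc, inv_mul_cancel₀ hc3, mul_one]⟩

end ChordMaps
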